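import Pool.Agent.Work.MP_73831e_pr.J.Defs

/-! FIXED FILE: basic facts (all proved). -/

open Finset
open scoped Classical Nat

namespace Pool.Agent.Work.MP_73831e_pr.J

section Abstract

variable {P : Type} [Fintype P]

theorem wR_nonneg (N m : ℕ) : 0 ≤ wR N m := by unfold wR; positivity

theorem nuR_nonneg (N m : ℕ) : 0 ≤ nuR N m := by unfold nuR; positivity

theorem w_nonneg (E : Finset P) : 0 ≤ w E := wR_nonneg _ _

theorem nu_nonneg (E : Finset P) : 0 ≤ nu E := nuR_nonneg _ _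

theorem card_ordr : (univ : Finset (Ordr P)).card = (Fintype.card P)! := by
  rw [card_univ, Fintype.card_equiv (Fintype.equivFin P).symm, Fintype.card_fin]

theorem Pb_nonneg (A : Ordr P → Prop) : 0 ≤ Pb A := by unfold Pb; positivity

theorem Pb_le_one (A : Ordr P → Prop) : Pb A ≤ 1 := by
  unfold Pb
  rw [div_le_one (by positivity), ← card_ordr (P := P)]
  exact_mod_cast card_le_card (filter_subset _ _)

theorem Pb_mono {A B : Ordr P → Prop} (h : ∀ ω, A ω → B ω) : Pb A ≤ Pb B := by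
  unfold Pb
  apply div_le_div_of_nonneg_right _ (by positivity)
  have : univ.filter A ⊆ univ.filter B := fun ω hω => by
    simp only [mem_filter, mem_univ, true_and] at hω ⊢; exact h ω hω
  exact_mod_cast card_le_card this

theorem Pb_or (A B : Ordr P → Prop) : Pb (fun ω => A ω ∨ B ω) ≤ Pb A + Pb B := by
  unfold Pb
  rw [← add_div]
  apply div_le_div_of_nonneg_right _ (by positivity)
  have key : ∀ D : Ordr P → Prop, (∀ ω, D ω → A ω ∨ B ω) →
      (univ.filter D).card ≤ (univ.filter A).card + (univ.filter B).card := by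
    intro D hD
    refine (card_le_card (t := univ.filter A ∪ univ.filter B) ?_).trans (card_union_le _ _)
    intro ω hω
    simp only [mem_union, mem_filter, mem_univ, true_and] at hω ⊢
    exact hD ω hω
  exact_mod_cast key _ (fun _ h => h)

theorem Pb_le_add {A B D : Ordr P → Prop} (h : ∀ ω, A ω → B ω ∨ D ω) : Pb A ≤ Pb B + Pb D :=
  (Pb_mono h).trans (Pb_or B D)

theorem Fx_nonneg (B : Finset P → P → Prop) : 0 ≤ Fx B :=
  sum_nonneg fun E _ => sum_nonneg fun _ _ => w_nonneg E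

theorem Fx_mono {B D : Finset P → P → Prop} (h : ∀ E x, x ∉ E → B E x → D E x) : Fx B ≤ Fx D := by
  unfold Fx
  refine sum_le_sum fun E _ => sum_le_sum_of_subset_of_nonneg ?_ fun _ _ _ => w_nonneg E
  intro x hx
  simp only [mem_filter, mem_univ, true_and] at hx ⊢
  exact ⟨hx.1, h E x hx.1 hx.2⟩

theorem Fx_or (B D : Finset P → P → Prop) : Fx (fun E x => B E x ∨ D E x) ≤ Fx B + Fx D := by
  unfold Fx
  rw [← sum_add_distrib]
  refine sum_le_sum fun E _ => ?_
  rw [← sum_union_inter]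
  refine le_trans ?_ (le_add_of_nonneg_right (sum_nonneg fun _ _ => w_nonneg E))
  refine sum_le_sum_of_subset_of_nonneg ?_ fun _ _ _ => w_nonneg E
  intro x hx
  simp only [mem_union, mem_filter, mem_univ, true_and] at hx ⊢
  tauto

theorem Fx_split (B D : Finset P → P → Prop) :
    Fx B ≤ Fx (fun E x => B E x ∧ D E x) + Fx (fun E x => B E x ∧ ¬ D E x) :=
  (Fx_mono fun E x _ h => by tauto).trans (Fx_or _ _)

end Abstract

variable {n : ℕ}

theorem mem_Qx {x : Fin n} {e : Pr n} : e ∈ Qx x ↔ x ∈ e.1 := by simp [Qx]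

theorem FF.anti {k M : ℕ} {E E' : Finset (Pr n)} (h : E ⊆ E') (hF : FF k M E') : FF k M E :=
  ⟨hF.1.anti (gr_mono h), fun hU => hF.2 (hU.mono (gr_mono h))⟩

theorem Typ.anti {p : Par} {E E' : Finset (Pr n)} (h : E ⊆ E') (hT : Typ p E') : Typ p E :=
  ⟨hT.1.anti (gr_mono h), hT.2.1.anti (gr_mono h), hT.2.2.anti (gr_mono h)⟩

theorem Ex.symm {k M : ℕ} {E : Finset (Pr n)} {u v : Fin n} (h : Ex k M E u v) : Ex k M E v u := by
  obtain ⟨e, he, h1, h2⟩ := h
  exact ⟨e, by rw [he]; exact Sym2.eq_swap, h1, h2⟩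

theorem Ax.symm {k M : ℕ} {K : Finset (Pr n) → Prop} {E : Finset (Pr n)} {u v : Fin n}
    (h : Ax k M K E u v) : Ax k M K E v u := by
  obtain ⟨e, he, h1, h2⟩ := h
  exact ⟨e, by rw [he]; exact Sym2.eq_swap, h1, h2⟩

theorem Ex.ax {k M : ℕ} {K : Finset (Pr n) → Prop} {E : Finset (Pr n)} {u v : Fin n}
    (h : Ex k M E u v) : Ax k M K E u v := by
  obtain ⟨e, he, h1, h2⟩ := h
  exact ⟨e, he, h1, Or.inl h2⟩

theorem Ax.ne {k M : ℕ} {K : Finset (Pr n) → Prop} {E : Finset (Pr n)} {u v : Fin n}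
    (h : Ax k M K E u v) : u ≠ v := by
  obtain ⟨e, he, h1, h2⟩ := h
  rintro rfl
  exact e.2 (by rw [he]; exact Sym2.mk_isDiag_iff.mpr rfl)

/-- The pair `u v`. -/
theorem exists_pr {u v : Fin n} (h : u ≠ v) : ∃ e : Pr n, e.1 = s(u, v) :=
  ⟨⟨s(u, v), fun hd => h (Sym2.mk_isDiag_iff.mp hd)⟩, rfl⟩

theorem Phi_nonneg (k M : ℕ) (R : Finset (Pr n) → Fin n → Prop) : 0 ≤ Phi k M R :=
  sum_nonneg fun D _ => sum_nonneg fun _ _ => nu_nonneg D

theorem Phi_mono {k M : ℕ} {R S : Finset (Pr n) → Fin n → Prop}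
    (h : ∀ D x, fc k M D x → R D x → S D x) : Phi k M R ≤ Phi k M S := by
  unfold Phi
  refine sum_le_sum fun E _ => sum_le_sum_of_subset_of_nonneg ?_ fun _ _ _ => nu_nonneg E
  intro x hx
  simp only [mem_filter, mem_univ, true_and] at hx ⊢
  exact ⟨hx.1, h E x hx.1 hx.2⟩

theorem Phi_or (k M : ℕ) (R S : Finset (Pr n) → Fin n → Prop) :
    Phi k M (fun D x => R D x ∨ S D x) ≤ Phi k M R + Phi k M S := by
  unfold Phi
  rw [← sum_add_distrib]
  refine sum_le_sum fun E _ => ?_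
  rw [← sum_union_inter]
  refine le_trans ?_ (le_add_of_nonneg_right (sum_nonneg fun _ _ => nu_nonneg E))
  refine sum_le_sum_of_subset_of_nonneg ?_ fun _ _ _ => nu_nonneg E
  intro x hx
  simp only [mem_union, mem_filter, mem_univ, true_and] at hx ⊢
  tauto

theorem Phi_split {k M : ℕ} (R S : Finset (Pr n) → Fin n → Prop) :
    Phi k M R ≤ Phi k M (fun D x => R D x ∧ S D x) + Phi k M (fun D x => R D x ∧ ¬ S D x) :=
  (Phi_mono fun D x _ h => by tauto).trans (Phi_or k M _ _)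

/-! ### Degrees -/

theorem dg_eq (E : Finset (Pr n)) (y : Fin n) :
    dg E y = (univ.filter (fun v => (gr E).Adj y v)).card := by
  unfold dg
  symm
  apply card_bij (fun v hv => (⟨s(y, v), fun hd => by
      simp only [mem_filter, mem_univ, true_and] at hv
      exact hv.ne (Sym2.mk_isDiag_iff.mp hd)⟩ : Pr n))
  · intro v hv
    simp only [mem_filter, mem_univ, true_and] at hv
    rw [mem_inter, mem_Qx]
    exact ⟨(mem_iff_adj rfl).mpr hv, Sym2.mem_mk_left _ _⟩
  · intro u hu v hv h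
    have h1 := congrArg Subtype.val h
    simp only at h1
    rcases Sym2.eq_iff.mp h1 with ⟨_, h2⟩ | ⟨h2, h3⟩
    · exact h2
    · rw [h3, h2]
  · intro e he
    rw [mem_inter, mem_Qx] at he
    obtain ⟨v, hv⟩ := Sym2.mem_iff_exists.mp he.2
    refine ⟨v, ?_, Subtype.ext hv.symm⟩
    simp only [mem_filter, mem_univ, true_and]
    exact (mem_iff_adj hv).mp he.1

theorem dg_mono {E E' : Finset (Pr n)} (h : E ⊆ E') (y : Fin n) : dg E y ≤ dg E' y :=
  card_le_card (inter_subset_inter_right h)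

theorem gr_adj_sdiff {E : Finset (Pr n)} {x u v : Fin n} :
    (gr (E \ Qx x)).Adj u v ↔ (gr E).Adj u v ∧ u ≠ x ∧ v ≠ x := by
  rw [gr_adj', gr_adj']
  constructor
  · rintro ⟨e, he, h⟩
    rw [mem_sdiff, mem_Qx, h, Sym2.mem_iff] at he
    push Not at he
    exact ⟨⟨e, he.1, h⟩, he.2.1.symm, he.2.2.symm⟩
  · rintro ⟨⟨e, he, h⟩, h1, h2⟩
    refine ⟨e, ?_, h⟩
    rw [mem_sdiff, mem_Qx, h, Sym2.mem_iff]
    push Not
    exact ⟨he, h1.symm, h2.symm⟩

theorem gr_adj_insert {E : Finset (Pr n)} {e : Pr n} {u v : Fin n} :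
    (gr (insert e E)).Adj u v ↔ (gr E).Adj u v ∨ e.1 = s(u, v) := by
  rw [gr_adj', gr_adj']
  constructor
  · rintro ⟨x, hx, h⟩
    rcases mem_insert.mp hx with rfl | hx
    · exact Or.inr h
    · exact Or.inl ⟨x, hx, h⟩
  · rintro (⟨x, hx, h⟩ | h)
    · exact ⟨x, mem_insert_of_mem hx, h⟩
    · exact ⟨e, mem_insert_self _ _, h⟩

theorem gr_adj_union {E X : Finset (Pr n)} {u v : Fin n} :
    (gr (E ∪ X)).Adj u v ↔ (gr E).Adj u v ∨ (gr X).Adj u v := by
  rw [gr_adj', gr_adj', gr_adj']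
  constructor
  · rintro ⟨x, hx, h⟩
    rcases mem_union.mp hx with hx | hx
    · exact Or.inl ⟨x, hx, h⟩
    · exact Or.inr ⟨x, hx, h⟩
  · rintro (⟨x, hx, h⟩ | ⟨x, hx, h⟩)
    · exact ⟨x, mem_union_left _ hx, h⟩
    · exact ⟨x, mem_union_right _ hx, h⟩

/-- A fully critical vertex has an edge. -/
theorem fc.exists_mem {k M : ℕ} {D : Finset (Pr n)} {x : Fin n} (h : fc k M D x) :
    ∃ e ∈ D, x ∈ e.1 := by
  by_contra hcon
  push Not at hcon
  apply h.1
  have : D \ Qx x = D := by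
    rw [Finset.sdiff_eq_self_iff_disjoint, disjoint_right]
    intro e he hx
    exact hcon e hx (mem_Qx.mp he)
  rw [← this]
  exact h.2.1

/-- If `D` minus an edge at `x` is good then `D` minus all edges at `x` is typical, not in `K`,
small and in `F`. -/
theorem gd.base {k M r κ : ℕ} {p : Par} {K : Finset (Pr n) → Prop} (hK : KF k M r κ K)
    {D : Finset (Pr n)} {x : Fin n} (hf : fc k M D x) (hg : gd p K D x) :
    FF k M (D \ Qx x) ∧ Typ p (D \ Qx x) ∧ ¬ K (D \ Qx x) ∧ (D \ Qx x).card < p.C * n := by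
  obtain ⟨e, he, hx⟩ := hf.exists_mem
  obtain ⟨h1, h2, h3, h4⟩ := hg e he hx
  have hsub : D \ Qx x ⊆ D.erase e := by
    intro a ha
    rw [mem_sdiff, mem_Qx] at ha
    rw [mem_erase]
    exact ⟨fun h => ha.2 (h ▸ hx), ha.1⟩
  refine ⟨hf.2.1, h1.anti hsub, fun h => h2 (hK.up _ _ h hsub (hf.2.2 e he hx)), ?_⟩
  exact lt_of_le_of_lt (card_le_card hsub) h3

/-! ### More on degrees -/

theorem gr_adj_mono {E E' : Finset (Pr n)} (h : E ⊆ E') {u v : Fin n} (ha : (gr E).Adj u v) :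
    (gr E').Adj u v := gr_mono h ha

theorem RR.anti {s Δ h : ℕ} {D D' : Finset (Pr n)} {x : Fin n} (h1 : D' ⊆ D)
    (h2 : D' \ Qx x = D \ Qx x) (hR : RR s Δ h D x) : RR s Δ h D' x := by
  refine ⟨(dg_mono h1 x).trans hR.1, le_trans (card_le_card ?_) hR.2⟩
  intro y hy
  simp only [mem_filter, mem_univ, true_and] at hy ⊢
  exact ⟨gr_adj_mono h1 hy.1, h2 ▸ hy.2⟩

theorem dg_le_sdiff {D : Finset (Pr n)} {x y : Fin n} (h : x ≠ y) :
    dg D y ≤ dg (D \ Qx x) y + 1 := by
  obtain ⟨e, he⟩ := exists_pr h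
  have : D ∩ Qx y ⊆ insert e ((D \ Qx x) ∩ Qx y) := by
    intro a ha
    rw [mem_inter, mem_Qx] at ha
    rw [mem_insert, mem_inter, mem_sdiff, mem_Qx, mem_Qx]
    by_cases hx : x ∈ a.1
    · left
      apply Subtype.ext
      rw [he]
      exact (Sym2.mem_and_mem_iff h).mp ⟨hx, ha.2⟩
    · right
      exact ⟨⟨ha.1, hx⟩, ha.2⟩
  exact (card_le_card this).trans (card_insert_le _ _)

theorem card_eq_sdiff_add_dg (D : Finset (Pr n)) (x : Fin n) :
    D.card = (D \ Qx x).card + dg D x := by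
  unfold dg
  rw [← card_sdiff_add_card_inter D (Qx x)]

theorem card_Qx (x : Fin n) : (Qx x).card = n - 1 := by
  have h := dg_eq (univ : Finset (Pr n)) x
  unfold dg at h
  rw [univ_inter] at h
  rw [h]
  have : (univ.filter (fun v => (gr (univ : Finset (Pr n))).Adj x v)) = univ.erase x := by
    ext v
    simp only [mem_filter, mem_univ, true_and, mem_erase, and_true]
    constructor
    · intro h; exact h.ne'
    · intro h
      obtain ⟨e, he⟩ := exists_pr (Ne.symm h)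
      exact (mem_iff_adj he).mp (mem_univ _)
  rw [this, card_erase_of_mem (mem_univ _), card_univ, Fintype.card_fin]

theorem alive_succ {V : Type} {k : ℕ} {G : SimpleGraph V} (h : Alive k G) : Alive (k + 1) G := by
  obtain ⟨f, hf⟩ := h
  exact ⟨fun v => (f v).castSucc, fun u v huv he => hf u v huv (Fin.castSucc_injective k he)⟩

/-! ### Clusters -/

theorem Cls.of_finite {k r κ : ℕ} {G : SimpleGraph (Fin n)} {ι : Type} [Fintype ι] [Nonempty ι]
    (h : Fintype.card ι ≤ r) (W : ι → Finset (Fin n)) (g : ι → Fin n → Fin k)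
    (hL : ∀ i, LC κ (W i) (g i)) (hc : ∀ f, PC k G f → ∃ i, Inn (W i) (g i) f) : Cls k r κ G := by
  let e := Fintype.equivFin ι
  let F : Fin r → ι := fun i => if hi : (i : ℕ) < Fintype.card ι then e.symm ⟨i, hi⟩ else
    Classical.arbitrary ι
  refine ⟨fun i => W (F i), fun i => g (F i), fun i => hL _, fun f hf => ?_⟩
  obtain ⟨j, hj⟩ := hc f hf
  refine ⟨⟨e j, lt_of_lt_of_le (e j).2 h⟩, ?_⟩
  have : F ⟨e j, lt_of_lt_of_le (e j).2 h⟩ = j := by
    simp only [F]
    rw [dif_pos (e j).2]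
    simp
  simp only [this]
  exact hj

theorem Cls.anti {k r κ : ℕ} {G G' : SimpleGraph (Fin n)} (h : G ≤ G') (hG : Cls k r κ G) :
    Cls k r κ G' := by
  obtain ⟨W, g, hL, hc⟩ := hG
  exact ⟨W, g, hL, fun f hf => hc f (hf.anti h)⟩

theorem Cls.le {k r r' κ : ℕ} {G : SimpleGraph (Fin n)} (h0 : 1 ≤ r) (h : r ≤ r')
    (hG : Cls k r κ G) : Cls k r' κ G := by
  obtain ⟨W, g, hL, hc⟩ := hG
  have : Nonempty (Fin r) := ⟨⟨0, h0⟩⟩
  exact Cls.of_finite (by rw [Fintype.card_fin]; exact h) W g hL hc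

theorem KF.le {k M r r' κ : ℕ} {K : Finset (Pr n) → Prop} (h0 : 1 ≤ r) (h : r ≤ r')
    (hK : KF k M r' κ K) : KF k M r κ K :=
  ⟨hK.sub, hK.up, fun E hE hc => hK.cls E hE (hc.le h0 h)⟩

theorem lc_exists {k κ n : ℕ} (hk : 1 ≤ k) (hκ : 2 * k ≤ κ) (hn : k ≤ n) :
    ∃ (W : Finset (Fin n)) (g : Fin n → Fin k), LC κ W g := by
  refine ⟨univ, fun v => ⟨v % k, Nat.mod_lt _ hk⟩, fun c => ?_⟩
  have h1 : n / k ≤ ((univ : Finset (Fin n)).filter
      (fun v : Fin n => (⟨v % k, Nat.mod_lt _ hk⟩ : Fin k) = c)).card := by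
    have : (univ : Finset (Fin (n / k))).card ≤ ((univ : Finset (Fin n)).filter
      (fun v : Fin n => (⟨v % k, Nat.mod_lt _ hk⟩ : Fin k) = c)).card := by
      apply card_le_card_of_injOn (fun i : Fin (n / k) => (⟨i * k + c, by
        have h2 := i.2
        have h3 := c.2
        have h4 : ((i : ℕ) + 1) * k ≤ (n / k) * k := Nat.mul_le_mul_right _ h2
        have h5 := Nat.div_mul_le_self n k
        nlinarith⟩ : Fin n))
      · intro i _
        simp only [coe_filter, mem_univ, true_and, Set.mem_ofPred_eq]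
        apply Fin.ext
        simp only
        rw [Nat.add_comm, Nat.add_mul_mod_self_right, Nat.mod_eq_of_lt c.2]
      · intro i _ j _ h
        have h1 := congrArg Fin.val h
        simp only at h1
        apply Fin.ext
        have h2 : (i : ℕ) * k = j * k := by omega
        exact Nat.eq_of_mul_eq_mul_right hk h2
    simpa using this
  have h2 : n ≤ 2 * k * (n / k) := by
    have h3 := Nat.div_add_mod n k
    have h4 := Nat.mod_lt n (show 0 < k by omega)
    have h5 : 1 ≤ n / k := (Nat.one_le_div_iff (by omega)).mpr hn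
    nlinarith
  calc n ≤ 2 * k * (n / k) := h2
    _ ≤ κ * (n / k) := Nat.mul_le_mul_right _ hκ
    _ ≤ _ := Nat.mul_le_mul_left _ (by convert h1)

end Pool.Agent.Work.MP_73831e_pr.J
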