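import Pool.Agent.Work.MP_73831e_pr.J.Bas

/-!
MODULE Box (M).  Dense `r`-partite hypergraphs contain many boxes.

Induction on `r`.  `n = |V|`, `t = |T|`.  `r = 0`: both sides are `1` or `0` (`H` of the empty
function true or false).
Step: for `v ∈ V`, `H_v = {z : Fin r → V : H (cons v z)}`.  For `x : T → V` let
`H_x = {z : H (cons (x j) z) for all j ∈ T}` and `β_x = |H_x|/n^r`.
(a) `∑_{x : T → V} |H_x| = ∑_z d_z^t` with `d_z = #{v : H (cons v z)}`, and by the power mean
    inequality (`inner_le_nnorm_mul_nnorm`-type or `Finset.pow_sum_div_card_le_sum_pow` /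
    `inv_mul_le...`: Mathlib `inner...`; use `Real.pow_arith_mean_le_arith_mean_pow` or
    `pow_sum_div_card_le_sum_pow`), `∑_z d_z^t ≥ n^r (∑_z d_z / n^r)^t = n^r (β n)^t` where
    `∑_z d_z = |H| = β n^(r+1)`.  So the average of `β_x` over the `n^t` functions `x` is `≥ β^t`.
(b) the boxes of `H` are the pairs (`x`, box of `H_x`), so by the induction hypothesis their number is
    `≥ ∑_x β_x^(t^r) n^(r t) ≥ n^t (β^t)^(t^r) n^(rt)` (power mean again).
-/

open Finset
open scoped Classical Nat

namespace Pool.Agent.Work.MP_73831e_pr.J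

private theorem filt_inst {α : Type} (s : Finset α) (p : α → Prop) (i1 i2 : DecidablePred p) :
    (@Finset.filter α p i1 s).card = (@Finset.filter α p i2 s).card := by
  rw [Subsingleton.elim i1 i2]

private theorem boxes_pm {ι : Type} (s : Finset ι) (hs : s.Nonempty) (f : ι → ℝ)
    (hf : ∀ i ∈ s, 0 ≤ f i) (m : ℕ) :
    (s.card : ℝ) * ((∑ i ∈ s, f i) / s.card) ^ m ≤ ∑ i ∈ s, f i ^ m := by
  have hc : (0 : ℝ) < s.card := by exact_mod_cast card_pos.mpr hs
  cases m with
  | zero => simp
  | succ m =>
    refine le_trans (le_of_eq ?_) (pow_sum_div_card_le_sum_pow hf m)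
    rw [div_pow]
    field_simp
    ring

private theorem boxes_split {W : Type} [Fintype W] (r : ℕ) (P : (Fin (r + 1) → W) → Prop)
    [DecidablePred P] :
    (univ.filter P).card = ∑ x : W, (univ.filter (fun z : Fin r → W =>
      P (Fin.cons (α := fun _ => W) x z))).card := by
  rw [card_filter]
  rw [← Equiv.sum_comp (Fin.consEquiv (fun _ : Fin (r + 1) => W))]
  rw [Fintype.sum_prod_type]
  refine sum_congr rfl fun x _ => ?_
  rw [card_filter]
  rfl

private theorem boxes_step {V T : Type} [Fintype V] [Fintype T] (r : ℕ)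
    (H : (Fin (r + 1) → V) → Prop) :
    (univ.filter (fun Y : Fin (r + 1) → T → V =>
      ∀ c : Fin (r + 1) → T, H (fun i => Y i (c i)))).card =
    ∑ x : T → V, (univ.filter (fun Y : Fin r → T → V => ∀ c : Fin r → T,
      (fun z : Fin r → V => ∀ j, H (Fin.cons (α := fun _ => V) (x j) z))
        (fun i => Y i (c i)))).card := by
  rw [boxes_split]
  refine sum_congr rfl fun x _ => ?_
  congr 1
  refine filter_congr fun Y _ => ?_
  constructor
  · intro h c j
    have := h (Fin.cons (α := fun _ => T) j c)
    convert this using 1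
    ext i
    refine Fin.cases ?_ (fun i => ?_) i <;> simp
  · intro h c
    have := h (fun i => c i.succ) (c 0)
    convert this using 1
    ext i
    refine Fin.cases ?_ (fun i => ?_) i <;> simp

private theorem boxes_avg {V T : Type} [Fintype V] [Nonempty V] [Fintype T] (r : ℕ)
    (H : (Fin (r + 1) → V) → Prop) :
    (Fintype.card V : ℝ) ^ r * (((univ.filter H).card : ℝ) / (Fintype.card V : ℝ) ^ r) ^
        (Fintype.card T) ≤
      ∑ x : T → V, ((univ.filter (fun z : Fin r → V =>
        ∀ j, H (Fin.cons (α := fun _ => V) (x j) z))).card : ℝ) := by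
  have e1 : ∑ x : T → V, ((univ.filter (fun z : Fin r → V =>
        ∀ j, H (Fin.cons (α := fun _ => V) (x j) z))).card : ℝ) =
      ∑ z : Fin r → V, ((univ.filter (fun v : V => H (Fin.cons (α := fun _ => V) v z))).card : ℝ) ^
        Fintype.card T := by
    have k1 : ∑ x : T → V, ((univ.filter (fun z : Fin r → V =>
        ∀ j, H (Fin.cons (α := fun _ => V) (x j) z))).card : ℝ) =
        ∑ z : Fin r → V, ((univ.filter (fun x : T → V =>
        ∀ j, H (Fin.cons (α := fun _ => V) (x j) z))).card : ℝ) := by
      simp only [card_filter]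
      push_cast
      rw [sum_comm]
    rw [k1]
    refine sum_congr rfl fun z _ => ?_
    have k2 : univ.filter (fun x : T → V => ∀ j, H (Fin.cons (α := fun _ => V) (x j) z)) =
        Fintype.piFinset (fun _ : T => univ.filter (fun v : V =>
          H (Fin.cons (α := fun _ => V) v z))) := by
      ext x
      simp [Fintype.mem_piFinset]
    rw [k2, Fintype.card_piFinset, prod_const, card_univ]
    push_cast
    rfl
  rw [e1]
  have e2 : ((univ.filter H).card : ℝ) = ∑ z : Fin r → V,
      ((univ.filter (fun v : V => H (Fin.cons (α := fun _ => V) v z))).card : ℝ) := by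
    rw [boxes_split]
    simp only [card_filter]
    push_cast
    rw [sum_comm]
  have h := boxes_pm (univ : Finset (Fin r → V)) univ_nonempty
    (fun z => ((univ.filter (fun v : V => H (Fin.cons (α := fun _ => V) v z))).card : ℝ))
    (fun z _ => by positivity) (Fintype.card T)
  have e3 : ((univ : Finset (Fin r → V)).card : ℝ) = (Fintype.card V : ℝ) ^ r := by
    rw [card_univ, Fintype.card_fun, Fintype.card_fin]
    push_cast
    rfl
  rw [e3, ← e2] at h
  exact h

theorem boxes {V T : Type} [Fintype V] [Nonempty V] [Fintype T] (r : ℕ)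
    (H : (Fin r → V) → Prop) :
    (((univ.filter H).card : ℝ) / (Fintype.card V : ℝ) ^ r) ^ (Fintype.card T ^ r) *
        (Fintype.card V : ℝ) ^ (r * Fintype.card T) ≤
      ((univ.filter (fun Y : Fin r → T → V => ∀ c : Fin r → T, H (fun i => Y i (c i)))).card : ℝ) := by
  have hV : (0 : ℝ) < Fintype.card V := by exact_mod_cast Fintype.card_pos
  induction r with
  | zero =>
    simp only [pow_zero, div_one, pow_one, zero_mul, mul_one]
    have : (univ.filter H).card = (univ.filter (fun Y : Fin 0 → T → V =>
        ∀ c : Fin 0 → T, H (fun i => Y i (c i)))).card := by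
      apply Finset.card_bij (fun _ _ => fun i => i.elim0)
      · intro z hz
        simp only [mem_filter, mem_univ, true_and] at hz ⊢
        intro c
        have e : z = (fun i : Fin 0 => (fun i : Fin 0 => i.elim0 : Fin 0 → T → V) i (c i)) :=
          funext fun i => i.elim0
        exact e ▸ hz
      · intro a _ b _ _
        exact Subsingleton.elim _ _
      · intro Y hY
        simp only [mem_filter, mem_univ, true_and] at hY
        refine ⟨fun i => i.elim0, ?_, Subsingleton.elim _ _⟩
        simp only [mem_filter, mem_univ, true_and]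
        have h0 := hY (fun i => i.elim0)
        have e : (fun i : Fin 0 => Y i ((fun i : Fin 0 => i.elim0 : Fin 0 → T) i)) =
            (fun i : Fin 0 => i.elim0 : Fin 0 → V) := funext fun i => i.elim0
        exact e ▸ h0
    rw [this]
  | succ r ih =>
    rw [boxes_step]
    push_cast
    obtain ⟨n, hn⟩ : ∃ n : ℝ, n = (Fintype.card V : ℝ) := ⟨_, rfl⟩
    obtain ⟨t, ht⟩ : ∃ t : ℕ, t = Fintype.card T := ⟨_, rfl⟩
    obtain ⟨g, hg⟩ : ∃ g : (T → V) → ℝ, ∀ x, g x = ((univ.filter (fun z : Fin r → V =>
        ∀ j, H (Fin.cons (α := fun _ => V) (x j) z))).card : ℝ) / (Fintype.card V : ℝ) ^ r :=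
      ⟨fun x => ((univ.filter (fun z : Fin r → V =>
        ∀ j, H (Fin.cons (α := fun _ => V) (x j) z))).card : ℝ) / (Fintype.card V : ℝ) ^ r,
        fun _ => rfl⟩
    have hg0 : ∀ x, 0 ≤ g x := fun x => by rw [hg]; positivity
    have h1 : ∑ x : T → V, (g x) ^ (t ^ r) * n ^ (r * t) ≤
        ∑ x : T → V, ((univ.filter (fun Y : Fin r → T → V => ∀ c : Fin r → T,
      (fun z : Fin r → V => ∀ j, H (Fin.cons (α := fun _ => V) (x j) z))
        (fun i => Y i (c i)))).card : ℝ) := by
      refine sum_le_sum fun x _ => ?_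
      rw [hg, hn, ht]
      refine le_trans (le_of_eq ?_)
        ((ih (fun z : Fin r → V => ∀ j, H (Fin.cons (α := fun _ => V) (x j) z))).trans
        (le_of_eq ?_))
      · rw [filt_inst]
      · rw [filt_inst]
    refine le_trans ?_ h1
    rw [← sum_mul]
    have h2 := boxes_pm (univ : Finset (T → V)) univ_nonempty g (fun x _ => hg0 x) (t ^ r)
    have e3 : ((univ : Finset (T → V)).card : ℝ) = n ^ t := by
      rw [card_univ, Fintype.card_fun, hn, ht]
      push_cast
      rfl
    rw [e3] at h2
    have h3 := boxes_avg (V := V) (T := T) r H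
    have h4 : (Fintype.card V : ℝ) ^ r * ∑ x : T → V, g x = ∑ x : T → V,
        ((univ.filter (fun z : Fin r → V =>
          ∀ j, H (Fin.cons (α := fun _ => V) (x j) z))).card : ℝ) := by
      rw [mul_sum]
      refine sum_congr rfl fun x _ => ?_
      rw [hg]
      field_simp
    rw [← h4, ← hn, ← ht] at h3
    rw [← hn] at hV
    have h5 : (((univ.filter H).card : ℝ) / n ^ r) ^ t ≤ ∑ x : T → V, g x :=
      le_of_mul_le_mul_left h3 (by positivity)
    have h6 : (((univ.filter H).card : ℝ) / n ^ (r + 1)) ^ t ≤ (∑ x : T → V, g x) / n ^ t := by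
      rw [le_div_iff₀ (by positivity), ← mul_pow]
      refine le_trans (le_of_eq ?_) h5
      congr 1
      rw [pow_succ]
      field_simp
    have h7 : (((univ.filter H).card : ℝ) / n ^ (r + 1)) ^ (t ^ (r + 1)) ≤
        ((∑ x : T → V, g x) / n ^ t) ^ (t ^ r) := by
      have := pow_le_pow_left₀ (by positivity) h6 (t ^ r)
      rw [← pow_mul, ← pow_succ'] at this
      exact this
    rw [← hn, ← ht]
    calc (((univ.filter H).card : ℝ) / n ^ (r + 1)) ^ (t ^ (r + 1)) * n ^ ((r + 1) * t)
        ≤ ((∑ x : T → V, g x) / n ^ t) ^ (t ^ r) * n ^ ((r + 1) * t) :=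
          mul_le_mul_of_nonneg_right h7 (by positivity)
      _ = (n ^ t * ((∑ x : T → V, g x) / n ^ t) ^ (t ^ r)) * n ^ (r * t) := by
          rw [Nat.add_mul, one_mul, pow_add]; ring
      _ ≤ _ := mul_le_mul_of_nonneg_right h2 (by positivity)

end Pool.Agent.Work.MP_73831e_pr.J
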