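import Pool.Agent.Work.MP_73831e_pr.J.Bas

/-!
MODULE Cnt (M-L).  Counting exit tuples (pure combinatorics).

`n = |V|`, `a(v) = 1 + #{u : A v u}` (or with `A u v`: `A` is symmetric, `hs`), so
`∑_v a(v) = #{(u,v) : A u v} + n =: Σ`.
(1) For `z` with `T z` choose a coordinate `i` with `a(z i)` minimal; by symmetry (`hperm` with
    the transposition of `i` and the last coordinate) the number of `z` with `T z` and minimal
    coordinate `i` is at most `B = #{z : T z, a(z last) ≤ a(z j) for all j}`.  So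
    `#{z : T z} ≤ (m+1) B`.
(2) Write `z = snoc y u` (`y = Fin.init z`, `u = z last`).  For fixed `y` the set
    `U_y = {u : T (snoc y u), a(u) ≤ a(y j) for all j}` has at most `a(y j)` elements, for every
    `j`: if it contains some `u` then by `hA` all its elements are `u` or `A`-neighbours of `u`, so
    `|U_y| ≤ a(u) ≤ a(y j)`; and `U_y = ∅` unless `S y`.  So `B ≤ ∑_{y : S y} min_j a(y j)`.
(3) `X_j = {v : #{y : S y, y j = v} > ε n^(m-1)}`; `|X_j| ε n^(m-1) ≤ #{y : S y} ≤ β n^m`, so
    `|X_j| ≤ (β/ε) n`.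
    The `y` with `S y` and `y j ∉ X_j` for some `j` contribute at most
    `∑_j ∑_{v ∉ X_j} a(v) #{y : S y, y j = v} ≤ ∑_j ε n^(m-1) Σ = m ε n^(m-1) Σ`.
    The other `y` with `S y` have `y 1 ∈ X_1` (`m ≥ 2`, coordinates `0 ≠ 1`) and contribute at most
    `∑_{y : y 1 ∈ X_1} a(y 0) = Σ |X_1| n^(m-2) ≤ (β/ε) n^(m-1) Σ`.
-/

open Finset
open scoped Classical Nat

namespace Pool.Agent.Work.MP_73831e_pr.J

section

variable {V : Type} [Fintype V]

private noncomputable def aa (A : V → V → Prop) (v : V) : ℕ :=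
  1 + (univ.filter (fun u => A v u)).card

private theorem sum_aa (A : V → V → Prop) :
    ∑ v : V, (aa A v : ℝ) =
      ((univ.filter (fun z : V × V => A z.1 z.2)).card : ℝ) + Fintype.card V := by
  have h1 : (univ.filter (fun z : V × V => A z.1 z.2)).card =
      ∑ v : V, (univ.filter (fun u => A v u)).card := by
    rw [card_filter, Fintype.sum_prod_type]
    exact sum_congr rfl fun v _ => by rw [card_filter]
  rw [h1]
  unfold aa
  push_cast
  rw [sum_add_distrib]
  simp only [sum_const, card_univ, nsmul_eq_mul, mul_one]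
  ring

private theorem step1 (m : ℕ) (a : V → ℕ) (T : (Fin (m + 1) → V) → Prop)
    (hperm : ∀ (σ : Equiv.Perm (Fin (m + 1))) (z : Fin (m + 1) → V), T z → T (z ∘ σ)) :
    (univ.filter T).card ≤
      (m + 1) * (univ.filter (fun z : Fin (m + 1) → V => T z ∧ ∀ j, a (z (Fin.last m)) ≤ a (z j))).card := by
  have hsub : univ.filter T ⊆ (univ : Finset (Fin (m + 1))).biUnion
      (fun i => univ.filter (fun z : Fin (m + 1) → V => T z ∧ ∀ j, a (z i) ≤ a (z j))) := by
    intro z hz
    rw [mem_filter] at hz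
    obtain ⟨i, -, hi⟩ := exists_min_image (univ : Finset (Fin (m + 1))) (fun i => a (z i))
      univ_nonempty
    rw [mem_biUnion]
    exact ⟨i, mem_univ _, by
      rw [mem_filter]
      exact ⟨mem_univ _, hz.2, fun j => hi j (mem_univ _)⟩⟩
  refine (card_le_card hsub).trans (card_biUnion_le.trans ?_)
  have hi : ∀ i : Fin (m + 1),
      (univ.filter (fun z : Fin (m + 1) → V => T z ∧ ∀ j, a (z i) ≤ a (z j))).card ≤
      (univ.filter (fun z : Fin (m + 1) → V => T z ∧ ∀ j, a (z (Fin.last m)) ≤ a (z j))).card := by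
    intro i
    refine card_le_card_of_injOn (fun z => z ∘ (Equiv.swap i (Fin.last m))) ?_ ?_
    · intro z hz
      simp only [coe_filter, mem_univ, true_and, Set.mem_ofPred_eq] at hz ⊢
      refine ⟨hperm _ _ hz.1, fun j => ?_⟩
      simp only [Function.comp_apply, Equiv.swap_apply_right]
      exact hz.2 _
    · intro z _ z' _ h
      funext j
      have := congrFun h (Equiv.swap i (Fin.last m) j)
      simpa [Function.comp_apply, Equiv.swap_apply_self] using this
  refine (sum_le_sum fun i _ => hi i).trans ?_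
  simp [sum_const, card_univ, Fintype.card_fin]

private theorem step2 (m : ℕ) (A : V → V → Prop) (T : (Fin (m + 1) → V) → Prop)
    (hA : ∀ (y : Fin m → V) (u v : V), T (Fin.snoc (α := fun _ => V) y u) →
      T (Fin.snoc (α := fun _ => V) y v) → u ≠ v → A u v) (y : Fin m → V) (j : Fin m) :
    ((univ.filter (fun z : Fin (m + 1) → V =>
      T z ∧ ∀ j, aa A (z (Fin.last m)) ≤ aa A (z j))).filter
        (fun z => (Fin.init (α := fun _ => V) z) = y)).card ≤ aa A (y j) := by
  set U := (univ.filter (fun z : Fin (m + 1) → V =>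
      T z ∧ ∀ j, aa A (z (Fin.last m)) ≤ aa A (z j))).filter
        (fun z => (Fin.init (α := fun _ => V) z) = y) with hU
  rcases U.eq_empty_or_nonempty with h0 | ⟨z₀, hz₀⟩
  · rw [h0, card_empty]; exact Nat.zero_le _
  · have hmem : ∀ z ∈ U, T (Fin.snoc (α := fun _ => V) y (z (Fin.last m))) ∧
        (∀ j, aa A (z (Fin.last m)) ≤ aa A (z j)) ∧
        z = Fin.snoc (α := fun _ => V) y (z (Fin.last m)) := by
      intro z hz
      rw [hU, mem_filter, mem_filter] at hz
      have e : Fin.snoc (α := fun _ => V) y (z (Fin.last m)) = z := by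
        rw [← hz.2]; exact Fin.snoc_init_self z
      exact ⟨by rw [e]; exact hz.1.2.1, hz.1.2.2, e.symm⟩
    have h1 : U.card ≤ (insert (z₀ (Fin.last m))
        (univ.filter (fun u => A (z₀ (Fin.last m)) u))).card := by
      refine card_le_card_of_injOn (fun z => z (Fin.last m)) ?_ ?_
      · intro z hz
        rw [mem_coe] at hz
        rw [mem_coe, mem_insert, mem_filter]
        by_cases h : z (Fin.last m) = z₀ (Fin.last m)
        · exact Or.inl h
        · exact Or.inr ⟨mem_univ _, hA y _ _ (hmem z₀ hz₀).1 (hmem z hz).1 (Ne.symm h)⟩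
      · intro z hz z' hz' h
        rw [mem_coe] at hz hz'
        simp only at h
        rw [(hmem z hz).2.2, (hmem z' hz').2.2, h]
    have h2 : (insert (z₀ (Fin.last m))
        (univ.filter (fun u => A (z₀ (Fin.last m)) u))).card ≤ aa A (z₀ (Fin.last m)) := by
      unfold aa
      rw [add_comm]
      exact card_insert_le _ _
    have h3 : aa A (z₀ (Fin.last m)) ≤ aa A (y j) := by
      have := (hmem z₀ hz₀).2.1 j.castSucc
      have e : z₀ j.castSucc = y j := by
        rw [(hmem z₀ hz₀).2.2]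
        exact Fin.snoc_castSucc (α := fun _ => V) _ _ _
      rwa [e] at this
    exact h1.trans (h2.trans h3)

private theorem prodsum (k : ℕ) (a : V → ℝ) (X : Finset V) :
    ∑ y : Fin (k + 2) → V, a (y 0) * (if y 1 ∈ X then 1 else 0) =
      (∑ v, a v) * X.card * (Fintype.card V : ℝ) ^ k := by
  have h := Finset.prod_univ_sum (R := ℝ) (fun _ : Fin (k + 2) => (univ : Finset V))
    (fun i v => if i = 0 then a v else if i = 1 then (if v ∈ X then 1 else 0) else 1)
  rw [Fintype.piFinset_univ] at h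
  rw [Fin.prod_univ_succ, Fin.prod_univ_succ] at h
  have e1 : ∀ i : Fin k, (∑ v : V, (if (i.succ.succ : Fin (k + 2)) = 0 then a v else
      if (i.succ.succ : Fin (k + 2)) = 1 then (if v ∈ X then (1 : ℝ) else 0) else 1)) =
      Fintype.card V := by
    intro i
    have h0 : (i.succ.succ : Fin (k + 2)) ≠ 0 := Fin.succ_ne_zero _
    have h1 : (i.succ.succ : Fin (k + 2)) ≠ 1 := by
      intro h
      have := congrArg Fin.val h
      simp at this
    simp only [h0, h1, if_false, sum_const, card_univ, nsmul_eq_mul, mul_one]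
  rw [prod_congr rfl (fun i _ => e1 i), prod_const, card_univ, Fintype.card_fin] at h
  have h01 : ((0 : Fin (k + 1)).succ : Fin (k + 2)) = 1 := rfl
  have h10 : (1 : Fin (k + 2)) ≠ 0 := by
    intro h
    have := congrArg Fin.val h
    simp at this
  rw [h01] at h
  simp only [if_true, h10, if_false] at h
  rw [show (∑ v : V, if v ∈ X then (1 : ℝ) else 0) = X.card by
    rw [sum_boole]; congr 2; ext v; simp] at h
  rw [mul_assoc, h]
  refine sum_congr rfl fun y _ => ?_
  rw [Fin.prod_univ_succ, Fin.prod_univ_succ, h01]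
  simp only [if_true, h10, if_false]
  have e2 : ∀ i : Fin k, (if (i.succ.succ : Fin (k + 2)) = 0 then a (y i.succ.succ) else
      if (i.succ.succ : Fin (k + 2)) = 1 then (if y i.succ.succ ∈ X then (1 : ℝ) else 0) else 1) =
      1 := by
    intro i
    have h0 : (i.succ.succ : Fin (k + 2)) ≠ 0 := Fin.succ_ne_zero _
    have h1 : (i.succ.succ : Fin (k + 2)) ≠ 1 := by
      intro h
      have := congrArg Fin.val h
      simp at this
    simp only [h0, h1, if_false]
  rw [prod_congr rfl (fun i _ => e2 i), prod_const_one, mul_one]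

private theorem step3 (k : ℕ) (A : V → V → Prop) (S : (Fin (k + 2) → V) → Prop)
    [Nonempty V] (β ε : ℝ) (hβ : 0 ≤ β) (hε : 0 < ε)
    (hc : ((univ.filter S).card : ℝ) ≤ β * (Fintype.card V : ℝ) ^ (k + 2))
    (u : (Fin (k + 2) → V) → ℝ) (hu0 : ∀ y, 0 ≤ u y)
    (hu : ∀ y j, u y ≤ aa A (y j)) :
    ∑ y ∈ univ.filter S, u y ≤ ((k + 2 : ℕ) * ε + β / ε) * (Fintype.card V : ℝ) ^ (k + 1) *
      ∑ v, (aa A v : ℝ) := by
  set n : ℝ := (Fintype.card V : ℝ) with hn
  have hnpos : 0 < n := by
    rw [hn]; exact_mod_cast Fintype.card_pos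
  set Nj : Fin (k + 2) → V → ℝ := fun j v =>
    ((univ.filter (fun y : Fin (k + 2) → V => S y ∧ y j = v)).card : ℝ) with hNj
  set X : Fin (k + 2) → Finset V := fun j => univ.filter (fun v => ε * n ^ (k + 1) < Nj j v)
    with hX
  -- size of X
  have hXc : ∀ j, ((X j).card : ℝ) ≤ β / ε * n := by
    intro j
    have h1 : ((X j).card : ℝ) * (ε * n ^ (k + 1)) ≤ ∑ v ∈ X j, Nj j v := by
      rw [← nsmul_eq_mul]
      refine card_nsmul_le_sum _ _ _ fun v hv => ?_
      rw [hX] at hv
      simp only [mem_filter, mem_univ, true_and] at hv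
      exact hv.le
    have h2 : ∑ v ∈ X j, Nj j v ≤ ∑ v, Nj j v :=
      sum_le_sum_of_subset_of_nonneg (subset_univ _) fun _ _ _ => Nat.cast_nonneg _
    have h3 : ∑ v, Nj j v = ((univ.filter S).card : ℝ) := by
      rw [hNj]
      simp only
      rw [← Nat.cast_sum]
      congr 1
      rw [card_eq_sum_card_fiberwise (f := fun y : Fin (k + 2) → V => y j)
        (t := (univ : Finset V)) (fun _ _ => mem_univ _)]
      refine sum_congr rfl fun v _ => ?_
      rw [filter_filter]
    have h4 : ((X j).card : ℝ) * (ε * n ^ (k + 1)) ≤ (β / ε * n) * (ε * n ^ (k + 1)) := by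
      calc ((X j).card : ℝ) * (ε * n ^ (k + 1)) ≤ β * n ^ (k + 2) := by
            rw [h3] at h2; exact h1.trans (h2.trans hc)
        _ = (β / ε * n) * (ε * n ^ (k + 1)) := by
            field_simp; ring
    exact le_of_mul_le_mul_right h4 (by positivity)
  -- split
  have hsplit : ∑ y ∈ univ.filter S, u y ≤
      ∑ j : Fin (k + 2), ∑ y ∈ univ.filter (fun y => S y ∧ y j ∉ X j), (aa A (y j) : ℝ) +
      ∑ y : Fin (k + 2) → V, (aa A (y 0) : ℝ) * (if y 1 ∈ X 1 then 1 else 0) := by
    have hterm : ∀ y ∈ univ.filter S, u y ≤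
        ∑ j : Fin (k + 2), (if y j ∉ X j then (aa A (y j) : ℝ) else 0) +
        (aa A (y 0) : ℝ) * (if y 1 ∈ X 1 then 1 else 0) := by
      intro y _
      by_cases h : ∃ j, y j ∉ X j
      · obtain ⟨j, hj⟩ := h
        have h1 : (aa A (y j) : ℝ) ≤
            ∑ j : Fin (k + 2), (if y j ∉ X j then (aa A (y j) : ℝ) else 0) := by
          have := single_le_sum (f := fun j : Fin (k + 2) =>
            (if y j ∉ X j then (aa A (y j) : ℝ) else 0)) (s := univ)
            (fun i _ => by split_ifs <;> positivity) (mem_univ j)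
          simp only [hj, not_false_eq_true, if_true] at this
          exact this
        have h2 : 0 ≤ (aa A (y 0) : ℝ) * (if y 1 ∈ X 1 then 1 else 0) := by
          split_ifs <;> positivity
        linarith [hu y j]
      · push Not at h
        have h1 : 0 ≤ ∑ j : Fin (k + 2), (if y j ∉ X j then (aa A (y j) : ℝ) else 0) :=
          sum_nonneg fun i _ => by split_ifs <;> positivity
        rw [if_pos (h 1), mul_one]
        linarith [hu y 0]
    refine (sum_le_sum hterm).trans ?_
    rw [sum_add_distrib]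
    refine add_le_add ?_ ?_
    · rw [sum_comm]
      refine sum_le_sum fun j _ => ?_
      rw [← sum_filter, filter_filter]
    · refine sum_le_sum_of_subset_of_nonneg (filter_subset _ _) fun y _ _ => ?_
      split_ifs <;> positivity
  have hfirst : ∀ j : Fin (k + 2), ∑ y ∈ univ.filter (fun y => S y ∧ y j ∉ X j),
      (aa A (y j) : ℝ) ≤ ε * n ^ (k + 1) * ∑ v, (aa A v : ℝ) := by
    intro j
    have h1 : ∑ y ∈ univ.filter (fun y => S y ∧ y j ∉ X j), (aa A (y j) : ℝ) =
        ∑ v : V, ∑ y ∈ (univ.filter (fun y => S y ∧ y j ∉ X j)).filter (fun y => y j = v),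
          (aa A (y j) : ℝ) :=
      (sum_fiberwise _ _ _).symm
    rw [h1, mul_sum]
    refine sum_le_sum fun v _ => ?_
    by_cases hv : v ∈ X j
    · rw [filter_filter, filter_false_of_mem, sum_empty]
      · positivity
      · intro y _ hy
        exact hy.1.2 (hy.2 ▸ hv)
    · have h2 : ∑ y ∈ (univ.filter (fun y => S y ∧ y j ∉ X j)).filter (fun y => y j = v),
          (aa A (y j) : ℝ) = Nj j v * aa A v := by
        rw [sum_congr rfl (g := fun _ => (aa A v : ℝ))
          (fun y hy => by rw [(mem_filter.mp hy).2]), sum_const, nsmul_eq_mul]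
        congr 2
        rw [filter_filter]
        congr 1
        ext y
        simp only [mem_filter, mem_univ, true_and]
        constructor
        · rintro ⟨⟨h, _⟩, h'⟩; exact ⟨h, h'⟩
        · rintro ⟨h, h'⟩; exact ⟨⟨h, by rw [h']; exact hv⟩, h'⟩
      rw [h2]
      refine mul_le_mul_of_nonneg_right ?_ (Nat.cast_nonneg _)
      rw [hX] at hv
      simp only [mem_filter, mem_univ, true_and, not_lt] at hv
      exact hv
  have hsecond : ∑ y : Fin (k + 2) → V, (aa A (y 0) : ℝ) * (if y 1 ∈ X 1 then 1 else 0) ≤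
      β / ε * n ^ (k + 1) * ∑ v, (aa A v : ℝ) := by
    have h1 := prodsum k (fun v => (aa A v : ℝ)) (X 1)
    rw [h1]
    have hs : 0 ≤ ∑ v, (aa A v : ℝ) := sum_nonneg fun _ _ => Nat.cast_nonneg _
    calc (∑ v, (aa A v : ℝ)) * ((X 1).card : ℝ) * n ^ k
        ≤ (∑ v, (aa A v : ℝ)) * (β / ε * n) * n ^ k := by
          refine mul_le_mul_of_nonneg_right ?_ (by positivity)
          exact mul_le_mul_of_nonneg_left (hXc 1) hs
      _ = β / ε * n ^ (k + 1) * ∑ v, (aa A v : ℝ) := by ring
  have hf := sum_le_sum (s := (univ : Finset (Fin (k + 2)))) (fun j _ => hfirst j)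
  rw [sum_const, card_univ, Fintype.card_fin, nsmul_eq_mul] at hf
  calc ∑ y ∈ univ.filter S, u y ≤ _ := hsplit
    _ ≤ ((k + 2 : ℕ) : ℝ) * (ε * n ^ (k + 1) * ∑ v, (aa A v : ℝ)) +
        β / ε * n ^ (k + 1) * ∑ v, (aa A v : ℝ) := add_le_add hf hsecond
    _ = _ := by ring

end

theorem tuple_count {V : Type} [Fintype V] [Nonempty V] (m : ℕ) (hm : 2 ≤ m)
    (A : V → V → Prop) (hs : ∀ u v, A u v → A v u) (T : (Fin (m + 1) → V) → Prop)
    (hperm : ∀ (σ : Equiv.Perm (Fin (m + 1))) (z : Fin (m + 1) → V), T z → T (z ∘ σ))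
    (hA : ∀ (y : Fin m → V) (u v : V), T (Fin.snoc (α := fun _ => V) y u) →
      T (Fin.snoc (α := fun _ => V) y v) → u ≠ v → A u v)
    (S : (Fin m → V) → Prop)
    (hS : ∀ (y : Fin m → V) (u : V), T (Fin.snoc (α := fun _ => V) y u) → S y)
    (β ε : ℝ) (hβ : 0 ≤ β) (hε : 0 < ε)
    (hc : ((univ.filter S).card : ℝ) ≤ β * (Fintype.card V : ℝ) ^ m) :
    ((univ.filter T).card : ℝ) ≤ (m + 1) * (m * ε + β / ε) * (Fintype.card V : ℝ) ^ (m - 1) *
      ((univ.filter (fun z : V × V => A z.1 z.2)).card + Fintype.card V) := by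
  obtain ⟨k, rfl⟩ : ∃ k, m = k + 2 := ⟨m - 2, by omega⟩
  set BB := univ.filter (fun z : Fin (k + 2 + 1) → V =>
    T z ∧ ∀ j, aa A (z (Fin.last (k + 2))) ≤ aa A (z j)) with hBB
  have h1 : (univ.filter T).card ≤ (k + 2 + 1) * BB.card := step1 (k + 2) (aa A) T hperm
  have h2 : (BB.card : ℝ) = ∑ y ∈ univ.filter S,
      ((BB.filter (fun z => (Fin.init (α := fun _ => V) z) = y)).card : ℝ) := by
    rw [← Nat.cast_sum]
    congr 1
    refine card_eq_sum_card_fiberwise (f := fun z => Fin.init (α := fun _ => V) z) ?_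
    intro z hz
    rw [hBB] at hz
    simp only [coe_filter, mem_univ, true_and, Set.mem_ofPred_eq] at hz ⊢
    refine hS _ (z (Fin.last (k + 2))) ?_
    rw [Fin.snoc_init_self z]
    exact hz.1
  have h3 := step3 k A S β ε hβ hε hc
    (fun y => ((BB.filter (fun z => (Fin.init (α := fun _ => V) z) = y)).card : ℝ))
    (fun y => Nat.cast_nonneg _)
    (fun y j => by
      have := step2 (k + 2) A T hA y j
      exact_mod_cast this)
  rw [← h2, sum_aa] at h3
  have h4 : ((univ.filter T).card : ℝ) ≤ ((k + 2 : ℕ) + 1) * (BB.card : ℝ) := by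
    exact_mod_cast h1
  have e : k + 2 - 1 = k + 1 := by omega
  rw [e]
  calc ((univ.filter T).card : ℝ) ≤ ((k + 2 : ℕ) + 1) * (BB.card : ℝ) := h4
    _ ≤ ((k + 2 : ℕ) + 1) * (((k + 2 : ℕ) * ε + β / ε) * (Fintype.card V : ℝ) ^ (k + 1) *
      (((univ.filter (fun z : V × V => A z.1 z.2)).card : ℝ) + Fintype.card V)) :=
        mul_le_mul_of_nonneg_left h3 (by positivity)
    _ = _ := by ring

end Pool.Agent.Work.MP_73831e_pr.J
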