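import Pool.Agent.Work.MP_73831e_pr.J.Bas

/-!
MODULE KCls (M).  Clusters give kills; blocking lemma.

* `bl_of_const`: if for all `a`, `i`: `f (q a i) = c i` with `c : Fin m → Fin k` injective and
  `k ≤ m + 2` then `Bl f q`: an injective `h : Fin 3 → Fin k` cannot avoid the `m` values of `c`
  (its `3` values would lie in a set of size `k - m ≤ 2`), so `h a = c i` for some `a`, `i`.
* `cls_kill`: `m = k - 2`.  Take the clusters `(W_j, g_j)`, `j < r`.  Let `q` be any function with
  `q (j,a,i) ∈ W_j` and `g_j (q (j,a,i)) = i` (`i < k-2` seen as a colour, `Fin.castLE`).  If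
  `f` is a proper colouring, `Inn (W_j) (g_j) f`, then `f (q (j,a,i)) = π i`, so `Bl` holds for `j` by
  `bl_of_const`.  Thus `q ∈ KSet`.  The number of such `q` is the product of the class sizes
  (`Fintype.card_piFinset`, `Fintype.piFinset`), each `≥ n/κ`; so `θ = (1/κ)^(r * (3 * (k-2)))`.
-/

open Finset
open scoped Classical Nat

namespace Pool.Agent.Work.MP_73831e_pr.J

private theorem mem_KSet' {ι : Type} [Fintype ι] {n k : ℕ} {G : SimpleGraph (Fin n)}
    {q : ι × Fin 3 × Fin (k - 2) → Fin n} :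
    q ∈ KSet ι k G ↔ ∀ f, PC k G f → ∃ j, Bl f (fun a i => q (j, a, i)) := by
  simp [KSet]

theorem bl_of_const {n k m : ℕ} (hkm : k ≤ m + 2) {f : Fin n → Fin k} {q : Fin 3 → Fin m → Fin n}
    (c : Fin m → Fin k) (hc : Function.Injective c) (h : ∀ a i, f (q a i) = c i) : Bl f q := by
  intro h' hinj
  by_contra hcon
  push Not at hcon
  have h1 : (univ.image h' : Finset (Fin k)) ⊆ (univ.image c)ᶜ := by
    intro x hx
    obtain ⟨a, -, rfl⟩ := mem_image.mp hx
    rw [mem_compl, mem_image]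
    rintro ⟨i, -, hi⟩
    exact hcon a i (by rw [h a i, hi])
  have h2 := card_le_card h1
  rw [card_compl, card_image_of_injective _ hinj, card_image_of_injective _ hc] at h2
  simp only [card_univ, Fintype.card_fin] at h2
  omega

theorem cls_kill {k : ℕ} (hk : 3 ≤ k) (r κ : ℕ) (hκ : 1 ≤ κ) : ∃ θ : ℝ, 0 < θ ∧
    ∀ (n : ℕ) (G : SimpleGraph (Fin n)), Cls k r κ G → Kill (Fin r) k θ G := by
  refine ⟨(1 / (κ : ℝ)) ^ (r * (3 * (k - 2))), by positivity, ?_⟩
  intro n G hG
  obtain ⟨W, g, hL, hc⟩ := hG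
  unfold Kill
  set T : (Fin r × Fin 3 × Fin (k - 2)) → Finset (Fin n) := fun z =>
    (W z.1).filter (fun v => g z.1 v = (Fin.castLE (by omega : k - 2 ≤ k) z.2.2)) with hT
  have h1 : Fintype.piFinset T ⊆ KSet (Fin r) k G := by
    intro q hq
    have hq := Fintype.mem_piFinset.mp hq
    rw [mem_KSet']
    intro f hf
    obtain ⟨j, π, hπ⟩ := hc f hf
    refine ⟨j, ?_⟩
    apply bl_of_const (by omega) (fun i => π (Fin.castLE (by omega : k - 2 ≤ k) i))
    · intro i i' hii
      exact Fin.castLE_injective _ (π.injective hii)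
    · intro a i
      have h2 := hq (j, a, i)
      simp only [hT, mem_filter] at h2
      rw [hπ _ h2.1, h2.2]
  have h3 : (((Fintype.piFinset T).card : ℕ) : ℝ) ≤ ((KSet (Fin r) k G).card : ℝ) := by
    exact_mod_cast card_le_card h1
  refine le_trans ?_ h3
  rw [Fintype.card_piFinset]
  push_cast
  have h4 : ∀ z : Fin r × Fin 3 × Fin (k - 2), (1 / (κ : ℝ)) * n ≤ ((T z).card : ℝ) := by
    intro z
    have h5 := hL z.1 (Fin.castLE (by omega : k - 2 ≤ k) z.2.2)
    have h6 : (n : ℝ) ≤ (κ : ℝ) * ((T z).card : ℝ) := by exact_mod_cast h5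
    have h7 : (0 : ℝ) < κ := by exact_mod_cast hκ
    rw [div_mul_eq_mul_div, one_mul, div_le_iff₀ h7]
    linarith
  calc (1 / (κ : ℝ)) ^ (r * (3 * (k - 2))) * (n : ℝ) ^ (Fintype.card (Fin r) * (3 * (k - 2)))
      = ∏ _z : Fin r × Fin 3 × Fin (k - 2), ((1 / (κ : ℝ)) * n) := by
        rw [prod_const, card_univ]
        simp only [Fintype.card_prod, Fintype.card_fin]
        rw [mul_pow]
    _ ≤ ∏ z : Fin r × Fin 3 × Fin (k - 2), ((T z).card : ℝ) :=
        prod_le_prod (fun _ _ => by positivity) (fun z _ => h4 z)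

end Pool.Agent.Work.MP_73831e_pr.J
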