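import Pool.Agent.Work.MP_73831e_pr.J.Bas

/-!
MODULE KMono (S-M).  Monotonicity of `Kill`.

* `Kill.anti`: more edges, fewer colourings, so `KSet ι k G ⊆ KSet ι k G'`.
* `Kill.le_theta`: clear.
* `Kill.mono`: take an injection `e : ι ↪ Fin J`.  For `q ∈ KSet ι k G` every
  `q' : Fin J × Fin 3 × Fin (k-2) → Fin n` with `q' (e j, a, i) = q (j, a, i)` is in
  `KSet (Fin J) k G`.  So `KSet (Fin J)` contains the image of the injection
  `(q, r) ↦ q'`, `r` a function on the complement of the image of `e` (times `Fin 3 × Fin (k-2)`):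
  `|KSet (Fin J)| ≥ |KSet ι| n^((J - |ι|) * 3(k-2))`, and
  `n^(|ι| 3(k-2)) n^((J-|ι|) 3(k-2)) = n^(J 3(k-2))`.
-/

open Finset
open scoped Classical Nat

namespace Pool.Agent.Work.MP_73831e_pr.J

variable {n : ℕ}

private theorem km_pc {k : ℕ} {G G' : SimpleGraph (Fin n)} (h : G ≤ G') {f : Fin n → Fin k}
    (hf : PC k G' f) : PC k G f := fun u v huv => hf u v (h huv)

private theorem km_mem {ι : Type} [Fintype ι] {k : ℕ} {G : SimpleGraph (Fin n)}
    {q : ι × Fin 3 × Fin (k - 2) → Fin n} :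
    q ∈ KSet ι k G ↔ ∀ f, PC k G f → ∃ j, Bl f (fun a i => q (j, a, i)) := by
  unfold KSet
  rw [mem_filter]
  exact ⟨fun h => h.2, fun h => ⟨mem_univ _, h⟩⟩

private theorem km_ext {A B C : Type} [Fintype A] [Fintype B] [Fintype C] (E : A → B)
    (hE : Function.Injective E) (S : Finset (A → C)) (T : Finset (B → C))
    (hST : ∀ q : B → C, q ∘ E ∈ S → q ∈ T) :
    S.card * Fintype.card C ^ (Fintype.card B - Fintype.card A) ≤ T.card := by
  let p : B → Prop := fun b => b ∈ Set.range E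
  let F : (A → C) × ({b : B // ¬ p b} → C) → (B → C) := fun z =>
    (Equiv.piEquivPiSubtypeProd p (fun _ => C)).symm
      (fun b => z.1 ((Equiv.ofInjective E hE).symm b), z.2)
  have hF1 : ∀ z a, F z (E a) = z.1 a := by
    intro z a
    have h1 : p (E a) := ⟨a, rfl⟩
    have h2 : F z (E a) = z.1 ((Equiv.ofInjective E hE).symm ⟨E a, h1⟩) := by
      simp only [F, Equiv.piEquivPiSubtypeProd_symm_apply]
      rw [dif_pos h1]
    rw [h2]
    exact congrArg z.1 (Equiv.ofInjective_symm_apply hE a)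
  have hFinj : Function.Injective F := by
    intro z z' hzz
    have h1 := (Equiv.piEquivPiSubtypeProd p (fun _ => C)).symm.injective hzz
    rw [Prod.mk.injEq] at h1
    apply Prod.ext _ h1.2
    funext a
    rw [← hF1 z a, ← hF1 z' a, hzz]
  have hcC : Fintype.card {b : B // ¬ p b} = Fintype.card B - Fintype.card A := by
    have h1 : Fintype.card {b : B // p b} = Fintype.card A :=
      (Fintype.card_congr (Equiv.ofInjective E hE)).symm
    rw [← h1]
    exact Fintype.card_subtype_compl p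
  rw [← hcC]
  have h2 : (S ×ˢ (univ : Finset ({b : B // ¬ p b} → C))).card =
      S.card * Fintype.card C ^ Fintype.card {b : B // ¬ p b} := by
    rw [card_product, card_univ, Fintype.card_fun]
  rw [← h2]
  refine card_le_card_of_injOn F ?_ hFinj.injOn
  intro z hz
  rw [mem_coe]
  apply hST
  have h3 : F z ∘ E = z.1 := funext fun a => hF1 z a
  rw [h3]
  exact (mem_product.1 (mem_coe.1 hz)).1

theorem Kill.anti {ι : Type} [Fintype ι] {k : ℕ} {θ : ℝ} {G G' : SimpleGraph (Fin n)}
    (h : G ≤ G') (hK : Kill ι k θ G) : Kill ι k θ G' := by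
  unfold Kill at hK ⊢
  refine hK.trans ?_
  have h1 : KSet ι k G ⊆ KSet ι k G' := by
    intro q hq
    rw [km_mem] at hq ⊢
    exact fun f hf => hq f (km_pc h hf)
  exact_mod_cast card_le_card h1

theorem Kill.le_theta {ι : Type} [Fintype ι] {k : ℕ} {θ θ' : ℝ} {G : SimpleGraph (Fin n)}
    (h : θ' ≤ θ) (hK : Kill ι k θ G) : Kill ι k θ' G := by
  unfold Kill at hK ⊢
  exact (mul_le_mul_of_nonneg_right h (by positivity)).trans hK

theorem Kill.mono {ι : Type} [Fintype ι] {k J : ℕ} {θ : ℝ} {G : SimpleGraph (Fin n)}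
    (h : Fintype.card ι ≤ J) (hK : Kill ι k θ G) : Kill (Fin J) k θ G := by
  have hne : Nonempty (ι ↪ Fin J) := Function.Embedding.nonempty_of_card_le (by simpa using h)
  obtain ⟨e⟩ := hne
  let E : ι × Fin 3 × Fin (k - 2) → Fin J × Fin 3 × Fin (k - 2) := fun x => (e x.1, x.2.1, x.2.2)
  have hE : Function.Injective E := by
    rintro ⟨a1, a2, a3⟩ ⟨b1, b2, b3⟩ hab
    have h3 : a1 = b1 := e.injective (congrArg Prod.fst hab)
    have h4 : (a2, a3) = (b2, b3) := congrArg Prod.snd hab
    rw [h3, h4]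
  have hsub := km_ext E hE (KSet ι k G) (KSet (Fin J) k G) (by
    intro q hq
    rw [km_mem] at hq ⊢
    intro f hf
    obtain ⟨j, hj⟩ := hq f hf
    exact ⟨e j, hj⟩)
  simp only [Fintype.card_prod, Fintype.card_fin] at hsub
  unfold Kill at hK ⊢
  rw [Fintype.card_fin]
  have h6 : J * (3 * (k - 2)) = Fintype.card ι * (3 * (k - 2)) +
      (J * (3 * (k - 2)) - Fintype.card ι * (3 * (k - 2))) :=
    (Nat.add_sub_cancel' (Nat.mul_le_mul_right _ h)).symm
  rw [h6, pow_add, ← mul_assoc]
  refine (mul_le_mul_of_nonneg_right hK (by positivity)).trans ?_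
  exact_mod_cast hsub

end Pool.Agent.Work.MP_73831e_pr.J
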