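import Pool.Agent.Work.MP_73831e_pr.J.Bas
import Pool.Agent.Work.MP_73831e_pr.J.KCls

/-!
MODULE KBox (M).  A box of quasi-rainbow tuples gives a kill.

`k = m + 2`.  Let `f` be a proper colouring.  If `Inn (W c) (g c) f` for some transversal `c` then
`f (A c a i) = π i` and `Bl f (A c)` by `bl_of_const` (`c i := π (i.castSucc.castSucc)`).
Otherwise `f` is injective on all transversals, so the sets `A_i = {f (Y i s) : s}`,
`i : Fin (m+1)`, are pairwise disjoint (for `i ≠ j`, given `s, s'`, some transversal `c` has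
`c i = s`, `c j = s'`) and nonempty, and `∑_i |A_i| ≤ m + 2`.  So there is `i₀` such that `|A_i| = 1`
for all `i ≠ i₀` (if two different `i` had `|A_i| ≥ 2` the sum would be `≥ m + 3`).  Let
`A_i = {c_i}` for `i ≠ i₀`; the `c_i` are distinct.  For all `a`, `i`:
`f (Y (i₀.succAbove i) (i₀, a)) = c_{i₀.succAbove i}`, so `Bl` by `bl_of_const`.
-/

open Finset
open scoped Classical Nat

namespace Pool.Agent.Work.MP_73831e_pr.J

theorem box_kill {m n : ℕ} (G : SimpleGraph (Fin n))
    (Y : Fin (m + 1) → (Fin (m + 1) × Fin 3) → Fin n)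
    (W : (Fin (m + 1) → Fin (m + 1) × Fin 3) → Finset (Fin n))
    (g : (Fin (m + 1) → Fin (m + 1) × Fin 3) → Fin n → Fin (m + 2))
    (h : ∀ c, ∀ f, PC (m + 2) G f → Function.Injective (fun i => f (Y i (c i))) ∨
      Inn (W c) (g c) f)
    (A : (Fin (m + 1) → Fin (m + 1) × Fin 3) → Fin 3 → Fin m → Fin n)
    (hA : ∀ c a i, A c a i ∈ W c ∧ g c (A c a i) = i.castSucc.castSucc)
    (f : Fin n → Fin (m + 2)) (hf : PC (m + 2) G f) :
    (∃ i₀ : Fin (m + 1), Bl f (fun a i => Y (i₀.succAbove i) (i₀, a))) ∨ ∃ c, Bl f (A c) := by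
  by_cases hc : ∃ c, Inn (W c) (g c) f
  · obtain ⟨c, π, hπ⟩ := hc
    right
    refine ⟨c, bl_of_const le_rfl (fun i : Fin m => π i.castSucc.castSucc) ?_ fun a i => ?_⟩
    · intro i j hij
      exact Fin.castSucc_injective _ (Fin.castSucc_injective _ (π.injective hij))
    · rw [hπ _ (hA c a i).1, (hA c a i).2]
  · left
    push Not at hc
    have hinj : ∀ c : Fin (m + 1) → Fin (m + 1) × Fin 3,
        Function.Injective (fun i => f (Y i (c i))) := fun c => (h c f hf).resolve_right (hc c)
    have hne : ∀ i j, i ≠ j → ∀ s s', f (Y i s) ≠ f (Y j s') := by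
      intro i j hij s s' he
      have h1 := @hinj (Function.update (fun _ => s) j s') i j (by
        beta_reduce
        rw [Function.update_of_ne hij, Function.update_self]
        exact he)
      exact hij h1
    let F : Fin (m + 1) → Finset (Fin (m + 2)) := fun i => univ.image fun s => f (Y i s)
    have hF : ∀ i s, f (Y i s) ∈ F i := fun i s => mem_image_of_mem _ (mem_univ s)
    have hdisj : ∀ i ∈ (univ : Finset (Fin (m + 1))), ∀ j ∈ (univ : Finset (Fin (m + 1))),
        i ≠ j → Disjoint (F i) (F j) := by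
      intro i _ j _ hij
      rw [disjoint_left]
      intro x hx hx'
      obtain ⟨s, -, rfl⟩ := mem_image.1 hx
      obtain ⟨s', -, h2⟩ := mem_image.1 hx'
      exact hne i j hij s s' h2.symm
    have hsum : ∑ i, (F i).card ≤ m + 2 := by
      rw [← card_biUnion hdisj]
      exact (card_le_univ _).trans (by rw [Fintype.card_fin])
    have h1 : ∀ i, 1 ≤ (F i).card := fun i => card_pos.2 ⟨_, hF i (0, 0)⟩
    obtain ⟨i₀, hi₀⟩ : ∃ i₀ : Fin (m + 1), ∀ i, i ≠ i₀ → (F i).card = 1 := by
      by_cases hex : ∃ i₁, 2 ≤ (F i₁).card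
      · obtain ⟨i₁, hi₁⟩ := hex
        refine ⟨i₁, fun j hj => ?_⟩
        by_contra hne1
        have hj2 : 2 ≤ (F j).card := by
          have := h1 j
          omega
        have h3 : ∑ i, (1 + (if i = i₁ then 1 else 0) + (if i = j then 1 else 0)) ≤
            ∑ i, (F i).card := by
          refine sum_le_sum fun i _ => ?_
          have h4 := h1 i
          split_ifs with h5 h6 h6
          · exact absurd (h6.symm.trans h5) hj
          · rw [h5]
            omega
          · rw [h6]
            omega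
          · omega
        rw [sum_add_distrib, sum_add_distrib, sum_ite_eq' univ i₁, sum_ite_eq' univ j,
          if_pos (mem_univ _), if_pos (mem_univ _), sum_const, card_univ, Fintype.card_fin,
          smul_eq_mul, mul_one] at h3
        omega
      · push Not at hex
        refine ⟨0, fun i _ => ?_⟩
        have h3 := hex i
        have h4 := h1 i
        omega
    have hcst : ∀ i, i ≠ i₀ → ∀ s, f (Y i s) = f (Y i (0, 0)) := by
      intro i hi s
      obtain ⟨x, hx⟩ := card_eq_one.1 (hi₀ i hi)
      have h3 := hF i s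
      have h4 := hF i (0, 0)
      rw [hx, mem_singleton] at h3 h4
      rw [h3, h4]
    refine ⟨i₀, bl_of_const le_rfl (fun i : Fin m => f (Y (i₀.succAbove i) (0, 0))) ?_
      fun a i => hcst _ (Fin.succAbove_ne i₀ i) _⟩
    intro i j hij
    by_contra hn
    exact hne (i₀.succAbove i) (i₀.succAbove j)
      (fun h3 => hn (Fin.succAbove_right_injective h3)) _ _ hij

end Pool.Agent.Work.MP_73831e_pr.J
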