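import Pool.Agent.Work.MP_73831e_pr.J.Bas
import Pool.Agent.Work.MP_73831e_pr.J.KBox
import Pool.Agent.Work.MP_73831e_pr.J.Box
import Pool.Agent.Work.MP_73831e_pr.J.KMono

/-!
MODULE KQR (L).  Many quasi-rainbow `(k-1)`-tuples give a kill.

`k = m + 2`, `r = m + 1`, `T = Fin (m+1) × Fin 3`, `t = |T| = 3(m+1)`, index type of the gadgets
`ι = Fin (m+1) ⊕ (Fin (m+1) → T)`, `J = |ι| = (m+1) + t^(m+1)`; note `k - 2 = m`.
For every tuple `y` with `QR k κ (gr E) y` choose its cluster `(W_y, g_y)`.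
By `boxes` (`V = Fin n`, `H = QR`, density `≥ β`) there are at least `β^(t^r) n^(r t)` boxes
`Y : Fin (m+1) → T → Fin n` all of whose transversals are `QR`.  For such `Y` and every
`A : (Fin (m+1) → T) → Fin 3 → Fin m → Fin n` with `A c a i` in the class `i` of the cluster of the
transversal `c` (at least `(n/κ)^(3 m t^r)` choices of `A`) define
`q (inl i₀, a, i) = Y (i₀.succAbove i) (i₀, a)`, `q (inr c, a, i) = A c a i`.  By `box_kill`
`q ∈ KSet ι k (gr E)`.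
The map `(Y, A) ↦ q` is at most `n^(3 (m+1))` to one: `q` determines `A` and all the values
`Y j (i₀, a)` with `j ≠ i₀` (`j = i₀.succAbove i` for a unique `i`), so two preimages differ only in
the `3(m+1)` values `Y i₀ (i₀, a)`.  Hence
`|KSet ι| ≥ β^(t^r) κ^(-3 m t^r) n^(r t + 3 m t^r - 3(m+1))`, and
`r t - 3(m+1) = 3 (m+1)² - 3(m+1) = 3 m (m+1)`, so the exponent is `|ι| * 3m`.
So `Kill ι k θ (gr E)` with `θ = β^(t^r) κ^(-3 m t^r)`; then `Kill.mono`.
(It is convenient to count with `Finset.card_le_mul_card_image` or by mapping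
`(Y, A) ↦ (q, fun i₀ a => Y i₀ (i₀, a))`, which is injective.)
-/

open Finset
open scoped Classical Nat

namespace Pool.Agent.Work.MP_73831e_pr.J

private abbrev TT (m : ℕ) : Type := Fin (m + 1) × Fin 3

private abbrev CC (m : ℕ) : Type := Fin (m + 1) → TT m

private abbrev II (m : ℕ) : Type := Fin (m + 1) ⊕ CC m

private def qmap {m n : ℕ} (Y : Fin (m + 1) → TT m → Fin n)
    (A : CC m × Fin 3 × Fin m → Fin n) : II m × Fin 3 × Fin m → Fin n
  | (Sum.inl i₀, a, i) => Y (i₀.succAbove i) (i₀, a)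
  | (Sum.inr c, a, i) => A (c, a, i)

private theorem qmap_inj {m n : ℕ} {Y Y' : Fin (m + 1) → TT m → Fin n}
    {A A' : CC m × Fin 3 × Fin m → Fin n} (h1 : qmap Y A = qmap Y' A')
    (h2 : ∀ x : TT m, Y x.1 x = Y' x.1 x) : Y = Y' ∧ A = A' := by
  constructor
  · funext j x
    obtain ⟨i₀, a⟩ := x
    by_cases h : j = i₀
    · subst h
      exact h2 (j, a)
    · obtain ⟨i, rfl⟩ := Fin.exists_succAbove_eq h
      exact congrFun h1 (Sum.inl i₀, a, i)
  · funext x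
    obtain ⟨c, a, i⟩ := x
    exact congrFun h1 (Sum.inr c, a, i)

private theorem mem_KSet' {ι : Type} [Fintype ι] {m n : ℕ} {G : SimpleGraph (Fin n)}
    (q : ι × Fin 3 × Fin m → Fin n)
    (h : ∀ f, PC (m + 2) G f → ∃ j, Bl f (fun a i => q (j, a, i))) :
    q ∈ (KSet ι (m + 2) G : Finset (ι × Fin 3 × Fin m → Fin n)) := by
  unfold KSet
  rw [mem_filter]
  exact ⟨mem_univ _, h⟩

private theorem kqr_core {m n κ : ℕ} (hκ : 1 ≤ κ) (hn : 1 ≤ n) (G : SimpleGraph (Fin n)) (β : ℝ)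
    (hβ : 0 < β) (hH : β * (n : ℝ) ^ (m + 1) ≤
      ((univ.filter (fun y : Fin (m + 1) → Fin n => QR (m + 2) κ G y)).card : ℝ)) :
    (β ^ (Fintype.card (TT m) ^ (m + 1)) * (1 / κ : ℝ) ^ Fintype.card (CC m × Fin 3 × Fin m)) *
      (n : ℝ) ^ (Fintype.card (II m) * (3 * m)) ≤ ((KSet (II m) (m + 2) G).card : ℝ) := by
  have hn0 : (0 : ℝ) < n := by exact_mod_cast hn
  have hκ0 : (0 : ℝ) < κ := by exact_mod_cast hκ
  have : Nonempty (Fin n) := ⟨⟨0, hn⟩⟩
  have hch : ∀ y : Fin (m + 1) → Fin n, ∃ (W : Finset (Fin n)) (g : Fin n → Fin (m + 2)),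
      QR (m + 2) κ G y → LC κ W g ∧
      ∀ f, PC (m + 2) G f → Function.Injective (fun i => f (y i)) ∨ Inn W g f := by
    intro y
    by_cases h : QR (m + 2) κ G y
    · obtain ⟨W, g, h1, h2⟩ := h
      exact ⟨W, g, fun _ => ⟨h1, h2⟩⟩
    · exact ⟨∅, fun _ => 0, fun h' => absurd h' h⟩
  choose W g hWg using hch
  let tr : (Fin (m + 1) → TT m → Fin n) → CC m → (Fin (m + 1) → Fin n) :=
    fun Y c i => Y i (c i)
  set Bx : Finset (Fin (m + 1) → TT m → Fin n) :=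
    univ.filter (fun Y : Fin (m + 1) → TT m → Fin n => ∀ c : CC m, QR (m + 2) κ G (tr Y c))
    with hBx
  have hmemB : ∀ Y, Y ∈ Bx ↔ ∀ c : CC m, QR (m + 2) κ G (tr Y c) := by
    intro Y
    rw [hBx, mem_filter]
    exact ⟨fun h => h.2, fun h => ⟨mem_univ _, h⟩⟩
  have hbox : β ^ (Fintype.card (TT m) ^ (m + 1)) * (n : ℝ) ^ ((m + 1) * Fintype.card (TT m)) ≤
      (Bx.card : ℝ) := by
    have h1 := boxes (V := Fin n) (T := TT m) (m + 1)
      (fun y : Fin (m + 1) → Fin n => QR (m + 2) κ G y)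
    rw [Fintype.card_fin] at h1
    refine le_trans ?_ (h1.trans (le_of_eq ?_))
    · refine mul_le_mul_of_nonneg_right ?_ (by positivity)
      refine pow_le_pow_left₀ hβ.le ?_ _
      rw [le_div_iff₀ (by positivity)]
      exact hH
    · have hext : ∀ (s1 s2 : Finset (Fin (m + 1) → TT m → Fin n)),
          (∀ Y, Y ∈ s1 ↔ Y ∈ s2) → (s1.card : ℝ) = s2.card := fun s1 s2 h => by
        rw [Finset.ext h]
      apply hext
      intro Y
      rw [hmemB, mem_filter]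
      exact ⟨fun h => h.2, fun h => ⟨@mem_univ _ (_) _, h⟩⟩
  let PA : (Fin (m + 1) → TT m → Fin n) → Finset (CC m × Fin 3 × Fin m → Fin n) := fun Y =>
    Fintype.piFinset (fun x : CC m × Fin 3 × Fin m =>
      (W (tr Y x.1)).filter (fun v => g (tr Y x.1) v = x.2.2.castSucc.castSucc))
  have hPA : ∀ Y ∈ Bx, ((n : ℝ) / κ) ^ Fintype.card (CC m × Fin 3 × Fin m) ≤
      ((PA Y).card : ℝ) := by
    intro Y hY
    simp only [PA]
    rw [Fintype.card_piFinset, Nat.cast_prod, ← card_univ, ← prod_const]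
    refine prod_le_prod (fun _ _ => by positivity) fun x _ => ?_
    have h1 := (hWg (tr Y x.1) ((hmemB Y).1 hY x.1)).1 x.2.2.castSucc.castSucc
    rw [div_le_iff₀ hκ0, mul_comm]
    exact_mod_cast h1
  let Ψ : (Σ _ : (Fin (m + 1) → TT m → Fin n), (CC m × Fin 3 × Fin m → Fin n)) →
      (II m × Fin 3 × Fin m → Fin n) × (TT m → Fin n) :=
    fun z => (qmap z.1 z.2, fun x => z.1 x.1 x)
  have hcard : (Bx.sigma PA).card ≤
      ((KSet (II m) (m + 2) G : Finset (II m × Fin 3 × Fin m → Fin n)) ×ˢ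
        (univ : Finset (TT m → Fin n))).card := by
    refine card_le_card_of_injOn Ψ ?_ ?_
    · rintro ⟨Y, A⟩ hz
      rw [mem_coe, mem_sigma] at hz
      obtain ⟨hY, hA⟩ := hz
      rw [mem_coe, mem_product]
      refine ⟨?_, mem_univ _⟩
      have hY' := (hmemB Y).1 hY
      have hA' : ∀ (c : CC m) (a : Fin 3) (i : Fin m), A (c, a, i) ∈ W (tr Y c) ∧
          g (tr Y c) (A (c, a, i)) = i.castSucc.castSucc := by
        intro c a i
        have h1 := Fintype.mem_piFinset.mp hA (c, a, i)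
        rw [mem_filter] at h1
        exact h1
      refine mem_KSet' (qmap Y A) ?_
      intro f hf
      rcases box_kill G Y (fun c => W (tr Y c)) (fun c => g (tr Y c))
        (fun c f hf => (hWg (tr Y c) (hY' c)).2 f hf) (fun c a i => A (c, a, i)) hA' f hf with
        ⟨i₀, h⟩ | ⟨c, h⟩
      · exact ⟨Sum.inl i₀, h⟩
      · exact ⟨Sum.inr c, h⟩
    · rintro ⟨Y, A⟩ _ ⟨Y', A'⟩ _ h
      have h1 := congrArg Prod.fst h
      have h2 := congrArg Prod.snd h
      obtain ⟨h3, h4⟩ := qmap_inj (Y := Y) (Y' := Y') (A := A) (A' := A') h1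
        (fun x => congrFun h2 x)
      rw [h3, h4]
  rw [card_sigma, card_product, card_univ, Fintype.card_fun, Fintype.card_fin] at hcard
  have hcard' : ((∑ Y ∈ Bx, (PA Y).card : ℕ) : ℝ) ≤
      (((KSet (II m) (m + 2) G).card * n ^ Fintype.card (TT m) : ℕ) : ℝ) := Nat.cast_le.mpr hcard
  rw [Nat.cast_sum, Nat.cast_mul, Nat.cast_pow] at hcard'
  have hlow : (Bx.card : ℝ) * ((n : ℝ) / κ) ^ Fintype.card (CC m × Fin 3 × Fin m) ≤
      ∑ Y ∈ Bx, ((PA Y).card : ℝ) := by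
    rw [← nsmul_eq_mul]
    exact card_nsmul_le_sum _ _ _ hPA
  have h3 : β ^ (Fintype.card (TT m) ^ (m + 1)) * (n : ℝ) ^ ((m + 1) * Fintype.card (TT m)) *
      ((n : ℝ) / κ) ^ Fintype.card (CC m × Fin 3 × Fin m) ≤
      ((KSet (II m) (m + 2) G).card : ℝ) * (n : ℝ) ^ Fintype.card (TT m) :=
    (mul_le_mul_of_nonneg_right hbox (by positivity)).trans (hlow.trans hcard')
  have h4 : β ^ (Fintype.card (TT m) ^ (m + 1)) * (n : ℝ) ^ ((m + 1) * Fintype.card (TT m)) *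
      ((n : ℝ) / κ) ^ Fintype.card (CC m × Fin 3 × Fin m) =
      (β ^ (Fintype.card (TT m) ^ (m + 1)) *
        (1 / κ : ℝ) ^ Fintype.card (CC m × Fin 3 × Fin m)) *
      (n : ℝ) ^ (Fintype.card (II m) * (3 * m)) * (n : ℝ) ^ Fintype.card (TT m) := by
    have h5 : (n : ℝ) ^ ((m + 1) * Fintype.card (TT m)) *
        (n : ℝ) ^ Fintype.card (CC m × Fin 3 × Fin m) =
        (n : ℝ) ^ (Fintype.card (II m) * (3 * m)) * (n : ℝ) ^ Fintype.card (TT m) := by
      rw [← pow_add, ← pow_add]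
      congr 1
      simp only [Fintype.card_prod, Fintype.card_sum, Fintype.card_fun, Fintype.card_fin]
      ring
    have h6 : ((n : ℝ) / κ) ^ Fintype.card (CC m × Fin 3 × Fin m) =
        (n : ℝ) ^ Fintype.card (CC m × Fin 3 × Fin m) *
        (1 / κ : ℝ) ^ Fintype.card (CC m × Fin 3 × Fin m) := by
      rw [← mul_pow]
      congr 1
      ring
    rw [h6]
    linear_combination (β ^ (Fintype.card (TT m) ^ (m + 1)) *
        (1 / κ : ℝ) ^ Fintype.card (CC m × Fin 3 × Fin m)) * h5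
  rw [h4] at h3
  exact le_of_mul_le_mul_right h3 (by positivity)

theorem qr_kill {k : ℕ} (hk : 3 ≤ k) (κ : ℕ) (hκ : 1 ≤ κ) : ∃ J : ℕ, ∀ β : ℝ, 0 < β →
    ∃ θ : ℝ, 0 < θ ∧ ∀ n : ℕ, 1 ≤ n → ∀ E : Finset (Pr n),
      β * (n : ℝ) ^ (k - 1) ≤ nQR k κ (k - 1) E → Kill (Fin J) k θ (gr E) := by
  obtain ⟨m, rfl⟩ : ∃ m, k = m + 2 := ⟨k - 2, by omega⟩
  refine ⟨Fintype.card (II m), fun β hβ => ?_⟩
  have hκ0 : (0 : ℝ) < κ := by exact_mod_cast hκ
  refine ⟨β ^ (Fintype.card (TT m) ^ (m + 1)) *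
    (1 / κ : ℝ) ^ Fintype.card (CC m × Fin 3 × Fin m), by positivity, ?_⟩
  intro n hn E hE
  refine Kill.mono (ι := II m) le_rfl ?_
  exact kqr_core hκ hn (gr E) β hβ hE

end Pool.Agent.Work.MP_73831e_pr.J
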