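import Pool.Agent.Work.MP_73831e_pr.J.Bas

/-!
MODULE Num (S-M).  Identities for the weights
`wR N m = m! (N-m-1)! / N!`, `nuR N m = m! (N-m)! / (N+1)!`.
All are one-line computations with factorials: write `N = m + d + 1` (or `N = m + d`) and use
`Nat.factorial_succ`, `push_cast`, `field_simp`, `ring`.
* `nuR_proj`: `m!(N+1-m)!/(N+2)! + (m+1)!(N-m)!/(N+2)! = m!(N-m)! ((N+1-m)+(m+1))/(N+2)!`.
* `nuR_choose`: `N.choose m * m! * (N-m)! = N!`.  `wR_choose`: same with `(N-m)! = (N-m)(N-m-1)!`.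
* `w_eq_wt`: definition of `wt` in `Defs`.
-/

open Finset
open scoped Classical Nat

namespace Pool.Agent.Work.MP_73831e_pr.J

private theorem fpos (n : ℕ) : (0 : ℝ) < (n ! : ℝ) := by exact_mod_cast Nat.factorial_pos n

private theorem fsucc (n : ℕ) : (((n + 1)! : ℕ) : ℝ) = ((n : ℝ) + 1) * (n ! : ℝ) := by
  rw [Nat.factorial_succ]
  push_cast
  ring

theorem nuR_pos (N m : ℕ) : 0 < nuR N m :=
  div_pos (mul_pos (fpos _) (fpos _)) (fpos _)

theorem wR_pos (N m : ℕ) : 0 < wR N m :=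
  div_pos (mul_pos (fpos _) (fpos _)) (fpos _)

theorem nuR_succ {N m : ℕ} (h : m < N) :
    nuR N (m + 1) = wR N m * (((m : ℝ) + 1) / ((N : ℝ) + 1)) := by
  obtain ⟨d, rfl⟩ : ∃ d, N = m + d + 1 := ⟨N - m - 1, by omega⟩
  have e1 : m + d + 1 - (m + 1) = d := by omega
  have e2 : m + d + 1 - m - 1 = d := by omega
  rw [nuR, wR, e1, e2, fsucc m, fsucc (m + d + 1)]
  have h1 := fpos m
  have h2 := fpos d
  have h3 := fpos (m + d + 1)
  have h4 : (0 : ℝ) < ((m + d + 1 : ℕ) : ℝ) + 1 := by positivity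
  field_simp

theorem nuR_eq {N m : ℕ} (h : m < N) :
    nuR N m = wR N m * (((N : ℝ) - m) / ((N : ℝ) + 1)) := by
  obtain ⟨d, rfl⟩ : ∃ d, N = m + d + 1 := ⟨N - m - 1, by omega⟩
  have e1 : m + d + 1 - m = d + 1 := by omega
  have e2 : m + d + 1 - m - 1 = d := by omega
  rw [nuR, wR, e2, e1, fsucc d, fsucc (m + d + 1)]
  have h1 := fpos m
  have h2 := fpos d
  have h3 := fpos (m + d + 1)
  have h4 : (0 : ℝ) < ((m + d + 1 : ℕ) : ℝ) + 1 := by positivity
  have h5 : (((m + d + 1 : ℕ) : ℝ) - m) = (d : ℝ) + 1 := by push_cast; ring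
  rw [h5]
  field_simp

theorem nuR_step {N m : ℕ} (h : m < N) :
    nuR N (m + 1) = nuR N m * (((m : ℝ) + 1) / ((N : ℝ) - m)) := by
  rw [nuR_succ h, nuR_eq h]
  have h1 : (0 : ℝ) < (N : ℝ) - m := by
    have : (m : ℝ) < N := by exact_mod_cast h
    linarith
  have h2 : (0 : ℝ) < (N : ℝ) + 1 := by positivity
  field_simp

theorem nuR_proj {N m : ℕ} (h : m ≤ N) : nuR (N + 1) m + nuR (N + 1) (m + 1) = nuR N m := by
  obtain ⟨d, rfl⟩ : ∃ d, N = m + d := ⟨N - m, by omega⟩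
  have e1 : m + d + 1 - m = d + 1 := by omega
  have e2 : m + d + 1 - (m + 1) = d := by omega
  have e3 : m + d - m = d := by omega
  rw [nuR, nuR, nuR, e1, e2, e3, fsucc m, fsucc d, fsucc (m + d + 1)]
  have h1 := fpos m
  have h2 := fpos d
  have h3 := fpos (m + d + 1)
  have h4 : (0 : ℝ) < ((m + d + 1 : ℕ) : ℝ) + 1 := by positivity
  rw [← add_div, div_eq_div_iff (by positivity) (by positivity)]
  push_cast
  ring

theorem nuR_pred {N m : ℕ} (h : m ≤ N) :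
    nuR N m = nuR (N + 1) m * (((N : ℝ) + 2) / ((N : ℝ) + 1 - m)) := by
  obtain ⟨d, rfl⟩ : ∃ d, N = m + d := ⟨N - m, by omega⟩
  have e1 : m + d + 1 - m = d + 1 := by omega
  have e3 : m + d - m = d := by omega
  rw [nuR, nuR, e1, e3, fsucc d, fsucc (m + d + 1)]
  have h1 := fpos m
  have h2 := fpos d
  have h3 := fpos (m + d + 1)
  have h4 : (0 : ℝ) < ((m + d + 1 : ℕ) : ℝ) + 1 := by positivity
  have h5 : (((m + d : ℕ) : ℝ) + 1 - m) = (d : ℝ) + 1 := by push_cast; ring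
  rw [h5]
  have h6 : (((m + d + 1 : ℕ) : ℝ) + 1) = ((m + d : ℕ) : ℝ) + 2 := by push_cast; ring
  rw [h6] at h4 ⊢
  field_simp

theorem nuR_choose {N m : ℕ} (h : m ≤ N) : (N.choose m : ℝ) * nuR N m = 1 / ((N : ℝ) + 1) := by
  have h3 : (N.choose m : ℝ) * (m ! : ℝ) * ((N - m)! : ℝ) = (N ! : ℝ) := by
    exact_mod_cast Nat.choose_mul_factorial_mul_factorial h
  rw [nuR, fsucc N]
  have h1 := fpos N
  have h4 : (0 : ℝ) < (N : ℝ) + 1 := by positivity
  rw [← mul_div_assoc, ← mul_assoc, h3, div_eq_div_iff (by positivity) (by positivity)]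
  ring

theorem wR_choose {N m : ℕ} (h : m < N) : (N.choose m : ℝ) * wR N m = 1 / ((N : ℝ) - m) := by
  have h1 := nuR_choose h.le
  rw [nuR_eq h] at h1
  have h2 : (0 : ℝ) < (N : ℝ) - m := by
    have : (m : ℝ) < N := by exact_mod_cast h
    linarith
  have h3 : (0 : ℝ) < (N : ℝ) + 1 := by positivity
  rw [eq_div_iff h2.ne']
  rw [eq_div_iff h3.ne'] at h1
  have h4 : (N.choose m : ℝ) * (wR N m * (((N : ℝ) - m) / ((N : ℝ) + 1))) * ((N : ℝ) + 1) =
      (N.choose m : ℝ) * wR N m * ((N : ℝ) - m) := by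
    field_simp
  rw [← h4, h1]

theorem wR_step {N m : ℕ} (h : m + 1 < N) :
    wR N (m + 1) = wR N m * (((m : ℝ) + 1) / ((N : ℝ) - m - 1)) := by
  obtain ⟨d, rfl⟩ : ∃ d, N = m + d + 2 := ⟨N - m - 2, by omega⟩
  have e1 : m + d + 2 - (m + 1) - 1 = d := by omega
  have e2 : m + d + 2 - m - 1 = d + 1 := by omega
  rw [wR, wR, e1, e2, fsucc m, fsucc d]
  have h1 := fpos m
  have h2 := fpos d
  have h3 := fpos (m + d + 2)
  have h5 : (((m + d + 2 : ℕ) : ℝ) - m - 1) = (d : ℝ) + 1 := by push_cast; ring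
  rw [h5]
  field_simp

theorem w_eq_wt {P : Type} [Fintype P] (E : Finset P) :
    w E = (wt E : ℝ) / ((Fintype.card P)! : ℝ) := by
  rw [w, wR, wt]
  push_cast
  rfl

end Pool.Agent.Work.MP_73831e_pr.J
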