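import Pool.Agent.Work.MP_73831e_pr.J.Bas
import Pool.Agent.Work.MP_73831e_pr.J.Num
import Pool.Agent.Work.MP_73831e_pr.Count

/-!
MODULE Flux (M).  Averages over the process.

`flux_avg`: group the pairs `(ω, t)` by `(E, x) = (pre ω t, ω t)`; always `x ∉ E`
(`not_mem_pre`), `t = |E|` (`pre_card`), and for given `(E, x)`, `x ∉ E`, the number of these pairs
is `wt E` (`count_ord_aux` / `count_ord` in `Count`; compare with the proof of `Wsum_eq` there,
which is the case of an indicator function).  So
`∑_ω ∑_t c (pre ω t) (ω t) = ∑_{(E,x)} c E x * wt E`, and `w E = wt E / N!` (`w_eq_wt`).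
(Use `Finset.sum_fiberwise_of_maps_to` or `Finset.sum_comp`-like rearrangements.)
`Fx_eq`: `c` = indicator of `B`.
-/

open Finset
open scoped Classical Nat

namespace Pool.Agent.Work.MP_73831e_pr.J

private theorem fiber_card {P : Type} [Fintype P] (E : Finset P) (x : P) (hx : x ∉ E) :
    (univ.filter (fun z : Ordr P × Fin (Fintype.card P) =>
      (pre z.1 z.2, z.1 z.2) = (E, x))).card = wt E := by
  have h : E.card < Fintype.card P := by
    rw [← Finset.card_univ]
    exact Finset.card_lt_card (Finset.ssubset_iff_subset_ne.mpr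
      ⟨Finset.subset_univ _, fun hh => hx (hh ▸ mem_univ x)⟩)
  rw [← count_ord_aux E x hx h]
  symm
  apply Finset.card_bij (fun ω _ => (ω, ⟨E.card, h⟩))
  · intro ω hω
    simp only [mem_filter, mem_univ, true_and] at hω ⊢
    rw [hω.1, hω.2]
  · intro ω _ ω' _ hh
    exact (Prod.ext_iff.mp hh).1
  · rintro ⟨ω, i⟩ hz
    simp only [mem_filter, mem_univ, true_and, Prod.mk.injEq] at hz
    obtain ⟨h3, h4⟩ := hz
    have h5 : (i : ℕ) = E.card := by
      rw [← h3, pre_card ω i.2.le]
    have h6 : i = ⟨E.card, h⟩ := Fin.ext h5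
    subst h6
    refine ⟨ω, ?_, rfl⟩
    simp only [mem_filter, mem_univ, true_and]
    exact ⟨h3, h4⟩

theorem flux_avg {P : Type} [Fintype P] (c : Finset P → P → ℝ) :
    ∑ E : Finset P, ∑ x ∈ univ.filter (fun x => x ∉ E), c E x * w E =
      1 / ((Fintype.card P)! : ℝ) *
        ∑ ω : Ordr P, ∑ t : Fin (Fintype.card P), c (pre ω t) (ω t) := by
  have h1 : ∑ ω : Ordr P, ∑ t : Fin (Fintype.card P), c (pre ω t) (ω t) =
      ∑ E : Finset P, ∑ x ∈ univ.filter (fun x => x ∉ E), c E x * (wt E : ℝ) := by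
    rw [← Fintype.sum_prod_type'
      (f := fun (ω : Ordr P) (t : Fin (Fintype.card P)) => c (pre ω t) (ω t))]
    rw [← Finset.sum_fiberwise_of_maps_to (t := univ.filter (fun p : Finset P × P => p.2 ∉ p.1))
      (g := fun z : Ordr P × Fin (Fintype.card P) => (pre z.1 z.2, z.1 z.2))
      (fun z _ => by
        simp only [mem_filter, mem_univ, true_and]
        exact not_mem_pre z.1 z.2)]
    have h2 : ∑ E : Finset P, ∑ x ∈ univ.filter (fun x => x ∉ E), c E x * (wt E : ℝ) =
        ∑ p ∈ univ.filter (fun p : Finset P × P => p.2 ∉ p.1), c p.1 p.2 * (wt p.1 : ℝ) := by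
      rw [Finset.sum_filter, Fintype.sum_prod_type]
      apply Finset.sum_congr rfl
      intro E _
      rw [Finset.sum_filter]
    rw [h2]
    apply Finset.sum_congr rfl
    rintro ⟨E, x⟩ hp
    simp only [mem_filter, mem_univ, true_and] at hp
    have h3 : ∀ z ∈ univ.filter (fun z : Ordr P × Fin (Fintype.card P) =>
        (pre z.1 z.2, z.1 z.2) = (E, x)), c (pre z.1 z.2) (z.1 z.2) = c E x := by
      intro z hz
      simp only [mem_filter, mem_univ, true_and, Prod.mk.injEq] at hz
      rw [hz.1, hz.2]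
    rw [Finset.sum_congr rfl h3, Finset.sum_const, nsmul_eq_mul, fiber_card E x hp, mul_comm]
  rw [h1, Finset.mul_sum]
  apply Finset.sum_congr rfl
  intro E _
  rw [Finset.mul_sum]
  apply Finset.sum_congr rfl
  intro x _
  rw [w_eq_wt]
  ring

theorem Fx_eq {P : Type} [Fintype P] (B : Finset P → P → Prop) :
    Fx B = 1 / ((Fintype.card P)! : ℝ) *
      ∑ ω : Ordr P, ((univ.filter (fun t : Fin (Fintype.card P) => B (pre ω t) (ω t))).card : ℝ) := by
  have h := flux_avg (fun (E : Finset P) (x : P) => if B E x then (1 : ℝ) else 0)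
  have h1 : Fx B = ∑ E : Finset P, ∑ x ∈ univ.filter (fun x => x ∉ E),
      (if B E x then (1 : ℝ) else 0) * w E := by
    unfold Fx
    apply Finset.sum_congr rfl
    intro E _
    rw [← Finset.filter_filter, Finset.sum_filter]
    apply Finset.sum_congr rfl
    intro x _
    by_cases hB : B E x
    · rw [if_pos hB, if_pos hB, one_mul]
    · rw [if_neg hB, if_neg hB, zero_mul]
  rw [h1, h]
  congr 1
  apply Finset.sum_congr rfl
  intro ω _
  rw [Finset.sum_boole]

end Pool.Agent.Work.MP_73831e_pr.J
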