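import Pool.Agent.Work.MP_73831e_pr.J.Bas
import Pool.Agent.Work.MP_73831e_pr.J.Flux

/-!
MODULE FluxB (M).  Fluxes as probabilities.

* `Fx_le_Pb`: by `Fx_eq`, `Fx B = (1/N!) ∑_ω #{t : B (pre ω t) (ω t)}`; for each `ω` the number of
  `t` is `≤ 1` (`h1`) and `0` unless `A ω` (`h2`).
* `exit_flux`: `Fx_le_Pb`; uniqueness: if `t < t'` both count then `F (pre ω t')` and
  `insert (ω t) (pre ω t) = pre ω (t+1) ⊆ pre ω t'` (`pre_succ`, `pre_mono`), so `F (pre ω (t+1))`,
  contradiction.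
* `ent_flux`: `Fx_le_Pb`; uniqueness: if `t < t'` both count then `K (pre ω (t+1))`,
  `pre ω (t+1) ⊆ pre ω t'`, `F (pre ω t')`, so `K (pre ω t')`, contradiction.
* `ent_flux_ge`: by `Fx_eq` it is enough that every `ω` with `∃ t, K (pre ω t)` has a `t < N` that
  counts: take `t₁` minimal with `K (pre ω t₁)`; `t₁ ≠ 0` (`pre_zero`, `h0`); `t₁ ≤ N` because
  `pre ω t = univ = pre ω N` for `t ≥ N`; put `t = t₁ - 1`: `¬ K (pre ω t)`, `K (pre ω (t+1))`,
  `F (pre ω (t+1))` (`hs`), so `F (pre ω t)` (`hF`).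
* `Pb_eq_le`: (two sets of `ω`s of the same size) not needed.
-/

open Finset
open scoped Classical Nat

namespace Pool.Agent.Work.MP_73831e_pr.J

private theorem Pb_eq {P : Type} [Fintype P] (A : Ordr P → Prop) :
    Pb A = 1 / ((Fintype.card P)! : ℝ) * ((univ.filter A).card : ℝ) := by
  unfold Pb
  rw [div_eq_mul_one_div, mul_comm]

variable {P : Type} [Fintype P] [DecidableEq P]

theorem Fx_le_Pb (B : Finset P → P → Prop) (A : Ordr P → Prop)
    (h1 : ∀ (ω : Ordr P) (t t' : Fin (Fintype.card P)), B (pre ω t) (ω t) → B (pre ω t') (ω t') →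
      t = t')
    (h2 : ∀ (ω : Ordr P) (t : Fin (Fintype.card P)), B (pre ω t) (ω t) → A ω) : Fx B ≤ Pb A := by
  rw [Fx_eq, Pb_eq]
  refine mul_le_mul_of_nonneg_left ?_ (by positivity)
  rw [← Finset.sum_boole]
  refine Finset.sum_le_sum fun ω _ => ?_
  by_cases hA : A ω
  · rw [if_pos hA]
    have h3 : (univ.filter (fun t : Fin (Fintype.card P) => B (pre ω t) (ω t))).card ≤ 1 := by
      rw [Finset.card_le_one]
      intro t ht t' ht'
      simp only [mem_filter, mem_univ, true_and] at ht ht'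
      exact h1 ω t t' ht ht'
    exact_mod_cast h3
  · rw [if_neg hA]
    have h3 : (univ.filter (fun t : Fin (Fintype.card P) => B (pre ω t) (ω t))) = ∅ := by
      rw [Finset.filter_eq_empty_iff]
      intro t _ ht
      exact hA (h2 ω t ht)
    rw [h3, Finset.card_empty, Nat.cast_zero]

omit [DecidableEq P] in
private theorem uniq_of_lt (B : Finset P → P → Prop)
    (h : ∀ (ω : Ordr P) (t t' : Fin (Fintype.card P)), (t : ℕ) < t' → B (pre ω t) (ω t) →
      ¬ B (pre ω t') (ω t')) :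
    ∀ (ω : Ordr P) (t t' : Fin (Fintype.card P)), B (pre ω t) (ω t) → B (pre ω t') (ω t') →
      t = t' := by
  intro ω t t' ht ht'
  rcases lt_trichotomy (t : ℕ) t' with h1 | h1 | h1
  · exact absurd ht' (h ω t t' h1 ht)
  · exact Fin.ext h1
  · exact absurd ht (h ω t' t h1 ht')

theorem exit_flux (F S : Finset P → Prop) (A : Ordr P → Prop)
    (hF : ∀ E E', E ⊆ E' → F E' → F E)
    (hA : ∀ (ω : Ordr P) (t : ℕ), t < Fintype.card P → F (pre ω t) → ¬ F (pre ω (t + 1)) →
      S (pre ω t) → A ω) :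
    Fx (fun E x => F E ∧ ¬ F (insert x E) ∧ S E) ≤ Pb A := by
  apply Fx_le_Pb
  · refine uniq_of_lt (fun E x => F E ∧ ¬ F (insert x E) ∧ S E) ?_
    rintro ω t t' htt ⟨_, h2, _⟩ ⟨h3, _, _⟩
    apply h2
    refine hF _ (pre ω t') ?_ h3
    have h4 := pre_succ ω t.2
    have h5 := pre_mono ω (t := (t : ℕ) + 1) (u := t') (by omega)
    rw [h4] at h5
    exact h5
  · rintro ω t ⟨h1, h2, h3⟩
    refine hA ω t t.2 h1 ?_ h3
    rw [pre_succ ω t.2]
    exact h2

theorem ent_flux (F K : Finset P → Prop) (S : Finset P → P → Prop) (A : Ordr P → Prop)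
    (hF : ∀ E E', E ⊆ E' → F E' → F E)
    (hK : ∀ E E', K E → E ⊆ E' → F E' → K E')
    (hA : ∀ (ω : Ordr P) (t : Fin (Fintype.card P)), F (pre ω t) → ¬ K (pre ω t) →
      K (pre ω (t + 1)) → S (pre ω t) (ω t) → A ω) :
    Fx (fun E x => F E ∧ ¬ K E ∧ K (insert x E) ∧ S E x) ≤ Pb A := by
  apply Fx_le_Pb
  · refine uniq_of_lt (fun E x => F E ∧ ¬ K E ∧ K (insert x E) ∧ S E x) ?_
    rintro ω t t' htt ⟨_, _, h2, _⟩ ⟨h3, h4, _, _⟩
    apply h4
    have h5 := pre_succ ω t.2
    have h6 := pre_mono ω (t := (t : ℕ) + 1) (u := t') (by omega)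
    rw [h5] at h6
    exact hK _ _ h2 h6 h3
  · rintro ω t ⟨h1, h2, h3, h4⟩
    refine hA ω t h1 h2 ?_ h4
    rw [pre_succ ω t.2]
    exact h3

theorem ent_flux_ge (F K : Finset P → Prop) (hF : ∀ E E', E ⊆ E' → F E' → F E)
    (hs : ∀ E, K E → F E) (h0 : ¬ K ∅) :
    Pb (fun ω : Ordr P => ∃ t, K (pre ω t)) ≤ Fx (fun E x => F E ∧ ¬ K E ∧ K (insert x E)) := by
  rw [Fx_eq, Pb_eq]
  refine mul_le_mul_of_nonneg_left ?_ (by positivity)
  rw [← Finset.sum_boole]
  refine Finset.sum_le_sum fun ω _ => ?_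
  by_cases hA : ∃ t, K (pre ω t)
  · rw [if_pos hA]
    rw [Nat.one_le_cast, Finset.one_le_card]
    · have h2 := Nat.find_spec hA
      obtain ⟨m, hm⟩ : ∃ m, Nat.find hA = m + 1 := by
        refine Nat.exists_eq_succ_of_ne_zero fun h => ?_
        rw [h, pre_zero] at h2
        exact h0 h2
      rw [hm] at h2
      have h3 : ¬ K (pre ω m) := Nat.find_min hA (by omega)
      have h4 : m < Fintype.card P := by
        by_contra hcon
        apply h3
        have h5 : pre ω (m + 1) = pre ω m := by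
          ext x
          rw [mem_pre, mem_pre]
          have := (ω.symm x).2
          constructor
          · intro _
            omega
          · intro _
            omega
        rw [← h5]
        exact h2
      refine ⟨⟨m, h4⟩, ?_⟩
      simp only [mem_filter, mem_univ, true_and]
      refine ⟨hF _ _ (pre_mono ω (Nat.le_succ m)) (hs _ h2), h3, ?_⟩
      rw [pre_succ ω h4] at h2
      exact h2
  · rw [if_neg hA]
    exact Nat.cast_nonneg _

end Pool.Agent.Work.MP_73831e_pr.J
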