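import Pool.Agent.Work.MP_73831e_pr.J.Bas
import Pool.Agent.Work.MP_73831e_pr.J.Num

/-!
MODULE NumB (M).  Asymptotic comparison of the weights; `N = NN n`, `2 N = n (n - 1)` (`two_NN`).
Uses only `Num`.
* `nu_le_w`: `nuR_eq`, `nuR_succ` and `(N - m)/(N+1) ≤ 1`, `(m+1)/(N+1) ≤ 1`.
* `nu_w_le`: `nuR N (m+1) = wR N m * (m+1)/(N+1)` and, for `m + 1 ≤ C n`,
  `(m+1)/(N+1) ≤ C n / (n(n-1)/2) = 2C/(n-1) ≤ 3C/n` for `n ≥ 3`.  `C n < NN n` for `n ≥ 2C + 2`.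
* `nu_w_ge`: `(m+1)/(N+1) ≥ (n/c₀)/(N+1) ≥ (n/c₀)/n² = 1/(c₀ n)` as `N + 1 ≤ n²` (`n ≥ 2`)
  (`c₀ = 0` is impossible for `n ≥ 1`).
* `nu_add_le`: induction on `j` with `nuR_step`; each factor `(i+1)/(N-i)` with `i + 1 ≤ C n` is
  `≤ C n / (n(n-1)/2 - C n) = 2C/(n-1-2C) ≤ 3C/n` for `n ≥ 6C + 3`.
* `nu_ratio`: by `nuR_pred`, `nuR (M-1) m = nuR M m * (M+1)/(M-m)` and
  `(M+1)/(M-m) = 1 + (m+1)/(M-m)`; for `N - n ≤ M ≤ N`, `m ≤ C n` this is
  `≤ 1 + 3(C+1)/n` for `n` large; the product of `q ≤ n` factors is `≤ (1+3(C+1)/n)^n ≤ exp(3(C+1))`.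
  So `K = exp (3 (C+1))` (or any larger number).
* `w_add_ge`: induction on `q` with `wR_step`: each factor `(i+1)/(N-i-1) ≥ (m+1)/N ≥
  (n/c₀)/(n²) = 1/(c₀ n)`, so `c = 1/(c₀+1)^q` works (`n` large so that `C n + q < NN n`).
-/

open Finset
open scoped Classical Nat

namespace Pool.Agent.Work.MP_73831e_pr.J

private theorem NN_real {n : ℕ} (h : 1 ≤ n) : 2 * (NN n : ℝ) = n * ((n : ℝ) - 1) := by
  have h1 := two_NN n
  have h2 : ((2 * NN n : ℕ) : ℝ) = ((n * (n - 1) : ℕ) : ℝ) := by rw [h1]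
  push_cast [Nat.cast_sub h] at h2
  exact h2

private theorem lt_NN {C n : ℕ} (h : 2 * C + 2 ≤ n) : C * n < NN n := by
  have h1 := two_NN n
  have h2 : n * (2 * C + 1) ≤ n * (n - 1) := Nat.mul_le_mul_left _ (by omega)
  have h3 : n * (2 * C + 1) = 2 * (C * n) + n := by ring
  omega

theorem nu_le_w {N m : ℕ} (h : m < N) : nuR N m ≤ wR N m ∧ nuR N (m + 1) ≤ wR N m := by
  have hm : (m : ℝ) + 1 ≤ N := by exact_mod_cast h
  have hm0 : (0 : ℝ) ≤ m := Nat.cast_nonneg m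
  constructor
  · rw [nuR_eq h]
    refine mul_le_of_le_one_right (wR_nonneg _ _) ?_
    rw [div_le_one (by positivity)]
    linarith
  · rw [nuR_succ h]
    refine mul_le_of_le_one_right (wR_nonneg _ _) ?_
    rw [div_le_one (by positivity)]
    linarith

theorem nu_w_le (C : ℕ) : ∃ n₀ : ℕ, ∀ n ≥ n₀, C * n < NN n ∧
    ∀ m < C * n, nuR (NN n) (m + 1) ≤ 3 * C / n * wR (NN n) m := by
  refine ⟨2 * C + 3, fun n hn => ?_⟩
  have h1 : C * n < NN n := lt_NN (by omega)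
  refine ⟨h1, fun m hm => ?_⟩
  rw [nuR_succ (hm.trans h1), mul_comm]
  refine mul_le_mul_of_nonneg_right ?_ (wR_nonneg _ _)
  have hn1 : 1 ≤ n := by omega
  have hN := NN_real hn1
  have hnr : (3 : ℝ) ≤ n := by exact_mod_cast (by omega : 3 ≤ n)
  have hmr : (m : ℝ) + 1 ≤ C * n := by exact_mod_cast hm
  have hC : (0 : ℝ) ≤ C := Nat.cast_nonneg C
  have hn0 : (0 : ℝ) < n := by linarith
  rw [div_le_div_iff₀ (by positivity) hn0]
  have e1 : ((m : ℝ) + 1) * n ≤ C * n * n := mul_le_mul_of_nonneg_right hmr hn0.le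
  have e2 : 0 ≤ (C : ℝ) * n * (n - 3) := by
    have : (0 : ℝ) ≤ n - 3 := by linarith
    positivity
  have e3 : 2 * (3 * (C : ℝ) * (NN n + 1)) = 3 * C * (2 * NN n) + 6 * C := by ring
  rw [hN] at e3
  nlinarith

theorem nu_w_ge (c₀ : ℕ) : ∃ n₀ : ℕ, ∀ n ≥ n₀, ∀ m < NN n, n ≤ c₀ * (m + 1) →
    1 / ((c₀ : ℝ) * n) * wR (NN n) m ≤ nuR (NN n) (m + 1) := by
  refine ⟨1, fun n hn m hm hc => ?_⟩
  rw [nuR_succ hm, mul_comm (wR (NN n) m)]
  refine mul_le_mul_of_nonneg_right ?_ (wR_nonneg _ _)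
  have hN := NN_real hn
  have hnr : (1 : ℝ) ≤ n := by exact_mod_cast hn
  have hc0 : 0 < c₀ := by
    rcases Nat.eq_zero_or_pos c₀ with h | h
    · rw [h, zero_mul] at hc
      omega
    · exact h
  have hc0r : (0 : ℝ) < c₀ := by exact_mod_cast hc0
  have hcr : (n : ℝ) ≤ c₀ * ((m : ℝ) + 1) := by exact_mod_cast hc
  rw [div_le_div_iff₀ (by positivity) (by positivity), one_mul]
  have e1 : (n : ℝ) * n ≤ c₀ * ((m : ℝ) + 1) * n := mul_le_mul_of_nonneg_right hcr (by linarith)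
  nlinarith

private theorem fac_le {C n i : ℕ} (hn : 6 * C + 3 ≤ n) (hi : i + 1 ≤ C * n) :
    ((i : ℝ) + 1) / ((NN n : ℝ) - i) ≤ 3 * C / n := by
  have hn1 : 1 ≤ n := by omega
  have hN := NN_real hn1
  have h1 : C * n < NN n := lt_NN (by omega)
  have hnr : 6 * (C : ℝ) + 3 ≤ n := by exact_mod_cast hn
  have hir : (i : ℝ) + 1 ≤ C * n := by exact_mod_cast hi
  have h1r : (C : ℝ) * n < NN n := by exact_mod_cast h1
  have hC : (0 : ℝ) ≤ C := Nat.cast_nonneg C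
  have hn0 : (0 : ℝ) < n := by linarith
  rw [div_le_div_iff₀ (by linarith) hn0]
  have e1 : ((i : ℝ) + 1) * n ≤ C * n * n := mul_le_mul_of_nonneg_right hir hn0.le
  have e2 : 3 * (C : ℝ) * (NN n - C * n) ≤ 3 * C * (NN n - i) := by
    refine mul_le_mul_of_nonneg_left ?_ (by positivity)
    linarith
  have e3 : 0 ≤ (C : ℝ) * n * (n - (6 * C + 3)) := by
    have : (0 : ℝ) ≤ n - (6 * C + 3) := by linarith
    positivity
  have e4 : 2 * (3 * (C : ℝ) * (NN n - C * n)) = 3 * C * (2 * NN n) - 6 * C * (C * n) := by ring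
  rw [hN] at e4
  nlinarith

theorem nu_add_le (C : ℕ) : ∃ n₀ : ℕ, ∀ n ≥ n₀, ∀ m j : ℕ, m + j ≤ C * n →
    nuR (NN n) (m + j) ≤ (3 * C / n : ℝ) ^ j * nuR (NN n) m := by
  refine ⟨6 * C + 3, fun n hn m j hj => ?_⟩
  have h1 : C * n < NN n := lt_NN (by omega)
  induction j with
  | zero => simp
  | succ j ih =>
    have ih' := ih (by omega)
    rw [← add_assoc, nuR_step (by omega)]
    have hf := fac_le (i := m + j) hn (by omega)
    have hC : (0 : ℝ) ≤ 3 * C / n := by positivity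
    have hf0 : (0 : ℝ) ≤ (((m + j : ℕ) : ℝ) + 1) / ((NN n : ℝ) - (m + j : ℕ)) := by
      have : ((m + j : ℕ) : ℝ) < NN n := by exact_mod_cast (by omega : m + j < NN n)
      refine div_nonneg (by positivity) (by linarith)
    calc nuR (NN n) (m + j) * ((((m + j : ℕ) : ℝ) + 1) / ((NN n : ℝ) - (m + j : ℕ)))
        ≤ ((3 * C / n : ℝ) ^ j * nuR (NN n) m) * (3 * C / n) := by
          refine mul_le_mul ih' hf hf0 ?_
          exact mul_nonneg (pow_nonneg hC _) (nuR_nonneg _ _)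
      _ = (3 * C / n : ℝ) ^ (j + 1) * nuR (NN n) m := by rw [pow_succ]; ring

private theorem fac_le2 {C n m M : ℕ} (hn : 6 * C + 9 ≤ n) (hm : m ≤ C * n)
    (hM : NN n ≤ M + n) : ((M : ℝ) + 1) / ((M : ℝ) - m) ≤ 1 + 3 * (C + 1) / n ∧
      (0 : ℝ) < (M : ℝ) - m := by
  have hn1 : 1 ≤ n := by omega
  have hN := NN_real hn1
  have hnr : 6 * (C : ℝ) + 9 ≤ n := by exact_mod_cast hn
  have hmr : (m : ℝ) ≤ C * n := by exact_mod_cast hm
  have hMr : (NN n : ℝ) ≤ M + n := by exact_mod_cast hM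
  have hC : (0 : ℝ) ≤ C := Nat.cast_nonneg C
  have hn0 : (0 : ℝ) < n := by linarith
  have e0 : (NN n : ℝ) - (C + 1) * n ≤ M - m := by linarith
  have e3 : 0 ≤ (n : ℝ) * (n - (6 * C + 9)) := by
    have : (0 : ℝ) ≤ n - (6 * C + 9) := by linarith
    positivity
  have e5 : (n : ℝ) * n ≤ 3 * ((NN n : ℝ) - (C + 1) * n) := by nlinarith
  have hpos : (0 : ℝ) < (M : ℝ) - m := by nlinarith
  refine ⟨?_, hpos⟩
  have e1 : ((M : ℝ) + 1) / ((M : ℝ) - m) = 1 + ((m : ℝ) + 1) / ((M : ℝ) - m) := by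
    field_simp
    ring
  rw [e1]
  refine add_le_add le_rfl ?_
  rw [div_le_div_iff₀ hpos hn0]
  have e2 : ((m : ℝ) + 1) * n ≤ (C + 1) * (n * n) := by
    have : (m : ℝ) + 1 ≤ (C + 1) * n := by nlinarith
    nlinarith
  have e4 : (C + 1 : ℝ) * (n * n) ≤ (C + 1) * (3 * (M - m)) :=
    mul_le_mul_of_nonneg_left (e5.trans (by linarith)) (by positivity)
  linarith

theorem nu_ratio (C : ℕ) : ∃ K : ℝ, 1 ≤ K ∧ ∃ n₀ : ℕ, ∀ n ≥ n₀, ∀ m q : ℕ, m ≤ C * n → q ≤ n →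
    m + q ≤ NN n ∧ nuR (NN n - q) m ≤ K * nuR (NN n) m := by
  refine ⟨Real.exp (3 * (C + 1)), Real.one_le_exp (by positivity), 6 * C + 9,
    fun n hn m q hm hq => ?_⟩
  have h1 : (C + 1) * n < NN n := lt_NN (by omega)
  have h1' : C * n + n < NN n := by
    have : (C + 1) * n = C * n + n := by ring
    omega
  have hn0 : (0 : ℝ) < n := by exact_mod_cast (by omega : 0 < n)
  refine ⟨by omega, ?_⟩
  have key : nuR (NN n - q) m ≤ (1 + 3 * (C + 1) / n : ℝ) ^ q * nuR (NN n) m := by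
    induction q with
    | zero => simp
    | succ q ih =>
      have ih' := ih (by omega)
      obtain ⟨M, hM⟩ : ∃ M, NN n - (q + 1) = M := ⟨_, rfl⟩
      have hM1 : NN n - q = M + 1 := by omega
      rw [hM1] at ih'
      rw [hM, nuR_pred (by omega)]
      obtain ⟨f1, f2⟩ := fac_le2 (M := M + 1) hn hm (by omega)
      push_cast at f1 f2
      have f3 : ((M : ℝ) + 2) / ((M : ℝ) + 1 - m) ≤ 1 + 3 * (C + 1) / n := by
        have : (M : ℝ) + 1 + 1 = M + 2 := by ring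
        rw [this] at f1
        exact f1
      calc nuR (M + 1) m * (((M : ℝ) + 2) / ((M : ℝ) + 1 - m))
          ≤ ((1 + 3 * (C + 1) / n : ℝ) ^ q * nuR (NN n) m) * (1 + 3 * (C + 1) / n) := by
            refine mul_le_mul ih' f3 (by positivity) ?_
            exact mul_nonneg (by positivity) (nuR_nonneg _ _)
        _ = (1 + 3 * (C + 1) / n : ℝ) ^ (q + 1) * nuR (NN n) m := by rw [pow_succ]; ring
  refine key.trans (mul_le_mul_of_nonneg_right ?_ (nuR_nonneg _ _))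
  have h2 : (1 + 3 * (C + 1) / n : ℝ) ≤ Real.exp (3 * (C + 1) / n) := by
    have := Real.add_one_le_exp (3 * (C + 1) / n : ℝ)
    linarith
  calc (1 + 3 * (C + 1) / n : ℝ) ^ q ≤ Real.exp (3 * (C + 1) / n) ^ q :=
        pow_le_pow_left₀ (by positivity) h2 q
    _ ≤ Real.exp (3 * (C + 1) / n) ^ n :=
        pow_le_pow_right₀ (Real.one_le_exp (by positivity)) hq
    _ = Real.exp (3 * (C + 1)) := by
        rw [← Real.exp_nat_mul]
        congr 1
        field_simp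

theorem w_add_ge (c₀ q C : ℕ) : ∃ c : ℝ, 0 < c ∧ ∃ n₀ : ℕ, ∀ n ≥ n₀, ∀ m < C * n,
    n ≤ c₀ * (m + 1) → c / (n : ℝ) ^ q * wR (NN n) m ≤ wR (NN n) (m + q) := by
  refine ⟨1 / ((c₀ : ℝ) + 1) ^ q, by positivity, 2 * C + 2 * q + 3, fun n hn m hm hc => ?_⟩
  have hn1 : 1 ≤ n := by omega
  have hN := NN_real hn1
  have hN2 := two_NN n
  have h1 : C * n + q < NN n := by
    have h2 : n * (2 * C + 2 * q + 2) ≤ n * (n - 1) := Nat.mul_le_mul_left _ (by omega)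
    have h3 : n * (2 * C + 2 * q + 2) = 2 * (C * n) + 2 * (q * n) + 2 * n := by ring
    have h4 : q * 1 ≤ q * n := Nat.mul_le_mul_left _ hn1
    omega
  have hn0 : (1 : ℝ) ≤ n := by exact_mod_cast hn1
  have hcr : (n : ℝ) ≤ c₀ * ((m : ℝ) + 1) := by exact_mod_cast hc
  have hf : ∀ i : ℕ, m + i + 1 < NN n → 1 / (((c₀ : ℝ) + 1) * n) ≤
      (((m + i : ℕ) : ℝ) + 1) / ((NN n : ℝ) - ((m + i : ℕ) : ℝ) - 1) := by
    intro i hi
    have hir : ((m + i : ℕ) : ℝ) + 1 < NN n := by exact_mod_cast hi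
    have hi0 : (0 : ℝ) ≤ i := Nat.cast_nonneg i
    have hm0 : (0 : ℝ) ≤ m := Nat.cast_nonneg m
    rw [div_le_div_iff₀ (by positivity) (by linarith), one_mul]
    push_cast at hir ⊢
    have e1 : (n : ℝ) * n ≤ c₀ * ((m : ℝ) + 1) * n := mul_le_mul_of_nonneg_right hcr (by linarith)
    have e2 : (0 : ℝ) ≤ i * (((c₀ : ℝ) + 1) * n) := by positivity
    have e3 : (0 : ℝ) ≤ ((m : ℝ) + 1) * n := by positivity
    nlinarith
  have key : ∀ j : ℕ, j ≤ q →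
      (1 / (((c₀ : ℝ) + 1) * n)) ^ j * wR (NN n) m ≤ wR (NN n) (m + j) := by
    intro j
    induction j with
    | zero => intro _; simp
    | succ j ih =>
      intro hj
      have ih' := ih (by omega)
      have h2 : m + j + 1 < NN n := by omega
      rw [← add_assoc, wR_step h2]
      have h3 := hf j h2
      calc (1 / (((c₀ : ℝ) + 1) * n)) ^ (j + 1) * wR (NN n) m
          = ((1 / (((c₀ : ℝ) + 1) * n)) ^ j * wR (NN n) m) * (1 / (((c₀ : ℝ) + 1) * n)) := by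
            rw [pow_succ]; ring
        _ ≤ _ := mul_le_mul ih' h3 (by positivity) (wR_nonneg _ _)
  have h4 := key q le_rfl
  have h5 : (1 / (((c₀ : ℝ) + 1) * n)) ^ q = 1 / ((c₀ : ℝ) + 1) ^ q / (n : ℝ) ^ q := by
    rw [one_div, inv_pow, mul_pow, div_div, one_div]
  rw [h5] at h4
  exact h4

end Pool.Agent.Work.MP_73831e_pr.J
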