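import Pool.Agent.Work.MP_73831e_pr.J.Bas
import Pool.Agent.Work.MP_73831e_pr.J.NumB
import Pool.Agent.Work.MP_73831e_pr.J.FluxB

/-!
MODULE Crit (M).  The total weight of the critical pairs.

Reindex `(D,e)`, `e ∈ D`, by `(E,e) = (D.erase e, e)`, `e ∉ E`:
the sum is `∑_E ∑_{e ∉ E, FF E, ¬ FF (insert e E)} nuR N (|E|+1)`.
For `|E| < C n`: `nuR N (|E|+1) ≤ (3C/n) w E` (`nu_w_le`) and the total exit flux is `≤ 1`
(`exit_flux` with `A = True`).  For `|E| ≥ C n`: `nuR N (|E|+1) ≤ w E` (`nu_le_w`) and the flux is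
`≤ Pb (Alive (k+1) (pre (C n))) ≤ 2^(-n)` (`alive_succ`, `hp.al`).  So `C₂ = 3C + 1` works.
-/

open Finset
open scoped Classical Nat

namespace Pool.Agent.Work.MP_73831e_pr.J

theorem crit_le {k : ℕ} {p : Par} (hp : POK k p) : ∃ C₂ : ℝ, 0 < C₂ ∧ ∃ n₀ : ℕ, ∀ n ≥ n₀,
    ∀ M, ∑ D : Finset (Pr n), ∑ _e ∈ univ.filter (fun e : Pr n => e ∈ D ∧ ¬ FF k M D ∧
      FF k M (D.erase e)), nu D ≤ C₂ / n := by
  obtain ⟨n₁, hn₁⟩ := nu_w_le p.C
  obtain ⟨n₂, hn₂⟩ := hp.al
  refine ⟨3 * p.C + 1, by positivity, max (max n₁ n₂) 1, fun n hn M => ?_⟩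
  have hn1 : n₁ ≤ n := le_trans (le_max_left _ _) (le_trans (le_max_left _ _) hn)
  have hn2 : n₂ ≤ n := le_trans (le_max_right _ _) (le_trans (le_max_left _ _) hn)
  have hn0 : 1 ≤ n := le_trans (le_max_right _ _) hn
  have hnR : (0 : ℝ) < n := by exact_mod_cast hn0
  have h1 := (hn₁ n hn1).2
  have h2 := hn₂ n hn2
  -- reindexing
  have hre : ∑ D : Finset (Pr n), ∑ _e ∈ univ.filter (fun e : Pr n => e ∈ D ∧ ¬ FF k M D ∧
      FF k M (D.erase e)), nu D =
      ∑ E : Finset (Pr n), ∑ _x ∈ univ.filter (fun x : Pr n => x ∉ E ∧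
        (FF k M E ∧ ¬ FF k M (insert x E))), nuR (NN n) (E.card + 1) := by
    have hL : ∑ D : Finset (Pr n), ∑ _e ∈ univ.filter (fun e : Pr n => e ∈ D ∧ ¬ FF k M D ∧
        FF k M (D.erase e)), nu D =
        ∑ z ∈ univ.filter (fun z : Finset (Pr n) × Pr n => z.2 ∈ z.1 ∧ ¬ FF k M z.1 ∧
          FF k M (z.1.erase z.2)), nu z.1 := by
      rw [Finset.sum_filter, Fintype.sum_prod_type]
      refine Finset.sum_congr rfl fun D _ => ?_
      rw [Finset.sum_filter]
    have hR : ∑ E : Finset (Pr n), ∑ _x ∈ univ.filter (fun x : Pr n => x ∉ E ∧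
        (FF k M E ∧ ¬ FF k M (insert x E))), nuR (NN n) (E.card + 1) =
        ∑ z ∈ univ.filter (fun z : Finset (Pr n) × Pr n => z.2 ∉ z.1 ∧
          (FF k M z.1 ∧ ¬ FF k M (insert z.2 z.1))), nuR (NN n) (z.1.card + 1) := by
      rw [Finset.sum_filter, Fintype.sum_prod_type]
      refine Finset.sum_congr rfl fun D _ => ?_
      rw [Finset.sum_filter]
    rw [hL, hR]
    refine Finset.sum_nbij' (fun z => (z.1.erase z.2, z.2)) (fun z => (insert z.2 z.1, z.2))
      ?_ ?_ ?_ ?_ ?_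
    · rintro ⟨D, e⟩ h
      simp only [mem_filter, mem_univ, true_and] at h ⊢
      rw [insert_erase h.1]
      exact ⟨notMem_erase _ _, h.2.2, h.2.1⟩
    · rintro ⟨E, e⟩ h
      simp only [mem_filter, mem_univ, true_and] at h ⊢
      rw [erase_insert h.1]
      exact ⟨mem_insert_self _ _, h.2.2, h.2.1⟩
    · rintro ⟨D, e⟩ h
      simp only [mem_filter, mem_univ, true_and] at h ⊢
      rw [insert_erase h.1]
    · rintro ⟨E, e⟩ h
      simp only [mem_filter, mem_univ, true_and] at h ⊢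
      rw [erase_insert h.1]
    · rintro ⟨D, e⟩ h
      simp only [mem_filter, mem_univ, true_and] at h ⊢
      rw [card_erase_add_one h.1]
      rfl
  rw [hre]
  have hF : ∀ E E' : Finset (Pr n), E ⊆ E' → FF k M E' → FF k M E := fun E E' h => FF.anti h
  have hflux1 : Fx (fun (E : Finset (Pr n)) x => FF k M E ∧ ¬ FF k M (insert x E) ∧ True) ≤ 1 :=
    (exit_flux (FF k M) (fun _ => True) (fun _ => True) hF (fun _ _ _ _ _ _ => trivial)).trans
      (Pb_le_one _)
  have hflux2 : Fx (fun (E : Finset (Pr n)) x => FF k M E ∧ ¬ FF k M (insert x E) ∧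
      p.C * n ≤ E.card) ≤ (1 / 2) ^ n := by
    refine (exit_flux (FF k M) (fun E => p.C * n ≤ E.card)
      (fun ω : Ordr (Pr n) => Alive (k + 1) (gr (pre ω (p.C * n)))) hF ?_).trans h2
    intro ω t ht hFt _ hc
    rw [pre_card ω ht.le] at hc
    exact alive_succ (hFt.1.anti (gr_mono (pre_mono ω hc)))
  have hterm : ∀ E : Finset (Pr n), ∀ x ∈ univ.filter (fun x : Pr n => x ∉ E ∧
      (FF k M E ∧ ¬ FF k M (insert x E))), nuR (NN n) (E.card + 1) ≤
      3 * p.C / n * w E + (if p.C * n ≤ E.card then w E else 0) := by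
    intro E x hx
    simp only [mem_filter, mem_univ, true_and] at hx
    have hlt : E.card < NN n := by
      unfold NN
      rw [← Finset.card_univ]
      exact Finset.card_lt_card (Finset.ssubset_iff_subset_ne.mpr
        ⟨Finset.subset_univ _, fun hh => hx.1 (hh ▸ mem_univ x)⟩)
    by_cases hc : p.C * n ≤ E.card
    · rw [if_pos hc]
      have h3 : nuR (NN n) (E.card + 1) ≤ w E := (nu_le_w hlt).2
      have h4 : 0 ≤ 3 * (p.C : ℝ) / n * w E := mul_nonneg (by positivity) (w_nonneg E)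
      linarith
    · rw [if_neg hc, add_zero]
      exact h1 E.card (by omega)
  have hite : ∀ E : Finset (Pr n), ∑ _x ∈ univ.filter (fun x : Pr n => x ∉ E ∧
      (FF k M E ∧ ¬ FF k M (insert x E))), (if p.C * n ≤ E.card then w E else 0) =
      ∑ _x ∈ univ.filter (fun x : Pr n => x ∉ E ∧ (FF k M E ∧ ¬ FF k M (insert x E) ∧
        p.C * n ≤ E.card)), w E := by
    intro E
    rw [Finset.sum_filter, Finset.sum_filter]
    refine Finset.sum_congr rfl fun x _ => ?_
    by_cases hc : p.C * n ≤ E.card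
    · rw [if_pos hc]
      by_cases h3 : x ∉ E ∧ (FF k M E ∧ ¬ FF k M (insert x E))
      · rw [if_pos h3, if_pos ⟨h3.1, h3.2.1, h3.2.2, hc⟩]
      · rw [if_neg h3, if_neg (fun h4 => h3 ⟨h4.1, h4.2.1, h4.2.2.1⟩)]
    · rw [if_neg hc, ite_self, if_neg (fun h4 => hc h4.2.2.2)]
  calc ∑ E : Finset (Pr n), ∑ _x ∈ univ.filter (fun x : Pr n => x ∉ E ∧
        (FF k M E ∧ ¬ FF k M (insert x E))), nuR (NN n) (E.card + 1)
      ≤ ∑ E : Finset (Pr n), ∑ _x ∈ univ.filter (fun x : Pr n => x ∉ E ∧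
        (FF k M E ∧ ¬ FF k M (insert x E))),
          (3 * p.C / n * w E + (if p.C * n ≤ E.card then w E else 0)) :=
        Finset.sum_le_sum fun E _ => Finset.sum_le_sum (hterm E)
    _ = 3 * p.C / n * Fx (fun (E : Finset (Pr n)) x => FF k M E ∧ ¬ FF k M (insert x E) ∧ True) +
        Fx (fun (E : Finset (Pr n)) x => FF k M E ∧ ¬ FF k M (insert x E) ∧
          p.C * n ≤ E.card) := by
        unfold Fx
        rw [Finset.mul_sum, ← Finset.sum_add_distrib]
        refine Finset.sum_congr rfl fun E _ => ?_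
        rw [Finset.sum_add_distrib, hite E, Finset.mul_sum]
        simp only [and_true]
    _ ≤ 3 * p.C / n * 1 + (1 / 2) ^ n := by
        gcongr
    _ ≤ (3 * p.C + 1) / n := by
        have h3 : (1 / 2 : ℝ) ^ n ≤ 1 / n := by
          rw [one_div_pow]
          refine one_div_le_one_div_of_le hnR ?_
          exact_mod_cast (Nat.lt_two_pow_self (n := n)).le
        rw [mul_one, add_div]
        linarith

end Pool.Agent.Work.MP_73831e_pr.J
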