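import Pool.Agent.Work.MP_73831e_pr.J.Bas

/-!
MODULE CritS (M).  The critical pairs of `D` are at most a constant times the vertices `x` with
`D \ Qx x ∈ F`.

Let `c(D) = {e ∈ D : FF k M (D.erase e)}` and `S` the set of the vertices of the pairs in
`c(D)`.  If `x ∈ S`, say `x ∈ e ∈ c(D)`, then `D \ Qx x ⊆ D.erase e`, so `FF k M (D \ Qx x)`
(`FF.anti`).  So it is enough to show `|c(D)| ≤ (3 + C K₁) |S|`.  All pairs of `c(D)` are edges of
`gr D` inside `S`, so `|c(D)| ≤ spn (gr D) S` and `|c(D)| ≤ |D| ≤ C n`.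
* `|S| ≤ 3`: the number of pairs inside `S` is at most `3 ≤ 3|S|` (if `c(D) ≠ ∅`; or `|c(D)| ≤
  |S|² ≤ 3 |S|`).
* `4 ≤ |S| ≤ n/K₁ + 1`: `4 spn < 5 |S|`.
* `|S| ≥ n/K₁ + 2`: `n ≤ K₁ |S|`, so `|c(D)| ≤ C n ≤ C K₁ |S|`.
-/

open Finset
open scoped Classical Nat

namespace Pool.Agent.Work.MP_73831e_pr.J

theorem crit_card {k M n K₁ C : ℕ} (hK : 1 ≤ K₁) {D : Finset (Pr n)}
    (hS : Sparse (n / K₁) (gr D)) (hD : D.card ≤ C * n) :
    (univ.filter (fun e : Pr n => e ∈ D ∧ FF k M (D.erase e))).card ≤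
      (3 + C * K₁) * (univ.filter (fun x : Fin n => FF k M (D \ Qx x))).card := by
  set c : Finset (Pr n) := univ.filter (fun e : Pr n => e ∈ D ∧ FF k M (D.erase e)) with hc
  set S : Finset (Fin n) := univ.filter (fun x : Fin n => ∃ e ∈ c, x ∈ e.1) with hSd
  have hST : S ⊆ univ.filter (fun x : Fin n => FF k M (D \ Qx x)) := by
    intro x hx
    rw [hSd, mem_filter] at hx
    obtain ⟨-, e, he, hxe⟩ := hx
    rw [hc, mem_filter] at he
    rw [mem_filter]
    refine ⟨mem_univ _, he.2.2.anti ?_⟩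
    intro a ha
    rw [mem_sdiff, mem_Qx] at ha
    rw [mem_erase]
    exact ⟨fun h => ha.2 (h ▸ hxe), ha.1⟩
  have hcD : c ⊆ D := fun e he => by
    rw [hc, mem_filter] at he
    exact he.2.1
  have himg : (c.image Subtype.val).card = c.card :=
    card_image_of_injective _ Subtype.val_injective
  have h1 : c.card ≤ spn (gr D) S := by
    rw [← himg, spn, ← Set.ncard_coe_finset]
    apply Set.ncard_le_ncard _ (Set.toFinite _)
    intro z hz
    rw [mem_coe, mem_image] at hz
    obtain ⟨e, he, rfl⟩ := hz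
    refine ⟨mem_edgeSet_gr.2 ⟨e, hcD he, rfl⟩, fun v hv => ?_⟩
    rw [hSd, mem_filter]
    exact ⟨mem_univ _, e, he, hv⟩
  have h2 : c.card ≤ S.card * S.card := by
    rw [← himg, ← card_product]
    refine (card_le_card (t := (S ×ˢ S).image (fun p : Fin n × Fin n => s(p.1, p.2))) ?_).trans
      card_image_le
    intro z hz
    rw [mem_image] at hz
    obtain ⟨e, he, rfl⟩ := hz
    obtain ⟨u, v, huv⟩ : ∃ u v, e.1 = s(u, v) := by
      obtain ⟨z, hz⟩ := e
      induction z using Sym2.ind with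
      | _ u v => exact ⟨u, v, rfl⟩
    rw [mem_image]
    refine ⟨(u, v), ?_, huv.symm⟩
    rw [mem_product, hSd, mem_filter, mem_filter]
    refine ⟨⟨mem_univ _, e, he, ?_⟩, ⟨mem_univ _, e, he, ?_⟩⟩
    · rw [huv]; exact Sym2.mem_mk_left _ _
    · rw [huv]; exact Sym2.mem_mk_right _ _
  have h3 : c.card ≤ (3 + C * K₁) * S.card := by
    rcases Nat.lt_or_ge S.card 4 with h4 | h4
    · calc c.card ≤ S.card * S.card := h2
        _ ≤ 3 * S.card := Nat.mul_le_mul_right _ (by omega)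
        _ ≤ (3 + C * K₁) * S.card := Nat.mul_le_mul_right _ (Nat.le_add_right _ _)
    · rcases Nat.lt_or_ge (n / K₁ + 1) S.card with h5 | h5
      · have h6 : n ≤ K₁ * S.card := by
          have h7 : n < K₁ * (n / K₁ + 1) := Nat.lt_mul_div_succ n (by omega)
          have h8 : K₁ * (n / K₁ + 1) ≤ K₁ * S.card := Nat.mul_le_mul_left _ h5.le
          omega
        calc c.card ≤ D.card := card_le_card hcD
          _ ≤ C * n := hD
          _ ≤ C * (K₁ * S.card) := Nat.mul_le_mul_left _ h6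
          _ = C * K₁ * S.card := by rw [Nat.mul_assoc]
          _ ≤ (3 + C * K₁) * S.card := Nat.mul_le_mul_right _ (Nat.le_add_left _ _)
      · have h6 := hS S h4 h5
        calc c.card ≤ 3 * S.card := by omega
          _ ≤ (3 + C * K₁) * S.card := Nat.mul_le_mul_right _ (Nat.le_add_right _ _)
  exact h3.trans (Nat.mul_le_mul_left _ (card_le_card hST))

end Pool.Agent.Work.MP_73831e_pr.J
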