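import Pool.Agent.Work.MP_73831e_pr.J.Bas
import Pool.Agent.Work.MP_73831e_pr.J.Flux

/-!
MODULE ExG (S-M).  Lower bound for the exit flux.

By `Fx_eq` it is enough that every `ω` with `¬ F (pre ω M)` and `T (pre ω M)` has at least one
`t < N` that counts: let `t₁` be minimal with `¬ F (pre ω t₁)`; `t₁ ≠ 0` (`pre_zero`, `h0`),
`t₁ ≤ M`; put `t = t₁ - 1 < M ≤ N`: `F (pre ω t)`, `¬ F (insert (ω t) (pre ω t))` (`pre_succ`),
`T (pre ω t₁)` as `pre ω t₁ ⊆ pre ω M` (`hT`), `|pre ω t| = t < M` (`pre_card`).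
So `Fx ≥ Pb (¬ F (pre M) ∧ T (pre M)) ≥ 1 - Pb (F (pre M)) - Pb (¬ T (pre M))` (the three events
cover everything: `Pb_or`, and `Pb True = 1`).
-/

open Finset
open scoped Classical Nat

namespace Pool.Agent.Work.MP_73831e_pr.J

private theorem Pb_true {P : Type} [Fintype P] : Pb (fun _ : Ordr P => True) = 1 := by
  unfold Pb
  rw [filter_true, card_ordr]
  have h : ((Fintype.card P)! : ℝ) ≠ 0 := by exact_mod_cast Nat.factorial_ne_zero _
  exact div_self h

private theorem Pb_le_Fx {P : Type} [Fintype P] (B : Finset P → P → Prop) (A : Ordr P → Prop)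
    (h : ∀ ω : Ordr P, A ω → ∃ t : Fin (Fintype.card P), B (pre ω t) (ω t)) : Pb A ≤ Fx B := by
  rw [Fx_eq]
  unfold Pb
  rw [div_eq_mul_inv, mul_comm, ← one_div]
  apply mul_le_mul_of_nonneg_left _ (by positivity)
  rw [← Finset.sum_boole]
  apply Finset.sum_le_sum
  intro ω _
  by_cases hω : A ω
  · rw [if_pos hω]
    obtain ⟨t, ht⟩ := h ω hω
    have hpos : 1 ≤ (univ.filter (fun t : Fin (Fintype.card P) => B (pre ω t) (ω t))).card :=
      Finset.card_pos.2 ⟨t, by simpa using ht⟩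
    exact_mod_cast hpos
  · rw [if_neg hω]
    positivity

theorem exit_flux_ge {P : Type} [Fintype P] [DecidableEq P] (F T : Finset P → Prop)
    (hT : ∀ E E', E ⊆ E' → T E' → T E) (h0 : F ∅) {M : ℕ} (hM : M ≤ Fintype.card P) :
    1 - Pb (fun ω : Ordr P => F (pre ω M)) - Pb (fun ω : Ordr P => ¬ T (pre ω M)) ≤
      Fx (fun E x => F E ∧ ¬ F (insert x E) ∧ T (insert x E) ∧ E.card < M) := by
  have h1 : Pb (fun ω : Ordr P => ¬ F (pre ω M) ∧ T (pre ω M)) ≤
      Fx (fun E x => F E ∧ ¬ F (insert x E) ∧ T (insert x E) ∧ E.card < M) := by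
    apply Pb_le_Fx
    intro ω hω
    have hex : ∃ t, ¬ F (pre ω t) := ⟨M, hω.1⟩
    have hmin := Nat.find_spec hex
    have hle : Nat.find hex ≤ M := Nat.find_min' hex hω.1
    have hne : Nat.find hex ≠ 0 := by
      intro h
      rw [h, pre_zero] at hmin
      exact hmin h0
    obtain ⟨t, ht⟩ := Nat.exists_eq_succ_of_ne_zero hne
    have htM : t < M := by omega
    have htN : t < Fintype.card P := by omega
    have hFt : F (pre ω t) := by
      by_contra hcon
      have := Nat.find_min' hex hcon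
      omega
    have hins : pre ω (t + 1) = insert (ω ⟨t, htN⟩) (pre ω t) := pre_succ ω htN
    refine ⟨⟨t, htN⟩, ?_⟩
    change F (pre ω t) ∧ ¬ F (insert (ω ⟨t, htN⟩) (pre ω t)) ∧
      T (insert (ω ⟨t, htN⟩) (pre ω t)) ∧ (pre ω t).card < M
    rw [← hins]
    refine ⟨hFt, ?_, ?_, ?_⟩
    · rw [ht] at hmin
      exact hmin
    · exact hT _ _ (pre_mono ω (by omega)) hω.2
    · rw [pre_card ω htN.le]
      exact htM
  have h3 : Pb (fun _ : Ordr P => True) ≤ Pb (fun ω : Ordr P => F (pre ω M)) +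
      (Pb (fun ω : Ordr P => ¬ T (pre ω M)) +
        Pb (fun ω : Ordr P => ¬ F (pre ω M) ∧ T (pre ω M))) := by
    refine (Pb_le_add (B := fun ω : Ordr P => F (pre ω M))
      (D := fun ω : Ordr P => ¬ T (pre ω M) ∨ (¬ F (pre ω M) ∧ T (pre ω M))) ?_).trans ?_
    · intro ω _
      by_cases hF : F (pre ω M)
      · exact Or.inl hF
      · by_cases hTT : T (pre ω M)
        · exact Or.inr (Or.inr ⟨hF, hTT⟩)
        · exact Or.inr (Or.inl hTT)
    · gcongr
      exact Pb_or _ _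
  rw [Pb_true] at h3
  linarith

end Pool.Agent.Work.MP_73831e_pr.J
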