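import Pool.Agent.Work.MP_73831e_pr.J.Bas
import Pool.Agent.Work.MP_73831e_pr.Edges
import Pool.Agent.Work.MP_73831e_pr.Nbr

/-!
MODULE Few (M).  A sparse graph with few edges is in `F`.

Let `E` have at most `n/(4K₁)` pairs and `Sparse (n/K₁) (gr E)`.
(1) `Alive k`: every finite set `S` of vertices admits a proper `k`-colouring of the graph induced
on `S`, by induction on `|S|`: it is enough that every nonempty set `S` has a vertex with at most
`2` neighbours inside `S` (remove it, colour the rest, `k ≥ 3` colours leave one free; cf.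
`Peel_free`).  If `S` contains an isolated vertex of `gr E` this is clear.  Otherwise every vertex
of `S` is an end of a pair of `E`, so `|S| ≤ 2|E| ≤ n/(2K₁) ≤ n/K₁ + 1`.  If `|S| ≤ 3` every vertex
has at most `2` neighbours in `S`.  If `|S| ≥ 4` then `4 spn S < 5 |S|`; if all vertices had
at least `3` neighbours in `S` then `2 spn S ≥ 3|S|`, so `4 spn S ≥ 6 |S|`, contradiction
(`2 spn S = ∑_{v ∈ S} deg_S v`: count the ordered pairs `(u,v) ∈ S × S`, `u ~ v`, two for each
edge inside `S`).
(2) No `Um k M`: `Um k M → Um k 4` (`Um.of_le`), `sparse_um` gives `Um k (n/K₁ + 2)`, and `um_card`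
gives `n/K₁ + 2 ≤ |E| ≤ n/(4K₁)`, impossible.
-/

open Finset
open scoped Classical Nat

namespace Pool.Agent.Work.MP_73831e_pr.J

private theorem few_free {V : Type} [Finite V] {k : ℕ} (S : Set V) (hS : S.ncard < k)
    (f : V → Fin k) : ∃ c, ∀ v ∈ S, f v ≠ c := by
  by_contra h
  push Not at h
  have h1 : f '' S = Set.univ := by
    ext c; simp only [Set.mem_image, Set.mem_univ, iff_true]; exact h c
  have h2 : (f '' S).ncard ≤ S.ncard := Set.ncard_image_le (Set.toFinite _)
  rw [h1, Set.ncard_univ, Nat.card_eq_fintype_card, Fintype.card_fin] at h2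
  omega

private theorem few_sum {n : ℕ} (G : SimpleGraph (Fin n)) (S : Finset (Fin n)) :
    ∑ v ∈ S, (S.filter (fun u => G.Adj v u)).card ≤ 2 * spn G S := by
  obtain ⟨D, hD⟩ : ∃ D : Finset (Fin n × Fin n),
      D = (S ×ˢ S).filter (fun z => G.Adj z.1 z.2) := ⟨_, rfl⟩
  have h1 : D.card = ∑ v ∈ S, (S.filter (fun u => G.Adj v u)).card := by
    rw [hD, Finset.card_filter, Finset.sum_product]
    refine sum_congr rfl fun v _ => ?_
    rw [Finset.card_filter]
  rw [← h1]
  have h2 : D.card ≤ 2 * (D.image (fun z => s(z.1, z.2))).card := by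
    refine Finset.card_le_mul_card_image D 2 fun e _ => ?_
    induction e using Sym2.ind with
    | _ a b =>
      refine (card_le_card (t := {(a, b), (b, a)}) ?_).trans card_le_two
      intro z hz
      rw [mem_filter] at hz
      rcases Sym2.eq_iff.1 hz.2 with ⟨h, h'⟩ | ⟨h, h'⟩
      · rw [mem_insert]; left; exact Prod.ext h h'
      · rw [mem_insert, mem_singleton]; right; exact Prod.ext h h'
  refine h2.trans (Nat.mul_le_mul_left 2 ?_)
  unfold spn
  rw [← Set.ncard_coe_finset]
  apply Set.ncard_le_ncard _ (Set.toFinite _)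
  intro e he
  rw [mem_coe, mem_image] at he
  obtain ⟨z, hz, rfl⟩ := he
  rw [hD, mem_filter, mem_product] at hz
  refine ⟨hz.2, fun w hw => ?_⟩
  rcases Sym2.mem_iff.1 hw with rfl | rfl
  · exact hz.1.1
  · exact hz.1.2

private theorem few_spn {n : ℕ} (E : Finset (Pr n)) (S : Finset (Fin n)) :
    spn (gr E) S ≤ E.card := by
  unfold spn
  calc _ ≤ (Subtype.val '' (E : Set (Pr n))).ncard := by
        apply Set.ncard_le_ncard _ (Set.toFinite _)
        rintro e ⟨he, -⟩
        rw [mem_edgeSet_gr] at he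
        obtain ⟨x, hx, rfl⟩ := he
        exact ⟨x, hx, rfl⟩
    _ ≤ (E : Set (Pr n)).ncard := Set.ncard_image_le (Set.toFinite _)
    _ = E.card := Set.ncard_coe_finset _

private theorem few_col {n k : ℕ} (hk : 3 ≤ k) (G : SimpleGraph (Fin n))
    (h : ∀ S : Finset (Fin n), S.Nonempty →
      ∃ v ∈ S, (S.filter (fun u => G.Adj v u)).card ≤ 2) :
    ∀ (m : ℕ) (S : Finset (Fin n)), S.card = m →
      ∃ f : Fin n → Fin k, ∀ u ∈ S, ∀ v ∈ S, G.Adj u v → f u ≠ f v := by
  intro m
  induction m with
  | zero =>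
    intro S hS
    refine ⟨fun _ => ⟨0, by omega⟩, fun u hu => ?_⟩
    rw [card_eq_zero.1 hS] at hu
    exact absurd hu (notMem_empty u)
  | succ m ih =>
    intro S hS
    obtain ⟨v, hv, hd⟩ := h S (card_pos.1 (by omega))
    obtain ⟨f, hf⟩ := ih (S.erase v) (by rw [card_erase_of_mem hv]; omega)
    obtain ⟨c, hc⟩ := few_free (((S.filter (fun u => G.Adj v u)) : Finset (Fin n)) : Set (Fin n))
      (k := k) (by rw [Set.ncard_coe_finset]; omega) f
    refine ⟨Function.update f v c, ?_⟩
    intro u hu w hw huw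
    by_cases hu' : u = v
    · subst hu'
      rw [Function.update_self, Function.update_of_ne huw.ne']
      exact (hc w (mem_coe.2 (mem_filter.2 ⟨hw, huw⟩))).symm
    · by_cases hw' : w = v
      · subst hw'
        rw [Function.update_of_ne hu', Function.update_self]
        exact hc u (mem_coe.2 (mem_filter.2 ⟨hu, huw.symm⟩))
      · rw [Function.update_of_ne hu', Function.update_of_ne hw']
        exact hf u (mem_erase.2 ⟨hu', hu⟩) w (mem_erase.2 ⟨hw', hw⟩) huw

theorem few_edges {k M n : ℕ} (hk : 3 ≤ k) (hM : 4 ≤ M) {K₁ : ℕ} (hK : 1 ≤ K₁)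
    {E : Finset (Pr n)} (hS : Sparse (n / K₁) (gr E)) (hE : 4 * K₁ * E.card ≤ n) : FF k M E := by
  have hdiv : n < K₁ * (n / K₁ + 1) := Nat.lt_mul_div_succ n (by omega)
  constructor
  · have hmain : ∀ S : Finset (Fin n), S.Nonempty →
        ∃ v ∈ S, (S.filter (fun u => (gr E).Adj v u)).card ≤ 2 := by
      intro S hSne
      by_contra hcon
      push Not at hcon
      have h1 := few_sum (gr E) S
      have h2 := few_spn E S
      have h3 : 3 * S.card ≤ ∑ v ∈ S, (S.filter (fun u => (gr E).Adj v u)).card := by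
        rw [mul_comm, ← smul_eq_mul, ← sum_const]
        exact sum_le_sum fun v hv => hcon v hv
      obtain ⟨v, hv⟩ := hSne
      have h4 : 4 ≤ S.card := by
        have h5 := hcon v hv
        have h6 : (S.filter (fun u => (gr E).Adj v u)) ⊆ S.erase v := by
          intro u hu
          rw [mem_filter] at hu
          exact mem_erase.2 ⟨hu.2.ne', hu.1⟩
        have h7 := card_le_card h6
        rw [card_erase_of_mem hv] at h7
        omega
      have h8 : S.card ≤ E.card := by omega
      have h9 : E.card ≤ n / K₁ := by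
        rw [Nat.le_div_iff_mul_le (by omega)]
        nlinarith
      have h10 := hS S h4 (by omega)
      omega
    obtain ⟨f, hf⟩ := few_col hk (gr E) hmain _ univ rfl
    exact ⟨f, fun u v huv => hf u (mem_univ u) v (mem_univ v) huv⟩
  · intro hU
    have h4 : Um k 4 (gr E) := hU.of_le hM
    have h5 := um_card hk le_rfl h4
    have h6 := sparse_um hk hS h4
    have h7 : 4 ≤ n / K₁ + 2 := by
      have h8 : 2 ≤ n / K₁ := by
        rw [Nat.le_div_iff_mul_le (by omega)]
        nlinarith
      omega
    have h9 := um_card hk h7 h6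
    nlinarith

end Pool.Agent.Work.MP_73831e_pr.J
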