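import Pool.Agent.Work.MP_73831e_pr.J.Bas
import Pool.Agent.Work.MP_73831e_pr.J.Num

/-!
MODULE Proj (S-M).  Projectivity of `ν`.

`sum_powerset_nu`: induction on `Q` (`Finset.induction_on`, `Finset.sum_powerset_insert`):
`∑_{S ⊆ insert a Q} nuR N (m+|S|) = ∑_{S ⊆ Q} (nuR N (m+|S|) + nuR N (m+|S|+1))
= ∑_{S ⊆ Q} nuR (N-1) (m+|S|)` by `nuR_proj` (with `N = N' + 1`, `m + |S| ≤ N'`), and then the
induction hypothesis with `N - 1`.
`sum_superset_nu`: the map `S ↦ T ∪ S` is a bijection from the subsets of `Q \ T` to the sets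
`S` with `T ⊆ S ⊆ Q`, with `|T ∪ S| = |T| + |S|`; apply the first part to `Q \ T`, `m = g + |T|`.
-/

open Finset
open scoped Classical Nat

namespace Pool.Agent.Work.MP_73831e_pr.J

theorem sum_powerset_nu {P : Type} [DecidableEq P] (Q : Finset P) (N m : ℕ)
    (h : m + Q.card ≤ N) : ∑ S ∈ Q.powerset, nuR N (m + S.card) = nuR (N - Q.card) m := by
  induction Q using Finset.induction_on generalizing N with
  | empty => simp
  | insert a Q ha ih =>
    rw [card_insert_of_notMem ha] at h ⊢
    obtain ⟨N', rfl⟩ : ∃ N', N = N' + 1 := ⟨N - 1, by omega⟩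
    rw [sum_powerset_insert ha]
    have e : ∀ t ∈ Q.powerset, nuR (N' + 1) (m + (insert a t).card) =
        nuR (N' + 1) (m + t.card + 1) := by
      intro t ht
      rw [card_insert_of_notMem (fun hh => ha (mem_powerset.mp ht hh))]
      rfl
    have e2 : ∀ t ∈ Q.powerset, nuR (N' + 1) (m + t.card) + nuR (N' + 1) (m + t.card + 1) =
        nuR N' (m + t.card) := by
      intro t ht
      have h1 := card_le_card (mem_powerset.mp ht)
      exact nuR_proj (by omega)
    rw [sum_congr rfl e, ← sum_add_distrib, sum_congr rfl e2, ih N' (by omega)]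
    congr 1
    omega

theorem sum_superset_nu {P : Type} [DecidableEq P] (Q T : Finset P) (hT : T ⊆ Q) (N g : ℕ)
    (h : g + Q.card ≤ N) :
    ∑ S ∈ Q.powerset.filter (fun S => T ⊆ S), nuR N (g + S.card) =
      nuR (N - (Q.card - T.card)) (g + T.card) := by
  have hc := card_le_card hT
  have h1 : ∑ S ∈ Q.powerset.filter (fun S => T ⊆ S), nuR N (g + S.card) =
      ∑ S ∈ (Q \ T).powerset, nuR N (g + T.card + S.card) := by
    refine sum_nbij' (fun S => S \ T) (fun S => T ∪ S) ?_ ?_ ?_ ?_ ?_
    · intro S hS
      rw [mem_filter, mem_powerset] at hS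
      rw [mem_powerset]
      exact sdiff_subset_sdiff hS.1 (Subset.refl _)
    · intro S hS
      rw [mem_powerset] at hS
      rw [mem_filter, mem_powerset]
      exact ⟨union_subset hT (hS.trans sdiff_subset), subset_union_left⟩
    · intro S hS
      rw [mem_filter] at hS
      exact union_sdiff_of_subset hS.2
    · intro S hS
      rw [mem_powerset] at hS
      have hd : Disjoint S T := disjoint_of_subset_left hS disjoint_sdiff_self_left
      exact union_sdiff_cancel_left hd.symm
    · intro S hS
      rw [mem_filter] at hS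
      have h2 := card_sdiff_add_card_eq_card hS.2
      congr 1
      omega
  rw [h1, sum_powerset_nu (Q \ T) N (g + T.card) (by rw [card_sdiff_of_subset hT]; omega),
    card_sdiff_of_subset hT]

end Pool.Agent.Work.MP_73831e_pr.J
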