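import Pool.Agent.Work.MP_73831e_pr.J.Bas
import Pool.Agent.Work.MP_73831e_pr.J.NumB
import Pool.Agent.Work.MP_73831e_pr.J.Proj

/-!
MODULE Trim (M).  Trimming to fully critical vertices.

Fix `x`.  Every `D` is `G ∪ S` with `G = D \ Qx x`, `S = D ∩ Qx x` (disjoint).  Fix `G` (no pair
of `G` contains `x`) with `FF k M G`, `|G| ≤ C n`.  For `S ⊆ Qx x` with `¬ FF (G ∪ S)` and
`R (G ∪ S) x` choose a minimal `T ⊆ S` with `¬ FF k M (G ∪ T)`.  Then `x` is fully critical in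
`G ∪ T`: `¬ FF (G ∪ T)`; `(G ∪ T) \ Qx x = G ∈ F`; for `e ∈ G ∪ T` with `x ∈ e`: `e ∈ T` and
`(G ∪ T).erase e = G ∪ T.erase e ∈ F` by minimality.  And `R (G ∪ T) x` by the hypothesis on `R`
(`G ∪ T ⊆ G ∪ S`, same `\ Qx x`).  Hence
`∑_S ν(G ∪ S) ≤ ∑_{T : fc (G ∪ T) x, R} ∑_{T ⊆ S ⊆ Qx x} nuR N (|G| + |S|)` and by
`sum_superset_nu` the inner sum is `nuR (N - q) (|G| + |T|)` with `q = |Qx x| - |T| ≤ n - 1`
(`card_Qx`), which is `≤ K nuR N (|G|+|T|) = K ν(G ∪ T)` by `nu_ratio (C+1)`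
(`|G| + |T| ≤ C n + n`).  Sum over `G` and `x`: the pairs `(G, T)` correspond to `D' = G ∪ T`.
(Technically: for fixed `x` one can bound, for each `D` in the left sum, `ν(D) ≤
∑_{D' : fc D' x, R D' x, D' ⊆ D, D' \ Qx x = D \ Qx x} ν(D)`, swap the sums, and for fixed `D'`
reindex `{D : D' ⊆ D, D \ Qx x = D' \ Qx x}` by `S = D ∩ Qx x ⊇ T = D' ∩ Qx x`.)
-/

open Finset
open scoped Classical Nat

namespace Pool.Agent.Work.MP_73831e_pr.J

private theorem exists_trim {n k M : ℕ} {D : Finset (Pr n)} {x : Fin n} (h1 : ¬ FF k M D)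
    (h2 : FF k M (D \ Qx x)) : ∃ D' : Finset (Pr n), D' ⊆ D ∧ D' \ Qx x = D \ Qx x ∧
      fc k M D' x := by
  have hne : ((D ∩ Qx x).powerset.filter (fun T => ¬ FF k M ((D \ Qx x) ∪ T))).Nonempty := by
    refine ⟨D ∩ Qx x, ?_⟩
    rw [mem_filter, mem_powerset]
    refine ⟨Subset.refl _, ?_⟩
    rw [sdiff_union_inter]
    exact h1
  obtain ⟨T, hT, hmin⟩ := exists_min_image _ (fun T : Finset (Pr n) => T.card) hne
  rw [mem_filter, mem_powerset] at hT
  obtain ⟨hTs, hTf⟩ := hT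
  have hTQ : T ⊆ Qx x := hTs.trans inter_subset_right
  have hsd : ((D \ Qx x) ∪ T) \ Qx x = D \ Qx x := by
    ext e
    simp only [mem_sdiff, mem_union]
    constructor
    · rintro ⟨h | h, h3⟩
      · exact h
      · exact absurd (hTQ h) h3
    · intro h
      exact ⟨Or.inl h, h.2⟩
  refine ⟨(D \ Qx x) ∪ T, union_subset sdiff_subset (hTs.trans inter_subset_left), hsd, hTf, ?_, ?_⟩
  · rw [hsd]; exact h2
  · intro e he hxe
    have heT : e ∈ T := by
      rcases mem_union.mp he with h | h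
      · exact absurd (mem_Qx.mpr hxe) (mem_sdiff.mp h).2
      · exact h
    have hee : ((D \ Qx x) ∪ T).erase e = (D \ Qx x) ∪ T.erase e := by
      ext a
      simp only [mem_erase, mem_union, mem_sdiff]
      constructor
      · rintro ⟨h3, h4 | h4⟩
        · exact Or.inl h4
        · exact Or.inr ⟨h3, h4⟩
      · rintro (h4 | ⟨h3, h4⟩)
        · refine ⟨?_, Or.inl h4⟩
          rintro rfl
          exact h4.2 (mem_Qx.mpr hxe)
        · exact ⟨h3, Or.inr h4⟩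
    rw [hee]
    by_contra hcon
    have h5 := hmin (T.erase e) (by
      rw [mem_filter, mem_powerset]
      exact ⟨(erase_subset _ _).trans hTs, hcon⟩)
    have h6 := card_erase_lt_of_mem heT
    omega

private theorem sum_fib {n : ℕ} (D' : Finset (Pr n)) (x : Fin n)
    (h : (D' \ Qx x).card + (Qx x).card ≤ NN n) :
    ∑ D ∈ univ.filter (fun D : Finset (Pr n) => D' ⊆ D ∧ D' \ Qx x = D \ Qx x), nu D =
      nuR (NN n - ((Qx x).card - (D' ∩ Qx x).card)) D'.card := by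
  have hcard : D'.card = (D' \ Qx x).card + (D' ∩ Qx x).card :=
    (card_sdiff_add_card_inter D' (Qx x)).symm
  rw [hcard, ← sum_superset_nu (Qx x) (D' ∩ Qx x) inter_subset_right (NN n) (D' \ Qx x).card h]
  refine sum_nbij' (fun D => D ∩ Qx x) (fun S => (D' \ Qx x) ∪ S) ?_ ?_ ?_ ?_ ?_
  · intro D hD
    rw [mem_filter] at hD
    rw [mem_filter, mem_powerset]
    exact ⟨inter_subset_right, inter_subset_inter_right hD.2.1⟩
  · intro S hS
    rw [mem_filter, mem_powerset] at hS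
    rw [mem_filter]
    refine ⟨mem_univ _, ?_, ?_⟩
    · intro e he
      by_cases hq : e ∈ Qx x
      · exact mem_union_right _ (hS.2 (mem_inter.mpr ⟨he, hq⟩))
      · exact mem_union_left _ (mem_sdiff.mpr ⟨he, hq⟩)
    · ext e
      simp only [mem_sdiff, mem_union]
      constructor
      · intro h3
        exact ⟨Or.inl h3, h3.2⟩
      · rintro ⟨h3 | h3, h4⟩
        · exact h3
        · exact absurd (hS.1 h3) h4
  · intro D hD
    rw [mem_filter] at hD
    rw [hD.2.2, sdiff_union_inter]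
  · intro S hS
    rw [mem_filter, mem_powerset] at hS
    ext e
    simp only [mem_inter, mem_union, mem_sdiff]
    constructor
    · rintro ⟨h3 | h3, h4⟩
      · exact absurd h4 h3.2
      · exact h3
    · intro h3
      exact ⟨Or.inr h3, hS.1 h3⟩
  · intro D hD
    rw [mem_filter] at hD
    unfold nu
    rw [hD.2.2, card_sdiff_add_card_inter]
    rfl

theorem trim (C : ℕ) : ∃ K : ℝ, 1 ≤ K ∧ ∃ n₀ : ℕ, ∀ n ≥ n₀, ∀ k M : ℕ,
    ∀ R : Finset (Pr n) → Fin n → Prop,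
    (∀ D D' x, D' ⊆ D → D' \ Qx x = D \ Qx x → R D x → R D' x) →
    ∑ D : Finset (Pr n), ∑ _x ∈ univ.filter (fun x => ¬ FF k M D ∧ FF k M (D \ Qx x) ∧
      (D \ Qx x).card ≤ C * n ∧ R D x), nu D ≤ K * Phi k M R := by
  obtain ⟨K, hK, n₀, hn₀⟩ := nu_ratio (C + 1)
  refine ⟨K, hK, n₀, fun n hn k M R hR => ?_⟩
  have hN : ∀ m q : ℕ, m ≤ (C + 1) * n → q ≤ n →
    m + q ≤ NN n ∧ nuR (NN n - q) m ≤ K * nuR (NN n) m := hn₀ n hn
  have hL : ∑ D : Finset (Pr n), ∑ _x ∈ univ.filter (fun x => ¬ FF k M D ∧ FF k M (D \ Qx x) ∧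
      (D \ Qx x).card ≤ C * n ∧ R D x), nu D =
      ∑ x : Fin n, ∑ D ∈ univ.filter (fun D : Finset (Pr n) => ¬ FF k M D ∧ FF k M (D \ Qx x) ∧
      (D \ Qx x).card ≤ C * n ∧ R D x), nu D := by
    simp only [sum_filter]
    rw [sum_comm]
  have hP : Phi k M R = ∑ x : Fin n, ∑ D ∈ univ.filter (fun D : Finset (Pr n) =>
      fc k M D x ∧ R D x), nu D := by
    unfold Phi
    simp only [sum_filter]
    rw [sum_comm]
  rw [hL, hP, mul_sum]
  refine sum_le_sum fun x _ => ?_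
  -- fixed `x`
  have hq : (Qx x).card ≤ n := by rw [card_Qx]; omega
  have step1 : ∑ D ∈ univ.filter (fun D : Finset (Pr n) => ¬ FF k M D ∧ FF k M (D \ Qx x) ∧
      (D \ Qx x).card ≤ C * n ∧ R D x), nu D ≤
      ∑ D ∈ univ.filter (fun D : Finset (Pr n) => ¬ FF k M D ∧ FF k M (D \ Qx x) ∧
      (D \ Qx x).card ≤ C * n ∧ R D x),
        ∑ _D' ∈ univ.filter (fun D' : Finset (Pr n) => (fc k M D' x ∧ R D' x ∧
          (D' \ Qx x).card ≤ C * n) ∧ (D' ⊆ D ∧ D' \ Qx x = D \ Qx x)), nu D := by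
    refine sum_le_sum fun D hD => ?_
    rw [mem_filter] at hD
    obtain ⟨_, h1, h2, h3, h4⟩ := hD
    obtain ⟨D', h5, h6, h7⟩ := exists_trim h1 h2
    refine single_le_sum (f := fun _ : Finset (Pr n) => nu D) (fun _ _ => nu_nonneg D)
      (a := D') ?_
    rw [mem_filter]
    exact ⟨mem_univ _, ⟨h7, hR D D' x h5 h6 h4, by rw [h6]; exact h3⟩, h5, h6⟩
  have step2 : ∑ D ∈ univ.filter (fun D : Finset (Pr n) => ¬ FF k M D ∧ FF k M (D \ Qx x) ∧
      (D \ Qx x).card ≤ C * n ∧ R D x),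
        ∑ _D' ∈ univ.filter (fun D' : Finset (Pr n) => (fc k M D' x ∧ R D' x ∧
          (D' \ Qx x).card ≤ C * n) ∧ (D' ⊆ D ∧ D' \ Qx x = D \ Qx x)), nu D ≤
      ∑ D : Finset (Pr n),
        ∑ _D' ∈ univ.filter (fun D' : Finset (Pr n) => (fc k M D' x ∧ R D' x ∧
          (D' \ Qx x).card ≤ C * n) ∧ (D' ⊆ D ∧ D' \ Qx x = D \ Qx x)), nu D :=
    sum_le_sum_of_subset_of_nonneg (filter_subset _ _)
      fun D _ _ => sum_nonneg fun _ _ => nu_nonneg D
  have step3 : ∑ D : Finset (Pr n),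
        ∑ _D' ∈ univ.filter (fun D' : Finset (Pr n) => (fc k M D' x ∧ R D' x ∧
          (D' \ Qx x).card ≤ C * n) ∧ (D' ⊆ D ∧ D' \ Qx x = D \ Qx x)), nu D =
      ∑ D' ∈ univ.filter (fun D' : Finset (Pr n) => fc k M D' x ∧ R D' x ∧
          (D' \ Qx x).card ≤ C * n),
        ∑ D ∈ univ.filter (fun D : Finset (Pr n) => D' ⊆ D ∧ D' \ Qx x = D \ Qx x), nu D := by
    refine sum_comm' fun D D' => ?_
    simp only [mem_filter, mem_univ, true_and]
    tauto
  have step4 : ∑ D' ∈ univ.filter (fun D' : Finset (Pr n) => fc k M D' x ∧ R D' x ∧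
          (D' \ Qx x).card ≤ C * n),
        ∑ D ∈ univ.filter (fun D : Finset (Pr n) => D' ⊆ D ∧ D' \ Qx x = D \ Qx x), nu D ≤
      ∑ D' ∈ univ.filter (fun D' : Finset (Pr n) => fc k M D' x ∧ R D' x ∧
          (D' \ Qx x).card ≤ C * n), K * nu D' := by
    refine sum_le_sum fun D' hD' => ?_
    rw [mem_filter] at hD'
    obtain ⟨_, _, _, h3⟩ := hD'
    have e1 : C * n ≤ (C + 1) * n := Nat.mul_le_mul_right _ (by omega)
    have e2 : (C + 1) * n = C * n + n := by ring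
    rw [sum_fib D' x (hN _ _ (h3.trans e1) hq).1]
    have hcard : D'.card = (D' \ Qx x).card + (D' ∩ Qx x).card :=
      (card_sdiff_add_card_inter D' (Qx x)).symm
    have hle : (D' ∩ Qx x).card ≤ (Qx x).card := card_le_card inter_subset_right
    exact (hN D'.card ((Qx x).card - (D' ∩ Qx x).card) (by omega) (by omega)).2
  have step5 : ∑ D' ∈ univ.filter (fun D' : Finset (Pr n) => fc k M D' x ∧ R D' x ∧
          (D' \ Qx x).card ≤ C * n), K * nu D' ≤
      ∑ D' ∈ univ.filter (fun D' : Finset (Pr n) => fc k M D' x ∧ R D' x), K * nu D' := by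
    refine sum_le_sum_of_subset_of_nonneg ?_
      fun D _ _ => mul_nonneg (by linarith) (nu_nonneg D)
    intro D hD
    rw [mem_filter] at hD ⊢
    exact ⟨hD.1, hD.2.1, hD.2.2.1⟩
  rw [mul_sum]
  exact step1.trans (step2.trans (step3.le.trans (step4.trans step5)))

end Pool.Agent.Work.MP_73831e_pr.J
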