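import Pool.Agent.Work.MP_73831e_pr.J.Bas
import Pool.Agent.Work.MP_73831e_pr.J.NumB
import Pool.Agent.Work.MP_73831e_pr.J.ExG
import Pool.Agent.Work.MP_73831e_pr.J.CritS
import Pool.Agent.Work.MP_73831e_pr.J.Crit
import Pool.Agent.Work.MP_73831e_pr.J.Few
import Pool.Agent.Work.MP_73831e_pr.J.Trim

/-!
MODULE P1u (M, assembly).  For ALL large `n` the fully critical vertices of bounded degree have
weight `≥ c/n`.

`C = p.C`, `N = NN n`, `T` = constant of `trim C`, `C₂` from `crit_le`, `C' = 3 + C K₁`.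
(1) `exit_flux_ge` with `F = FF k M`, `T = Typ p`, `M = C n` (`≤ N`): `FF ∅` (`few_edges` for `E = ∅`
    and `Typ.anti`, or directly); `Pb (FF (pre (Cn))) ≤ Pb (Alive (k+1) (pre (Cn))) ≤ 2^(-n)`
    (`alive_succ`), `Pb (¬ Typ (pre (Cn))) ≤ 1/4`; so for large `n`
    `Fx (FF E ∧ ¬ FF (E+e) ∧ Typ (E+e) ∧ |E| < Cn) ≥ 1/2`.
(2) For such `(E,e)`, `e ∉ E`: `D = insert e E` is not in `F` and `Sparse`, so by `few_edges`
    `n < 4 K₁ |D| = 4 K₁ (|E|+1)`, so `ν(D) = nuR N (|E|+1) ≥ w(E)/(4 K₁ n)` (`nu_w_ge`).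
    Reindex `(E,e)` by `(D,e)`, `E = D.erase e`:
    `∑_{D : ¬ FF D, Typ D, |D| ≤ C n} ν(D) #{e ∈ D : FF (D.erase e)} ≥ 1/(8 K₁ n)`.
(3) By `crit_card`: `∑_D ∑_{x : ¬ FF D, FF (D \ Qx x), |D \ Qx x| ≤ C n} ν(D) ≥ 1/(8 K₁ C' n)`, and by
    `trim` with `R = True`: `Phi(True) ≥ c₀/n`, `c₀ = 1/(8 K₁ C' T)`.
(4) `Phi(¬ dg D x ≤ D₀) ≤ (1/(D₀+1)) ∑_D ν(D) ∑_{x fc} dg D x ≤ (2/(D₀+1)) ∑_D ν(D) #{critical e ∈ D}
    ≤ 2 C₂/((D₀+1) n)`: the edges at a fully critical vertex are critical (`e ∈ D`, `¬ FF D`,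
    `FF (D.erase e)`), each pair has two ends (`dg D x = #{e ∈ D : x ∈ e}`).  Choose `D₀ ≥ k` with
    `2 C₂/(D₀+1) ≤ c₀/2`; then `Phi(dg D x ≤ D₀) ≥ c₀/(2n)`.
`c₀`, `C₂`, `D₀` do not depend on `M`; `n₀` does not either.
-/

open Finset
open scoped Classical Nat

namespace Pool.Agent.Work.MP_73831e_pr.J

private theorem sparse_empty {n L : ℕ} : Sparse L (gr (∅ : Finset (Pr n))) := by
  intro S h1 _
  have : spn (gr (∅ : Finset (Pr n))) S = 0 := by
    unfold spn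
    rw [gr_empty]
    simp
  rw [this]
  omega

private theorem sum_dg_le {n k M : ℕ} (D : Finset (Pr n)) :
    ∑ x ∈ univ.filter (fun x => fc k M D x), dg D x ≤
      2 * (univ.filter (fun e : Pr n => e ∈ D ∧ ¬ FF k M D ∧ FF k M (D.erase e))).card := by
  obtain ⟨cr, hcr⟩ : ∃ cr : Finset (Pr n),
    cr = univ.filter (fun e : Pr n => e ∈ D ∧ ¬ FF k M D ∧ FF k M (D.erase e)) := ⟨_, rfl⟩
  rw [← hcr]
  have h1 : ∀ x ∈ univ.filter (fun x => fc k M D x), dg D x ≤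
      ∑ e ∈ cr, (if x ∈ e.1 then 1 else 0) := by
    intro x hx
    rw [mem_filter] at hx
    rw [← card_filter]
    unfold dg
    refine card_le_card ?_
    intro e he
    rw [mem_inter, mem_Qx] at he
    rw [mem_filter, hcr, mem_filter]
    exact ⟨⟨mem_univ _, he.1, hx.2.1, hx.2.2.2 e he.1 he.2⟩, he.2⟩
  have h2 : ∀ e : Pr n, (∑ x : Fin n, if x ∈ e.1 then 1 else 0) ≤ 2 := by
    intro e
    rw [← card_filter]
    obtain ⟨e, he⟩ := e
    induction e using Sym2.ind with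
    | _ a b =>
      refine (card_le_card (t := {a, b}) ?_).trans card_le_two
      intro z hz
      rw [mem_filter] at hz
      rw [mem_insert, mem_singleton]
      exact Sym2.mem_iff.mp hz.2
  calc ∑ x ∈ univ.filter (fun x => fc k M D x), dg D x
      ≤ ∑ x ∈ univ.filter (fun x => fc k M D x), ∑ e ∈ cr, (if x ∈ e.1 then 1 else 0) :=
        sum_le_sum h1
    _ ≤ ∑ x : Fin n, ∑ e ∈ cr, (if x ∈ e.1 then 1 else 0) :=
        sum_le_sum_of_subset (filter_subset _ _)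
    _ = ∑ e ∈ cr, ∑ x : Fin n, (if x ∈ e.1 then 1 else 0) := sum_comm
    _ ≤ ∑ _e ∈ cr, 2 := sum_le_sum fun e _ => h2 e
    _ = 2 * cr.card := by rw [sum_const, smul_eq_mul, mul_comm]

private theorem phi_high {n k M D₀ : ℕ} (R : Finset (Pr n) → Fin n → Prop)
    (hR : ∀ D x, R D x → D₀ < dg D x) :
    ((D₀ : ℝ) + 1) * Phi k M R ≤
      2 * ∑ D : Finset (Pr n), ∑ _e ∈ univ.filter (fun e : Pr n => e ∈ D ∧ ¬ FF k M D ∧
      FF k M (D.erase e)), nu D := by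
  unfold Phi
  rw [mul_sum, mul_sum]
  refine sum_le_sum fun D _ => ?_
  rw [sum_const, sum_const, nsmul_eq_mul, nsmul_eq_mul, ← mul_assoc, ← mul_assoc]
  refine mul_le_mul_of_nonneg_right ?_ (nu_nonneg D)
  have h1 : (D₀ + 1) * (univ.filter (fun x => fc k M D x ∧ R D x)).card ≤
      ∑ x ∈ univ.filter (fun x => fc k M D x), dg D x := by
    rw [mul_comm, ← smul_eq_mul, ← sum_const]
    refine (sum_le_sum (g := fun x => dg D x) ?_).trans (sum_le_sum_of_subset ?_)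
    · intro x hx
      rw [mem_filter] at hx
      have := hR D x hx.2.2
      omega
    · intro x hx
      rw [mem_filter] at hx ⊢
      exact ⟨mem_univ _, hx.2.1⟩
  exact_mod_cast h1.trans (sum_dg_le D)

private theorem flux_le {n k M C c₀ : ℕ} {p : Par} (hc0 : 1 ≤ c₀) (hn0 : 1 ≤ n)
    (hnu : ∀ m < NN n, n ≤ c₀ * (m + 1) →
      1 / ((c₀ : ℝ) * n) * wR (NN n) m ≤ nuR (NN n) (m + 1))
    (hC : C * n < NN n)
    (hfew : ∀ D : Finset (Pr n), ¬ FF k M D → Typ p D → n ≤ c₀ * D.card)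
    (B : Finset (Pr n) → Pr n → Prop) (hB : ∀ E x, B E x → FF k M E ∧
      ¬ FF k M (insert x E) ∧ Typ p (insert x E) ∧ E.card < C * n) :
    Fx B ≤ (c₀ : ℝ) * n * ∑ D : Finset (Pr n),
        ∑ _e ∈ univ.filter (fun e : Pr n => e ∈ D ∧ FF k M (D.erase e) ∧ (¬ FF k M D ∧
          Typ p D ∧ D.card ≤ C * n)), nu D := by
  have hre : ∑ D : Finset (Pr n),
        ∑ _e ∈ univ.filter (fun e : Pr n => e ∈ D ∧ FF k M (D.erase e) ∧ (¬ FF k M D ∧
          Typ p D ∧ D.card ≤ C * n)), nu D =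
      ∑ E : Finset (Pr n), ∑ _x ∈ univ.filter (fun x : Pr n => x ∉ E ∧
        (FF k M E ∧ (¬ FF k M (insert x E) ∧ Typ p (insert x E) ∧ (insert x E).card ≤ C * n))),
          nuR (NN n) (E.card + 1) := by
    have hL : ∑ D : Finset (Pr n),
        ∑ _e ∈ univ.filter (fun e : Pr n => e ∈ D ∧ FF k M (D.erase e) ∧ (¬ FF k M D ∧
          Typ p D ∧ D.card ≤ C * n)), nu D =
        ∑ z ∈ univ.filter (fun z : Finset (Pr n) × Pr n => z.2 ∈ z.1 ∧
          FF k M (z.1.erase z.2) ∧ (¬ FF k M z.1 ∧ Typ p z.1 ∧ z.1.card ≤ C * n)), nu z.1 := by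
      rw [Finset.sum_filter, Fintype.sum_prod_type]
      refine Finset.sum_congr rfl fun D _ => ?_
      rw [Finset.sum_filter]
    have hR : ∑ E : Finset (Pr n), ∑ _x ∈ univ.filter (fun x : Pr n => x ∉ E ∧
        (FF k M E ∧ (¬ FF k M (insert x E) ∧ Typ p (insert x E) ∧ (insert x E).card ≤ C * n))),
          nuR (NN n) (E.card + 1) =
        ∑ z ∈ univ.filter (fun z : Finset (Pr n) × Pr n => z.2 ∉ z.1 ∧
          (FF k M z.1 ∧ (¬ FF k M (insert z.2 z.1) ∧ Typ p (insert z.2 z.1) ∧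
            (insert z.2 z.1).card ≤ C * n))), nuR (NN n) (z.1.card + 1) := by
      rw [Finset.sum_filter, Fintype.sum_prod_type]
      refine Finset.sum_congr rfl fun D _ => ?_
      rw [Finset.sum_filter]
    rw [hL, hR]
    refine Finset.sum_nbij' (fun z => (z.1.erase z.2, z.2)) (fun z => (insert z.2 z.1, z.2))
      ?_ ?_ ?_ ?_ ?_
    · rintro ⟨D, e⟩ h
      simp only [mem_filter, mem_univ, true_and] at h ⊢
      rw [insert_erase h.1]
      exact ⟨notMem_erase _ _, h.2.1, h.2.2⟩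
    · rintro ⟨E, e⟩ h
      simp only [mem_filter, mem_univ, true_and] at h ⊢
      rw [erase_insert h.1]
      exact ⟨mem_insert_self _ _, h.2.1, h.2.2⟩
    · rintro ⟨D, e⟩ h
      simp only [mem_filter, mem_univ, true_and] at h ⊢
      rw [insert_erase h.1]
    · rintro ⟨E, e⟩ h
      simp only [mem_filter, mem_univ, true_and] at h ⊢
      rw [erase_insert h.1]
    · rintro ⟨D, e⟩ h
      simp only [mem_filter, mem_univ, true_and] at h ⊢
      rw [card_erase_add_one h.1]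
      rfl
  have hFx : Fx B = ∑ E : Finset (Pr n), ∑ _x ∈ univ.filter (fun x : Pr n => x ∉ E ∧ B E x),
      w E := by
    unfold Fx
    congr!
  rw [hre, hFx, mul_sum]
  refine sum_le_sum fun E _ => ?_
  rw [mul_sum]
  have hcn : (0 : ℝ) < (c₀ : ℝ) * n := by
    have h1 : (0 : ℝ) < c₀ := by exact_mod_cast hc0
    have h2 : (0 : ℝ) < n := by exact_mod_cast hn0
    positivity
  refine (sum_le_sum (g := fun _ => (c₀ : ℝ) * n * nuR (NN n) (E.card + 1))
    (fun x hx => ?_)).trans (sum_le_sum_of_subset_of_nonneg ?_ ?_)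
  · rw [mem_filter] at hx
    obtain ⟨-, h1, h1'⟩ := hx
    obtain ⟨h2, h3, h4, h5⟩ := hB E x h1'
    have h6 := hfew _ h3 h4
    rw [card_insert_of_notMem h1] at h6
    have h7 := hnu E.card (h5.trans hC) h6
    have h8 : wR (NN n) E.card = w E := rfl
    rw [h8, one_div, inv_mul_le_iff₀ hcn] at h7
    exact h7
  · intro x hx
    rw [mem_filter] at hx ⊢
    obtain ⟨h0, h1, h1'⟩ := hx
    obtain ⟨h2, h3, h4, h5⟩ := hB E x h1'
    refine ⟨h0, h1, h2, h3, h4, ?_⟩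
    rw [card_insert_of_notMem h1]
    omega
  · intro x _ _
    exact mul_nonneg hcn.le (nuR_nonneg _ _)

private theorem crit_sum_le {n k M C K₁ : ℕ} {p : Par} (hK1 : 1 ≤ K₁) (hp1 : p.K₁ = K₁)
    (R : Finset (Pr n) → Fin n → Prop) (hR : ∀ D x, R D x) :
    ∑ D : Finset (Pr n),
        ∑ _e ∈ univ.filter (fun e : Pr n => e ∈ D ∧ FF k M (D.erase e) ∧ (¬ FF k M D ∧
          Typ p D ∧ D.card ≤ C * n)), nu D ≤
      ((3 + C * K₁ : ℕ) : ℝ) * ∑ D : Finset (Pr n), ∑ _x ∈ univ.filter (fun x : Fin n =>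
        ¬ FF k M D ∧ FF k M (D \ Qx x) ∧ (D \ Qx x).card ≤ C * n ∧ R D x), nu D := by
  rw [mul_sum]
  refine sum_le_sum fun D _ => ?_
  rw [sum_const, sum_const, nsmul_eq_mul, nsmul_eq_mul, ← mul_assoc]
  refine mul_le_mul_of_nonneg_right ?_ (nu_nonneg D)
  by_cases h : ¬ FF k M D ∧ Typ p D ∧ D.card ≤ C * n
  · have h1 : (univ.filter (fun e : Pr n => e ∈ D ∧ FF k M (D.erase e) ∧ (¬ FF k M D ∧
          Typ p D ∧ D.card ≤ C * n))) =
        (univ.filter (fun e : Pr n => e ∈ D ∧ FF k M (D.erase e))) := by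
      refine filter_congr fun e _ => ?_
      tauto
    have h2 : (univ.filter (fun x : Fin n =>
        ¬ FF k M D ∧ FF k M (D \ Qx x) ∧ (D \ Qx x).card ≤ C * n ∧ R D x)) =
        (univ.filter (fun x : Fin n => FF k M (D \ Qx x))) := by
      refine filter_congr fun x _ => ?_
      have hRx := hR D x
      have : (D \ Qx x).card ≤ C * n := (card_le_card sdiff_subset).trans h.2.2
      tauto
    rw [h1, h2]
    have h3 := crit_card (k := k) (M := M) hK1 (C := C) (D := D) (hp1 ▸ h.2.1.1) h.2.2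
    exact_mod_cast h3
  · have h1 : (univ.filter (fun e : Pr n => e ∈ D ∧ FF k M (D.erase e) ∧ (¬ FF k M D ∧
          Typ p D ∧ D.card ≤ C * n))) = ∅ := by
      refine filter_eq_empty_iff.mpr fun e _ he => h he.2.2
    rw [h1, card_empty, Nat.cast_zero]
    positivity

theorem P1u {k : ℕ} (hk : 3 ≤ k) {p : Par} (hp : POK k p) : ∃ c : ℝ, 0 < c ∧ ∃ D₀ : ℕ,
    k ≤ D₀ ∧ ∃ n₀ : ℕ, ∀ n ≥ n₀, ∀ M, 4 ≤ M →
      c / n ≤ Phi k M (fun (D : Finset (Pr n)) x => dg D x ≤ D₀) := by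
  obtain ⟨T, hT1, n₁, hn₁⟩ := trim p.C
  obtain ⟨C₂, hC₂, n₂, hn₂⟩ := crit_le hp
  obtain ⟨n₃, hn₃⟩ := hp.typ (1 / 4) (by norm_num)
  obtain ⟨n₄, hn₄⟩ := hp.al
  obtain ⟨n₅, hn₅⟩ := nu_w_ge (4 * p.K₁)
  obtain ⟨n₆, hn₆⟩ := nu_w_le p.C
  have hK1 := hp.hK1
  set C' : ℕ := 3 + p.C * p.K₁ with hC'
  have hC'pos : (0 : ℝ) < C' := by
    have : 0 < C' := by omega
    exact_mod_cast this
  have hK1r : (0 : ℝ) < p.K₁ := by exact_mod_cast hK1
  have hTpos : 0 < T := by linarith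
  set c₀ : ℝ := 1 / (8 * p.K₁ * C' * T) with hc₀
  have hc₀pos : 0 < c₀ := by positivity
  obtain ⟨D₁, hD₁⟩ := exists_nat_ge (4 * C₂ / c₀)
  refine ⟨c₀ / 2, by positivity, max k D₁, le_max_left _ _,
    max (max (max n₁ n₂) (max n₃ n₄)) (max (max n₅ n₆) 2), fun n hn M hM => ?_⟩
  have g1 : n₁ ≤ n := le_trans (by simp) hn
  have g2 : n₂ ≤ n := le_trans (by simp) hn
  have g3 : n₃ ≤ n := le_trans (by simp) hn
  have g4 : n₄ ≤ n := le_trans (by simp) hn
  have g5 : n₅ ≤ n := le_trans (by simp) hn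
  have g6 : n₆ ≤ n := le_trans (by simp) hn
  have g7 : 2 ≤ n := le_trans (by simp) hn
  have hnr : (0 : ℝ) < n := by exact_mod_cast (by omega : 0 < n)
  obtain ⟨hCN, -⟩ := hn₆ n g6
  -- step 1
  have h0 : FF k M (∅ : Finset (Pr n)) := few_edges hk hM hK1 sparse_empty (by simp)
  have hflux := exit_flux_ge (P := Pr n) (FF k M) (Typ p) (fun E E' h h' => Typ.anti h h') h0
    (M := p.C * n) hCN.le
  have hal : Pb (fun ω : Ordr (Pr n) => FF k M (pre ω (p.C * n))) ≤ 1 / 4 := by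
    refine (Pb_mono fun ω h => alive_succ h.1).trans ((hn₄ n g4).trans ?_)
    calc (1 / 2 : ℝ) ^ n ≤ (1 / 2) ^ 2 :=
          pow_le_pow_of_le_one (by norm_num) (by norm_num) g7
      _ = 1 / 4 := by norm_num
  have htyp := hn₃ n g3
  have hF := flux_le (k := k) (M := M) (C := p.C) (c₀ := 4 * p.K₁) (p := p) (by omega) (by omega)
    (hn₅ n g5) hCN (fun D hD hTD => by
      by_contra hcon
      exact hD (few_edges hk hM hK1 hTD.1 (le_of_not_ge hcon))) _ (fun E x h => h)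
  have hcs := crit_sum_le (n := n) (k := k) (M := M) (C := p.C) (p := p) hK1 rfl
    (fun _ _ => True) (fun _ _ => trivial)
  have htr := hn₁ n g1 k M (fun _ _ => True) (fun _ _ _ _ _ _ => trivial)
  have hPhi0 := Phi_nonneg k M (fun (_ : Finset (Pr n)) (_ : Fin n) => True)
  -- step 3
  have h3 : c₀ / n ≤ Phi k M (fun (_ : Finset (Pr n)) (_ : Fin n) => True) := by
    have e1 : (1 / 2 : ℝ) ≤ ((4 * p.K₁ : ℕ) : ℝ) * n * ((C' : ℝ) *
        (T * Phi k M (fun (_ : Finset (Pr n)) (_ : Fin n) => True))) := by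
      refine le_trans (by linarith) (hF.trans ?_)
      refine mul_le_mul_of_nonneg_left (hcs.trans ?_) (by positivity)
      exact mul_le_mul_of_nonneg_left htr (by positivity)
    push_cast at e1
    rw [hc₀, div_div, div_le_iff₀ (by positivity)]
    nlinarith
  -- step 4
  have h4 : Phi k M (fun (D : Finset (Pr n)) x => True ∧ ¬ dg D x ≤ max k D₁) ≤ c₀ / 2 / n := by
    have e1 := phi_high (n := n) (k := k) (M := M) (D₀ := max k D₁)
      (fun (D : Finset (Pr n)) x => True ∧ ¬ dg D x ≤ max k D₁) (fun D x h => not_le.mp h.2)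
    have e2 := hn₂ n g2 M
    have e3 : 4 * C₂ / c₀ ≤ ((max k D₁ : ℕ) : ℝ) + 1 := by
      have : ((D₁ : ℕ) : ℝ) ≤ ((max k D₁ : ℕ) : ℝ) := by exact_mod_cast le_max_right _ _
      linarith
    have e4 : 4 * C₂ ≤ (((max k D₁ : ℕ) : ℝ) + 1) * c₀ := by
      rwa [div_le_iff₀ hc₀pos] at e3
    have hpos : (0 : ℝ) < ((max k D₁ : ℕ) : ℝ) + 1 := by positivity
    have e5 : (((max k D₁ : ℕ) : ℝ) + 1) * Phi k M
        (fun (D : Finset (Pr n)) x => True ∧ ¬ dg D x ≤ max k D₁) ≤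
        (((max k D₁ : ℕ) : ℝ) + 1) * (c₀ / 2 / n) := by
      refine e1.trans ?_
      have e6 : 2 * (C₂ / n) ≤ (((max k D₁ : ℕ) : ℝ) + 1) * (c₀ / 2 / n) := by
        have : (((max k D₁ : ℕ) : ℝ) + 1) * (c₀ / 2 / n) =
          ((((max k D₁ : ℕ) : ℝ) + 1) * c₀) / 2 / n := by ring
        rw [this, ← mul_div_assoc]
        refine div_le_div_of_nonneg_right ?_ hnr.le
        linarith
      linarith
    exact le_of_mul_le_mul_left e5 hpos
  have h5 := Phi_split (k := k) (M := M) (fun (_ : Finset (Pr n)) (_ : Fin n) => True)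
    (fun D x => dg D x ≤ max k D₁)
  have h6 : Phi k M (fun (D : Finset (Pr n)) x => True ∧ dg D x ≤ max k D₁) ≤
      Phi k M (fun (D : Finset (Pr n)) x => dg D x ≤ max k D₁) :=
    Phi_mono fun D x _ h => h.2
  have h7 : c₀ / n = c₀ / 2 / n + c₀ / 2 / n := by ring
  linarith

end Pool.Agent.Work.MP_73831e_pr.J
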