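import Pool.Agent.Work.MP_73831e_pr.J.Bas

/-!
MODULE UqE (S-M).  A uniquely `k`-colourable `(H, W)` with `k ≥ 3`, `|W| ≥ 4` has at least
`2|W| - 3` edges.

This is exactly what the proof of `uq_edges` in file `Edges` shows before its last step (there
`hT`: `2 (q-1) |W| ≤ 2 |E(H)| + q (q-1)` where `q` = number of colours used on `W`,
`3 ≤ q ≤ |W|`).  Copy that proof (the private lemmas `edges_kempe`, `edges_pair`, `edges_q` have to
be copied too, as private lemmas) and change only the final arithmetic: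
`|E(H)| ≥ (q-1)|W| - q(q-1)/2 = (q-1)(|W| - q/2)`, which for `3 ≤ q ≤ |W|` is at least its value
`2|W| - 3` at `q = 3`: the difference is
`(q-1)|W| - q(q-1)/2 - 2|W| + 3 = (q-3)|W| - (q-3)(q+2)/2 = (q-3)(2|W| - q - 2)/2 ≥ 0`
since `q + 2 ≤ |W| + 2 ≤ 2|W|`.
-/

open Finset
open scoped Classical Nat

namespace Pool.Agent.Work.MP_73831e_pr.J

/-- Kempe connectivity of two colour classes. -/
private theorem edges_kempe {V : Type} {k : ℕ} {H : SimpleGraph V} {W : Finset V}
    (h : UQ k H W) {f : V → Fin k} (hf : PC k H f) {i j : Fin k} (hij : i ≠ j) :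
    (H.induce {w | w ∈ W ∧ (f w = i ∨ f w = j)}).Preconnected := by
  obtain ⟨hW, -, huniq⟩ := h
  set S : Set V := {w | w ∈ W ∧ (f w = i ∨ f w = j)} with hS
  intro a b
  by_contra hab
  set A : Set V := {v | ∃ hv : v ∈ S, (H.induce S).Reachable a ⟨v, hv⟩} with hA
  have haA : (a : V) ∈ A := ⟨a.2, SimpleGraph.Reachable.refl _⟩
  have hbA : (b : V) ∉ A := fun ⟨_, hr⟩ => hab hr
  let g : V → Fin k := fun v => if v ∈ A then Equiv.swap i j (f v) else f v
  have hsw : ∀ c : Fin k, (c = i ∨ c = j) → (Equiv.swap i j c = i ∨ Equiv.swap i j c = j) := by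
    rintro c (rfl | rfl)
    · right; simp
    · left; simp
  have hmix : ∀ u v, H.Adj u v → u ∈ A → v ∉ A → g u ≠ g v := by
    intro u v huv hu hv
    obtain ⟨huS, hur⟩ := hu
    have hvW := (hW u v huv).2
    have hvc : ¬ (f v = i ∨ f v = j) := by
      intro hc
      have hvS : v ∈ S := ⟨hvW, hc⟩
      apply hv
      refine ⟨hvS, hur.trans ?_⟩
      apply SimpleGraph.Adj.reachable
      exact huv
    have hu' : u ∈ A := ⟨huS, hur⟩
    simp only [g, if_pos hu', if_neg hv]
    intro he
    apply hvc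
    rw [← he]
    exact hsw _ huS.2
  have hg : PC k H g := by
    intro u v huv
    by_cases hu : u ∈ A <;> by_cases hv : v ∈ A
    · simp only [g, if_pos hu, if_pos hv]
      intro he
      exact hf u v huv ((Equiv.swap i j).injective he)
    · exact hmix u v huv hu hv
    · exact (hmix v u huv.symm hv hu).symm
    · simp only [g, if_neg hu, if_neg hv]
      exact hf u v huv
  obtain ⟨π, hπ⟩ := huniq f g hf hg
  have h1 := hπ a a.2.1
  have h2 := hπ b b.2.1
  simp only [g, if_pos haA] at h1
  simp only [g, if_neg hbA] at h2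
  have ha := a.2.2
  have hb := b.2.2
  have hinj := π.injective
  rcases ha with ha | ha <;> rcases hb with hb | hb
  · rw [ha, Equiv.swap_apply_left] at h1; rw [hb] at h2
    exact hij (h2.trans h1.symm)
  · rw [ha, Equiv.swap_apply_left] at h1; rw [hb] at h2
    exact hij (hinj (h1.symm.trans h2))
  · rw [ha, Equiv.swap_apply_right] at h1; rw [hb] at h2
    exact hij (hinj (h2.symm.trans h1))
  · rw [ha, Equiv.swap_apply_right] at h1; rw [hb] at h2
    exact hij (h1.trans h2.symm)

/-- the darts between two colour classes -/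
private theorem edges_pair {V : Type} [Fintype V] {k : ℕ} {H : SimpleGraph V} {W : Finset V}
    (h : UQ k H W) {f : V → Fin k} (hf : PC k H f) {i j : Fin k} (hij : i ≠ j)
    (hne : ∃ w ∈ W, f w = i) :
    (W.filter (fun w => f w = i)).card + (W.filter (fun w => f w = j)).card ≤
      (univ.filter (fun z : V × V => H.Adj z.1 z.2 ∧ f z.1 = i ∧ f z.2 = j)).card + 1 := by
  have hpre := edges_kempe h hf hij
  set S : Set V := {w | w ∈ W ∧ (f w = i ∨ f w = j)} with hS
  have hcon : (H.induce S).Connected := by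
    obtain ⟨w, hw, hwi⟩ := hne
    exact { preconnected := hpre, nonempty := ⟨⟨w, hw, Or.inl hwi⟩⟩ }
  have h1 := hcon.card_vert_le_card_edgeSet_add_one
  have h2 : Nat.card S = (W.filter (fun w => f w = i)).card + (W.filter (fun w => f w = j)).card := by
    rw [← card_union_of_disjoint]
    · rw [Nat.card_coe_set_eq, ← Set.ncard_coe_finset]
      congr 1
      ext w
      simp only [hS, Set.mem_setOf_eq, coe_union, coe_filter, Set.mem_union]
      tauto
    · rw [disjoint_left]
      intro w hw hw'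
      rw [mem_filter] at hw hw'
      exact hij (hw.2.symm.trans hw'.2)
  have h3 : Nat.card (H.induce S).edgeSet ≤
      (univ.filter (fun z : V × V => H.Adj z.1 z.2 ∧ f z.1 = i ∧ f z.2 = j)).card := by
    obtain ⟨D, hD⟩ : ∃ D, D = univ.filter (fun z : V × V => H.Adj z.1 z.2 ∧ f z.1 = i ∧ f z.2 = j) :=
      ⟨_, rfl⟩
    rw [← hD]
    have hDm : ∀ z : D, H.Adj z.1.1 z.1.2 ∧ f z.1.1 = i ∧ f z.1.2 = j := by
      intro z
      have h5 := z.2
      simp only [hD, mem_filter, mem_univ, true_and] at h5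
      exact h5
    have hSm : ∀ z : D, z.1.1 ∈ S ∧ z.1.2 ∈ S := fun z =>
      ⟨⟨(h.1 _ _ (hDm z).1).1, Or.inl (hDm z).2.1⟩, ⟨(h.1 _ _ (hDm z).1).2, Or.inr (hDm z).2.2⟩⟩
    have e : D.card = Nat.card D := by rw [Nat.card_eq_fintype_card, Fintype.card_coe]
    rw [e]
    refine Nat.card_le_card_of_surjective
      (fun z => (⟨s(⟨z.1.1, (hSm z).1⟩, ⟨z.1.2, (hSm z).2⟩), (hDm z).1⟩ : (H.induce S).edgeSet)) ?_
    rintro ⟨e, he⟩
    induction e using Sym2.ind with
    | _ u v =>
      have hadj : H.Adj (u : V) v := he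
      have hne := hf _ _ hadj
      rcases u.2.2 with hu | hu
      · have hv : f v = j := by
          rcases v.2.2 with hv | hv
          · exact absurd (hu.trans hv.symm) hne
          · exact hv
        refine ⟨⟨((u : V), (v : V)), ?_⟩, ?_⟩
        · rw [hD, mem_filter]
          exact ⟨mem_univ _, hadj, hu, hv⟩
        · rfl
      · have hv : f v = i := by
          rcases v.2.2 with hv | hv
          · exact hv
          · exact absurd (hu.trans hv.symm) hne
        refine ⟨⟨((v : V), (u : V)), ?_⟩, ?_⟩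
        · rw [hD, mem_filter]
          exact ⟨mem_univ _, hadj.symm, hv, hu⟩
        · apply Subtype.ext
          exact Sym2.eq_swap
  omega

/-- number of colours -/
private theorem edges_q {V : Type} [Fintype V] {k : ℕ} (hk : 3 ≤ k) {H : SimpleGraph V} {W : Finset V}
    (h : UQ k H W) {f : V → Fin k} (hf : PC k H f) (hW : 4 ≤ W.card) :
    3 ≤ (W.image f).card ∧ (W.image f).card ≤ W.card := by
  refine ⟨?_, card_image_le⟩
  by_cases hinj : Set.InjOn f W
  · rw [card_image_of_injOn hinj]; omega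
  · have hall : W.image f = univ := by
      by_contra hne
      obtain ⟨j, hj⟩ : ∃ j, j ∉ W.image f := by
        by_contra hc
        push Not at hc
        exact hne (eq_univ_iff_forall.2 hc)
      have hj' : ∀ w ∈ W, f w ≠ j := fun w hw he => hj (mem_image.2 ⟨w, hw, he⟩)
      apply hinj
      intro u hu v hv huv
      by_contra huv'
      let g : V → Fin k := fun x => if x = u then j else f x
      have hg : PC k H g := by
        intro x y hxy
        have hxW := (h.1 _ _ hxy).1
        have hyW := (h.1 _ _ hxy).2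
        by_cases hx : x = u <;> by_cases hy : y = u
        · exact absurd (hx.trans hy.symm) hxy.ne
        · simp only [g, if_pos hx, if_neg hy]
          exact (hj' y hyW).symm
        · simp only [g, if_neg hx, if_pos hy]
          exact hj' x hxW
        · simp only [g, if_neg hx, if_neg hy]
          exact hf x y hxy
      obtain ⟨π, hπ⟩ := h.2.2 f g hf hg
      have h1 := hπ u hu
      have h2 := hπ v hv
      simp only [g, if_true] at h1
      simp only [g, if_neg (Ne.symm huv')] at h2
      rw [← huv, ← h1] at h2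
      exact hj' u hu h2
    rw [hall, card_univ, Fintype.card_fin]
    exact hk

theorem uq_edges2 {V : Type} [Finite V] {k : ℕ} (hk : 3 ≤ k) {H : SimpleGraph V} {W : Finset V}
    (h : UQ k H W) (hW : 4 ≤ W.card) : 2 * W.card ≤ H.edgeSet.ncard + 3 := by
  classical
  have := Fintype.ofFinite V
  obtain ⟨f, hf⟩ := h.2.1
  obtain ⟨hq3, hqW⟩ := edges_q hk h hf hW
  set Q := W.image f with hQ
  set a : Fin k → ℕ := fun i => (W.filter (fun w => f w = i)).card with ha
  set d : Fin k → Fin k → ℕ := fun i j =>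
    (univ.filter (fun z : V × V => H.Adj z.1 z.2 ∧ f z.1 = i ∧ f z.2 = j)).card with hd
  have hsum : ∑ i ∈ Q, a i = W.card := by
    rw [ha]
    exact (Finset.card_eq_sum_card_image f W).symm
  have hpair : ∀ i ∈ Q, ∀ j ∈ Q, i ≠ j → a i + a j ≤ d i j + 1 := by
    intro i hi j hj hij
    refine edges_pair h hf hij ?_
    obtain ⟨w, hw, hwi⟩ := mem_image.1 hi
    exact ⟨w, hw, hwi⟩
  have hD : ∑ z ∈ Q.offDiag, d z.1 z.2 ≤ 2 * H.edgeSet.ncard := by
    have h1 : (univ.filter (fun z : V × V => H.Adj z.1 z.2)).card = 2 * H.edgeSet.ncard := by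
      have h2 := H.dart_card_eq_twice_card_edges
      have h3 : H.edgeSet.ncard = H.edgeFinset.card := by
        rw [← SimpleGraph.coe_edgeFinset, Set.ncard_coe_finset]
      rw [h3, ← h2, ← Fintype.card_subtype]
      exact Fintype.card_congr ⟨fun z => ⟨z.1, z.2⟩, fun z => ⟨z.1, z.2⟩, fun z => rfl, fun z => rfl⟩
    rw [← h1, Finset.card_eq_sum_card_fiberwise (f := fun z : V × V => (f z.1, f z.2))
      (t := univ) (fun _ _ => by simp)]
    calc ∑ z ∈ Q.offDiag, d z.1 z.2 ≤ ∑ z ∈ (univ : Finset (Fin k × Fin k)), d z.1 z.2 :=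
          sum_le_sum_of_subset (subset_univ _)
      _ = _ := by
          refine sum_congr rfl fun z _ => ?_
          simp only [hd]
          congr 1
          ext x
          simp only [mem_filter, mem_univ, true_and, Prod.ext_iff]
  have hT : 2 * (Q.card - 1) * W.card ≤ ∑ z ∈ Q.offDiag, d z.1 z.2 + Q.card * (Q.card - 1) := by
    have h1 : ∑ z ∈ Q.offDiag, (a z.1 + a z.2) = 2 * (Q.card - 1) * W.card := by
      have h2 : ∑ z ∈ Q ×ˢ Q, (a z.1 + a z.2) = 2 * Q.card * W.card := by
        rw [sum_product]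
        simp only [sum_add_distrib, sum_const, hsum, smul_eq_mul]
        rw [← mul_sum, hsum]
        ring
      have h3 : ∑ z ∈ Q.diag, (a z.1 + a z.2) = 2 * W.card := by
        rw [sum_diag]
        simp only [sum_add_distrib, hsum]
        ring
      have h4 : ∑ z ∈ Q.diag, (a z.1 + a z.2) + ∑ z ∈ Q.offDiag, (a z.1 + a z.2) =
          ∑ z ∈ Q ×ˢ Q, (a z.1 + a z.2) := by
        rw [← diag_union_offDiag, sum_union (disjoint_diag_offDiag Q)]
      have h5 : 2 * (Q.card - 1) * W.card + 2 * W.card = 2 * Q.card * W.card := by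
        obtain ⟨r, hr⟩ : ∃ r, Q.card = r + 1 := ⟨Q.card - 1, by omega⟩
        rw [hr]; simp; ring
      omega
    rw [← h1]
    have h6 : Q.card * (Q.card - 1) = Q.offDiag.card := by
      rw [offDiag_card, Nat.mul_sub, mul_one]
    rw [h6, card_eq_sum_ones, ← sum_add_distrib]
    refine sum_le_sum fun z hz => ?_
    rw [mem_offDiag] at hz
    exact hpair z.1 hz.1 z.2 hz.2.1 hz.2.2
  obtain ⟨r, hr⟩ : ∃ r, Q.card = r + 1 := ⟨Q.card - 1, by omega⟩
  rw [hr] at hT hq3 hqW
  simp only [Nat.add_sub_cancel] at hT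
  have hfin : 2 * r * W.card ≤ 2 * H.edgeSet.ncard + (r + 1) * r := hT.trans (by gcongr)
  have h2r : 2 ≤ r := by omega
  obtain ⟨s, rfl⟩ : ∃ s, r = s + 2 := ⟨r - 2, by omega⟩
  have h4 : 2 * (s + 2) * W.card = 4 * W.card + 2 * (s * W.card) := by ring
  have h5 : s * (s + 5) ≤ s * (2 * W.card) := Nat.mul_le_mul_left _ (by omega)
  have h6 : (s + 2 + 1) * (s + 2) = s * (s + 5) + 6 := by ring
  have h7 : s * (2 * W.card) = 2 * (s * W.card) := by ring
  omega

end Pool.Agent.Work.MP_73831e_pr.J
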