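import Pool.Agent.Work.MP_73831e_pr.J.Bas
import Pool.Agent.Work.MP_73831e_pr.J.UqE
import Pool.Agent.Work.MP_73831e_pr.Nbr

/-!
MODULE Large (M).  In a graph `G'` close to a typical graph `G`, a uniquely colourable subgraph on
`≥ 3 s + 4` vertices has all colour classes linear.

Let `L = n / K₁`, `H ≤ G'`, `UQ k H W`, `|W| ≥ 3s + 4`, and `Z`, `s` as in the hypothesis.
(1) `|W| + s ≥ L + 2`.  Otherwise `S = W ∪ Z` has `4 ≤ |S| ≤ |W| + s ≤ L + 1`, so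
`4 spn G S < 5 |S| ≤ 5 (|W| + s)` by sparsity.  The edges of `H` lie in `W`, so
`|E(H)| ≤ spn G' W ≤ spn G (W ∪ Z) + s`, and `2 |W| ≤ |E(H)| + 3` (`uq_edges2`).  So
`8|W| ≤ 4 |E(H)| + 12 < 5|W| + 5s + 4s + 12`, i.e. `3 |W| < 9 s + 12`, contradiction.
(2) Let `n` be large; then `k ≤ |W|`, so `uq_nbr` applies to `H`, `f`: every `w ∈ W` with `f w ≠ c`
has an `H`-neighbour in `T₀ = {v ∈ W : f v = c}`.  `Nbr_tch` for `G'`: `|W| ≤ tch G' T₀ + |T₀|`.
Suppose `2 K₃ |T₀| < n`.  Then `K₃ |T₀ ∪ Z| ≤ n/2 + K₃ s ≤ n` (for `n ≥ 2 K₃ s`), so `DegOK` gives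
`4 K₁ tch G (T₀ ∪ Z) < n`.  Hence
`4 K₁ |W| ≤ 4 K₁ (tch G (T₀ ∪ Z) + s + |T₀|) < n + 4 K₁ s + K₃ |T₀| ≤ n + 4 K₁ s + n/2`, while
`4 K₁ |W| ≥ 4 K₁ (L + 2 - s) > 4 n - 4 K₁ s` (as `K₁ (L+1) > n`).  So `5 n < 16 K₁ s`, false for
large `n`.
-/

open Finset
open scoped Classical Nat

namespace Pool.Agent.Work.MP_73831e_pr.J

theorem large {k : ℕ} (hk : 3 ≤ k) {K₁ K₃ : ℕ} (h1 : 1 ≤ K₁) (h3 : 4 * K₁ ≤ K₃) (s : ℕ) :
    ∃ n₀ : ℕ, ∀ n ≥ n₀, ∀ G G' : SimpleGraph (Fin n), Sparse (n / K₁) G →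
      DegOK (4 * K₁) K₃ G →
      (∃ Z : Finset (Fin n), Z.card ≤ s ∧
        ∀ S, spn G' S ≤ spn G (S ∪ Z) + s ∧ tch G' S ≤ tch G (S ∪ Z) + s) →
      ∀ H ≤ G', ∀ W : Finset (Fin n), UQ k H W → 3 * s + 4 ≤ W.card → ∀ f, PC k H f →
        ∀ c : Fin k, n ≤ 2 * K₃ * (W.filter (fun v => f v = c)).card := by
  refine ⟨K₁ * (k + s) + 2 * K₃ * s + 16 * K₁ * s, ?_⟩
  intro n hn G G' hsp hdeg hZ H hH W hUQ hW f hf c
  obtain ⟨Z, hZs, hZ⟩ := hZ
  have hn1 : K₁ * (k + s) ≤ n := by omega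
  have hn2 : 2 * K₃ * s ≤ n := by omega
  have hn3 : 16 * K₁ * s ≤ n := by omega
  set L := n / K₁ with hL
  -- step 1
  have hstep : L + 2 ≤ W.card + s := by
    by_contra hcon
    rw [not_le] at hcon
    have hS1 : (W ∪ Z).card ≤ W.card + s := (card_union_le _ _).trans (Nat.add_le_add_left hZs _)
    have hS0 : W.card ≤ (W ∪ Z).card := card_le_card subset_union_left
    have h4 := hsp (W ∪ Z) (by omega) (by omega)
    have h5 := (hZ W).1
    have h6 : H.edgeSet.ncard ≤ spn G' W := by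
      unfold spn
      apply Set.ncard_le_ncard _ (Set.toFinite _)
      intro e he
      refine ⟨SimpleGraph.edgeSet_subset_edgeSet.mpr hH he, ?_⟩
      induction e with
      | _ u v =>
        have h7 := hUQ.1 u v he
        intro x hx
        rcases Sym2.mem_iff.1 hx with rfl | rfl
        · exact h7.1
        · exact h7.2
    have h7 := uq_edges2 hk hUQ (by omega)
    omega
  -- step 2
  have hLk : k + s ≤ L := by
    rw [hL, Nat.le_div_iff_mul_le (by omega)]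
    rw [mul_comm]
    exact hn1
  have hkW : k ≤ W.card := by omega
  by_contra hcon
  rw [not_le] at hcon
  set T := W.filter (fun v => f v = c) with hT
  have hnb := Nbr_tch (G := G') W T (by
    intro w hw hwT
    have hfw : c ≠ f w := by
      intro h
      exact hwT (mem_filter.mpr ⟨hw, h.symm⟩)
    obtain ⟨v, hv, hadj, hfv⟩ := uq_nbr hUQ hkW hf w hw c hfw
    exact ⟨v, mem_filter.mpr ⟨hv, hfv⟩, hH hadj⟩)
  have htc := (hZ T).2
  have hTZ : (T ∪ Z).card ≤ T.card + s := (card_union_le _ _).trans (Nat.add_le_add_left hZs _)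
  have hd := hdeg (T ∪ Z) (by
    rw [Nat.card_eq_fintype_card, Fintype.card_fin]
    have h8 : K₃ * (T ∪ Z).card ≤ K₃ * (T.card + s) := Nat.mul_le_mul_left _ hTZ
    have h9 : 2 * (K₃ * (T.card + s)) = 2 * K₃ * T.card + 2 * K₃ * s := by ring
    omega)
  rw [Nat.card_eq_fintype_card, Fintype.card_fin] at hd
  have h10 : n < K₁ * (L + 1) := Nat.lt_mul_div_succ n (by omega)
  have h11 : K₁ * (L + 1) ≤ K₁ * (W.card + s) := Nat.mul_le_mul_left _ (by omega)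
  have h12 : 4 * K₁ * T.card ≤ K₃ * T.card := Nat.mul_le_mul_right _ h3
  have h13 : 4 * K₁ * W.card ≤ 4 * K₁ * (tch G (T ∪ Z) + s + T.card) :=
    Nat.mul_le_mul_left _ (by omega)
  have h14 : 4 * K₁ * (tch G (T ∪ Z) + s + T.card) =
      4 * K₁ * tch G (T ∪ Z) + 4 * (K₁ * s) + 4 * K₁ * T.card := by ring
  have h15 : K₁ * (W.card + s) = K₁ * W.card + K₁ * s := by ring
  have h16 : 4 * K₁ * W.card = 4 * (K₁ * W.card) := by ring
  have h17 : 16 * K₁ * s = 16 * (K₁ * s) := by ring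
  have h18 : 2 * K₃ * T.card = 2 * (K₃ * T.card) := by ring
  omega

end Pool.Agent.Work.MP_73831e_pr.J
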