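import Pool.Agent.Work.MP_73831e_pr.J.Bas

/-!
MODULE SpnA (S).  `spn` and `tch` after adding pairs.

The edges of `gr (E ∪ X)` are the edges of `gr E` and the pairs in `X` (`mem_edgeSet_gr`), so the
set counted by `spn (gr (E ∪ X)) S` is contained in the union of the set counted by
`spn (gr E) S` and `Subtype.val '' X` (`Set.ncard_union_le`, `Set.ncard_image_le`); same for `tch`.
-/

open Finset
open scoped Classical Nat

namespace Pool.Agent.Work.MP_73831e_pr.J

variable {n : ℕ}

private theorem aux_ncard (E X : Finset (Pr n)) (Q : Sym2 (Fin n) → Prop) :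
    {e ∈ (gr (E ∪ X)).edgeSet | Q e}.ncard ≤ {e ∈ (gr E).edgeSet | Q e}.ncard + X.card := by
  have h1 : {e ∈ (gr (E ∪ X)).edgeSet | Q e} ⊆
      {e ∈ (gr E).edgeSet | Q e} ∪ (Subtype.val '' (X : Set (Pr n))) := by
    rintro e ⟨he, hQ⟩
    rw [mem_edgeSet_gr] at he
    obtain ⟨x, hx, hxe⟩ := he
    rcases mem_union.mp hx with hx | hx
    · left
      exact ⟨mem_edgeSet_gr.mpr ⟨x, hx, hxe⟩, hQ⟩
    · right
      exact ⟨x, hx, hxe⟩
  refine (Set.ncard_le_ncard h1 (Set.toFinite _)).trans ((Set.ncard_union_le _ _).trans ?_)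
  have h2 : (Subtype.val '' (X : Set (Pr n))).ncard ≤ X.card := by
    have := Set.ncard_image_le (f := (Subtype.val : Pr n → Sym2 (Fin n)))
      (s := (X : Set (Pr n))) (Set.toFinite _)
    rwa [Set.ncard_coe_finset] at this
  omega

theorem spn_union (E X : Finset (Pr n)) (S : Finset (Fin n)) :
    spn (gr (E ∪ X)) S ≤ spn (gr E) S + X.card := by
  unfold spn
  exact aux_ncard E X _

theorem tch_union (E X : Finset (Pr n)) (S : Finset (Fin n)) :
    tch (gr (E ∪ X)) S ≤ tch (gr E) S + X.card := by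
  unfold tch
  exact aux_ncard E X _

end Pool.Agent.Work.MP_73831e_pr.J
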