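import Pool.Agent.Work.MP_73831e_pr.J.Bas
import Pool.Agent.Work.MP_73831e_pr.J.Large
import Pool.Agent.Work.MP_73831e_pr.J.SpnA

/-!
MODULE EdgeC (S-M).  The colourings of `E` when adding the pair `e` leads out of `F`.

`κ = p.kap k = 4 K₃ + 2k`.  A proper colouring `f` of `gr E` with `f u ≠ f v`, `e = {u,v}`, is a
proper colouring of `gr (insert e E)` (`gr_adj_insert`).
(1) `insert e E` dead: there is no such `f`; take any large `(W, g)` (`lc_exists`).
(2) alive: `Um k M (gr (insert e E))` gives `H`, `W`, `|W| ≥ M ≥ 7 = 3*1+4`; fix a proper colouring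
`g` of `H`; every such `f` is proper for `H`, so `f = π ∘ g` on `W`.  Large: `large` with `s = 1`,
`Z = ∅`, `G' = gr (E ∪ {e})`, `SpnA`: `n ≤ 2 K₃ |class| ≤ κ |class|`.
-/

open Finset
open scoped Classical Nat

namespace Pool.Agent.Work.MP_73831e_pr.J

private theorem pc_insert {n k : ℕ} {E : Finset (Pr n)} {e : Pr n} {f : Fin n → Fin k}
    (hf : PC k (gr E) f) (h : ¬ ∀ u v, e.1 = s(u, v) → f u = f v) :
    PC k (gr (insert e E)) f := by
  push Not at h
  obtain ⟨u, v, he, hne⟩ := h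
  intro a b hab
  rcases gr_adj_insert.1 hab with h1 | h1
  · exact hf a b h1
  · rw [he] at h1
    rcases Sym2.eq_iff.1 h1 with ⟨rfl, rfl⟩ | ⟨rfl, rfl⟩
    · exact hne
    · exact hne.symm

theorem edge_cluster {k : ℕ} (hk : 3 ≤ k) {p : Par} (hp : POK k p) :
    ∃ n₀ : ℕ, ∀ n ≥ n₀, ∀ M, 7 ≤ M → ∀ (E : Finset (Pr n)) (e : Pr n),
      Typ p E → ¬ FF k M (insert e E) →
      ∃ (W : Finset (Fin n)) (g : Fin n → Fin k), LC (p.kap k) W g ∧
        ∀ f, PC k (gr E) f → (∀ u v, e.1 = s(u, v) → f u = f v) ∨ Inn W g f := by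
  obtain ⟨n₁, hn₁⟩ := large hk hp.hK1 hp.hK3 1
  refine ⟨max n₁ k, fun n hn M hM E e hT hF => ?_⟩
  have hκ : 2 * k ≤ p.kap k := by
    unfold Par.kap
    omega
  by_cases hA : Alive k (gr (insert e E))
  · have hU : Um k M (gr (insert e E)) := by
      by_contra hU
      exact hF ⟨hA, hU⟩
    obtain ⟨H, hH, W, hW, hUQ⟩ := hU
    obtain ⟨g, hg⟩ := hUQ.2.1
    refine ⟨W, g, fun c => ?_, fun f hf => ?_⟩
    · have h1 := hn₁ n (le_of_max_le_left hn) (gr E) (gr (insert e E)) hT.1 hT.2.1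
        ⟨∅, by simp, fun S => by
          have h2 : insert e E = E ∪ {e} := by
            rw [Finset.insert_eq, Finset.union_comm]
          have h3 := spn_union E {e} S
          have h4 := tch_union E {e} S
          rw [← h2, Finset.card_singleton] at h3 h4
          rw [Finset.union_empty]
          exact ⟨h3, h4⟩⟩ H hH W hUQ (by omega) g hg c
      refine h1.trans (Nat.mul_le_mul_right _ ?_)
      unfold Par.kap
      omega
    · by_cases hc : ∀ u v, e.1 = s(u, v) → f u = f v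
      · exact Or.inl hc
      · right
        have h1 : PC k H f := (pc_insert hf hc).anti hH
        exact hUQ.2.2 g f hg h1
  · obtain ⟨W, g, hL⟩ := lc_exists (k := k) (κ := p.kap k) (n := n) (by omega) hκ
      (le_of_max_le_right hn)
    refine ⟨W, g, hL, fun f hf => Or.inl ?_⟩
    by_contra hc
    exact hA ⟨f, pc_insert hf hc⟩

end Pool.Agent.Work.MP_73831e_pr.J
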