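import Pool.Agent.Work.MP_73831e_pr.J.Bas
import Pool.Agent.Work.MP_73831e_pr.J.EdgeC

/-!
MODULE ExT (S-M).  Two exits with a common vertex give an `Ax` pair.

`κ = p.kap k`.  By `edge_cluster` for the exit pairs `y x` and `y z` of `E` (`Typ p E`): large
`(W₁,g₁)`, `(W₂,g₂)` such that every proper colouring `f` of `gr E` has `f y = f x` or
`Inn W₁ g₁ f`, and `f y = f z` or `Inn W₂ g₂ f`.  So every proper `f` has `f x = f z` or lies in one
of the two clusters.
If `x z` is an edge of `gr E` then `f x ≠ f z` always, so `Cls k 2 κ (gr E)` (`Cls.of_finite` or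
`Cls.le`), so `K E` by `hK.cls`, contradiction.  Otherwise let `e` be the pair `x z` (`exists_pr`),
`e ∉ E`.  The proper colourings of `gr (insert e E)` are proper for `gr E` and have `f x ≠ f z`; so
`Cls k r κ (gr (insert e E))` (two clusters, `Cls.le`).  If `FF (insert e E)` then `K (insert e E)` by
`hK.cls`.  So `Ax k M K E x z` in both cases.
-/

open Finset
open scoped Classical Nat

namespace Pool.Agent.Work.MP_73831e_pr.J

theorem ex_trans {k : ℕ} (hk : 3 ≤ k) {p : Par} (hp : POK k p) :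
    ∃ n₀ : ℕ, ∀ n ≥ n₀, ∀ M, 7 ≤ M → ∀ r, 2 ≤ r → ∀ K : Finset (Pr n) → Prop,
      KF k M r (p.kap k) K → ∀ E, FF k M E → Typ p E → ¬ K E → ∀ x y z,
        Ex k M E y x → Ex k M E y z → x ≠ z → Ax k M K E x z := by
  obtain ⟨n₀, h0⟩ := edge_cluster hk hp
  refine ⟨n₀, fun n hn M hM r hr K hK E hF hT hnK x y z hyx hyz hxz => ?_⟩
  obtain ⟨e1, he1, -, h1⟩ := hyx
  obtain ⟨e2, he2, -, h2⟩ := hyz
  obtain ⟨W1, g1, hL1, hc1⟩ := h0 n hn M hM E e1 hT h1
  obtain ⟨W2, g2, hL2, hc2⟩ := h0 n hn M hM E e2 hT h2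
  have key : ∀ G : SimpleGraph (Fin n), gr E ≤ G → (∀ f, PC k G f → f x ≠ f z) →
      Cls k r (p.kap k) G := by
    intro G hG hxz'
    refine Cls.le (r := 2) (by norm_num) hr ?_
    refine ⟨![W1, W2], ![g1, g2], ?_, fun f hf => ?_⟩
    · intro i
      fin_cases i
      · exact hL1
      · exact hL2
    · have hf' : PC k (gr E) f := hf.anti hG
      rcases hc1 f hf' with h3 | h3
      · rcases hc2 f hf' with h4 | h4
        · exact absurd ((h3 y x he1).symm.trans (h4 y z he2)) (hxz' f hf)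
        · exact ⟨1, h4⟩
      · exact ⟨0, h3⟩
  by_cases hadj : (gr E).Adj x z
  · exact absurd (hK.cls E hF (key (gr E) le_rfl fun f hf => hf x z hadj)) hnK
  · obtain ⟨e, he⟩ := exists_pr hxz
    refine ⟨e, he, fun hmem => hadj ((mem_iff_adj he).mp hmem), ?_⟩
    by_cases hFF : FF k M (insert e E)
    · right
      refine hK.cls _ hFF (key _ (gr_mono (subset_insert e E)) fun f hf => ?_)
      exact hf x z (gr_adj_insert.mpr (Or.inr he))
    · exact Or.inl hFF

end Pool.Agent.Work.MP_73831e_pr.J
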