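import Pool.Agent.Work.MP_73831e_pr.J.Bas

/-!
MODULE Exch (M).  The exchange inequality (pure combinatorics).

Notation, for `y ∈ H`: `a_y = #{x ∈ B : A y x}`; `H₂ = {y ∈ H : a_y ≥ 2}`.  For `x ∈ B`:
`r_x = #{y ∈ H₂ : A x y}`, `b_x = 1 + #{x' ∈ B : A' x x'}`; for `y ∈ H₂`:
`d_y = 1 + #{y' ∈ H₂ : A' y y'}`.  `Q = #{(x,x') ∈ B × B : A' x x'}`, `a = #{(u,v) : A' u v}`.
(0) The pairs `(x,y) ∈ B × H`, `A x y`, with `y ∉ H₂` number at most `|H|`.  Let `Z` be the set of
    the pairs `(x,y) ∈ B × H₂` with `A x y`.  It remains to show `|Z| ≤ Q/μ + (μ/2) a`.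
(1) For `(x,y) ∈ Z`: `a_y ≤ b_x` (every `x' ∈ B` with `A y x'`, `x' ≠ x` has `A' x x'` by `hT` with
    centre `y`), and `r_x ≤ d_y` (every `y' ∈ H₂` with `A x y'`, `y' ≠ y` has `A' y y'` by `hT` with
    centre `x`).
(2) For positive reals `b, r`: `1 ≤ (1/(2μ)) (b/r) + (μ/2) (r/b)`.  Sum over `Z` with `b = b_x`,
    `r = r_x ≥ 1`: `|Z| ≤ (1/(2μ)) ∑_Z b_x/r_x + (μ/2) ∑_Z r_x/b_x`.
(3) `∑_Z b_x/r_x = ∑_{x ∈ B, r_x ≥ 1} b_x ≤ 2Q`: if `r_x ≥ 1` then `b_x ≥ a_y ≥ 2`, so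
    `b_x ≤ 2 #{x' ∈ B : A' x x'}`.
(4) `∑_Z r_x/b_x ≤ ∑_Z d_y/a_y = ∑_{y ∈ H₂} d_y ≤ a`: for `y ∈ H₂` there is `x ∈ B` with `A y x`, so
    `A' y x`, and `x ∉ H` as `B`, `H` are disjoint; hence `d_y ≤ #{v : A' y v}`.
-/

open Finset
open scoped Classical Nat

namespace Pool.Agent.Work.MP_73831e_pr.J

private theorem exch_amgm (μ b r : ℝ) (hμ : 0 < μ) (hb : 0 < b) (hr : 0 < r) :
    1 ≤ (1 / (2 * μ)) * (b / r) + (μ / 2) * (r / b) := by
  have h : (1 / (2 * μ)) * (b / r) + (μ / 2) * (r / b) - 1 = (b - μ * r) ^ 2 / (2 * μ * (b * r)) := by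
    field_simp
    ring
  have h2 : 0 ≤ (b - μ * r) ^ 2 / (2 * μ * (b * r)) := by positivity
  linarith

theorem exch {V : Type} [Fintype V] (A A' : V → V → Prop) (hAA : ∀ u v, A u v → A' u v)
    (hs : ∀ u v, A u v → A v u) (hs' : ∀ u v, A' u v → A' v u)
    (hT : ∀ y x x', A y x → A y x' → x ≠ x' → A' x x') (B H : Finset V) (hBH : Disjoint B H)
    (μ : ℝ) (hμ : 0 < μ) :
    ((univ.filter (fun z : V × V => z.1 ∈ B ∧ z.2 ∈ H ∧ A z.1 z.2)).card : ℝ) ≤
      H.card + (1 / μ) * (univ.filter (fun z : V × V => z.1 ∈ B ∧ z.2 ∈ B ∧ A' z.1 z.2)).card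
        + (μ / 2) * (univ.filter (fun z : V × V => A' z.1 z.2)).card := by
  obtain ⟨a, ha⟩ : ∃ a : V → ℕ, ∀ y, a y = (B.filter (fun x => A y x)).card :=
    ⟨fun y => (B.filter (fun x => A y x)).card, fun _ => rfl⟩
  obtain ⟨H₂, hH₂⟩ : ∃ H₂ : Finset V, H₂ = H.filter (fun y => 2 ≤ a y) := ⟨_, rfl⟩
  obtain ⟨q, hq⟩ : ∃ q : V → ℕ, ∀ x, q x = (B.filter (fun x' => A' x x')).card :=
    ⟨fun y => (B.filter (fun x => A' y x)).card, fun _ => rfl⟩
  obtain ⟨r, hr⟩ : ∃ r : V → ℕ, ∀ x, r x = (H₂.filter (fun y => A x y)).card :=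
    ⟨fun x => (H₂.filter (fun y => A x y)).card, fun _ => rfl⟩
  obtain ⟨d, hd⟩ : ∃ d : V → ℕ, ∀ y, d y = 1 + (H₂.filter (fun y' => A' y y')).card :=
    ⟨fun y => 1 + (H₂.filter (fun y' => A' y y')).card, fun _ => rfl⟩
  -- (0)
  obtain ⟨Z, hZ⟩ : ∃ Z : Finset (V × V), Z = (B ×ˢ H₂).filter (fun z => A z.1 z.2) := ⟨_, rfl⟩
  have h0 : (univ.filter (fun z : V × V => z.1 ∈ B ∧ z.2 ∈ H ∧ A z.1 z.2)).card ≤
      H.card + Z.card := by
    have hsub : univ.filter (fun z : V × V => z.1 ∈ B ∧ z.2 ∈ H ∧ A z.1 z.2) ⊆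
        (univ.filter (fun z : V × V => z.1 ∈ B ∧ z.2 ∈ H ∧ A z.1 z.2 ∧ z.2 ∉ H₂)) ∪ Z := by
      intro z hz
      simp only [mem_filter, mem_univ, true_and] at hz
      simp only [hZ, mem_union, mem_filter, mem_univ, true_and, mem_product]
      by_cases h : z.2 ∈ H₂
      · right; exact ⟨⟨hz.1, h⟩, hz.2.2⟩
      · left; exact ⟨hz.1, hz.2.1, hz.2.2, h⟩
    refine (card_le_card hsub).trans ((card_union_le _ _).trans ?_)
    refine Nat.add_le_add_right ?_ _
    apply card_le_card_of_injOn (fun z : V × V => z.2)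
    · intro z hz
      simp only [coe_filter, Set.mem_setOf_eq, mem_univ, true_and] at hz
      exact hz.2.1
    · intro z hz z' hz' hzz
      simp only [coe_filter, Set.mem_setOf_eq, mem_univ, true_and] at hz hz'
      simp only at hzz
      have hle : a z.2 ≤ 1 := by
        by_contra hcon
        apply hz.2.2.2
        rw [hH₂, mem_filter]
        exact ⟨hz.2.1, by omega⟩
      rw [ha] at hle
      have h1 : z.1 ∈ B.filter (fun x => A z.2 x) := by
        rw [mem_filter]; exact ⟨hz.1, hs _ _ hz.2.2.1⟩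
      have h2 : z'.1 ∈ B.filter (fun x => A z.2 x) := by
        rw [mem_filter]; refine ⟨hz'.1, hs _ _ ?_⟩; rw [hzz]; exact hz'.2.2.1
      exact Prod.ext (card_le_one.mp hle _ h1 _ h2) hzz
  -- (1)
  have hmemZ : ∀ z : V × V, z ∈ Z ↔ (z.1 ∈ B ∧ z.2 ∈ H₂) ∧ A z.1 z.2 := by
    intro z; rw [hZ, mem_filter, mem_product]
  have h1a : ∀ z ∈ Z, a z.2 ≤ 1 + q z.1 := by
    intro z hz
    rw [hmemZ] at hz
    rw [ha, hq]
    have hsub : B.filter (fun x => A z.2 x) ⊆ insert z.1 (B.filter (fun x' => A' z.1 x')) := by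
      intro x hx
      rw [mem_filter] at hx
      rw [mem_insert, mem_filter]
      by_cases h : x = z.1
      · left; exact h
      · right; exact ⟨hx.1, hT z.2 z.1 x (hs _ _ hz.2) hx.2 (fun hh => h hh.symm)⟩
    have := (card_le_card hsub).trans (card_insert_le _ _)
    omega
  have h1b : ∀ z ∈ Z, r z.1 ≤ d z.2 := by
    intro z hz
    rw [hmemZ] at hz
    rw [hr, hd]
    have hsub : H₂.filter (fun y => A z.1 y) ⊆ insert z.2 (H₂.filter (fun y' => A' z.2 y')) := by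
      intro y hy
      rw [mem_filter] at hy
      rw [mem_insert, mem_filter]
      by_cases h : y = z.2
      · left; exact h
      · right; exact ⟨hy.1, hT z.1 z.2 y hz.2 hy.2 (fun hh => h hh.symm)⟩
    have := (card_le_card hsub).trans (card_insert_le _ _)
    omega
  have hr1 : ∀ z ∈ Z, 1 ≤ r z.1 := by
    intro z hz
    rw [hmemZ] at hz
    rw [hr]
    exact card_pos.mpr ⟨z.2, by rw [mem_filter]; exact ⟨hz.1.2, hz.2⟩⟩
  have ha2 : ∀ y ∈ H₂, 2 ≤ a y := by
    intro y hy; rw [hH₂, mem_filter] at hy; exact hy.2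
  -- (2)
  have h2 : (Z.card : ℝ) ≤ (1 / (2 * μ)) * ∑ z ∈ Z, ((1 + q z.1 : ℝ) / (r z.1 : ℝ)) +
      (μ / 2) * ∑ z ∈ Z, ((r z.1 : ℝ) / (1 + q z.1 : ℝ)) := by
    rw [mul_sum, mul_sum, ← sum_add_distrib, card_eq_sum_ones, Nat.cast_sum]
    refine sum_le_sum fun z hz => ?_
    rw [Nat.cast_one]
    exact exch_amgm μ _ _ hμ (by positivity) (by exact_mod_cast hr1 z hz)
  -- (3)
  have h3 : ∑ z ∈ Z, ((1 + q z.1 : ℝ) / (r z.1 : ℝ)) ≤
      2 * ((univ.filter (fun z : V × V => z.1 ∈ B ∧ z.2 ∈ B ∧ A' z.1 z.2)).card : ℝ) := by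
    have e1 : ∑ z ∈ Z, ((1 + q z.1 : ℝ) / (r z.1 : ℝ)) =
        ∑ x ∈ B, (r x : ℝ) * ((1 + q x : ℝ) / (r x : ℝ)) := by
      rw [hZ, sum_filter, sum_product]
      refine sum_congr rfl fun x _ => ?_
      rw [← sum_filter]
      simp only
      rw [sum_const, nsmul_eq_mul, ← hr]
    have e2 : ((univ.filter (fun z : V × V => z.1 ∈ B ∧ z.2 ∈ B ∧ A' z.1 z.2)).card : ℝ) =
        ∑ x ∈ B, (q x : ℝ) := by
      have : univ.filter (fun z : V × V => z.1 ∈ B ∧ z.2 ∈ B ∧ A' z.1 z.2) =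
          (B ×ˢ B).filter (fun z => A' z.1 z.2) := by
        ext z; simp only [mem_filter, mem_univ, true_and, mem_product]; tauto
      rw [this, card_filter, sum_product]
      push_cast
      refine sum_congr rfl fun x _ => ?_
      rw [hq, card_filter]
      push_cast
      rfl
    rw [e1, e2, mul_sum]
    refine sum_le_sum fun x hx => ?_
    rcases Nat.eq_zero_or_pos (r x) with h | h
    · rw [h]; simp
    · have hne : (r x : ℝ) ≠ 0 := by
        have : (0 : ℝ) < r x := by exact_mod_cast h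
        exact this.ne'
      rw [mul_div_cancel₀ _ hne]
      rw [hr] at h
      obtain ⟨y, hy⟩ := card_pos.mp h
      rw [mem_filter] at hy
      have hz : (x, y) ∈ Z := by rw [hmemZ]; exact ⟨⟨hx, hy.1⟩, hy.2⟩
      have k1 := h1a _ hz
      have k2 := ha2 y hy.1
      simp only at k1
      have k3 : 1 ≤ q x := by omega
      have k4 : (1 : ℝ) ≤ q x := by exact_mod_cast k3
      linarith
  -- (4)
  have h4 : ∑ z ∈ Z, ((r z.1 : ℝ) / (1 + q z.1 : ℝ)) ≤
      ((univ.filter (fun z : V × V => A' z.1 z.2)).card : ℝ) := by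
    have e1 : ∑ z ∈ Z, ((r z.1 : ℝ) / (1 + q z.1 : ℝ)) ≤
        ∑ z ∈ Z, ((d z.2 : ℝ) / (a z.2 : ℝ)) := by
      refine sum_le_sum fun z hz => ?_
      have k1 : (r z.1 : ℝ) ≤ d z.2 := by exact_mod_cast h1b z hz
      have k2 : (a z.2 : ℝ) ≤ 1 + q z.1 := by exact_mod_cast h1a z hz
      have k3 : (0 : ℝ) < a z.2 := by
        have := ha2 z.2 ((hmemZ z).mp hz).1.2
        have : 0 < a z.2 := by omega
        exact_mod_cast this
      exact div_le_div₀ (by positivity) k1 k3 k2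
    have e2 : ∑ z ∈ Z, ((d z.2 : ℝ) / (a z.2 : ℝ)) = ∑ y ∈ H₂, (d y : ℝ) := by
      rw [hZ, sum_filter, sum_product_right]
      refine sum_congr rfl fun y hy => ?_
      rw [← sum_filter]
      simp only
      rw [sum_const, nsmul_eq_mul]
      have : B.filter (fun x => A x y) = B.filter (fun x => A y x) := by
        refine filter_congr fun x _ => ⟨hs _ _, hs _ _⟩
      rw [this, ← ha]
      have k3 : (0 : ℝ) < a y := by
        have := ha2 y hy
        have : 0 < a y := by omega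
        exact_mod_cast this
      rw [mul_div_cancel₀ _ k3.ne']
    have e3 : ∑ y ∈ H₂, (d y : ℝ) ≤ ∑ y ∈ H₂, ((univ.filter (fun v => A' y v)).card : ℝ) := by
      refine sum_le_sum fun y hy => ?_
      have hy2 := ha2 y hy
      rw [ha] at hy2
      have hpos : 0 < (B.filter (fun x => A y x)).card := by omega
      obtain ⟨x, hx⟩ := card_pos.mp hpos
      rw [mem_filter] at hx
      have hxH : x ∉ H₂.filter (fun y' => A' y y') := by
        rw [mem_filter, hH₂, mem_filter]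
        rintro ⟨⟨h, -⟩, -⟩
        exact (disjoint_left.mp hBH hx.1) h
      have hsub : insert x (H₂.filter (fun y' => A' y y')) ⊆ univ.filter (fun v => A' y v) := by
        intro v hv
        rw [mem_insert, mem_filter] at hv
        rw [mem_filter]
        refine ⟨mem_univ _, ?_⟩
        rcases hv with rfl | hv
        · exact hAA _ _ hx.2
        · exact hv.2
      have := card_le_card hsub
      rw [card_insert_of_notMem hxH] at this
      rw [hd]
      exact_mod_cast (by omega : 1 + (H₂.filter (fun y' => A' y y')).card ≤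
        (univ.filter (fun v => A' y v)).card)
    have e4 : ∑ y ∈ H₂, ((univ.filter (fun v => A' y v)).card : ℝ) ≤
        ((univ.filter (fun z : V × V => A' z.1 z.2)).card : ℝ) := by
      have k1 : ((univ.filter (fun z : V × V => A' z.1 z.2)).card : ℝ) =
          ∑ y : V, ((univ.filter (fun v => A' y v)).card : ℝ) := by
        rw [← univ_product_univ, card_filter, sum_product]
        push_cast
        refine sum_congr rfl fun x _ => ?_
        rw [card_filter]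
        push_cast
        rfl
      rw [k1]
      exact sum_le_sum_of_subset_of_nonneg (subset_univ _) fun _ _ _ => by positivity
    linarith
  -- conclusion
  have h5 : (1 / (2 * μ)) * ∑ z ∈ Z, ((1 + q z.1 : ℝ) / (r z.1 : ℝ)) ≤
      (1 / μ) * ((univ.filter (fun z : V × V => z.1 ∈ B ∧ z.2 ∈ B ∧ A' z.1 z.2)).card : ℝ) := by
    have := mul_le_mul_of_nonneg_left h3 (by positivity : 0 ≤ 1 / (2 * μ))
    refine this.trans (le_of_eq ?_)
    field_simp
  have h6 := mul_le_mul_of_nonneg_left h4 (by positivity : 0 ≤ μ / 2)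
  have h7 : ((univ.filter (fun z : V × V => z.1 ∈ B ∧ z.2 ∈ H ∧ A z.1 z.2)).card : ℝ) ≤
      H.card + Z.card := by exact_mod_cast h0
  linarith

end Pool.Agent.Work.MP_73831e_pr.J
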