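import Pool.Agent.Work.MP_73831e_pr.J.Bas
import Pool.Agent.Work.MP_73831e_pr.J.NumB
import Pool.Agent.Work.MP_73831e_pr.J.FluxB
import Pool.Agent.Work.MP_73831e_pr.J.Few

/-!
MODULE FL (M).  The fully critical vertices that are not good have small weight.

`Phi k M (¬ gd) = ∑_D ∑_{x : fc D x, ∃ e ∈ D, x ∈ e, ¬ Gd (D.erase e)} ν(D)
 ≤ 2 ∑_D ∑_{e ∈ D : ¬ FF D, FF (D.erase e), ¬ Gd (D.erase e)} ν(D)`
(choose `e` for `x`; every `e` contains two vertices)
`= 2 ∑_E ∑_{e ∉ E : FF E, ¬ FF (insert e E), ¬ Gd E} nuR N (|E|+1)` (reindex `(D,e)` by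
`(E, e) = (D.erase e, e)`).
`¬ Gd E` splits into:
(i) `C n ≤ |E|`: `nuR N (|E|+1) ≤ w E` (`nu_le_w`), and
   `Fx (FF E ∧ ¬ FF (E+e) ∧ C n ≤ |E|) ≤ Pb (Alive (k+1) (pre (C n))) ≤ 2^(-n)`
   (`exit_flux`; `t = |pre ω t| ≥ C n` and `pre ω (C n) ⊆ pre ω t` is alive; `alive_succ`; `hp.al`).
For `|E| < C n`: `nuR N (|E|+1) ≤ (3C/n) w E` (`nu_w_le`) and
(ii) `¬ Typ E`: flux `≤ Pb (¬ Typ (pre (C n)))` (`Typ.anti`);
(iii) `K E`: flux `≤ Pent K`;
(iv) `4 K₁ (|E|+1) < n`: then `D = insert e E ∉ F` has at most `n/(4K₁)` pairs, so by `few_edges` it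
   is not `Sparse`, hence `¬ Typ D`, and `D = pre ω (t+1) ⊆ pre ω (C n)` (as `t + 1 ≤ C n`), so the
   flux is again `≤ Pb (¬ Typ (pre (C n)))`.
Total `≤ 2 (2^(-n) + (3C/n)(2δ + Pent K))` with `δ = Pb(¬ Typ (pre (C n)))`, arbitrarily small by
`hp.typ`.  Choose `η, δ` with `6C(2δ + η) ≤ ε/2` and `n₀` with `2 * 2^(-n) ≤ ε/(2n)`.
-/

open Finset
open scoped Classical Nat

namespace Pool.Agent.Work.MP_73831e_pr.J

private theorem fl_reindex {P : Type} [Fintype P] [DecidableEq P] (Q : Finset P → P → Prop)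
    (f : ℕ → ℝ) :
    ∑ D : Finset P, ∑ _e ∈ univ.filter (fun e => e ∈ D ∧ Q (D.erase e) e), f D.card =
    ∑ E : Finset P, ∑ _e ∈ univ.filter (fun e => e ∉ E ∧ Q E e), f (E.card + 1) := by
  rw [Finset.sum_sigma', Finset.sum_sigma']
  refine Finset.sum_nbij' (fun z => ⟨z.1.erase z.2, z.2⟩) (fun z => ⟨insert z.2 z.1, z.2⟩)
    ?_ ?_ ?_ ?_ ?_
  · rintro ⟨D, e⟩ h
    simp only [mem_sigma, mem_univ, mem_filter, true_and] at h ⊢
    exact ⟨notMem_erase _ _, h.2⟩
  · rintro ⟨E, e⟩ h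
    simp only [mem_sigma, mem_univ, mem_filter, true_and] at h ⊢
    refine ⟨mem_insert_self _ _, ?_⟩
    rw [erase_insert h.1]; exact h.2
  · rintro ⟨D, e⟩ h
    simp only [mem_sigma, mem_univ, mem_filter, true_and] at h ⊢
    simp only [insert_erase h.1]
  · rintro ⟨E, e⟩ h
    simp only [mem_sigma, mem_univ, mem_filter, true_and] at h ⊢
    simp only [erase_insert h.1]
  · rintro ⟨D, e⟩ h
    simp only [mem_sigma, mem_univ, mem_filter, true_and] at h ⊢
    rw [card_erase_add_one h.1]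

private theorem fl_two {n : ℕ} (e : Pr n) : (univ.filter (fun x : Fin n => x ∈ e.1)).card ≤ 2 := by
  obtain ⟨e, he⟩ := e
  induction e using Sym2.ind with
  | _ u v =>
    have : univ.filter (fun x : Fin n => x ∈ s(u, v)) ⊆ {u, v} := by
      intro x hx
      simp only [mem_filter, mem_univ, true_and, Sym2.mem_iff] at hx
      simpa using hx
    exact (card_le_card this).trans card_le_two

private theorem fl_verts {n : ℕ} (A : Fin n → Prop) (Q : Pr n → Prop)
    (h : ∀ x, A x → ∃ e : Pr n, x ∈ e.1 ∧ Q e) :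
    (univ.filter A).card ≤ 2 * (univ.filter Q).card := by
  calc (univ.filter A).card
      ≤ ((univ.filter Q).biUnion (fun e => univ.filter (fun x : Fin n => x ∈ e.1))).card := by
        apply card_le_card
        intro x hx
        simp only [mem_filter, mem_univ, true_and, mem_biUnion] at hx ⊢
        obtain ⟨e, he, hq⟩ := h x hx
        exact ⟨e, hq, he⟩
    _ ≤ ∑ e ∈ univ.filter Q, (univ.filter (fun x : Fin n => x ∈ e.1)).card := card_biUnion_le
    _ ≤ ∑ e ∈ univ.filter Q, 2 := sum_le_sum fun e _ => fl_two e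
    _ = 2 * (univ.filter Q).card := by rw [sum_const, smul_eq_mul, mul_comm]

/-- the exit weight -/
private theorem fl_phi {k M n : ℕ} {p : Par} {K : Finset (Pr n) → Prop}
    (Q : Finset (Pr n) → Pr n → Prop)
    (hQ : ∀ E e, FF k M E → ¬ FF k M (insert e E) → ¬ Gd p K E → Q E e) :
    Phi k M (fun D x => ¬ gd p K D x) ≤
      2 * ∑ E : Finset (Pr n), ∑ _e ∈ univ.filter (fun e => e ∉ E ∧ Q E e),
        nuR (NN n) (E.card + 1) := by
  rw [← fl_reindex Q (fun m => nuR (NN n) m), mul_sum]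
  unfold Phi
  refine sum_le_sum fun D _ => ?_
  rw [sum_const, sum_const, nsmul_eq_mul, nsmul_eq_mul, ← mul_assoc]
  have h0 : nu D = nuR (NN n) D.card := rfl
  rw [h0]
  refine mul_le_mul_of_nonneg_right ?_ (nuR_nonneg _ _)
  have h := fl_verts (n := n) (fun x => fc k M D x ∧ ¬ gd p K D x)
    (fun e => e ∈ D ∧ Q (D.erase e) e) (by
      rintro x ⟨hf, hg⟩
      unfold gd at hg
      push Not at hg
      obtain ⟨e, he, hx, hG⟩ := hg
      refine ⟨e, hx, he, hQ _ _ (hf.2.2 e he hx) ?_ hG⟩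
      rw [insert_erase he]
      exact hf.1)
  have h2 := (Nat.cast_le (α := ℝ)).mpr h
  rw [Nat.cast_mul, Nat.cast_ofNat] at h2
  convert h2

private theorem fl_split {k M n : ℕ} {p : Par} {K : Finset (Pr n) → Prop}
    (Q : Finset (Pr n) → Pr n → Prop)
    (hQ : ∀ E e, Q E e → FF k M E ∧ ¬ FF k M (insert e E) ∧ ¬ Gd p K E)
    (hw : ∀ m < p.C * n, nuR (NN n) (m + 1) ≤ 3 * p.C / n * wR (NN n) m) :
    ∑ E : Finset (Pr n), ∑ _e ∈ univ.filter (fun e => e ∉ E ∧ Q E e), nuR (NN n) (E.card + 1) ≤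
      Fx (fun (E : Finset (Pr n)) e => FF k M E ∧ ¬ FF k M (insert e E) ∧ p.C * n ≤ E.card) +
      3 * p.C / n * Fx (fun (E : Finset (Pr n)) e => FF k M E ∧ ¬ FF k M (insert e E) ∧
        (E.card < p.C * n ∧ (¬ Typ p E ∨ K E ∨ 4 * p.K₁ * (E.card + 1) < n))) := by
  unfold Fx
  rw [mul_sum, ← sum_add_distrib]
  refine sum_le_sum fun E _ => ?_
  have hcE : ∀ e : Pr n, e ∉ E → E.card < NN n := by
    intro e he
    have : E ⊂ univ := by
      rw [Finset.ssubset_univ_iff]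
      rintro rfl
      exact he (mem_univ _)
    exact card_lt_card this
  have hwE : w E = wR (NN n) E.card := rfl
  have hc0 : (0 : ℝ) ≤ 3 * p.C / n := by positivity
  by_cases hE : p.C * n ≤ E.card
  · refine le_trans ?_ (le_add_of_nonneg_right (mul_nonneg hc0 (sum_nonneg fun _ _ => w_nonneg E)))
    refine (sum_le_sum (g := fun _ => w E) fun e he => ?_).trans
      (sum_le_sum_of_subset_of_nonneg ?_ fun _ _ _ => w_nonneg E)
    · simp only [mem_filter, mem_univ, true_and] at he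
      rw [hwE]
      exact (nu_le_w (hcE e he.1)).2
    · intro e he
      simp only [mem_filter, mem_univ, true_and] at he ⊢
      have h := hQ _ _ he.2
      exact ⟨he.1, h.1, h.2.1, hE⟩
  · refine le_trans ?_ (le_add_of_nonneg_left (sum_nonneg fun _ _ => w_nonneg E))
    rw [mul_sum]
    refine (sum_le_sum (g := fun _ => 3 * p.C / n * w E) fun e he => ?_).trans
      (sum_le_sum_of_subset_of_nonneg ?_ fun _ _ _ => mul_nonneg hc0 (w_nonneg E))
    · rw [hwE]
      exact hw _ (by omega)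
    · intro e he
      simp only [mem_filter, mem_univ, true_and] at he ⊢
      have h := hQ _ _ he.2
      refine ⟨he.1, h.1, h.2.1, by omega, ?_⟩
      by_contra hcon
      push Not at hcon
      exact h.2.2 ⟨hcon.1, hcon.2.1, by omega, hcon.2.2⟩

theorem fl {k : ℕ} (hk : 3 ≤ k) {p : Par} (hp : POK k p) : ∀ ε : ℝ, 0 < ε →
    ∃ η : ℝ, 0 < η ∧ ∃ n₀ : ℕ, ∀ n ≥ n₀, ∀ M, 4 ≤ M → ∀ (r κ : ℕ) (K : Finset (Pr n) → Prop),
      KF k M r κ K → Pent K ≤ η → Phi k M (fun D x => ¬ gd p K D x) ≤ ε / n := by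
  intro ε hε
  have hC : (1 : ℝ) ≤ p.C := by exact_mod_cast hp.hC
  have hδ : 0 < ε / (24 * p.C) := by positivity
  refine ⟨ε / (24 * p.C), hδ, ?_⟩
  obtain ⟨n₁, hn₁⟩ := hp.typ _ hδ
  obtain ⟨n₂, hn₂⟩ := hp.al
  obtain ⟨n₃, hn₃⟩ := nu_w_le p.C
  have hlim := tendsto_self_mul_const_pow_of_lt_one (r := (1 / 2 : ℝ)) (by norm_num) (by norm_num)
  obtain ⟨n₄, hn₄⟩ := Filter.eventually_atTop.mp
    (hlim.eventually (gt_mem_nhds (show (0 : ℝ) < ε / 4 by positivity)))
  refine ⟨n₁ + n₂ + n₃ + n₄ + 1, fun n hn M hM r κ K hK hPent => ?_⟩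
  have hn0 : (0 : ℝ) < n := by
    have : 0 < n := by omega
    exact_mod_cast this
  have e1 := hn₁ n (by omega)
  have e2 := hn₂ n (by omega)
  have e3 := (hn₃ n (by omega)).2
  have e4 := hn₄ n (by omega)
  have hF : ∀ E E' : Finset (Pr n), E ⊆ E' → FF k M E' → FF k M E := fun E E' h hf => hf.anti h
  have f1 : Fx (fun (E : Finset (Pr n)) e => FF k M E ∧ ¬ FF k M (insert e E) ∧
      p.C * n ≤ E.card) ≤ (1 / 2) ^ n := by
    refine (exit_flux (fun E : Finset (Pr n) => FF k M E) (fun E => p.C * n ≤ E.card)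
      (fun ω : Ordr (Pr n) => Alive (k + 1) (gr (pre ω (p.C * n)))) hF ?_).trans e2
    intro ω t ht hf _ hS
    have hS' : p.C * n ≤ t := by
      have := pre_card ω ht.le
      rw [this] at hS
      exact hS
    exact alive_succ (hf.1.anti (gr_mono (pre_mono ω hS')))
  have f2 : Fx (fun (E : Finset (Pr n)) e => FF k M E ∧ ¬ FF k M (insert e E) ∧
        (E.card < p.C * n ∧ (¬ Typ p E ∨ K E ∨ 4 * p.K₁ * (E.card + 1) < n))) ≤
      ε / (24 * p.C) + ε / (24 * p.C) := by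
    refine (exit_flux (fun E : Finset (Pr n) => FF k M E)
      (fun E => E.card < p.C * n ∧ (¬ Typ p E ∨ K E ∨ 4 * p.K₁ * (E.card + 1) < n))
      (fun ω : Ordr (Pr n) => ¬ Typ p (pre ω (p.C * n)) ∨ ∃ t, K (pre ω t)) hF ?_).trans
      ((Pb_or _ _).trans (add_le_add e1 hPent))
    intro ω t ht hf hnf hS
    have hcard := pre_card ω ht.le
    rw [hcard] at hS
    obtain ⟨hlt, hS | hS | hS⟩ := hS
    · left
      intro hT
      exact hS (hT.anti (pre_mono ω hlt.le))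
    · right
      exact ⟨t, hS⟩
    · left
      intro hT
      have hT1 : Typ p (pre ω (t + 1)) := hT.anti (pre_mono ω hlt)
      apply hnf
      refine few_edges hk hM hp.hK1 hT1.1 ?_
      rw [pre_card ω ht]
      exact hS.le
  have g1 := fl_phi (k := k) (M := M) (p := p) (K := K)
    (fun E e => FF k M E ∧ ¬ FF k M (insert e E) ∧ ¬ Gd p K E) (fun E e h1 h2 h3 => ⟨h1, h2, h3⟩)
  have g2 := fl_split (k := k) (M := M) (p := p) (K := K)
    (fun E e => FF k M E ∧ ¬ FF k M (insert e E) ∧ ¬ Gd p K E) (fun E e h => h) e3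
  have g3 : 3 * (p.C : ℝ) / n * (ε / (24 * p.C) + ε / (24 * p.C)) = ε / 4 / n := by
    field_simp
    ring
  have g4 : (1 / 2 : ℝ) ^ n ≤ ε / 4 / n := by
    rw [le_div_iff₀ hn0, mul_comm]
    exact e4.le
  have g5 : 3 * (p.C : ℝ) / n * Fx (fun (E : Finset (Pr n)) e => FF k M E ∧
      ¬ FF k M (insert e E) ∧
        (E.card < p.C * n ∧ (¬ Typ p E ∨ K E ∨ 4 * p.K₁ * (E.card + 1) < n))) ≤ ε / 4 / n := by
    rw [← g3]
    exact mul_le_mul_of_nonneg_left f2 (by positivity)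
  have g6 : ε / n = 2 * (ε / 4 / n + ε / 4 / n) := by
    field_simp
    ring
  rw [g6]
  refine g1.trans (mul_le_mul_of_nonneg_left ?_ (by norm_num))
  exact g2.trans (add_le_add (f1.trans g4) g5)

end Pool.Agent.Work.MP_73831e_pr.J
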