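import Pool.Agent.Work.MP_73831e_pr.J.Bas
import Pool.Agent.Work.MP_73831e_pr.J.FluxB

/-!
MODULE FluxA (M).  The total weight of the `Ax` pairs.

For `E` with `FF E`, `¬ K E`: the ordered pairs `(u,v)` with `Ax k M K E u v` correspond two to one
to the pairs `e ∉ E` with `¬ FF (insert e E)` or `K (insert e E)` (each `e = s(u,v)`, `u ≠ v`, gives
`(u,v)` and `(v,u)`).  So
`∑_{E ∈ F, ¬K} w(E) nA(E) = 2 ∑_E ∑_{e ∉ E, FF E, ¬K E, (¬ FF (E+e) ∨ K (E+e))} w(E)
 ≤ 2 Fx (FF E ∧ ¬ FF (E+e) ∧ True) + 2 Fx (FF E ∧ ¬ K E ∧ K (E+e))`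
`≤ 2 * 1 + 2 Pent K` by `exit_flux` (`A = True`, `Pb ≤ 1`) and `ent_flux` (event
`∃ t, K (pre ω t)`); `F = FF k M` is decreasing (`FF.anti`).
`flux_K`: only the second part.
-/

open Finset
open scoped Classical Nat

namespace Pool.Agent.Work.MP_73831e_pr.J

variable {n : ℕ}

private theorem two_to_one (A : Finset (Fin n × Fin n)) (B : Finset (Pr n))
    (hA : ∀ z ∈ A, ∃ e : Pr n, e.1 = s(z.1, z.2) ∧ e ∈ B) : A.card ≤ 2 * B.card := by
  refine (card_le_mul_card_image (f := fun z : Fin n × Fin n => s(z.1, z.2)) _ 2 ?_).trans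
    (Nat.mul_le_mul_left 2 ?_)
  · intro a ha
    induction a using Sym2.ind with
    | _ u v =>
      refine (card_le_card (t := {(u, v), (v, u)}) ?_).trans card_le_two
      intro z hz
      rw [mem_filter] at hz
      rw [mem_insert, mem_singleton]
      rcases Sym2.eq_iff.1 hz.2 with ⟨h1, h2⟩ | ⟨h1, h2⟩
      · exact Or.inl (Prod.ext h1 h2)
      · exact Or.inr (Prod.ext h1 h2)
  · refine (card_le_card (t := B.image (fun e => e.1)) ?_).trans card_image_le
    intro a ha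
    rw [mem_image] at ha
    obtain ⟨z, hz, rfl⟩ := ha
    obtain ⟨e, he, hR⟩ := hA z hz
    rw [mem_image]
    exact ⟨e, hR, he⟩

private theorem sum_le_Fx (Q : Finset (Pr n) → Prop) (R : Finset (Pr n) → Pr n → Prop)
    (s : Finset (Finset (Pr n))) (hs : ∀ E ∈ s, Q E)
    (A : Finset (Pr n) → Finset (Fin n × Fin n))
    (hA : ∀ E, ∀ z ∈ A E, ∃ e : Pr n, e.1 = s(z.1, z.2) ∧ e ∉ E ∧ R E e) :
    ∑ E ∈ s, w E * ((A E).card : ℝ) ≤ 2 * Fx (fun E e => Q E ∧ R E e) := by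
  unfold Fx
  rw [mul_sum]
  refine le_trans (sum_le_sum fun E hE => ?_) (sum_le_sum_of_subset_of_nonneg (subset_univ s)
    fun E _ _ => mul_nonneg (by norm_num) (sum_nonneg fun _ _ => w_nonneg E))
  rw [sum_const, nsmul_eq_mul]
  have h1 : (A E).card ≤ 2 * (univ.filter (fun x : Pr n => x ∉ E ∧ Q E ∧ R E x)).card := by
    refine two_to_one _ _ fun z hz => ?_
    obtain ⟨e, he, h1, h2⟩ := hA E z hz
    refine ⟨e, he, ?_⟩
    rw [mem_filter]
    exact ⟨mem_univ _, h1, hs E hE, h2⟩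
  have h2 : ((A E).card : ℝ) ≤ 2 * ((univ.filter (fun x : Pr n => x ∉ E ∧ Q E ∧ R E x)).card : ℝ) := by
    exact_mod_cast h1
  have h4 := mul_le_mul_of_nonneg_left h2 (w_nonneg E)
  refine h4.trans (le_of_eq ?_)
  rw [mul_left_comm, mul_comm (w E)]
  congr!

private theorem K_part {k M r κ : ℕ} {K : Finset (Pr n) → Prop} (hK : KF k M r κ K) :
    Fx (fun E e => (FF k M E ∧ ¬ K E) ∧ K (insert e E)) ≤ Pent K := by
  refine (Fx_mono (D := fun E e => FF k M E ∧ ¬ K E ∧ K (insert e E) ∧ True) ?_).trans ?_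
  · intro E e _ h
    exact ⟨h.1.1, h.1.2, h.2, trivial⟩
  · unfold Pent
    refine ent_flux (FF k M) K (fun _ _ => True) _ (fun E E' h h' => FF.anti h h') hK.up ?_
    intro ω t _ _ h _
    exact ⟨_, h⟩

theorem flux_nA {k M r κ : ℕ} {K : Finset (Pr n) → Prop} (hK : KF k M r κ K) :
    ∑ E ∈ univ.filter (fun E : Finset (Pr n) => FF k M E ∧ ¬ K E), w E * (nA k M K E : ℝ) ≤
      2 + 2 * Pent K := by
  have h1 := sum_le_Fx (fun E : Finset (Pr n) => FF k M E ∧ ¬ K E)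
    (fun E e => ¬ FF k M (insert e E) ∨ K (insert e E))
    (univ.filter (fun E : Finset (Pr n) => FF k M E ∧ ¬ K E)) (fun E hE => (mem_filter.1 hE).2)
    (fun E => univ.filter (fun z : Fin n × Fin n => Ax k M K E z.1 z.2))
    (fun E z hz => (mem_filter.1 hz).2)
  have h2 : Fx (fun (E : Finset (Pr n)) e => (FF k M E ∧ ¬ K E) ∧
      (¬ FF k M (insert e E) ∨ K (insert e E))) ≤ 1 + Pent K := by
    refine (Fx_mono (D := fun E e => (FF k M E ∧ ¬ FF k M (insert e E) ∧ True) ∨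
      ((FF k M E ∧ ¬ K E) ∧ K (insert e E))) ?_).trans ((Fx_or _ _).trans (add_le_add ?_ (K_part hK)))
    · intro E e _ h
      rcases h.2 with h' | h'
      · exact Or.inl ⟨h.1.1, h', trivial⟩
      · exact Or.inr ⟨h.1, h'⟩
    · refine (exit_flux (FF k M) (fun _ => True) (fun _ => True) (fun E E' h h' => FF.anti h h')
        (fun _ _ _ _ _ _ => trivial)).trans (Pb_le_one _)
  unfold nA
  refine h1.trans ?_
  linarith

theorem flux_K {k M r κ : ℕ} {K : Finset (Pr n) → Prop} (hK : KF k M r κ K) :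
    ∑ E ∈ univ.filter (fun E : Finset (Pr n) => FF k M E ∧ ¬ K E),
      w E * ((univ.filter (fun z : Fin n × Fin n => ∃ e : Pr n, e.1 = s(z.1, z.2) ∧ e ∉ E ∧
        K (insert e E))).card : ℝ) ≤ 2 * Pent K := by
  have h2 := K_part hK
  refine (sum_le_Fx (fun E : Finset (Pr n) => FF k M E ∧ ¬ K E) (fun E e => K (insert e E))
    _ (fun E hE => (mem_filter.1 hE).2) _ (fun E z hz => (mem_filter.1 hz).2)).trans ?_
  linarith

end Pool.Agent.Work.MP_73831e_pr.J
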