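import Pool.Agent.Work.MP_73831e_pr.J.Bas

/-!
MODULE High (S).  Few vertices of high degree.

`∑_y dg E y = 2 |E|`: `dg E y = #{e ∈ E : y ∈ e}`; swap the sums; each pair `e` (not diagonal)
contains exactly two vertices (`Sym2`: `e.1 = s(u,v)`, `u ≠ v`).  Then
`Δ #{y : dg E y ≥ Δ} ≤ ∑_y dg E y`.
-/

open Finset
open scoped Classical Nat

namespace Pool.Agent.Work.MP_73831e_pr.J

variable {n : ℕ}

theorem sum_dg (E : Finset (Pr n)) : ∑ y : Fin n, dg E y = 2 * E.card := by
  have h1 : ∀ y : Fin n, dg E y = ∑ e ∈ E, if y ∈ e.1 then 1 else 0 := by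
    intro y
    unfold dg
    rw [← card_filter]
    congr 1
    ext e
    rw [mem_inter, mem_Qx, mem_filter]
  simp only [h1]
  rw [sum_comm]
  have h2 : ∀ e ∈ E, (∑ y : Fin n, if y ∈ e.1 then 1 else 0) = 2 := by
    intro e _
    rw [← card_filter]
    obtain ⟨⟨u, v⟩, hd⟩ := e
    have huv : u ≠ v := fun h => hd (Sym2.mk_isDiag_iff.mpr h)
    have h3 : univ.filter (fun y : Fin n => y ∈ (s(u, v) : Sym2 (Fin n))) = {u, v} := by
      ext y
      simp [Sym2.mem_iff]
    exact (congrArg card h3).trans (card_pair huv)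
  rw [sum_congr rfl h2, sum_const, smul_eq_mul, mul_comm]

theorem high_card (E : Finset (Pr n)) (Δ : ℕ) :
    Δ * (univ.filter (fun y : Fin n => Δ ≤ dg E y)).card ≤ 2 * E.card := by
  rw [← sum_dg E]
  calc Δ * (univ.filter (fun y : Fin n => Δ ≤ dg E y)).card
      = ∑ _y ∈ univ.filter (fun y : Fin n => Δ ≤ dg E y), Δ := by
        rw [sum_const, smul_eq_mul, mul_comm]
    _ ≤ ∑ y ∈ univ.filter (fun y : Fin n => Δ ≤ dg E y), dg E y :=
        sum_le_sum fun y hy => (mem_filter.mp hy).2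
    _ ≤ ∑ y : Fin n, dg E y :=
        sum_le_sum_of_subset (filter_subset _ _)

end Pool.Agent.Work.MP_73831e_pr.J
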