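import Pool.Agent.Work.MP_73831e_pr.J.Bas
import Pool.Agent.Work.MP_73831e_pr.J.Num
import Pool.Agent.Work.MP_73831e_pr.Transfer

/-!
MODULE Lvl (M).  Sums over a level.

* `nu_level`: `∑_{|E| = m, A E} ν(E) = #{E : |E| = m, A E} * nuR N m`; by `transfer` (file
  `Transfer`) `#{ω : A (pre ω m)} * C(N,m) = #{E : |E| = m, A E} * N!`, and
  `C(N,m) * nuR N m = 1/(N+1)` (`nuR_choose`).
* `w_level`: the same with `C(N,m) * wR N m = 1/(N-m)` (`wR_choose`).
* `sum_w_lt`: `∑_{|E| < C n} w(E) = ∑_{m < C n} 1/(N-m) ≤ C n/(N - C n) ≤ 3C/n` for `n ≥ 6C+3`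
  (`w_level` with `A = True`, `Pb ≤ 1`; `2N = n(n-1)`).
* `sum_nu_lt`: `∑_{|E| < C n} ν(E) = C n/(N+1) ≤ 3C/n`.
* `sum_nu_ge`: for a decreasing `A` (closed under subsets) and `M ≤ N`:
  `∑_{|E| ≥ M, A E} ν(E) = ∑_{m=M}^{N} Pb(A (pre ω m))/(N+1) ≤ Pb(A (pre ω M))`, because
  `A (pre ω m)` implies `A (pre ω M)` for `m ≥ M`, and there are at most `N+1` values of `m`.
-/

open Finset
open scoped Classical Nat

namespace Pool.Agent.Work.MP_73831e_pr.J

private theorem cnt {P : Type} [Fintype P] (A : Finset P → Prop) {m : ℕ}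
    (hm : m ≤ Fintype.card P) :
    ((univ.filter (fun E : Finset P => E.card = m ∧ A E)).card : ℝ) =
      Pb (fun ω : Ordr P => A (pre ω m)) * ((Fintype.card P).choose m : ℝ) := by
  have h1 := transfer A m hm
  rw [Nat.card_eq_fintype_card, Fintype.card_subtype] at h1
  have h2 : ((univ.filter (fun ω : Ordr P => A (pre ω m))).card : ℝ) *
      ((Fintype.card P).choose m : ℝ) =
      ((univ.filter (fun E : Finset P => E.card = m ∧ A E)).card : ℝ) *
        ((Fintype.card P)! : ℝ) := by exact_mod_cast h1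
  unfold Pb
  have h3 : ((Fintype.card P)! : ℝ) ≠ 0 := by exact_mod_cast Nat.factorial_ne_zero _
  rw [div_mul_eq_mul_div, eq_div_iff h3, ← h2]

private theorem fib_le {P : Type} [Fintype P] (s : Finset ℕ) (p : Finset P → Prop)
    [DecidablePred p] (f : Finset P → ℝ) (g : ℕ → ℝ) (h : ∀ E, p E → E.card ∈ s)
    (hg : ∀ m ∈ s, ∑ E ∈ univ.filter (fun E => E.card = m ∧ p E), f E ≤ g m) :
    ∑ E ∈ univ.filter p, f E ≤ ∑ m ∈ s, g m := by
  rw [← sum_fiberwise_of_maps_to (s := univ.filter p) (t := s) (g := Finset.card)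
    (fun E hE => h E (by simpa using hE)) f]
  refine sum_le_sum fun m hm => ?_
  refine le_trans (le_of_eq ?_) (hg m hm)
  rw [filter_filter]
  refine sum_congr ?_ fun _ _ => rfl
  ext E
  simp only [mem_filter, mem_univ, true_and]
  tauto

theorem nu_level {P : Type} [Fintype P] (A : Finset P → Prop) {m : ℕ}
    (hm : m ≤ Fintype.card P) :
    ∑ E ∈ univ.filter (fun E : Finset P => E.card = m ∧ A E), nu E =
      Pb (fun ω : Ordr P => A (pre ω m)) / ((Fintype.card P : ℝ) + 1) := by
  have h1 : ∑ E ∈ univ.filter (fun E : Finset P => E.card = m ∧ A E), nu E =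
      ∑ _E ∈ univ.filter (fun E : Finset P => E.card = m ∧ A E), nuR (Fintype.card P) m := by
    refine sum_congr rfl fun E hE => ?_
    simp only [mem_filter, mem_univ, true_and] at hE
    unfold nu
    rw [hE.1]
  rw [h1, sum_const, nsmul_eq_mul, cnt A hm, mul_assoc, nuR_choose hm, mul_one_div]

theorem w_level {P : Type} [Fintype P] (A : Finset P → Prop) {m : ℕ}
    (hm : m < Fintype.card P) :
    ∑ E ∈ univ.filter (fun E : Finset P => E.card = m ∧ A E), w E =
      Pb (fun ω : Ordr P => A (pre ω m)) / ((Fintype.card P : ℝ) - m) := by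
  have h1 : ∑ E ∈ univ.filter (fun E : Finset P => E.card = m ∧ A E), w E =
      ∑ _E ∈ univ.filter (fun E : Finset P => E.card = m ∧ A E), wR (Fintype.card P) m := by
    refine sum_congr rfl fun E hE => ?_
    simp only [mem_filter, mem_univ, true_and] at hE
    unfold w
    rw [hE.1]
  rw [h1, sum_const, nsmul_eq_mul, cnt A hm.le, mul_assoc, wR_choose hm, mul_one_div]

private theorem nu_level' {P : Type} [Fintype P] (A : Finset P → Prop) [DecidablePred A] {m : ℕ}
    (hm : m ≤ Fintype.card P) :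
    ∑ E ∈ univ.filter (fun E : Finset P => E.card = m ∧ A E), nu E =
      Pb (fun ω : Ordr P => A (pre ω m)) / ((Fintype.card P : ℝ) + 1) := by
  rw [← nu_level A hm]
  refine sum_congr ?_ fun _ _ => rfl
  ext E
  simp only [mem_filter, mem_univ, true_and]

private theorem w_level' {P : Type} [Fintype P] (A : Finset P → Prop) [DecidablePred A] {m : ℕ}
    (hm : m < Fintype.card P) :
    ∑ E ∈ univ.filter (fun E : Finset P => E.card = m ∧ A E), w E =
      Pb (fun ω : Ordr P => A (pre ω m)) / ((Fintype.card P : ℝ) - m) := by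
  rw [← w_level A hm]
  refine sum_congr ?_ fun _ _ => rfl
  ext E
  simp only [mem_filter, mem_univ, true_and]

private theorem two_card (n : ℕ) (hn : 1 ≤ n) :
    2 * (Fintype.card (Pr n) : ℝ) = (n : ℝ) * (n - 1) := by
  have h1 := two_NN n
  have h2 : 2 * (NN n : ℝ) = (n : ℝ) * ((n - 1 : ℕ) : ℝ) := by exact_mod_cast h1
  rw [Nat.cast_sub hn, Nat.cast_one] at h2
  exact h2

private theorem card_big (C n : ℕ) (hn : 6 * C + 3 ≤ n) :
    (n : ℝ) ^ 2 ≤ 3 * ((Fintype.card (Pr n) : ℝ) - C * n) := by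
  have h1 := two_card n (by omega)
  have h2 : (6 * (C : ℝ) + 3) ≤ n := by exact_mod_cast hn
  have h3 : (0 : ℝ) ≤ n := by positivity
  nlinarith [mul_le_mul_of_nonneg_right h2 h3]

theorem sum_w_lt (C : ℕ) : ∃ n₀ : ℕ, ∀ n ≥ n₀,
    ∑ E ∈ univ.filter (fun E : Finset (Pr n) => E.card < C * n), w E ≤ 3 * C / n := by
  refine ⟨6 * C + 3, fun n hn => ?_⟩
  have hb := card_big C n hn
  have hn0 : (0 : ℝ) < n := by
    have : 0 < n := by omega
    exact_mod_cast this
  have hpos : 0 < (Fintype.card (Pr n) : ℝ) - C * n := by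
    have : (0 : ℝ) < (n : ℝ) ^ 2 := by positivity
    linarith
  have hlt : C * n < Fintype.card (Pr n) := by
    have h1 : ((C * n : ℕ) : ℝ) < (Fintype.card (Pr n) : ℝ) := by
      push_cast
      linarith
    exact_mod_cast h1
  calc ∑ E ∈ univ.filter (fun E : Finset (Pr n) => E.card < C * n), w E
      ≤ ∑ _m ∈ range (C * n), 1 / ((Fintype.card (Pr n) : ℝ) - C * n) := by
        refine fib_le (range (C * n)) (fun E : Finset (Pr n) => E.card < C * n) w _
          (fun E hE => mem_range.2 hE) fun m hm => ?_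
        have hm' := mem_range.1 hm
        rw [w_level' (fun E : Finset (Pr n) => E.card < C * n) (hm'.trans hlt)]
        have hm2 : (m : ℝ) ≤ C * n := by exact_mod_cast hm'.le
        exact div_le_div₀ zero_le_one (Pb_le_one _) hpos (by linarith)
    _ = (C * n : ℝ) * (1 / ((Fintype.card (Pr n) : ℝ) - C * n)) := by
        rw [sum_const, card_range, nsmul_eq_mul]
        push_cast
        rfl
    _ ≤ 3 * C / n := by
        rw [mul_one_div, div_le_div_iff₀ hpos hn0]
        have hC : (0 : ℝ) ≤ C := by positivity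
        nlinarith [mul_le_mul_of_nonneg_left hb hC]

theorem sum_nu_lt (C : ℕ) : ∃ n₀ : ℕ, ∀ n ≥ n₀,
    ∑ E ∈ univ.filter (fun E : Finset (Pr n) => E.card < C * n), nu E ≤ 3 * C / n := by
  refine ⟨6 * C + 3, fun n hn => ?_⟩
  have hb := card_big C n hn
  have hn0 : (0 : ℝ) < n := by
    have : 0 < n := by omega
    exact_mod_cast this
  have hpos : 0 < (Fintype.card (Pr n) : ℝ) - C * n := by
    have : (0 : ℝ) < (n : ℝ) ^ 2 := by positivity
    linarith
  have hlt : C * n < Fintype.card (Pr n) := by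
    have h1 : ((C * n : ℕ) : ℝ) < (Fintype.card (Pr n) : ℝ) := by
      push_cast
      linarith
    exact_mod_cast h1
  have hC : (0 : ℝ) ≤ C := by positivity
  have hpos1 : 0 < (Fintype.card (Pr n) : ℝ) + 1 := by positivity
  calc ∑ E ∈ univ.filter (fun E : Finset (Pr n) => E.card < C * n), nu E
      ≤ ∑ _m ∈ range (C * n), 1 / ((Fintype.card (Pr n) : ℝ) + 1) := by
        refine fib_le (range (C * n)) (fun E : Finset (Pr n) => E.card < C * n) nu _
          (fun E hE => mem_range.2 hE) fun m hm => ?_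
        have hm' := mem_range.1 hm
        rw [nu_level' (fun E : Finset (Pr n) => E.card < C * n) (hm'.trans hlt).le]
        exact div_le_div_of_nonneg_right (Pb_le_one _) hpos1.le
    _ = (C * n : ℝ) * (1 / ((Fintype.card (Pr n) : ℝ) + 1)) := by
        rw [sum_const, card_range, nsmul_eq_mul]
        push_cast
        rfl
    _ ≤ 3 * C / n := by
        rw [mul_one_div, div_le_div_iff₀ hpos1 hn0]
        have h1 : (n : ℝ) ^ 2 ≤ 3 * ((Fintype.card (Pr n) : ℝ) + 1) := by
          have h2 : (0 : ℝ) ≤ C * n := by positivity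
          linarith
        nlinarith [mul_le_mul_of_nonneg_left h1 hC]

theorem sum_nu_ge {P : Type} [Fintype P] (A : Finset P → Prop)
    (hA : ∀ E E', E ⊆ E' → A E' → A E) {M : ℕ} (hM : M ≤ Fintype.card P) :
    ∑ E ∈ univ.filter (fun E : Finset P => M ≤ E.card ∧ A E), nu E ≤
      Pb (fun ω : Ordr P => A (pre ω M)) := by
  set N := Fintype.card P with hN
  have hpos : 0 < (N : ℝ) + 1 := by positivity
  have hPb := Pb_nonneg (fun ω : Ordr P => A (pre ω M))
  calc ∑ E ∈ univ.filter (fun E : Finset P => M ≤ E.card ∧ A E), nu E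
      ≤ ∑ _m ∈ Icc M N, Pb (fun ω : Ordr P => A (pre ω M)) / ((N : ℝ) + 1) := by
        refine fib_le (Icc M N) (fun E : Finset P => M ≤ E.card ∧ A E) nu _
          (fun E hE => mem_Icc.2 ⟨hE.1, card_le_univ E⟩) fun m hm => ?_
        have hm' := mem_Icc.1 hm
        rw [nu_level' (fun E : Finset P => M ≤ E.card ∧ A E) hm'.2]
        refine div_le_div_of_nonneg_right (Pb_mono fun ω h => ?_) hpos.le
        exact hA _ _ (pre_mono ω hm'.1) h.2
    _ = ((N + 1 - M : ℕ) : ℝ) * (Pb (fun ω : Ordr P => A (pre ω M)) / ((N : ℝ) + 1)) := by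
        rw [sum_const, Nat.card_Icc, nsmul_eq_mul]
    _ ≤ ((N : ℝ) + 1) * (Pb (fun ω : Ordr P => A (pre ω M)) / ((N : ℝ) + 1)) := by
        refine mul_le_mul_of_nonneg_right ?_ (by positivity)
        have : ((N + 1 - M : ℕ) : ℝ) ≤ ((N + 1 : ℕ) : ℝ) := by
          exact_mod_cast Nat.sub_le _ _
        push_cast at this ⊢
        linarith
    _ = Pb (fun ω : Ordr P => A (pre ω M)) := by
        field_simp

end Pool.Agent.Work.MP_73831e_pr.J
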