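import Pool.Agent.Work.MP_73831e_pr.J.Bas
import Pool.Agent.Work.MP_73831e_pr.J.NumB
import Pool.Agent.Work.MP_73831e_pr.J.Trim
import Pool.Agent.Work.MP_73831e_pr.J.FL
import Pool.Agent.Work.MP_73831e_pr.J.Exch
import Pool.Agent.Work.MP_73831e_pr.J.ExT
import Pool.Agent.Work.MP_73831e_pr.J.High
import Pool.Agent.Work.MP_73831e_pr.J.FluxA
import Pool.Agent.Work.MP_73831e_pr.J.Lvl

/-!
MODULE P2s (L, assembly).  Exchanging one high-degree neighbour for a low-degree one.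

Let `C = p.C`, `T` = the constant `K` of `trim C`.  Given `c`, `D₀`, `Δ > D₀ + 1`, `h`, and
`Phi (RR D₀ Δ (h+1)) ≥ c/n`.
(1) By `fl` with `ε = c/4` (and `Phi_split`): `Phi (RR D₀ Δ (h+1) ∧ gd) ≥ 3c/(4n)`.  If
`Phi (RR D₀ Δ h) ≥ c/(4n)` we are done (`c' ≤ c/4`).  Otherwise, splitting by `hd Δ D x ≤ h`,
`Phi (dg D x ≤ D₀ ∧ hd Δ D x = h+1 ∧ gd) ≥ c/(2n)`.
(2) For such `(D, x)` there is a `D`-neighbour `y` of `x` with `dg (D \ Qx x) y ≥ Δ`.  Let `e = xy`,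
`E = D.erase e`: `FF E` (fc), `Gd p K E`, `e ∉ E`, `¬ FF (insert e E)`, so `Ex k M E x y`.
Let `B(E) = {x : dg E x + 1 ≤ D₀ ∧ hd Δ E x ≤ h}`, `H(E) = {y : Δ ≤ dg E y}`.  Then `x ∈ B(E)`
(`dg E x = dg D x - 1`; the high neighbours of `x` in `E` are those in `D` except `y`, because
`E \ Qx x = D \ Qx x`) and `y ∈ H(E)` (`dg E y ≥ dg (D \ Qx x) y`).  `B(E)`, `H(E)` are
disjoint as `Δ > D₀`.  The map `(D,x) ↦ (E,x,y)` (with a choice of `y`) is injective, and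
`ν(D) = nuR N (|E|+1) ≤ (3C/n) w E` (`nu_w_le`, `|E| < C n`).  With
`S(E) = #{(x,y) ∈ B × H : Ex k M E x y}`:  `∑_{E : FF, Gd} w(E) S(E) ≥ s₀ := c/(6C)`.
(3) `exch` for `A = Ex k M E`, `A' = Ax k M K E` (`ex_trans`, `Ex.symm`, `Ax.symm`, `Ex.ax`), for
`E` with `FF`, `Gd`: `S(E) ≤ |H(E)| + Q(E)/μ + (μ/2) nA(E)`, `Q(E) = #{(x,x') ∈ B × B : Ax}`.
`|H(E)| ≤ 2|E|/Δ ≤ 2 C n/Δ` (`high_card`), `∑_{|E| < C n} w(E) ≤ 3C/n` (`sum_w_lt`), so
`∑ w |H| ≤ 6C²/Δ ≤ s₀/4` if `Δ ≥ 24 C²/s₀`.  `∑ w nA ≤ 2 + 2 Pent K ≤ 4` (`flux_nA`, `Pb_le_one`).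
With `μ = s₀/8`: `(μ/2)*4 = s₀/4`.  So `∑_{FF, Gd} w(E) Q(E) ≥ μ s₀/2 = s₀²/16`.
(4) The pairs counted by `Q(E)` with `K (insert e E)` have total weight `≤ 2 Pent K ≤ 2η ≤ s₀²/32`
(`flux_K`).  The others are exit pairs, so
`∑_{FF, Gd} w(E) #{(x,x') ∈ B × B : Ex k M E x x'} ≥ s₀²/32`.
(5) For such `(E, x, x')`, `e = xx'`, `D' = insert e E`: `¬ FF D'`; `D' \ Qx x = E \ Qx x ∈ F`,
of size `≤ |E| ≤ C n`; `dg D' x = dg E x + 1 ≤ D₀`; `hd Δ D' x = hd Δ E x ≤ h` because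
`dg (D' \ Qx x) x' ≤ dg E x' < D₀ < Δ`.  So `RR D₀ Δ h D' x`.  The map
`(E,x,x') ↦ (D',x)` is at most `D₀` to one (`x'` is one of the `≤ D₀` neighbours of `x` in `D'`),
and `ν(D') ≥ w(E)/(4 K₁ n)` (`nu_w_ge` with `c₀ = 4 K₁`, from `Gd`).  By `trim` (with
`R = RR D₀ Δ h`, `RR.anti`):  `D₀ T Phi (RR D₀ Δ h) ≥ s₀²/(128 K₁ n)`.
So `c' = min (c/4) (s₀²/(128 K₁ (D₀+1) T))`.
-/

open Finset
open scoped Classical Nat

namespace Pool.Agent.Work.MP_73831e_pr.J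

/-- double counting along a relation -/
private theorem dcount {α β : Type} (s : Finset α) (t : Finset β) (R : α → β → Prop)
    (f : α → ℝ) (g : β → ℝ) (m : ℕ) (hg : ∀ b ∈ t, 0 ≤ g b)
    (h1 : ∀ a ∈ s, ∃ b ∈ t, R a b ∧ f a ≤ g b)
    (h2 : ∀ b ∈ t, ∀ s' : Finset α, (∀ a ∈ s', a ∈ s ∧ R a b) → s'.card ≤ m) :
    ∑ a ∈ s, f a ≤ m * ∑ b ∈ t, g b := by
  have e1 : ∑ a ∈ s, f a ≤ ∑ a ∈ s, ∑ b ∈ t, (if R a b then g b else 0) := by
    refine sum_le_sum fun a ha => ?_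
    obtain ⟨b, hb, hR, hle⟩ := h1 a ha
    refine hle.trans ?_
    have h3 := single_le_sum (f := fun b => if R a b then g b else 0) (s := t)
      (fun b hb => by
        split_ifs
        · exact hg b hb
        · exact le_refl _) hb
    simpa [hR] using h3
  refine e1.trans ?_
  rw [sum_comm, mul_sum]
  refine sum_le_sum fun b hb => ?_
  rw [← sum_filter, sum_const, nsmul_eq_mul]
  have h3 := h2 b hb (s.filter (fun a => R a b)) (fun a ha => mem_filter.mp ha)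
  exact mul_le_mul_of_nonneg_right (by exact_mod_cast h3) (hg b hb)

private theorem sum_pairs {α β : Type} [Fintype α] [Fintype β] (P : α → β → Prop) (f : α → ℝ) :
    ∑ a : α, ∑ _b ∈ univ.filter (fun b => P a b), f a =
      ∑ z ∈ univ.filter (fun z : α × β => P z.1 z.2), f z.1 := by
  rw [sum_filter, Fintype.sum_prod_type]
  refine sum_congr rfl fun a _ => ?_
  rw [sum_filter]

private theorem sum_pairs' {α β : Type} [Fintype α] [Fintype β] (A : α → Prop) (P : α → β → Prop)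
    (f : α → ℝ) :
    ∑ a ∈ univ.filter A, f a * ((univ.filter (fun b => P a b)).card : ℝ) =
      ∑ z ∈ univ.filter (fun z : α × β => A z.1 ∧ P z.1 z.2), f z.1 := by
  have key : ∑ a ∈ univ.filter A, f a * ((univ.filter (fun b => P a b)).card : ℝ) =
      ∑ a : α, ∑ _b ∈ univ.filter (fun b => A a ∧ P a b), f a := by
    rw [sum_filter]
    refine sum_congr rfl fun a _ => ?_
    by_cases h : A a
    · rw [if_pos h, sum_const, nsmul_eq_mul, mul_comm]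
      congr 3
      ext b
      simp [h]
    · rw [if_neg h]
      symm
      apply sum_eq_zero
      intro b hb
      simp only [mem_filter] at hb
      exact absurd hb.2.1 h
  rw [key]
  convert sum_pairs (fun a b => A a ∧ P a b) f

section local_facts

variable {n : ℕ}

private theorem erase_sdiff {D : Finset (Pr n)} {e : Pr n} {x : Fin n} (hx : x ∈ e.1) :
    D.erase e \ Qx x = D \ Qx x := by
  ext a
  rw [mem_sdiff, mem_sdiff, mem_erase, mem_Qx]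
  constructor
  · rintro ⟨⟨_, h⟩, h'⟩
    exact ⟨h, h'⟩
  · rintro ⟨h, h'⟩
    exact ⟨⟨fun hh => h' (hh ▸ hx), h⟩, h'⟩

private theorem insert_sdiff' {E : Finset (Pr n)} {e : Pr n} {x : Fin n} (hx : x ∈ e.1) :
    insert e E \ Qx x = E \ Qx x := by
  ext a
  rw [mem_sdiff, mem_sdiff, mem_insert, mem_Qx]
  constructor
  · rintro ⟨h | h, h'⟩
    · exact absurd (h ▸ hx) h'
    · exact ⟨h, h'⟩
  · rintro ⟨h, h'⟩
    exact ⟨Or.inr h, h'⟩

private theorem dg_insert {E : Finset (Pr n)} {e : Pr n} {x : Fin n} (he : e ∉ E)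
    (hx : x ∈ e.1) : dg (insert e E) x = dg E x + 1 := by
  unfold dg
  rw [insert_inter_of_mem (mem_Qx.mpr hx), card_insert_of_notMem]
  rw [mem_inter]
  exact fun h => he h.1

/-- vertices of low degree with at most `h` high neighbours, and one more edge allowed -/
private noncomputable def Bs (D₀ Δ h : ℕ) (E : Finset (Pr n)) : Finset (Fin n) :=
  univ.filter (fun x => dg E x + 1 ≤ D₀ ∧ hd Δ E x ≤ h)

private noncomputable def Hs (Δ : ℕ) (E : Finset (Pr n)) : Finset (Fin n) :=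
  univ.filter (fun y => Δ ≤ dg E y)

private theorem mem_Bs {D₀ Δ h : ℕ} {E : Finset (Pr n)} {x : Fin n} :
    x ∈ Bs D₀ Δ h E ↔ dg E x + 1 ≤ D₀ ∧ hd Δ E x ≤ h := by simp [Bs]

private theorem mem_Hs {Δ : ℕ} {E : Finset (Pr n)} {x : Fin n} :
    x ∈ Hs Δ E ↔ Δ ≤ dg E x := by simp [Hs]

private theorem stepA {k M D₀ Δ h : ℕ} {p : Par} {K : Finset (Pr n) → Prop}
    {D : Finset (Pr n)} {x : Fin n} (hf : fc k M D x) (hdg : dg D x ≤ D₀)
    (hhd : hd Δ D x = h + 1) (hg : gd p K D x) :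
    ∃ (y : Fin n) (e : Pr n), e.1 = s(x, y) ∧ e ∈ D ∧ FF k M (D.erase e) ∧
      Gd p K (D.erase e) ∧ x ∈ Bs D₀ Δ h (D.erase e) ∧ y ∈ Hs Δ (D.erase e) ∧
      Ex k M (D.erase e) x y := by
  have hne : (univ.filter (fun y => (gr D).Adj x y ∧ Δ ≤ dg (D \ Qx x) y)).Nonempty := by
    rw [← card_pos]
    unfold hd at hhd
    omega
  obtain ⟨y, hy⟩ := hne
  rw [mem_filter] at hy
  obtain ⟨-, hadj, hdeg⟩ := hy
  obtain ⟨e, heD, he⟩ := gr_adj'.mp hadj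
  have hx : x ∈ e.1 := by rw [he]; exact Sym2.mem_mk_left _ _
  have hins : insert e (D.erase e) = D := insert_erase heD
  have hdgx : dg D x = dg (D.erase e) x + 1 := by
    conv_lhs => rw [← hins]
    exact dg_insert (notMem_erase e D) hx
  refine ⟨y, e, he, heD, hf.2.2 e heD hx, hg e heD hx, ?_, ?_, ?_⟩
  · rw [mem_Bs]
    refine ⟨by omega, ?_⟩
    have hsub : (univ.filter (fun z => (gr (D.erase e)).Adj x z ∧ Δ ≤ dg (D.erase e \ Qx x) z)) ⊆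
        (univ.filter (fun z => (gr D).Adj x z ∧ Δ ≤ dg (D \ Qx x) z)).erase y := by
      intro z hz
      rw [mem_filter] at hz
      rw [mem_erase, mem_filter]
      refine ⟨?_, mem_univ _, gr_adj_mono (erase_subset _ _) hz.2.1, ?_⟩
      · rintro rfl
        exact notMem_erase e D ((mem_iff_adj he).mpr hz.2.1)
      · rw [← erase_sdiff hx]
        exact hz.2.2
    have h1 := card_le_card hsub
    rw [card_erase_of_mem (by rw [mem_filter]; exact ⟨mem_univ _, hadj, hdeg⟩)] at h1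
    unfold hd at hhd ⊢
    omega
  · rw [mem_Hs]
    refine hdeg.trans (dg_mono ?_ y)
    rw [← erase_sdiff hx]
    exact sdiff_subset
  · refine ⟨e, he, notMem_erase e D, ?_⟩
    rw [hins]
    exact hf.1

private theorem stepB {k M D₀ Δ h C : ℕ} (hΔ : D₀ < Δ) {E : Finset (Pr n)} (hE : FF k M E)
    (hc : E.card < C * n) {x x' : Fin n} (hx : x ∈ Bs D₀ Δ h E) (hx' : x' ∈ Bs D₀ Δ h E)
    {e : Pr n} (he : e.1 = s(x, x')) (heE : e ∉ E) (hnF : ¬ FF k M (insert e E)) :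
    ¬ FF k M (insert e E) ∧ FF k M (insert e E \ Qx x) ∧ (insert e E \ Qx x).card ≤ C * n ∧
      RR D₀ Δ h (insert e E) x := by
  have hxe : x ∈ e.1 := by rw [he]; exact Sym2.mem_mk_left _ _
  rw [mem_Bs] at hx hx'
  refine ⟨hnF, ?_, ?_, ?_, ?_⟩
  · rw [insert_sdiff' hxe]
    exact hE.anti sdiff_subset
  · rw [insert_sdiff' hxe]
    exact (card_le_card sdiff_subset).trans hc.le
  · rw [dg_insert heE hxe]
    exact hx.1
  · refine le_trans (card_le_card ?_) hx.2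
    intro z hz
    rw [mem_filter] at hz ⊢
    obtain ⟨-, h1, h2⟩ := hz
    rw [insert_sdiff' hxe] at h2
    refine ⟨mem_univ _, ?_, h2⟩
    rcases gr_adj_insert.mp h1 with h3 | h3
    · exact h3
    · exfalso
      have hz' : z = x' := by
        rw [he] at h3
        rcases Sym2.eq_iff.mp h3 with ⟨_, h4⟩ | ⟨h4, h5⟩
        · exact h4.symm
        · rw [← h4, h5]
      rw [hz'] at h2
      have h5 : dg (E \ Qx x) x' ≤ dg E x' := dg_mono sdiff_subset x'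
      omega

private theorem pr_unique {e e' : Pr n} {a : Sym2 (Fin n)} (h : e.1 = a) (h' : e'.1 = a) :
    e = e' := Subtype.ext (h.trans h'.symm)

/-- step (2): the sum over the fully critical pairs -/
private theorem sumA {k M D₀ Δ h : ℕ} {p : Par} {K : Finset (Pr n) → Prop}
    (hnu : ∀ m < p.C * n, nuR (NN n) (m + 1) ≤ 3 * p.C / n * wR (NN n) m) :
    Phi k M (fun D x => dg D x ≤ D₀ ∧ hd Δ D x = h + 1 ∧ gd p K D x) ≤
      3 * p.C / n * ∑ E ∈ univ.filter (fun E : Finset (Pr n) => FF k M E ∧ Gd p K E),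
        w E * ((univ.filter (fun z : Fin n × Fin n => z.1 ∈ Bs D₀ Δ h E ∧ z.2 ∈ Hs Δ E ∧
          Ex k M E z.1 z.2)).card : ℝ) := by
  have e1 : Phi k M (fun (D : Finset (Pr n)) x => dg D x ≤ D₀ ∧ hd Δ D x = h + 1 ∧
      gd p K D x) = ∑ z ∈ univ.filter (fun z : Finset (Pr n) × Fin n => fc k M z.1 z.2 ∧
      dg z.1 z.2 ≤ D₀ ∧ hd Δ z.1 z.2 = h + 1 ∧ gd p K z.1 z.2), nu z.1 := by
    unfold Phi
    convert sum_pairs (fun (D : Finset (Pr n)) x => fc k M D x ∧ dg D x ≤ D₀ ∧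
      hd Δ D x = h + 1 ∧ gd p K D x) (fun D => nu D)
  have e2 : ∑ E ∈ univ.filter (fun E : Finset (Pr n) => FF k M E ∧ Gd p K E),
        w E * ((univ.filter (fun z : Fin n × Fin n => z.1 ∈ Bs D₀ Δ h E ∧ z.2 ∈ Hs Δ E ∧
          Ex k M E z.1 z.2)).card : ℝ) =
      ∑ z ∈ (univ.filter (fun z : Finset (Pr n) × (Fin n × Fin n) => (FF k M z.1 ∧
      Gd p K z.1) ∧ z.2.1 ∈ Bs D₀ Δ h z.1 ∧ z.2.2 ∈ Hs Δ z.1 ∧ Ex k M z.1 z.2.1 z.2.2)),
        w z.1 := by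
    convert sum_pairs' (fun E : Finset (Pr n) => FF k M E ∧ Gd p K E)
      (fun E (z : Fin n × Fin n) => z.1 ∈ Bs D₀ Δ h E ∧ z.2 ∈ Hs Δ E ∧ Ex k M E z.1 z.2)
      (fun E => w E)
  rw [e1, e2, mul_sum]
  have key := dcount
    (univ.filter (fun z : Finset (Pr n) × Fin n => fc k M z.1 z.2 ∧ dg z.1 z.2 ≤ D₀ ∧
      hd Δ z.1 z.2 = h + 1 ∧ gd p K z.1 z.2))
    (univ.filter (fun z : Finset (Pr n) × (Fin n × Fin n) => (FF k M z.1 ∧ Gd p K z.1) ∧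
      z.2.1 ∈ Bs D₀ Δ h z.1 ∧ z.2.2 ∈ Hs Δ z.1 ∧ Ex k M z.1 z.2.1 z.2.2))
    (fun a b => a.2 = b.2.1 ∧ ∃ e : Pr n, e.1 = s(b.2.1, b.2.2) ∧ a.1 = insert e b.1)
    (fun a => nu a.1) (fun b => 3 * p.C / n * w b.1) 1
    (fun b _ => mul_nonneg (by positivity) (w_nonneg _)) ?_ ?_
  · rw [Nat.cast_one, one_mul] at key
    exact key
  · rintro ⟨D, x⟩ ha
    rw [mem_filter] at ha
    obtain ⟨-, hf, hdg, hhd, hg⟩ := ha
    obtain ⟨y, e, he, heD, h1, h2, h3, h4, h5⟩ := stepA hf hdg hhd hg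
    refine ⟨(D.erase e, (x, y)), ?_, ⟨rfl, e, he, (insert_erase heD).symm⟩, ?_⟩
    · rw [mem_filter]
      exact ⟨mem_univ _, ⟨h1, h2⟩, h3, h4, h5⟩
    · have hcard : D.card = (D.erase e).card + 1 := (card_erase_add_one heD).symm
      have e1 : nu D = nuR (NN n) ((D.erase e).card + 1) := by rw [← hcard]; rfl
      have e2 : w (D.erase e) = wR (NN n) (D.erase e).card := rfl
      change nu D ≤ 3 * p.C / n * w (D.erase e)
      rw [e1, e2]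
      exact hnu _ h2.2.2.1
  · rintro ⟨E, x, y⟩ _ s' hs'
    rw [card_le_one]
    rintro ⟨D, u⟩ ha ⟨D', u'⟩ hb
    obtain ⟨-, h1, e, he, hD⟩ := hs' _ ha
    obtain ⟨-, h1', e', he', hD'⟩ := hs' _ hb
    have hee : e = e' := pr_unique he he'
    simp only at h1 h1' hD hD'
    rw [hD, hD', h1, h1', hee]

/-- step (5): the sum over the exit pairs -/
private theorem sumB {k M D₀ Δ h : ℕ} {p : Par} {K : Finset (Pr n) → Prop} (hΔ : D₀ < Δ)
    (hCN : p.C * n < NN n)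
    (hnu : ∀ m < NN n, n ≤ 4 * p.K₁ * (m + 1) →
      1 / (((4 * p.K₁ : ℕ) : ℝ) * n) * wR (NN n) m ≤ nuR (NN n) (m + 1)) :
    1 / (((4 * p.K₁ : ℕ) : ℝ) * n) *
        ∑ E ∈ univ.filter (fun E : Finset (Pr n) => FF k M E ∧ Gd p K E),
        w E * ((univ.filter (fun z : Fin n × Fin n => z.1 ∈ Bs D₀ Δ h E ∧ z.2 ∈ Bs D₀ Δ h E ∧
          Ex k M E z.1 z.2)).card : ℝ) ≤
      D₀ * ∑ D : Finset (Pr n), ∑ _x ∈ univ.filter (fun x => ¬ FF k M D ∧ FF k M (D \ Qx x) ∧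
      (D \ Qx x).card ≤ p.C * n ∧ RR D₀ Δ h D x), nu D := by
  have e1 : ∑ D : Finset (Pr n), ∑ _x ∈ univ.filter (fun x => ¬ FF k M D ∧ FF k M (D \ Qx x) ∧
      (D \ Qx x).card ≤ p.C * n ∧ RR D₀ Δ h D x), nu D =
      ∑ z ∈ (univ.filter (fun z : Finset (Pr n) × Fin n => ¬ FF k M z.1 ∧
      FF k M (z.1 \ Qx z.2) ∧ (z.1 \ Qx z.2).card ≤ p.C * n ∧ RR D₀ Δ h z.1 z.2)), nu z.1 := by
    convert sum_pairs (fun (D : Finset (Pr n)) x => ¬ FF k M D ∧ FF k M (D \ Qx x) ∧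
      (D \ Qx x).card ≤ p.C * n ∧ RR D₀ Δ h D x) (fun D => nu D)
  have e2 : ∑ E ∈ univ.filter (fun E : Finset (Pr n) => FF k M E ∧ Gd p K E),
        w E * ((univ.filter (fun z : Fin n × Fin n => z.1 ∈ Bs D₀ Δ h E ∧ z.2 ∈ Bs D₀ Δ h E ∧
          Ex k M E z.1 z.2)).card : ℝ) =
      ∑ z ∈ (univ.filter (fun z : Finset (Pr n) × (Fin n × Fin n) => (FF k M z.1 ∧
      Gd p K z.1) ∧ z.2.1 ∈ Bs D₀ Δ h z.1 ∧ z.2.2 ∈ Bs D₀ Δ h z.1 ∧
      Ex k M z.1 z.2.1 z.2.2)), w z.1 := by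
    convert sum_pairs' (fun E : Finset (Pr n) => FF k M E ∧ Gd p K E)
      (fun E (z : Fin n × Fin n) => z.1 ∈ Bs D₀ Δ h E ∧ z.2 ∈ Bs D₀ Δ h E ∧
        Ex k M E z.1 z.2) (fun E => w E)
  rw [e1, e2, mul_sum]
  refine dcount
    (univ.filter (fun z : Finset (Pr n) × (Fin n × Fin n) => (FF k M z.1 ∧ Gd p K z.1) ∧
      z.2.1 ∈ Bs D₀ Δ h z.1 ∧ z.2.2 ∈ Bs D₀ Δ h z.1 ∧ Ex k M z.1 z.2.1 z.2.2))
    (univ.filter (fun z : Finset (Pr n) × Fin n => ¬ FF k M z.1 ∧ FF k M (z.1 \ Qx z.2) ∧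
      (z.1 \ Qx z.2).card ≤ p.C * n ∧ RR D₀ Δ h z.1 z.2))
    (fun a b => b.2 = a.2.1 ∧ ∃ e : Pr n, e.1 = s(a.2.1, a.2.2) ∧ e ∉ a.1 ∧ b.1 = insert e a.1)
    (fun a => 1 / (((4 * p.K₁ : ℕ) : ℝ) * n) * w a.1) (fun b => nu b.1) D₀
    (fun b _ => nu_nonneg _) ?_ ?_
  · rintro ⟨E, x, x'⟩ ha
    rw [mem_filter] at ha
    obtain ⟨-, ⟨hF, hG⟩, hx, hx', e, he, heE, hnF⟩ := ha
    simp only at hF hG hx hx' he heE hnF
    obtain ⟨h1, h2, h3, h4⟩ := stepB hΔ hF hG.2.2.1 hx hx' he heE hnF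
    refine ⟨(insert e E, x), ?_, ⟨rfl, e, he, heE, rfl⟩, ?_⟩
    · rw [mem_filter]
      exact ⟨mem_univ _, h1, h2, h3, h4⟩
    · have e1 : nu (insert e E) = nuR (NN n) (E.card + 1) := by
        rw [← card_insert_of_notMem heE]; rfl
      have e2 : w E = wR (NN n) E.card := rfl
      change 1 / (((4 * p.K₁ : ℕ) : ℝ) * n) * w E ≤ nu (insert e E)
      rw [e1, e2]
      exact hnu _ (hG.2.2.1.trans hCN) hG.2.2.2
  · rintro ⟨D, x⟩ hb s' hs'
    rw [mem_filter] at hb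
    have hRR := hb.2.2.2.2
    simp only at hRR
    refine le_trans ?_ hRR.1
    rw [dg_eq]
    refine card_le_card_of_injOn (fun a => a.2.2) ?_ ?_
    · rintro ⟨E, u, u'⟩ ha
      obtain ⟨-, h1, e, he, heE, hD⟩ := hs' _ (mem_coe.mp ha)
      simp only at h1 he heE hD
      rw [mem_coe, mem_filter]
      refine ⟨mem_univ _, ?_⟩
      simp only
      rw [hD, h1]
      exact (mem_iff_adj he).mp (mem_insert_self _ _)
    · rintro ⟨E, u, u'⟩ ha ⟨E₂, v, v'⟩ hb' huv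
      obtain ⟨-, h1, e, he, heE, hD⟩ := hs' _ (mem_coe.mp ha)
      obtain ⟨-, h1', e', he', heE', hD'⟩ := hs' _ (mem_coe.mp hb')
      simp only at h1 he heE hD h1' he' heE' hD' huv
      have huv' : u = v := h1.symm.trans h1'
      subst huv' huv
      have hee : e = e' := pr_unique he he'
      subst hee
      have hEE : E = E₂ := by
        rw [← erase_insert heE, ← hD, hD', erase_insert heE']
      rw [hEE]

end local_facts

theorem P2s {k : ℕ} (hk : 3 ≤ k) {p : Par} (hp : POK k p) (D₀ : ℕ) : ∀ c : ℝ, 0 < c →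
    ∃ c' : ℝ, 0 < c' ∧ ∃ η : ℝ, 0 < η ∧ ∃ Δ₀ : ℕ, ∀ Δ ≥ Δ₀, ∃ n₀ : ℕ, ∀ n ≥ n₀, ∀ M, 7 ≤ M →
      ∀ K : Finset (Pr n) → Prop, KF k M 2 (p.kap k) K → Pent K ≤ η → ∀ h : ℕ,
        c / n ≤ Phi k M (RR (n := n) D₀ Δ (h + 1)) → c' / n ≤ Phi k M (RR (n := n) D₀ Δ h) := by
  intro c hc
  have hC1 : (1 : ℝ) ≤ p.C := by exact_mod_cast hp.hC
  have hK1 : (1 : ℝ) ≤ p.K₁ := by exact_mod_cast hp.hK1
  obtain ⟨T, hT1, n1, hn1⟩ := trim p.C
  obtain ⟨η₁, hη₁, n2, hn2⟩ := fl hk hp (c / 4) (by positivity)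
  obtain ⟨n3, hn3⟩ := nu_w_le p.C
  obtain ⟨n4, hn4⟩ := nu_w_ge (4 * p.K₁)
  obtain ⟨n5, hn5⟩ := sum_w_lt p.C
  obtain ⟨n6, hn6⟩ := ex_trans hk hp
  set s₀ : ℝ := c / (6 * p.C) with hs₀
  have hs0 : 0 < s₀ := by positivity
  refine ⟨min (c / 4) (s₀ ^ 2 / (128 * p.K₁ * (D₀ + 1) * T)), lt_min (by positivity)
    (by positivity), min η₁ (s₀ ^ 2 / 64), lt_min hη₁ (by positivity),
    max (D₀ + 1) ⌈24 * (p.C : ℝ) ^ 2 / s₀⌉₊, ?_⟩
  intro Δ hΔ
  have hΔ1 : D₀ < Δ := by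
    have := (le_max_left _ _).trans hΔ
    omega
  have hΔ2 : 24 * (p.C : ℝ) ^ 2 / s₀ ≤ Δ :=
    (Nat.le_ceil _).trans (by exact_mod_cast (le_max_right _ _).trans hΔ)
  have hΔ0 : (0 : ℝ) < Δ := lt_of_lt_of_le (by positivity) hΔ2
  refine ⟨max 1 (max n1 (max n2 (max n3 (max n4 (max n5 n6))))), ?_⟩
  intro n hn M hM K hK hPent h hPhi
  have hnn : 1 ≤ n := (le_max_left _ _).trans hn
  have hn' := (le_max_right _ _).trans hn
  have g1 : n1 ≤ n := (le_max_left _ _).trans hn'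
  have hn'' := (le_max_right _ _).trans hn'
  have g2 : n2 ≤ n := (le_max_left _ _).trans hn''
  have hn3' := (le_max_right _ _).trans hn''
  have g3 : n3 ≤ n := (le_max_left _ _).trans hn3'
  have hn4' := (le_max_right _ _).trans hn3'
  have g4 : n4 ≤ n := (le_max_left _ _).trans hn4'
  have hn5' := (le_max_right _ _).trans hn4'
  have g5 : n5 ≤ n := (le_max_left _ _).trans hn5'
  have g6 : n6 ≤ n := (le_max_right _ _).trans hn5'
  have hn0 : (0 : ℝ) < n := by exact_mod_cast hnn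
  -- step (1)
  by_cases hdone : c / 4 / n ≤ Phi k M (RR (n := n) D₀ Δ h)
  · refine le_trans ?_ hdone
    gcongr
    exact min_le_left _ _
  push Not at hdone
  have hfl := hn2 n g2 M (by omega) 2 (p.kap k) K hK (hPent.trans (min_le_left _ _))
  have hP1 : 3 / 4 * c / n ≤ Phi k M (fun (D : Finset (Pr n)) x =>
      RR D₀ Δ (h + 1) D x ∧ gd p K D x) := by
    have h1 := Phi_split (k := k) (M := M) (RR (n := n) D₀ Δ (h + 1)) (fun D x => gd p K D x)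
    have h2 : Phi k M (fun (D : Finset (Pr n)) x => RR D₀ Δ (h + 1) D x ∧ ¬ gd p K D x) ≤
        Phi k M (fun (D : Finset (Pr n)) x => ¬ gd p K D x) := Phi_mono fun D x _ h => h.2
    have h3 : 3 / 4 * c / n = c / n - c / 4 / n := by
      field_simp
      ring
    rw [h3]
    linarith
  have hP2 : 1 / 2 * c / n ≤ Phi k M (fun (D : Finset (Pr n)) x => dg D x ≤ D₀ ∧
      hd Δ D x = h + 1 ∧ gd p K D x) := by
    have h1 := Phi_split (k := k) (M := M) (fun (D : Finset (Pr n)) x =>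
      RR D₀ Δ (h + 1) D x ∧ gd p K D x) (fun D x => hd Δ D x ≤ h)
    have h2 : Phi k M (fun (D : Finset (Pr n)) x =>
        (RR D₀ Δ (h + 1) D x ∧ gd p K D x) ∧ hd Δ D x ≤ h) ≤ Phi k M (RR (n := n) D₀ Δ h) :=
      Phi_mono fun D x _ h => ⟨h.1.1.1, h.2⟩
    have h3 : Phi k M (fun (D : Finset (Pr n)) x =>
        (RR D₀ Δ (h + 1) D x ∧ gd p K D x) ∧ ¬ hd Δ D x ≤ h) ≤
        Phi k M (fun (D : Finset (Pr n)) x => dg D x ≤ D₀ ∧ hd Δ D x = h + 1 ∧ gd p K D x) :=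
      Phi_mono fun D x _ h' => ⟨h'.1.1.1, by have := h'.1.1.2; have := h'.2; omega, h'.1.2⟩
    have h4 : 1 / 2 * c / n = 3 / 4 * c / n - c / 4 / n := by
      field_simp
      ring
    rw [h4]
    linarith
  -- step (2)
  obtain ⟨hCN, hnu3⟩ := hn3 n g3
  have hA := sumA (k := k) (M := M) (D₀ := D₀) (Δ := Δ) (h := h) (K := K) hnu3
  set G : Finset (Finset (Pr n)) := univ.filter (fun E => FF k M E ∧ Gd p K E) with hGdef
  have hG : ∀ E, E ∈ G ↔ FF k M E ∧ Gd p K E := fun E => by rw [hGdef, mem_filter]; simp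
  let Sf : Finset (Pr n) → ℝ := fun E => ((univ.filter (fun z : Fin n × Fin n =>
    z.1 ∈ Bs D₀ Δ h E ∧ z.2 ∈ Hs Δ E ∧ Ex k M E z.1 z.2)).card : ℝ)
  let Qf : Finset (Pr n) → ℝ := fun E => ((univ.filter (fun z : Fin n × Fin n =>
    z.1 ∈ Bs D₀ Δ h E ∧ z.2 ∈ Bs D₀ Δ h E ∧ Ax k M K E z.1 z.2)).card : ℝ)
  let Q1 : Finset (Pr n) → ℝ := fun E => ((univ.filter (fun z : Fin n × Fin n =>
    z.1 ∈ Bs D₀ Δ h E ∧ z.2 ∈ Bs D₀ Δ h E ∧ Ex k M E z.1 z.2)).card : ℝ)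
  let Q2 : Finset (Pr n) → ℝ := fun E => ((univ.filter (fun z : Fin n × Fin n =>
    ∃ e : Pr n, e.1 = s(z.1, z.2) ∧ e ∉ E ∧ K (insert e E))).card : ℝ)
  have hS : s₀ ≤ ∑ E ∈ G, w E * Sf E := by
    have h1 : 1 / 2 * c / n ≤ 3 * p.C / n * ∑ E ∈ G, w E * Sf E := hP2.trans hA
    have h2 : 1 / 2 * c ≤ 3 * p.C * ∑ E ∈ G, w E * Sf E := by
      have h3 := mul_le_mul_of_nonneg_right h1 hn0.le
      have h4 : 1 / 2 * c / n * n = 1 / 2 * c := by field_simp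
      have h5 : 3 * p.C / n * (∑ E ∈ G, w E * Sf E) * n = 3 * p.C * ∑ E ∈ G, w E * Sf E := by
        field_simp
      rw [h4, h5] at h3
      exact h3
    rw [hs₀, div_le_iff₀ (by positivity)]
    linarith
  -- step (3)
  set μ : ℝ := s₀ / 8 with hμ
  have hμ0 : 0 < μ := by positivity
  have hexch : ∀ E ∈ G, Sf E ≤ (Hs Δ E).card + 1 / μ * Qf E + μ / 2 * nA k M K E := by
    intro E hE
    obtain ⟨hF, hGd⟩ := (hG E).1 hE
    have hdisj : Disjoint (Bs D₀ Δ h E) (Hs Δ E) := by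
      rw [disjoint_left]
      intro x h1 h2
      rw [mem_Bs] at h1
      rw [mem_Hs] at h2
      omega
    have h1 := exch (Ex k M E) (Ax k M K E) (fun u v h => h.ax) (fun u v h => h.symm)
      (fun u v h => h.symm) (fun y x x' h1 h2 h3 => hn6 n g6 M hM 2 le_rfl K hK E hF hGd.1
        hGd.2.1 x y x' h1 h2 h3) (Bs D₀ Δ h E) (Hs Δ E) hdisj μ hμ0
    unfold nA
    convert h1
  have hH : ∑ E ∈ G, w E * ((Hs Δ E).card : ℝ) ≤ s₀ / 4 := by
    have h1 : ∀ E ∈ G, w E * ((Hs Δ E).card : ℝ) ≤ w E * (2 * p.C * n / Δ) := by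
      intro E hE
      obtain ⟨hF, hGd⟩ := (hG E).1 hE
      refine mul_le_mul_of_nonneg_left ?_ (w_nonneg E)
      rw [le_div_iff₀ hΔ0]
      have h2 := high_card E Δ
      have h3 : Δ * (Hs Δ E).card ≤ 2 * (p.C * n) := by
        refine h2.trans ?_
        have := hGd.2.2.1
        omega
      have h4 : ((Δ * (Hs Δ E).card : ℕ) : ℝ) ≤ ((2 * (p.C * n) : ℕ) : ℝ) := by exact_mod_cast h3
      push_cast at h4
      linarith
    have h2 : ∑ E ∈ G, w E ≤ 3 * p.C / n := by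
      refine le_trans (sum_le_sum_of_subset_of_nonneg ?_ fun _ _ _ => w_nonneg _) (hn5 n g5)
      intro E hE
      rw [mem_filter]
      exact ⟨mem_univ _, ((hG E).1 hE).2.2.2.1⟩
    refine (sum_le_sum h1).trans ?_
    rw [← sum_mul]
    have h3 : (0 : ℝ) ≤ 2 * p.C * n / Δ := by positivity
    calc (∑ E ∈ G, w E) * (2 * p.C * n / Δ) ≤ 3 * p.C / n * (2 * p.C * n / Δ) :=
          mul_le_mul_of_nonneg_right h2 h3
      _ = 6 * (p.C : ℝ) ^ 2 / Δ := by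
          field_simp
          ring
      _ ≤ s₀ / 4 := by
          rw [div_le_iff₀ hΔ0]
          rw [div_le_iff₀ hs0] at hΔ2
          linarith
  have hGK : ∀ f : Finset (Pr n) → ℝ, (∀ E, 0 ≤ f E) → ∑ E ∈ G, w E * f E ≤
      ∑ E ∈ univ.filter (fun E : Finset (Pr n) => FF k M E ∧ ¬ K E), w E * f E := by
    intro f hf
    refine sum_le_sum_of_subset_of_nonneg ?_ fun E _ _ => mul_nonneg (w_nonneg _) (hf E)
    intro E hE
    rw [mem_filter]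
    exact ⟨mem_univ _, ((hG E).1 hE).1, ((hG E).1 hE).2.2.1⟩
  have hPent1 : Pent K ≤ 1 := Pb_le_one _
  have hnA : ∑ E ∈ G, w E * (nA k M K E : ℝ) ≤ 4 := by
    refine (hGK _ fun E => Nat.cast_nonneg _).trans ((flux_nA hK).trans ?_)
    linarith
  have hQ2 : ∑ E ∈ G, w E * Q2 E ≤ s₀ ^ 2 / 32 := by
    refine (hGK _ fun E => Nat.cast_nonneg _).trans ((flux_K hK).trans ?_)
    have := hPent.trans (min_le_right _ _)
    linarith
  have hQ : s₀ ^ 2 / 16 ≤ ∑ E ∈ G, w E * Qf E := by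
    have h1 : ∑ E ∈ G, w E * Sf E ≤ ∑ E ∈ G, w E * ((Hs Δ E).card : ℝ) +
        1 / μ * ∑ E ∈ G, w E * Qf E + μ / 2 * ∑ E ∈ G, w E * (nA k M K E : ℝ) := by
      rw [mul_sum, mul_sum, ← sum_add_distrib, ← sum_add_distrib]
      refine sum_le_sum fun E hE => ?_
      have h2 := mul_le_mul_of_nonneg_left (hexch E hE) (w_nonneg E)
      refine h2.trans (le_of_eq ?_)
      ring
    have h2 : s₀ / 2 ≤ 1 / μ * ∑ E ∈ G, w E * Qf E := by
      have h3 : μ / 2 * ∑ E ∈ G, w E * (nA k M K E : ℝ) ≤ μ / 2 * 4 :=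
        mul_le_mul_of_nonneg_left hnA (by positivity)
      have h4 : μ / 2 * 4 = s₀ / 4 := by rw [hμ]; ring
      linarith
    rw [one_div, inv_mul_eq_div, le_div_iff₀ hμ0] at h2
    refine le_trans (le_of_eq ?_) h2
    rw [hμ]
    ring
  -- step (4)
  have hQ1 : s₀ ^ 2 / 32 ≤ ∑ E ∈ G, w E * Q1 E := by
    have h1 : ∑ E ∈ G, w E * Qf E ≤ ∑ E ∈ G, w E * Q1 E + ∑ E ∈ G, w E * Q2 E := by
      rw [← sum_add_distrib]
      refine sum_le_sum fun E _ => ?_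
      rw [← mul_add]
      refine mul_le_mul_of_nonneg_left ?_ (w_nonneg E)
      have h2 : (univ.filter (fun z : Fin n × Fin n =>
          z.1 ∈ Bs D₀ Δ h E ∧ z.2 ∈ Bs D₀ Δ h E ∧ Ax k M K E z.1 z.2)) ⊆
          (univ.filter (fun z : Fin n × Fin n =>
          z.1 ∈ Bs D₀ Δ h E ∧ z.2 ∈ Bs D₀ Δ h E ∧ Ex k M E z.1 z.2)) ∪
          (univ.filter (fun z : Fin n × Fin n =>
          ∃ e : Pr n, e.1 = s(z.1, z.2) ∧ e ∉ E ∧ K (insert e E))) := by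
        intro z hz
        rw [mem_filter] at hz
        rw [mem_union, mem_filter, mem_filter]
        obtain ⟨-, hz1, hz2, e, he, heE, h3 | h3⟩ := hz
        · exact Or.inl ⟨mem_univ _, hz1, hz2, e, he, heE, h3⟩
        · exact Or.inr ⟨mem_univ _, e, he, heE, h3⟩
      have h3 := (card_le_card h2).trans (card_union_le _ _)
      have h4 : (((univ.filter (fun z : Fin n × Fin n =>
          z.1 ∈ Bs D₀ Δ h E ∧ z.2 ∈ Bs D₀ Δ h E ∧ Ax k M K E z.1 z.2)).card : ℕ) : ℝ) ≤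
          (((univ.filter (fun z : Fin n × Fin n =>
          z.1 ∈ Bs D₀ Δ h E ∧ z.2 ∈ Bs D₀ Δ h E ∧ Ex k M E z.1 z.2)).card +
          (univ.filter (fun z : Fin n × Fin n =>
          ∃ e : Pr n, e.1 = s(z.1, z.2) ∧ e ∉ E ∧ K (insert e E))).card : ℕ) : ℝ) :=
        Nat.cast_le.mpr h3
      rw [Nat.cast_add] at h4
      exact h4
    linarith
  -- step (5)
  have hB := sumB (k := k) (M := M) (D₀ := D₀) (Δ := Δ) (h := h) (p := p) (K := K) hΔ1 hCN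
    (fun m hm hm2 => hn4 n g4 m hm hm2)
  have htrim := hn1 n g1 k M (RR D₀ Δ h) (fun D D' x h1 h2 h3 => RR.anti h1 h2 h3)
  have hfin : 1 / (((4 * p.K₁ : ℕ) : ℝ) * n) * (s₀ ^ 2 / 32) ≤
      D₀ * (T * Phi k M (RR (n := n) D₀ Δ h)) := by
    calc 1 / (((4 * p.K₁ : ℕ) : ℝ) * n) * (s₀ ^ 2 / 32)
        ≤ 1 / (((4 * p.K₁ : ℕ) : ℝ) * n) * ∑ E ∈ G, w E * Q1 E :=
          mul_le_mul_of_nonneg_left hQ1 (by positivity)
      _ ≤ _ := hB
      _ ≤ _ := mul_le_mul_of_nonneg_left htrim (Nat.cast_nonneg _)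
  have hPhi0 : 0 ≤ Phi k M (RR (n := n) D₀ Δ h) := Phi_nonneg _ _ _
  have hfin2 : s₀ ^ 2 / (128 * p.K₁ * (D₀ + 1) * T) / n ≤ Phi k M (RR (n := n) D₀ Δ h) := by
    rw [div_div, div_le_iff₀ (by positivity)]
    have h1 : 1 / (((4 * p.K₁ : ℕ) : ℝ) * n) * (s₀ ^ 2 / 32) = s₀ ^ 2 / (128 * p.K₁ * n) := by
      push_cast
      field_simp
      ring
    rw [h1, div_le_iff₀ (by positivity)] at hfin
    have h2 : (0 : ℝ) ≤ T * Phi k M (RR (n := n) D₀ Δ h) * (128 * p.K₁ * n) := by positivity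
    nlinarith
  refine le_trans ?_ hfin2
  gcongr
  exact min_le_right _ _

end Pool.Agent.Work.MP_73831e_pr.J
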