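import Pool.Agent.Work.MP_73831e_pr.J.Bas
import Pool.Agent.Work.MP_73831e_pr.J.P2s

/-! Iteration of `P2s` (proved by helper60 from the stub `P2s`). -/

open Finset
open scoped Classical Nat

namespace Pool.Agent.Work.MP_73831e_pr.J

theorem hd_le_dg {n : ℕ} (Δ : ℕ) (D : Finset (Pr n)) (x : Fin n) : hd Δ D x ≤ dg D x := by
  rw [dg_eq]
  apply card_le_card
  intro y hy
  simp only [mem_filter, mem_univ, true_and] at hy ⊢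
  exact hy.1

theorem P2i {k : ℕ} (hk : 3 ≤ k) {p : Par} (hp : POK k p) (D₀ : ℕ) (h : ℕ) : ∀ c : ℝ, 0 < c →
    ∃ c' : ℝ, 0 < c' ∧ ∃ η : ℝ, 0 < η ∧ ∃ Δ₀ : ℕ, ∀ Δ ≥ Δ₀, ∃ n₀ : ℕ, ∀ n ≥ n₀, ∀ M, 7 ≤ M →
      ∀ K : Finset (Pr n) → Prop, KF k M 2 (p.kap k) K → Pent K ≤ η →
        c / n ≤ Phi k M (RR (n := n) D₀ Δ h) → c' / n ≤ Phi k M (RR (n := n) D₀ Δ 0) := by
  induction h with
  | zero =>
    intro c hc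
    exact ⟨c, hc, 1, one_pos, 0, fun Δ _ => ⟨0, fun n _ M _ K _ _ h => h⟩⟩
  | succ h ih =>
    intro c hc
    obtain ⟨c₁, hc₁, η₁, hη₁, Δ₁, h₁⟩ := P2s hk hp D₀ c hc
    obtain ⟨c₂, hc₂, η₂, hη₂, Δ₂, h₂⟩ := ih c₁ hc₁
    refine ⟨c₂, hc₂, min η₁ η₂, lt_min hη₁ hη₂, max Δ₁ Δ₂, fun Δ hΔ => ?_⟩
    obtain ⟨n₁, hn₁⟩ := h₁ Δ ((le_max_left _ _).trans hΔ)
    obtain ⟨n₂, hn₂⟩ := h₂ Δ ((le_max_right _ _).trans hΔ)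
    refine ⟨max n₁ n₂, fun n hn M hM K hK hP hc' => ?_⟩
    refine hn₂ n ((le_max_right _ _).trans hn) M hM K hK (hP.trans (min_le_right _ _)) ?_
    exact hn₁ n ((le_max_left _ _).trans hn) M hM K hK (hP.trans (min_le_left _ _)) h hc'

theorem P2 {k : ℕ} (hk : 3 ≤ k) {p : Par} (hp : POK k p) (D₀ : ℕ) : ∀ c : ℝ, 0 < c →
    ∃ c' : ℝ, 0 < c' ∧ ∃ η : ℝ, 0 < η ∧ ∃ Δ : ℕ, ∃ n₀ : ℕ, ∀ n ≥ n₀, ∀ M, 7 ≤ M →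
      ∀ K : Finset (Pr n) → Prop, KF k M 2 (p.kap k) K → Pent K ≤ η →
        c / n ≤ Phi k M (fun (D : Finset (Pr n)) x => dg D x ≤ D₀) →
        c' / n ≤ Phi k M (RR (n := n) D₀ Δ 0) := by
  intro c hc
  obtain ⟨c', hc', η, hη, Δ₀, h⟩ := P2i hk hp D₀ D₀ c hc
  obtain ⟨n₀, hn₀⟩ := h Δ₀ le_rfl
  refine ⟨c', hc', η, hη, Δ₀, n₀, fun n hn M hM K hK hP hcn => ?_⟩
  refine hn₀ n hn M hM K hK hP (hcn.trans (Phi_mono fun D x _ hD => ?_))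
  exact ⟨hD, (hd_le_dg _ _ _).trans hD⟩

end Pool.Agent.Work.MP_73831e_pr.J
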