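import Pool.Agent.Work.MP_73831e_pr.J.Bas

/-!
MODULE MgB (M).  Merging `y'` into `y`: basic facts.  `σ = sg y y'` maps `y'` to `y` and fixes all
other vertices.

* `gr_mg`: `mem_filter`, `gr_adj'`; for a pair `e₀ = s(u₀,v₀)`, `Sym2.map σ e₀ = s(σ u₀, σ v₀)`.
* `PC_mgG`: an edge `u v` of `mgG H` is `σ u₀, σ v₀` with `H.Adj u₀ v₀`; conversely for
  `H.Adj u₀ v₀` we have `σ u₀ ≠ σ v₀` since `y y'` is not an edge of `H`.
* `mg_card_le`: `mg E y y'` injects into `E` (choose `e₀`); if `x y`, `x y'` are both in `D` they have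
  the same image `x y`, so `|mg D| < |D|` (`mg_card_lt`).
* `mg_sdiff`: `x ≠ y, y'`, so `x ∈ Sym2.map σ e₀ ↔ x ∈ e₀`.
* `mg_adj_x`: the neighbours of `x` in `mg D` (`x ≠ y,y'`) are the `σ v`, `v` a neighbour of `x`.
* `mg_dg_x`: hence `dg (mg D) x + 1 ≤ dg D x` if `y, y'` are both neighbours of `x`.
* `mg_hd`: for a neighbour `v ≠ y` of `x` in `mg D`: `v` is a neighbour of `x` in `D` and
  `dg (mg D \ Qx x) v ≤ dg (D \ Qx x) v < Δ`; for `v = y`:
  `dg (mg (D \ Qx x)) y ≤ dg (D \ Qx x) y + dg (D \ Qx x) y' < 2Δ` (`Δ ≥ 1` as `hd Δ D x = 0` and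
  `x` has a neighbour).
* `mg_iso`: `y'` is isolated in `mg E` (`y ≠ y'`).
-/

open Finset
open scoped Classical Nat

namespace Pool.Agent.Work.MP_73831e_pr.J

variable {n : ℕ}

private theorem mem_mg {E : Finset (Pr n)} {y y' : Fin n} {e : Pr n} :
    e ∈ mg E y y' ↔ ∃ e₀ ∈ E, Sym2.map (sg y y') e₀.1 = e.1 := by
  unfold mg
  simp only [mem_filter, mem_univ, true_and]

theorem gr_mg (E : Finset (Pr n)) (y y' : Fin n) : gr (mg E y y') = mgG (gr E) y y' := by
  ext u v
  rw [gr_adj']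
  constructor
  · rintro ⟨e, he, huv⟩
    obtain ⟨e₀, h0, h1⟩ := mem_mg.mp he
    refine ⟨fun h => e.2 (by rw [huv, h]; exact Sym2.mk_isDiag_iff.mpr rfl), ?_⟩
    obtain ⟨⟨a, b⟩, hab⟩ := Quot.exists_rep e₀.1
    have hab' : e₀.1 = s(a, b) := hab.symm
    rw [hab', Sym2.map_mk, huv] at h1
    have hE : (gr E).Adj a b := (mem_iff_adj hab').mp h0
    rcases Sym2.eq_iff.mp h1 with ⟨h2, h3⟩ | ⟨h2, h3⟩
    · exact ⟨a, b, h2, h3, hE⟩
    · exact ⟨b, a, h3, h2, hE.symm⟩
  · rintro ⟨hne, a, b, ha, hb, hE⟩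
    obtain ⟨e₀, h0, hab⟩ := gr_adj'.mp hE
    obtain ⟨e, he⟩ := exists_pr hne
    refine ⟨e, mem_mg.mpr ⟨e₀, h0, ?_⟩, he⟩
    rw [hab, he, Sym2.map_mk, ha, hb]

theorem mgG_mono {H G : SimpleGraph (Fin n)} (h : H ≤ G) (y y' : Fin n) :
    mgG H y y' ≤ mgG G y y' := by
  rintro u v ⟨hne, a, b, ha, hb, hE⟩
  exact ⟨hne, a, b, ha, hb, h hE⟩

private theorem sg_y (y y' : Fin n) : sg y y' y = y := by
  unfold sg; split_ifs <;> rfl

private theorem sg_y' (y y' : Fin n) : sg y y' y' = y := by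
  unfold sg; simp

private theorem sg_ne {y y' v : Fin n} (h : v ≠ y') : sg y y' v = v := by
  unfold sg; simp [h]

theorem PC_mgG {k : ℕ} {H : SimpleGraph (Fin n)} {y y' : Fin n} (h : ¬ H.Adj y y')
    (f : Fin n → Fin k) : PC k (mgG H y y') f ↔ PC k H (fun v => f (sg y y' v)) := by
  constructor
  · intro hf u v huv
    apply hf
    refine ⟨?_, u, v, rfl, rfl, huv⟩
    intro he
    by_cases hu : u = y'
    · by_cases hv : v = y'
      · subst hu; subst hv; exact huv.ne rfl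
      · rw [hu, sg_y', sg_ne hv] at he
        apply h
        rw [he]
        rw [hu] at huv
        exact huv.symm
    · by_cases hv : v = y'
      · rw [hv, sg_y', sg_ne hu] at he
        apply h
        rw [← he]
        rw [hv] at huv
        exact huv
      · rw [sg_ne hu, sg_ne hv] at he
        exact huv.ne he
  · rintro hf u v ⟨hne, a, b, rfl, rfl, hE⟩
    exact hf a b hE

/-- A chosen preimage. -/
private theorem exists_inv (E : Finset (Pr n)) (y y' : Fin n) :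
    ∃ ψ : Pr n → Pr n, ∀ e ∈ mg E y y', ψ e ∈ E ∧ Sym2.map (sg y y') (ψ e).1 = e.1 := by
  have h : ∀ e : Pr n, ∃ e₀ : Pr n, e ∈ mg E y y' → e₀ ∈ E ∧ Sym2.map (sg y y') e₀.1 = e.1 := by
    intro e
    by_cases he : e ∈ mg E y y'
    · obtain ⟨e₀, h0, h1⟩ := mem_mg.mp he
      exact ⟨e₀, fun _ => ⟨h0, h1⟩⟩
    · exact ⟨e, fun h => absurd h he⟩
  choose ψ hψ using h
  exact ⟨ψ, fun e he => hψ e he⟩

theorem mg_card_le (E : Finset (Pr n)) (y y' : Fin n) : (mg E y y').card ≤ E.card := by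
  obtain ⟨ψ, hψ⟩ := exists_inv E y y'
  refine card_le_card_of_injOn ψ (fun e he => (hψ e he).1) ?_
  intro e he e' he' h
  have h1 := (hψ e he).2
  have h2 := (hψ e' he').2
  rw [h, h2] at h1
  exact Subtype.ext h1.symm

theorem mg_card_lt {D : Finset (Pr n)} {x y y' : Fin n} (hne : y ≠ y')
    (hxy : (gr D).Adj x y) (hxy' : (gr D).Adj x y') : (mg D y y').card < D.card := by
  obtain ⟨ψ, hψ⟩ := exists_inv D y y'
  obtain ⟨a, ha, ha'⟩ := gr_adj'.mp hxy
  obtain ⟨b, hb, hb'⟩ := gr_adj'.mp hxy'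
  have hxy1 : x ≠ y' := hxy'.ne
  have hab : a ≠ b := by
    intro h
    rw [h, hb'] at ha'
    rcases Sym2.eq_iff.mp ha' with ⟨_, h2⟩ | ⟨h2, h3⟩
    · exact hne h2.symm
    · exact hxy1 h3.symm
  have hinj : ∀ e ∈ mg D y y', ∀ e' ∈ mg D y y', ψ e = ψ e' → e = e' := by
    intro e he e' he' h
    have h1 := (hψ e he).2
    have h2 := (hψ e' he').2
    rw [h, h2] at h1
    exact Subtype.ext h1.symm
  have hma : Sym2.map (sg y y') a.1 = s(x, y) := by
    rw [ha', Sym2.map_mk, sg_ne hxy1, sg_y]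
  have hmb : Sym2.map (sg y y') b.1 = s(x, y) := by
    rw [hb', Sym2.map_mk, sg_ne hxy1, sg_y']
  -- one of `a`, `b` is not in the image
  have key : ∃ c ∈ D, ∀ e ∈ mg D y y', ψ e ≠ c := by
    by_cases h : ∃ e ∈ mg D y y', ψ e = a
    · obtain ⟨e, he, hea⟩ := h
      refine ⟨b, hb, fun e' he' h' => ?_⟩
      have h1 := (hψ e he).2
      have h2 := (hψ e' he').2
      rw [hea, hma] at h1
      rw [h', hmb] at h2
      have : e = e' := Subtype.ext (h1.symm.trans h2)
      subst this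
      exact hab (hea.symm.trans h')
    · push Not at h
      exact ⟨a, ha, h⟩
  obtain ⟨c, hc, hc'⟩ := key
  have h3 : (mg D y y').card ≤ (D.erase c).card := by
    refine card_le_card_of_injOn ψ (fun e he => ?_) (fun e he e' he' h => hinj e he e' he' h)
    exact mem_coe.mpr (mem_erase.mpr ⟨hc' e he, (hψ e he).1⟩)
  exact lt_of_le_of_lt h3 (card_erase_lt_of_mem hc)

theorem mg_sdiff {E : Finset (Pr n)} {x y y' : Fin n} (hx : x ≠ y) (hx' : x ≠ y') :
    mg E y y' \ Qx x = mg (E \ Qx x) y y' := by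
  ext e
  rw [mem_sdiff, mem_Qx, mem_mg, mem_mg]
  have key : ∀ z : Sym2 (Fin n), x ∈ Sym2.map (sg y y') z ↔ x ∈ z := by
    intro z
    rw [Sym2.mem_map]
    constructor
    · rintro ⟨a, ha, h⟩
      by_cases hay : a = y'
      · rw [hay, sg_y'] at h
        exact absurd h.symm hx
      · rw [sg_ne hay] at h
        rwa [← h]
    · intro h
      exact ⟨x, h, sg_ne hx'⟩
  constructor
  · rintro ⟨⟨e₀, h0, h1⟩, h2⟩
    refine ⟨e₀, ?_, h1⟩
    rw [mem_sdiff, mem_Qx]
    refine ⟨h0, fun h3 => h2 ?_⟩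
    rw [← h1]
    exact (key _).mpr h3
  · rintro ⟨e₀, h0, h1⟩
    rw [mem_sdiff, mem_Qx] at h0
    refine ⟨⟨e₀, h0.1, h1⟩, fun h3 => h0.2 ?_⟩
    rw [← h1] at h3
    exact (key _).mp h3

theorem mg_adj_x {D : Finset (Pr n)} {x y y' v : Fin n} (hx : x ≠ y) (hx' : x ≠ y') :
    (gr (mg D y y')).Adj x v ↔ ∃ u, (gr D).Adj x u ∧ sg y y' u = v := by
  rw [gr_mg]
  constructor
  · rintro ⟨hne, a, b, ha, hb, hE⟩
    have hax : a = x := by
      by_cases hay : a = y'
      · rw [hay, sg_y'] at ha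
        exact absurd ha.symm hx
      · rwa [sg_ne hay] at ha
    subst hax
    exact ⟨b, hE, hb⟩
  · rintro ⟨u, hu, rfl⟩
    refine ⟨?_, x, u, sg_ne hx', rfl, hu⟩
    by_cases huy : u = y'
    · rw [huy, sg_y']; exact hx
    · rw [sg_ne huy]; exact hu.ne

theorem mg_dg_x {D : Finset (Pr n)} {x y y' : Fin n} (hne : y ≠ y')
    (hxy : (gr D).Adj x y) (hxy' : (gr D).Adj x y') : dg (mg D y y') x + 1 ≤ dg D x := by
  rw [dg_eq, dg_eq]
  have hsub : univ.filter (fun v => (gr (mg D y y')).Adj x v) ⊆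
      (univ.filter (fun v => (gr D).Adj x v)).erase y' := by
    intro v hv
    simp only [mem_filter, mem_univ, true_and] at hv
    obtain ⟨u, hu, rfl⟩ := (mg_adj_x hxy.ne hxy'.ne).mp hv
    rw [mem_erase]
    simp only [mem_filter, mem_univ, true_and]
    by_cases huy : u = y'
    · rw [huy, sg_y']; exact ⟨hne, hxy⟩
    · rw [sg_ne huy]; exact ⟨huy, hu⟩
  have hmem : y' ∈ univ.filter (fun v => (gr D).Adj x v) := by
    simp only [mem_filter, mem_univ, true_and]; exact hxy'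
  have h1 := card_le_card hsub
  have h2 := card_erase_lt_of_mem hmem
  omega

private theorem dg_mg_ne {E : Finset (Pr n)} {y y' v : Fin n} (hv : v ≠ y) (hv' : v ≠ y') :
    dg (mg E y y') v ≤ dg E v := by
  rw [dg_eq, dg_eq]
  have hsub : univ.filter (fun u => (gr (mg E y y')).Adj v u) ⊆
      (univ.filter (fun u => (gr E).Adj v u)).image (sg y y') := by
    intro u hu
    simp only [mem_filter, mem_univ, true_and] at hu
    obtain ⟨w, hw, rfl⟩ := (mg_adj_x hv hv').mp hu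
    exact mem_image.mpr ⟨w, by simp only [mem_filter, mem_univ, true_and]; exact hw, rfl⟩
  exact (card_le_card hsub).trans card_image_le

private theorem dg_mg_y {E : Finset (Pr n)} {y y' : Fin n} :
    dg (mg E y y') y ≤ dg E y + dg E y' := by
  rw [dg_eq, dg_eq, dg_eq]
  have hsub : univ.filter (fun u => (gr (mg E y y')).Adj y u) ⊆
      (univ.filter (fun u => (gr E).Adj y u) ∪ univ.filter (fun u => (gr E).Adj y' u)).image
        (sg y y') := by
    intro u hu
    simp only [mem_filter, mem_univ, true_and] at hu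
    rw [gr_mg] at hu
    obtain ⟨hne, a, b, ha, hb, hE⟩ := hu
    refine mem_image.mpr ⟨b, ?_, hb⟩
    rw [mem_union]
    simp only [mem_filter, mem_univ, true_and]
    by_cases hay : a = y'
    · right; rw [← hay]; exact hE
    · left
      rw [sg_ne hay] at ha
      rw [← ha]; exact hE
  exact (card_le_card hsub).trans (card_image_le.trans (card_union_le _ _))

theorem mg_hd {D : Finset (Pr n)} {x y y' : Fin n} {Δ : ℕ} (hne : y ≠ y')
    (hxy : (gr D).Adj x y) (hxy' : (gr D).Adj x y') (h : hd Δ D x = 0) :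
    hd (2 * Δ) (mg D y y') x = 0 := by
  have hx : x ≠ y := hxy.ne
  have hx' : x ≠ y' := hxy'.ne
  have h0 : ∀ v, (gr D).Adj x v → dg (D \ Qx x) v < Δ := by
    intro v hv
    by_contra hcon
    push Not at hcon
    unfold hd at h
    rw [card_eq_zero] at h
    have : v ∈ (∅ : Finset (Fin n)) := by
      rw [← h]
      simp only [mem_filter, mem_univ, true_and]
      exact ⟨hv, hcon⟩
    simp at this
  unfold hd
  rw [card_eq_zero, filter_eq_empty_iff]
  rintro v - ⟨hv, hd2⟩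
  rw [mg_sdiff hx hx'] at hd2
  obtain ⟨u, hu, rfl⟩ := (mg_adj_x hx hx').mp hv
  have hy := h0 y hxy
  have hy' := h0 y' hxy'
  by_cases huy : sg y y' u = y
  · rw [huy] at hd2
    have := dg_mg_y (E := D \ Qx x) (y := y) (y' := y')
    omega
  · have hu' : u ≠ y' := by
      rintro rfl
      exact huy (sg_y' _ _)
    rw [sg_ne hu'] at huy hd2
    have h1 := dg_mg_ne (E := D \ Qx x) huy hu'
    have h2 := h0 u hu
    omega

theorem mg_iso {E : Finset (Pr n)} {y y' : Fin n} (hne : y ≠ y') : iso (gr (mg E y y')) y' := by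
  intro v hv
  rw [gr_mg] at hv
  obtain ⟨_, a, b, ha, hb, hE⟩ := hv
  by_cases hay : a = y'
  · rw [hay, sg_y'] at ha
    exact hne ha
  · rw [sg_ne hay] at ha
    exact hay ha

end Pool.Agent.Work.MP_73831e_pr.J
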