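import Pool.Agent.Work.MP_73831e_pr.J.Bas
import Pool.Agent.Work.MP_73831e_pr.J.MgB

/-!
MODULE MgS (S-M).  `spn` and `tch` after merging.

Every edge `e` of `gr (mg E y y')` has a preimage pair `e₀ ∈ E` with `Sym2.map (sg y y') e₀ = e`
(choose one; the choice is injective in `e`).  If all vertices of `e` are in `S` then all vertices
of `e₀` are in `S ∪ {y'}` (a vertex `v₀` of `e₀` with `v₀ ≠ y'` equals `sg y y' v₀ ∈ e`); if `e`
has a vertex in `S` then `e₀` has a vertex in `S ∪ {y'}` (some `v₀ ∈ e₀` with `sg y y' v₀ ∈ S`;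
either `v₀ = y'` or `v₀ = sg y y' v₀ ∈ S`).
-/

open Finset
open scoped Classical Nat

namespace Pool.Agent.Work.MP_73831e_pr.J

variable {n : ℕ}

/-- Every edge of the merged graph has a preimage. -/
private theorem exists_inv (E : Finset (Pr n)) (y y' : Fin n) :
    ∃ ψ : Sym2 (Fin n) → Sym2 (Fin n), ∀ e ∈ (gr (mg E y y')).edgeSet,
      ψ e ∈ (gr E).edgeSet ∧ Sym2.map (sg y y') (ψ e) = e := by
  have h : ∀ e : Sym2 (Fin n), ∃ e₀ : Sym2 (Fin n), e ∈ (gr (mg E y y')).edgeSet →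
      e₀ ∈ (gr E).edgeSet ∧ Sym2.map (sg y y') e₀ = e := by
    intro e
    by_cases he : e ∈ (gr (mg E y y')).edgeSet
    · obtain ⟨x, hx, hxe⟩ := mem_edgeSet_gr.mp he
      unfold mg at hx
      simp only [mem_filter, mem_univ, true_and] at hx
      obtain ⟨e₀, h0, h1⟩ := hx
      exact ⟨e₀.1, fun _ => ⟨mem_edgeSet_gr.mpr ⟨e₀, h0, rfl⟩, h1.trans hxe⟩⟩
    · exact ⟨e, fun h => absurd h he⟩
  choose ψ hψ using h
  exact ⟨ψ, fun e he => hψ e he⟩

theorem spn_mg (E : Finset (Pr n)) (y y' : Fin n) (S : Finset (Fin n)) :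
    spn (gr (mg E y y')) S ≤ spn (gr E) (S ∪ {y'}) := by
  obtain ⟨ψ, hψ⟩ := exists_inv E y y'
  unfold spn
  refine Set.ncard_le_ncard_of_injOn ψ ?_ ?_ (Set.toFinite _)
  · rintro e ⟨he, h2⟩
    refine ⟨(hψ e he).1, fun v hv => ?_⟩
    rw [mem_union, mem_singleton]
    by_cases h : v = y'
    · exact Or.inr h
    · left
      apply h2
      rw [← (hψ e he).2, Sym2.mem_map]
      exact ⟨v, hv, by unfold sg; rw [if_neg h]⟩
  · rintro e ⟨he, _⟩ e' ⟨he', _⟩ h
    have h1 := (hψ e he).2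
    have h2 := (hψ e' he').2
    rw [h, h2] at h1
    exact h1.symm

theorem tch_mg (E : Finset (Pr n)) (y y' : Fin n) (S : Finset (Fin n)) :
    tch (gr (mg E y y')) S ≤ tch (gr E) (S ∪ {y'}) := by
  obtain ⟨ψ, hψ⟩ := exists_inv E y y'
  unfold tch
  refine Set.ncard_le_ncard_of_injOn ψ ?_ ?_ (Set.toFinite _)
  · rintro e ⟨he, v, hv, hvS⟩
    refine ⟨(hψ e he).1, ?_⟩
    rw [← (hψ e he).2, Sym2.mem_map] at hv
    obtain ⟨u, hu, huv⟩ := hv
    refine ⟨u, hu, ?_⟩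
    rw [mem_union, mem_singleton]
    by_cases h : u = y'
    · exact Or.inr h
    · left
      unfold sg at huv
      rw [if_neg h] at huv
      rw [huv]
      exact hvS
  · rintro e ⟨he, _⟩ e' ⟨he', _⟩ h
    have h1 := (hψ e he).2
    have h2 := (hψ e' he').2
    rw [h, h2] at h1
    exact h1.symm

end Pool.Agent.Work.MP_73831e_pr.J
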