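import Pool.Agent.Work.MP_73831e_pr.J.Bas
import Pool.Agent.Work.MP_73831e_pr.J.MgB
import Pool.Agent.Work.MP_73831e_pr.J.MgS
import Pool.Agent.Work.MP_73831e_pr.J.Large

/-!
MODULE MgF (M).  Some merge inside a set of more than `k` vertices stays in `F`.

Suppose not: for all `y ≠ y'` in `T`, not adjacent in `gr G`, `¬ FF k M (mg G y y')`.  Let `ι` be
the type of the pairs `(y,y') ∈ T × T`, `y ≠ y'`, not adjacent, with `mg G y y'` alive; for each of
them `Um k M (gr (mg G y y'))`: `H ≤ gr (mg G y y')`, `W`, `UQ k H W`, `|W| ≥ M ≥ 7`, and choose a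
proper colouring `g` of `H`.  `large` with `s = 1`, `Z = {y'}`, `G = gr G`, `G' = gr (mg G y y')`
(`spn_mg`, `tch_mg`): `n ≤ 2 K₃ |class| ≤ κ |class|`, so `LC κ W g`.
Every proper colouring `f` of `gr G` has two vertices `y ≠ y'` of `T` with `f y = f y'`
(`|T| > k`, pigeonhole); they are not adjacent; `f ∘ sg y y' = f`, so `f` is proper for
`mgG (gr G) y y' = gr (mg G y y')` (`PC_mgG`, `gr_mg`), so `(y,y') ∈ ι` and `f` is proper for
`H`; hence `Inn W g f`.  `ι` is nonempty as `G` is alive, and `|ι| ≤ |T|² ≤ s²`.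
So `Cls k (s*s) κ (gr G)` (`Cls.of_finite`), so `K G` by `hK.cls`, contradiction.
-/

open Finset
open scoped Classical Nat

namespace Pool.Agent.Work.MP_73831e_pr.J

theorem mg_exists {k : ℕ} (hk : 3 ≤ k) {p : Par} (hp : POK k p) (s : ℕ) :
    ∃ n₀ : ℕ, ∀ n ≥ n₀, ∀ M, 7 ≤ M → ∀ K : Finset (Pr n) → Prop, KF k M (s * s) (p.kap k) K →
      ∀ (G : Finset (Pr n)) (T : Finset (Fin n)), T.card ≤ s → k < T.card → FF k M G →
        Typ p G → ¬ K G →
        ∃ y ∈ T, ∃ y' ∈ T, y ≠ y' ∧ ¬ (gr G).Adj y y' ∧ FF k M (mg G y y') := by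
  obtain ⟨n₀, hn₀⟩ := large hk hp.hK1 hp.hK3 1
  refine ⟨n₀, ?_⟩
  intro n hn M hM K hK G T hTs hkT hF hT hnK
  by_contra hcon
  push Not at hcon
  apply hnK
  apply hK.cls G hF
  let ι := {z : Fin n × Fin n // z ∈ T ×ˢ T ∧ z.1 ≠ z.2 ∧ ¬ (gr G).Adj z.1 z.2 ∧
    Alive k (gr (mg G z.1 z.2))}
  have hcard : Fintype.card ι ≤ s * s := by
    have h1 : Fintype.card ι ≤ (T ×ˢ T).card := by
      rw [Fintype.card_subtype]
      apply Finset.card_le_card
      intro z hz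
      exact (Finset.mem_filter.1 hz).2.1
    rw [Finset.card_product] at h1
    exact h1.trans (Nat.mul_le_mul hTs hTs)
  have hU : ∀ z : ι, ∃ (H : SimpleGraph (Fin n)) (W : Finset (Fin n)) (g : Fin n → Fin k),
      H ≤ gr (mg G z.1.1 z.1.2) ∧ M ≤ W.card ∧ UQ k H W ∧ PC k H g := by
    intro z
    obtain ⟨hz1, hz2, hz3, hz4⟩ := z.2
    rw [Finset.mem_product] at hz1
    have h1 := hcon z.1.1 hz1.1 z.1.2 hz1.2 hz2 hz3
    have h2 : Um k M (gr (mg G z.1.1 z.1.2)) := by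
      by_contra h3
      exact h1 ⟨hz4, h3⟩
    obtain ⟨H, hH, W, hW, hq⟩ := h2
    obtain ⟨g, hg⟩ := hq.2.1
    exact ⟨H, W, g, hH, hW, hq, hg⟩
  choose H W g hH hW hq hg using hU
  have hcov : ∀ f, PC k (gr G) f → ∃ z : ι, Inn (W z) (g z) f := by
    intro f hf
    obtain ⟨y, hy, y', hy', hne, hfy⟩ := Finset.exists_ne_map_eq_of_card_lt_of_maps_to
      (s := T) (t := (univ : Finset (Fin k))) (f := f)
      (by rw [Finset.card_univ, Fintype.card_fin]; exact hkT) (fun a _ => Finset.mem_univ _)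
    have hadj : ¬ (gr G).Adj y y' := fun h => hf y y' h hfy
    have hsg : (fun v => f (sg y y' v)) = f := by
      funext v
      unfold sg
      split_ifs with h
      · rw [h, hfy]
      · rfl
    have hf2 : PC k (gr (mg G y y')) f := by
      rw [gr_mg, PC_mgG hadj, hsg]
      exact hf
    let z : ι := ⟨(y, y'), Finset.mem_product.2 ⟨hy, hy'⟩, hne, hadj, ⟨f, hf2⟩⟩
    exact ⟨z, (hq z).2.2 (g z) f (hg z) (hf2.anti (hH z))⟩
  have hne : Nonempty ι := by
    obtain ⟨f, hf⟩ := hF.1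
    exact ⟨(hcov f hf).choose⟩
  refine Cls.of_finite hcard W g ?_ hcov
  intro z c
  have h1 := hn₀ n hn (gr G) (gr (mg G z.1.1 z.1.2)) hT.1 hT.2.1
    ⟨{z.1.2}, by rw [Finset.card_singleton], fun S =>
      ⟨(spn_mg G z.1.1 z.1.2 S).trans (Nat.le_add_right _ _),
        (tch_mg G z.1.1 z.1.2 S).trans (Nat.le_add_right _ _)⟩⟩
    (H z) (hH z) (W z) (hq z) (by have := hW z; omega) (g z) (hg z) c
  refine h1.trans (Nat.mul_le_mul_right _ ?_)
  unfold Par.kap
  omega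

end Pool.Agent.Work.MP_73831e_pr.J
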