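import Pool.Agent.Work.MP_73831e_pr.J.Bas
import Pool.Agent.Work.MP_73831e_pr.J.MgB
import Pool.Agent.Work.MP_73831e_pr.J.Large
import Pool.Agent.Work.MP_73831e_pr.J.SpnA

/-!
MODULE MgN (M).  Merging keeps being outside `F`.

`uq_mg`: `σ = sg y y'`.  Edges of `mgG H y y'` lie in `σ(W)`.  If `f, g` are proper for
`mgG H y y'` then `f ∘ σ`, `g ∘ σ` are proper for `H` (`PC_mgG`), so `g ∘ σ = π ∘ f ∘ σ` on `W`, i.e.
`g = π ∘ f` on `σ(W)`.
`card_image_sg`: `σ` identifies only `y` and `y'`, so `|W| ≤ |σ(W)| + 1`.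
`mg_not_FF`: suppose `FF k M (mg D y y')`, so `gr (mg D y y') = mgG (gr D) y y'` has a proper
colouring `f₀`; then `f₀ ∘ σ` is proper for `gr D`, so `D` is alive, hence (not `FF k M D`)
`Um k M (gr D)`: `H ≤ gr D`, `W`, `M ≤ |W|`, `UQ k H W`.  By `large` (`G = gr (D \ Qx x)`,
`G' = gr D`, `Z = ∅`, `SpnA`, `|D ∩ Qx x| ≤ s`, `3s + 4 ≤ M`) every colour class of `W` has
size `≥ n/(2 K₃)`; so `|W| ≥ n/(2K₃) ≥ M + 1` for `n ≥ 2 K₃ (M+1)`.  `mgG H y y' ≤ mgG (gr D) y y'`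
is alive, so `uq_mg` gives `UQ k (mgG H y y') (σ(W))` with `|σ(W)| ≥ |W| - 1 ≥ M`, i.e.
`Um k M (gr (mg D y y'))`, contradiction.
-/

open Finset
open scoped Classical Nat

namespace Pool.Agent.Work.MP_73831e_pr.J

theorem uq_mg {n k : ℕ} {H : SimpleGraph (Fin n)} {W : Finset (Fin n)} {y y' : Fin n}
    (h : ¬ H.Adj y y') (hU : UQ k H W) (ha : Alive k (mgG H y y')) :
    UQ k (mgG H y y') (W.image (sg y y')) := by
  refine ⟨?_, ha, ?_⟩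
  · rintro u v ⟨-, u₀, v₀, rfl, rfl, hE⟩
    obtain ⟨h1, h2⟩ := hU.1 _ _ hE
    exact ⟨mem_image_of_mem _ h1, mem_image_of_mem _ h2⟩
  · intro f g hf hg
    obtain ⟨π, hπ⟩ := hU.2.2 _ _ ((PC_mgG h f).1 hf) ((PC_mgG h g).1 hg)
    refine ⟨π, fun w hw => ?_⟩
    obtain ⟨v, hv, rfl⟩ := mem_image.1 hw
    exact hπ v hv

theorem card_image_sg {n : ℕ} (W : Finset (Fin n)) (y y' : Fin n) :
    W.card ≤ (W.image (sg y y')).card + 1 := by
  have h1 : W.erase y' ⊆ W.image (sg y y') := by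
    intro v hv
    rw [mem_erase] at hv
    refine mem_image.2 ⟨v, hv.2, ?_⟩
    unfold sg
    rw [if_neg hv.1]
  have h2 := card_le_card h1
  have h3 := Finset.pred_card_le_card_erase (s := W) (a := y')
  omega

theorem mg_not_FF {k : ℕ} (hk : 3 ≤ k) {p : Par} (hp : POK k p) (s M : ℕ)
    (hM : 3 * s + 4 ≤ M) : ∃ n₀ : ℕ, ∀ n ≥ n₀, ∀ (D : Finset (Pr n)) (x y y' : Fin n),
      Typ p (D \ Qx x) → dg D x ≤ s → ¬ FF k M D → ¬ (gr D).Adj y y' →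
      ¬ FF k M (mg D y y') := by
  obtain ⟨n₁, hn₁⟩ := large hk hp.hK1 hp.hK3 s
  refine ⟨max n₁ (2 * p.K₃ * (M + 1)), fun n hn D x y y' hT hdeg hF hadj hmF => ?_⟩
  have hK1 := hp.hK1
  have hK3 := hp.hK3
  obtain ⟨⟨f₀, hf₀⟩, hUm⟩ := hmF
  rw [gr_mg] at hf₀ hUm
  have hal : Alive k (gr D) := ⟨_, (PC_mgG hadj f₀).1 hf₀⟩
  have hUD : Um k M (gr D) := by
    by_contra h
    exact hF ⟨hal, h⟩
  obtain ⟨H, hH, W, hW, hU⟩ := hUD
  obtain ⟨f, hf⟩ := hU.2.1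
  have hZ : ∃ Z : Finset (Fin n), Z.card ≤ s ∧
      ∀ S, spn (gr D) S ≤ spn (gr (D \ Qx x)) (S ∪ Z) + s ∧
        tch (gr D) S ≤ tch (gr (D \ Qx x)) (S ∪ Z) + s := by
    refine ⟨∅, by simp, fun S => ?_⟩
    rw [union_empty]
    have hD : D = (D \ Qx x) ∪ (D ∩ Qx x) := (sdiff_union_inter D (Qx x)).symm
    have h1 := spn_union (D \ Qx x) (D ∩ Qx x) S
    have h2 := tch_union (D \ Qx x) (D ∩ Qx x) S
    rw [← hD] at h1 h2
    have h3 : (D ∩ Qx x).card ≤ s := hdeg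
    omega
  have hL := hn₁ n ((le_max_left _ _).trans hn) (gr (D \ Qx x)) (gr D) hT.1 hT.2.1 hZ H hH W hU
    (hM.trans hW) f hf ⟨0, by omega⟩
  have hWc : M + 1 ≤ W.card := by
    by_contra hcon
    have h1 : (W.filter (fun v => f v = ⟨0, by omega⟩)).card ≤ W.card :=
      card_le_card (filter_subset _ _)
    have h2 : (W.filter (fun v => f v = ⟨0, by omega⟩)).card ≤ M := by omega
    have h3 : 2 * p.K₃ * (W.filter (fun v => f v = ⟨0, by omega⟩)).card ≤ 2 * p.K₃ * M :=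
      Nat.mul_le_mul_left _ h2
    have h4 : 2 * p.K₃ * (M + 1) ≤ n := (le_max_right _ _).trans hn
    have h5 : 2 * p.K₃ * (M + 1) = 2 * p.K₃ * M + 2 * p.K₃ := by ring
    omega
  have hHadj : ¬ H.Adj y y' := fun h => hadj (hH h)
  refine hUm ⟨mgG H y y', mgG_mono hH y y', W.image (sg y y'), ?_, ?_⟩
  · have := card_image_sg W y y'
    omega
  · exact uq_mg hHadj hU (Alive.anti (mgG_mono hH y y') ⟨f₀, hf₀⟩)

end Pool.Agent.Work.MP_73831e_pr.J
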