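import Pool.Agent.Work.MP_73831e_pr.J.Bas
import Pool.Agent.Work.MP_73831e_pr.J.MgB

/-!
MODULE MgP (M).  Number of preimages under merging.

For `D` with `y y' ∉ D` and `mg D y y' = D'`, let `N(D) = ({v : D.Adj y v}, {v : D.Adj y' v})`.  Both
sets are contained in `{v : D'.Adj y v}`, which has `dg D' y` elements (`dg_eq`; for `v` with
`D.Adj y' v`: `v ≠ y'`, `v ≠ y`, so `D'.Adj y v`).  The map `D ↦ N(D)` is injective on the set: a pair
of `D` which contains neither `y` nor `y'` is the same as a pair of `D'` which does not contain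
`y` (and no pair of `D'` contains `y'`); the pairs containing `y` or `y'` are given by `N(D)`.
So the number is `≤ 2^(dg D' y) * 2^(dg D' y) = 4^(dg D' y)`.
-/

open Finset
open scoped Classical Nat

namespace Pool.Agent.Work.MP_73831e_pr.J

private theorem sg_of_ne {n : ℕ} {y y' v : Fin n} (h : v ≠ y') : sg y y' v = v := by
  rw [sg, if_neg h]

private theorem sg_self {n : ℕ} (y y' : Fin n) : sg y y' y' = y := by
  rw [sg, if_pos rfl]

private theorem eq_of_sg {n : ℕ} {y y' u u0 : Fin n} (h : sg y y' u0 = u) (hu : u ≠ y) :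
    u0 = u := by
  by_cases h0 : u0 = y'
  · rw [h0, sg_self] at h
    exact absurd h.symm hu
  · rwa [sg_of_ne h0] at h

private theorem adj_mg {n : ℕ} {D : Finset (Pr n)} {y y' u v : Fin n} :
    (gr (mg D y y')).Adj u v ↔ u ≠ v ∧ ∃ u₀ v₀, sg y y' u₀ = u ∧ sg y y' v₀ = v ∧
      (gr D).Adj u₀ v₀ := by
  rw [gr_mg]
  rfl

private theorem adj_out {n : ℕ} {D : Finset (Pr n)} {y y' u v : Fin n} (hu : u ≠ y) (hu' : u ≠ y')
    (hv : v ≠ y) (hv' : v ≠ y') : (gr D).Adj u v ↔ (gr (mg D y y')).Adj u v := by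
  rw [adj_mg]
  constructor
  · intro h
    exact ⟨h.ne, u, v, sg_of_ne hu', sg_of_ne hv', h⟩
  · rintro ⟨_, u0, v0, h1, h2, h3⟩
    rwa [eq_of_sg h1 hu, eq_of_sg h2 hv] at h3

theorem mg_pre {n : ℕ} (D' : Finset (Pr n)) (y y' : Fin n) :
    (univ.filter (fun D : Finset (Pr n) => y ≠ y' ∧ ¬ (gr D).Adj y y' ∧ mg D y y' = D')).card ≤
      4 ^ (dg D' y) := by
  set S : Finset (Fin n) := univ.filter (fun v => (gr D').Adj y v) with hS
  have hcard : (S.powerset ×ˢ S.powerset).card = 4 ^ (dg D' y) := by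
    rw [card_product, card_powerset, dg_eq, ← hS, ← mul_pow]
    norm_num
  rw [← hcard]
  apply card_le_card_of_injOn (fun D : Finset (Pr n) =>
    (univ.filter (fun v => (gr D).Adj y v), univ.filter (fun v => (gr D).Adj y' v)))
  · intro D hD
    simp only [coe_filter, mem_univ, true_and, Set.mem_ofPred_eq] at hD
    obtain ⟨hne, hna, rfl⟩ := hD
    simp only [coe_product, Set.mem_prod, mem_coe, mem_powerset]
    constructor
    · intro v hv
      rw [mem_filter] at hv
      have hv := hv.2
      have hvy : v ≠ y' := by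
        rintro rfl
        exact hna hv
      rw [hS, mem_filter]
      refine ⟨mem_univ _, adj_mg.2 ⟨hv.ne, y, v, sg_of_ne hne, sg_of_ne hvy, hv⟩⟩
    · intro v hv
      rw [mem_filter] at hv
      have hv := hv.2
      have hvy : v ≠ y := by
        rintro rfl
        exact hna hv.symm
      rw [hS, mem_filter]
      refine ⟨mem_univ _, adj_mg.2 ⟨hvy.symm, y', v, sg_self y y', sg_of_ne hv.ne', hv⟩⟩
  · intro D1 h1 D2 h2 h12
    simp only [coe_filter, mem_univ, true_and, Set.mem_ofPred_eq] at h1 h2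
    obtain ⟨hne, hna1, hm1⟩ := h1
    obtain ⟨-, hna2, hm2⟩ := h2
    simp only [Prod.mk.injEq] at h12
    have hA : ∀ v, (gr D1).Adj y v ↔ (gr D2).Adj y v := by
      intro v
      have := Finset.ext_iff.1 h12.1 v
      simpa only [mem_filter, mem_univ, true_and] using this
    have hB : ∀ v, (gr D1).Adj y' v ↔ (gr D2).Adj y' v := by
      intro v
      have := Finset.ext_iff.1 h12.2 v
      simpa only [mem_filter, mem_univ, true_and] using this
    have hadj : ∀ u v, (gr D1).Adj u v ↔ (gr D2).Adj u v := by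
      intro u v
      by_cases hu : u = y
      · rw [hu]; exact hA v
      by_cases hu' : u = y'
      · rw [hu']; exact hB v
      by_cases hv : v = y
      · rw [hv, (gr D1).adj_comm, (gr D2).adj_comm]; exact hA u
      by_cases hv' : v = y'
      · rw [hv', (gr D1).adj_comm, (gr D2).adj_comm]; exact hB u
      rw [adj_out hu hu' hv hv', adj_out (D := D2) hu hu' hv hv', hm1, hm2]
    ext e
    obtain ⟨u, v, he⟩ : ∃ u v, e.1 = s(u, v) := by
      obtain ⟨z, hz⟩ := e
      induction z using Sym2.ind with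
      | _ u v => exact ⟨u, v, rfl⟩
    rw [mem_iff_adj he, mem_iff_adj he]
    exact hadj u v

end Pool.Agent.Work.MP_73831e_pr.J
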