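import Pool.Agent.Work.MP_73831e_pr.J.Bas
import Pool.Agent.Work.MP_73831e_pr.J.NumB
import Pool.Agent.Work.MP_73831e_pr.J.Trim
import Pool.Agent.Work.MP_73831e_pr.J.FL
import Pool.Agent.Work.MP_73831e_pr.J.MgB
import Pool.Agent.Work.MP_73831e_pr.J.MgN
import Pool.Agent.Work.MP_73831e_pr.J.MgF
import Pool.Agent.Work.MP_73831e_pr.J.MgP

/-!
MODULE P3s (M-L, assembly).  Lowering the degree by one by merging two neighbours.

`C = p.C`, `T` = constant of `trim C`.  Given `Phi (RR (s+1) Δ 0) ≥ c/n`, `k ≤ s`.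
(1) `fl` with `ε = c/4`; if `Phi (RR s Δ 0) ≥ c/(4n)` then, as `RR s Δ 0` implies `RR s (2Δ) 0`
(if `Δ ≤ 2Δ`: a vertex of degree `≥ 2Δ` has degree `≥ Δ`), done.  Otherwise
`Phi (dg D x = s+1 ∧ hd Δ D x = 0 ∧ gd) ≥ c/(2n)`.
(2) For such `(D,x)`, `G = D \ Qx x` (`gd.base`: `FF G`, `Typ G`, `¬ K G`, `|G| < C n`),
`T_x = {v : D.Adj x v}` has `s + 1 > k` elements.  `mg_exists` (with `s+1`) gives `y ≠ y'` in
`T_x`, not adjacent in `gr G` (hence not in `gr D`, as `y,y' ≠ x`), `FF (mg G y y')`.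
Put `D' = mg D y y'`.  Then `¬ FF D'` (`mg_not_FF` with `s+1`), `D' \ Qx x = mg G y y' ∈ F`
(`mg_sdiff`), of size `≤ |G| ≤ C n` (`mg_card_le`), `dg D' x ≤ s` (`mg_dg_x`), `hd (2Δ) D' x = 0`
(`mg_hd`); so `RR s (2Δ) 0 D' x`; `D'.Adj x y`; `dg D' y ≤ dg (D' \ Qx x) y + 1 ≤ 2Δ`
(`dg_le_sdiff`, `hd = 0`).  `|D| = |G| + s + 1 ≤ (C+1) n`, `|D'| < |D|` (`mg_card_lt`), so
`ν(D) ≤ (3(C+1)/n)^(|D|-|D'|) ν(D') ≤ (3(C+1)/n) ν(D')` for `n ≥ 3(C+1)` (`nu_add_le (C+1)`).
(3) Sum: `c/(2n) ≤ ∑_{(D',x)} ∑_{y : D'.Adj x y} ∑_{y'} ∑_{D : mg D y y' = D', ...} ν(D)`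
`≤ ∑_{(D',x)} s * n * 4^(2Δ) * (3(C+1)/n) ν(D')` (`mg_pre`; at most `s` choices of `y`, `n` of `y'`),
where `(D',x)` runs over `¬ FF D'`, `FF (D' \ Qx x)`, `|D' \ Qx x| ≤ C n`, `RR s (2Δ) 0 D' x`; by
`trim` (`RR.anti`) this is `≤ s 4^(2Δ) 3 (C+1) T Phi (RR s (2Δ) 0)`.
-/

open Finset
open scoped Classical Nat

namespace Pool.Agent.Work.MP_73831e_pr.J

/-- double counting with a choice -/
private theorem dbl {α ι ζ : Type} [Fintype α] [Fintype ι] [Fintype ζ] (ν : α → ℝ)
    (hν : ∀ D, 0 ≤ ν D) (Good X : α → ι → Prop) (Q : α → ι → ζ → Prop) (Pp : α → ζ → Prop)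
    (f : α → ζ → α) (a : ℝ) (ha : 0 ≤ a) (b d : ℕ)
    (h1 : ∀ D x, Good D x → ∃ z, X (f D z) x ∧ Q (f D z) x z ∧ Pp D z ∧ ν D ≤ a * ν (f D z))
    (h2 : ∀ D' x z, X D' x → Q D' x z → ∀ S : Finset α, (∀ D ∈ S, Pp D z ∧ f D z = D') →
      S.card ≤ b)
    (h3 : ∀ D' x, X D' x → ∀ S : Finset ζ, (∀ z ∈ S, Q D' x z) → S.card ≤ d) :
    ∑ D : α, ∑ _x ∈ univ.filter (fun x => Good D x), ν D ≤
      a * b * d * ∑ D : α, ∑ _x ∈ univ.filter (fun x => X D x), ν D := by
  have sw : ∀ R : α → ι → Prop, ∑ D : α, ∑ _x ∈ univ.filter (fun x => R D x), ν D =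
      ∑ x : ι, ∑ D ∈ univ.filter (fun D => R D x), ν D := by
    intro R
    simp only [sum_filter]
    exact sum_comm
  rw [sw, sw, mul_sum]
  refine sum_le_sum fun x _ => ?_
  let g : α → α := fun D => if h : Good D x then f D (h1 D x h).choose else D
  have hg : ∀ D, Good D x → ∃ z, g D = f D z ∧ X (g D) x ∧ Q (g D) x z ∧ Pp D z ∧
      ν D ≤ a * ν (g D) := by
    intro D hD
    refine ⟨(h1 D x hD).choose, ?_⟩
    have e : g D = f D (h1 D x hD).choose := dif_pos hD
    rw [e]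
    exact ⟨rfl, (h1 D x hD).choose_spec⟩
  calc ∑ D ∈ univ.filter (fun D => Good D x), ν D
      ≤ ∑ D ∈ univ.filter (fun D => Good D x), a * ν (g D) := by
        refine sum_le_sum fun D hD => ?_
        obtain ⟨z, _, _, _, _, h⟩ := hg D (mem_filter.1 hD).2
        exact h
    _ = ∑ D' ∈ univ.filter (fun D => X D x),
          ∑ D ∈ (univ.filter (fun D => Good D x)).filter (fun D => g D = D'), a * ν (g D) := by
        refine (sum_fiberwise_of_maps_to (fun D hD => ?_) _).symm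
        obtain ⟨z, _, h, _⟩ := hg D (mem_filter.1 hD).2
        exact mem_filter.2 ⟨mem_univ _, h⟩
    _ ≤ ∑ D' ∈ univ.filter (fun D => X D x), a * b * d * ν D' := by
        refine sum_le_sum fun D' hD' => ?_
        have hX : X D' x := (mem_filter.1 hD').2
        have e : ∑ D ∈ (univ.filter (fun D => Good D x)).filter (fun D => g D = D'), a * ν (g D) =
            ((univ.filter (fun D => Good D x)).filter (fun D => g D = D')).card * (a * ν D') := by
          rw [sum_congr rfl (fun D hD => by rw [(mem_filter.1 hD).2]), sum_const, nsmul_eq_mul]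
        rw [e]
        have hcard : ((univ.filter (fun D => Good D x)).filter (fun D => g D = D')).card ≤
            d * b := by
          refine (card_le_card (t := (univ.filter (fun z => Q D' x z)).biUnion
            (fun z => univ.filter (fun D => Pp D z ∧ f D z = D'))) ?_).trans ?_
          · intro D hD
            rw [mem_filter] at hD
            obtain ⟨z, e1, _, hQ, hP, _⟩ := hg D (mem_filter.1 hD.1).2
            rw [hD.2] at e1 hQ
            exact mem_biUnion.2 ⟨z, mem_filter.2 ⟨mem_univ _, hQ⟩,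
              mem_filter.2 ⟨mem_univ _, hP, e1.symm⟩⟩
          · refine (card_biUnion_le_card_mul _ _ b (fun z hz =>
              h2 D' x z hX (mem_filter.1 hz).2 _ (fun D hD => (mem_filter.1 hD).2))).trans ?_
            exact Nat.mul_le_mul_right _ (h3 D' x hX _ (fun z hz => (mem_filter.1 hz).2))
        have hcard' : (((univ.filter (fun D => Good D x)).filter (fun D => g D = D')).card : ℝ) ≤
            (d : ℝ) * b := by exact_mod_cast hcard
        calc (((univ.filter (fun D => Good D x)).filter (fun D => g D = D')).card : ℝ) *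
              (a * ν D') ≤ (d : ℝ) * b * (a * ν D') :=
              mul_le_mul_of_nonneg_right hcard' (mul_nonneg ha (hν _))
          _ = a * b * d * ν D' := by ring
    _ = a * b * d * ∑ D' ∈ univ.filter (fun D => X D x), ν D' := by rw [mul_sum]

/-- the pairs that are merged -/
private def GoodP {n : ℕ} (k M : ℕ) (p : Par) (K : Finset (Pr n) → Prop) (s Δ : ℕ)
    (D : Finset (Pr n)) (x : Fin n) : Prop :=
  fc k M D x ∧ (dg D x = s + 1 ∧ hd Δ D x = 0 ∧ gd p K D x)

/-- the results of the merging -/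
private def XP {n : ℕ} (k M C s Δ : ℕ) (D : Finset (Pr n)) (x : Fin n) : Prop :=
  ¬ FF k M D ∧ FF k M (D \ Qx x) ∧ (D \ Qx x).card ≤ C * n ∧ RR s (2 * Δ) 0 D x

private theorem hd_le {n : ℕ} {Δ Δ' : ℕ} (h : Δ ≤ Δ') (D : Finset (Pr n)) (x : Fin n) :
    hd Δ' D x ≤ hd Δ D x := by
  refine card_le_card fun y hy => ?_
  simp only [mem_filter, mem_univ, true_and] at hy ⊢
  exact ⟨hy.1, h.trans hy.2⟩

private theorem hd_zero {n : ℕ} {Δ : ℕ} {D : Finset (Pr n)} {x y : Fin n} (h : hd Δ D x = 0)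
    (ha : (gr D).Adj x y) : dg (D \ Qx x) y < Δ := by
  by_contra hc
  have h1 : y ∈ univ.filter (fun y => (gr D).Adj x y ∧ Δ ≤ dg (D \ Qx x) y) := by
    simp only [mem_filter, mem_univ, true_and]
    exact ⟨ha, not_lt.1 hc⟩
  have h2 : 0 < hd Δ D x := card_pos.2 ⟨y, h1⟩
  omega

theorem P3s {k : ℕ} (hk : 3 ≤ k) {p : Par} (hp : POK k p) (s Δ : ℕ) (hs : k ≤ s) :
    ∀ c : ℝ, 0 < c → ∃ c' : ℝ, 0 < c' ∧ ∃ η : ℝ, 0 < η ∧ ∀ M, 3 * (s + 1) + 4 ≤ M →
      ∃ n₀ : ℕ, ∀ n ≥ n₀, ∀ K : Finset (Pr n) → Prop,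
        KF k M ((s + 1) * (s + 1)) (p.kap k) K → Pent K ≤ η →
        c / n ≤ Phi k M (RR (n := n) (s + 1) Δ 0) →
        c' / n ≤ Phi k M (RR (n := n) s (2 * Δ) 0) := by
  intro c hc
  obtain ⟨T, hT1, nT, htrim⟩ := trim p.C
  obtain ⟨η, hη, nF, hfl⟩ := fl hk hp (c / 4) (by positivity)
  obtain ⟨nE, hmgE⟩ := mg_exists hk hp (s + 1)
  obtain ⟨nA, hnu⟩ := nu_add_le (p.C + 1)
  set A : ℝ := 3 * ((p.C + 1 : ℕ) : ℝ) with hA
  have hA0 : 0 < A := by positivity
  have hs0 : (0 : ℝ) < s := by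
    have : 0 < s := by omega
    exact_mod_cast this
  set B : ℝ := A * 4 ^ (2 * Δ) * s * T with hB
  have hB0 : 0 < B := by positivity
  refine ⟨min (c / 4) (c / (2 * B)), lt_min (by positivity) (by positivity), η, hη, ?_⟩
  intro M hM
  obtain ⟨nN, hmgN⟩ := mg_not_FF hk hp (s + 1) M hM
  refine ⟨max (max (max nT nF) (max nE nA)) (max (max nN (s + 1)) (3 * (p.C + 1))), ?_⟩
  intro n hn K hK hPe hcn
  have hnT : nT ≤ n := ((le_max_left _ _).trans ((le_max_left _ _).trans (le_max_left _ _))).trans hn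
  have hnF : nF ≤ n :=
    ((le_max_right _ _).trans ((le_max_left _ _).trans (le_max_left _ _))).trans hn
  have hnE : nE ≤ n :=
    ((le_max_left _ _).trans ((le_max_right _ _).trans (le_max_left _ _))).trans hn
  have hnA : nA ≤ n :=
    ((le_max_right _ _).trans ((le_max_right _ _).trans (le_max_left _ _))).trans hn
  have hnN : nN ≤ n :=
    ((le_max_left _ _).trans ((le_max_left _ _).trans (le_max_right _ _))).trans hn
  have hns : s + 1 ≤ n :=
    ((le_max_right _ _).trans ((le_max_left _ _).trans (le_max_right _ _))).trans hn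
  have hnC : 3 * (p.C + 1) ≤ n := ((le_max_right _ _).trans (le_max_right _ _)).trans hn
  have hn0 : (0 : ℝ) < n := by
    have : 0 < n := by omega
    exact_mod_cast this
  have hAn : A / n ≤ 1 := by
    rw [div_le_one hn0, hA]
    exact_mod_cast hnC
  have hAn0 : 0 ≤ A / n := by positivity
  set Φ' := Phi k M (RR (n := n) s (2 * Δ) 0) with hΦ'
  rcases le_or_gt (c / 4 / n) Φ' with hbig | hsmall
  · refine le_trans ?_ hbig
    gcongr
    exact min_le_left _ _
  -- the main case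
  have hlow : c / 2 / n ≤ ∑ D : Finset (Pr n),
      ∑ _x ∈ univ.filter (fun x => GoodP k M p K s Δ D x), nu D := by
    have e1 : ∑ D : Finset (Pr n), ∑ _x ∈ univ.filter (fun x => GoodP k M p K s Δ D x), nu D =
        Phi k M (fun D x => dg D x = s + 1 ∧ hd Δ D x = 0 ∧ gd p K D x) := by
      unfold Phi
      refine sum_congr rfl fun D _ => sum_congr ?_ fun _ _ => rfl
      ext x
      simp only [mem_filter, mem_univ, true_and]
      exact Iff.rfl
    rw [e1]
    have h1 : Phi k M (RR (n := n) (s + 1) Δ 0) ≤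
        Phi k M (fun D x => RR (n := n) (s + 1) Δ 0 D x ∧ gd p K D x) +
        Phi k M (fun D x => RR (n := n) (s + 1) Δ 0 D x ∧ ¬ gd p K D x) :=
      Phi_split _ (fun D x => gd p K D x)
    have h2 : Phi k M (fun D x => RR (n := n) (s + 1) Δ 0 D x ∧ ¬ gd p K D x) ≤ c / 4 / n :=
      (Phi_mono fun D x _ h => h.2).trans (hfl n hnF M (by omega) _ _ K hK hPe)
    have h3 : Phi k M (fun D x => RR (n := n) (s + 1) Δ 0 D x ∧ gd p K D x) ≤
        Phi k M (fun D x => dg D x = s + 1 ∧ hd Δ D x = 0 ∧ gd p K D x) + Φ' := by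
      refine (Phi_mono (S := fun D x => (dg D x = s + 1 ∧ hd Δ D x = 0 ∧ gd p K D x) ∨
        RR (n := n) s (2 * Δ) 0 D x) fun D x _ h => ?_).trans (Phi_or _ _ _ _)
      obtain ⟨⟨ha, hb⟩, hgd⟩ := h
      rcases Nat.lt_or_ge (dg D x) (s + 1) with h4 | h4
      · right
        exact ⟨by omega, (hd_le (by omega) D x).trans hb⟩
      · left
        exact ⟨by omega, by omega, hgd⟩
    have h5 : c / n = c / 2 / n + c / 4 / n + c / 4 / n := by
      field_simp
      ring
    linarith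
  have hmain : ∑ D : Finset (Pr n), ∑ _x ∈ univ.filter (fun x => GoodP k M p K s Δ D x), nu D ≤
      A / n * ((4 ^ (2 * Δ) : ℕ) : ℝ) * ((s * n : ℕ) : ℝ) *
        ∑ D : Finset (Pr n), ∑ _x ∈ univ.filter (fun x => XP k M p.C s Δ D x), nu D := by
    refine dbl (ζ := Fin n × Fin n) nu nu_nonneg (GoodP k M p K s Δ) (XP k M p.C s Δ)
      (fun D' x z => (gr D').Adj x z.1 ∧ dg D' z.1 ≤ 2 * Δ)
      (fun D z => z.1 ≠ z.2 ∧ ¬ (gr D).Adj z.1 z.2) (fun D z => mg D z.1 z.2) (A / n) hAn0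
      (4 ^ (2 * Δ)) (s * n) ?_ ?_ ?_
    · intro D x hD
      obtain ⟨hfc, hdg, hhd, hgd⟩ := hD
      obtain ⟨gF, gT, gK, gC⟩ := gd.base hK hfc hgd
      have hTc : (univ.filter (fun v => (gr D).Adj x v)).card = s + 1 := by rw [← dg_eq, hdg]
      obtain ⟨y, hy, y', hy', hne, hna, hFF⟩ := hmgE n hnE M (by omega) K hK (D \ Qx x)
        (univ.filter (fun v => (gr D).Adj x v)) (by rw [hTc]) (by rw [hTc]; omega) gF gT gK
      have hxy : (gr D).Adj x y := (mem_filter.1 hy).2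
      have hxy' : (gr D).Adj x y' := (mem_filter.1 hy').2
      have hna' : ¬ (gr D).Adj y y' := by
        intro h
        exact hna (gr_adj_sdiff.2 ⟨h, hxy.ne', hxy'.ne'⟩)
      have hsd : mg D y y' \ Qx x = mg (D \ Qx x) y y' := mg_sdiff hxy.ne hxy'.ne
      have hdg' := mg_dg_x hne hxy hxy'
      have hhd' := mg_hd hne hxy hxy' hhd
      have hadj : (gr (mg D y y')).Adj x y := by
        rw [mg_adj_x hxy.ne hxy'.ne]
        exact ⟨y, hxy, by unfold sg; rw [if_neg hne]⟩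
      refine ⟨(y, y'), ⟨?_, ?_, ?_, ?_, ?_⟩, ⟨hadj, ?_⟩, ⟨hne, hna'⟩, ?_⟩
      · exact hmgN n hnN D x y y' gT (by rw [hdg]) hfc.1 hna'
      · show FF k M (mg D y y' \ Qx x)
        rw [hsd]
        exact hFF
      · show (mg D y y' \ Qx x).card ≤ p.C * n
        rw [hsd]
        exact (mg_card_le _ _ _).trans gC.le
      · show dg (mg D y y') x ≤ s
        omega
      · show hd (2 * Δ) (mg D y y') x ≤ 0
        omega
      · show dg (mg D y y') y ≤ 2 * Δ
        have h1 := dg_le_sdiff (D := mg D y y') hxy.ne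
        have h2 := hd_zero hhd' hadj
        omega
      · show nu D ≤ A / n * nu (mg D y y')
        have hlt := mg_card_lt hne hxy hxy'
        have hcd := card_eq_sdiff_add_dg D x
        have hle : (mg D y y').card + (D.card - (mg D y y').card) ≤ (p.C + 1) * n := by
          have : (p.C + 1) * n = p.C * n + n := by ring
          omega
        have h1 := hnu n hnA _ _ hle
        rw [Nat.add_sub_cancel' hlt.le] at h1
        have h2 : (3 * ((p.C + 1 : ℕ) : ℝ) / n) ^ (D.card - (mg D y y').card) ≤ A / n := by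
          rw [← hA]
          calc (A / n) ^ (D.card - (mg D y y').card) ≤ (A / n) ^ 1 :=
                pow_le_pow_of_le_one hAn0 hAn (by omega)
            _ = A / n := pow_one _
        exact h1.trans (mul_le_mul_of_nonneg_right h2 (nuR_nonneg _ _))
    · intro D' x z _ hQ S hS
      have h1 := mg_pre D' z.1 z.2
      refine le_trans ?_ (h1.trans (Nat.pow_le_pow_right (by norm_num) hQ.2))
      refine card_le_card fun D hD => ?_
      have hD' := hS D hD
      exact mem_filter.2 ⟨mem_univ _, hD'.1.1, hD'.1.2, hD'.2⟩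
    · intro D' x hXx S hS
      refine (card_le_card (t := (univ.filter (fun v => (gr D').Adj x v)) ×ˢ
        (univ : Finset (Fin n))) (fun z hz => ?_)).trans ?_
      · exact mem_product.2 ⟨mem_filter.2 ⟨mem_univ _, (hS z hz).1⟩, mem_univ _⟩
      rw [card_product, ← dg_eq, card_univ, Fintype.card_fin]
      exact Nat.mul_le_mul_right _ hXx.2.2.2.1
  have htr : ∑ D : Finset (Pr n), ∑ _x ∈ univ.filter (fun x => XP k M p.C s Δ D x), nu D ≤
      T * Φ' := by
    refine le_trans (le_of_eq ?_) (htrim n hnT k M (RR (n := n) s (2 * Δ) 0)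
      (fun D D' x h1 h2 h3 => RR.anti h1 h2 h3))
    refine sum_congr rfl fun D _ => sum_congr ?_ fun _ _ => rfl
    ext x
    simp only [mem_filter, mem_univ, true_and]
    exact Iff.rfl
  have hfin : c / 2 / n ≤ B * Φ' := by
    refine hlow.trans (hmain.trans ?_)
    calc A / n * ((4 ^ (2 * Δ) : ℕ) : ℝ) * ((s * n : ℕ) : ℝ) *
          ∑ D : Finset (Pr n), ∑ _x ∈ univ.filter (fun x => XP k M p.C s Δ D x), nu D
        ≤ A / n * ((4 ^ (2 * Δ) : ℕ) : ℝ) * ((s * n : ℕ) : ℝ) * (T * Φ') :=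
          mul_le_mul_of_nonneg_left htr (by positivity)
      _ = B * Φ' := by
          rw [hB]
          push_cast
          field_simp
  calc min (c / 4) (c / (2 * B)) / n ≤ c / (2 * B) / n := by
        gcongr
        exact min_le_right _ _
    _ = (c / 2 / n) / B := by
        field_simp
    _ ≤ Φ' := by
        rw [div_le_iff₀ hB0, mul_comm]
        exact hfin

end Pool.Agent.Work.MP_73831e_pr.J
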