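import Pool.Agent.Work.MP_73831e_pr.J.Bas
import Pool.Agent.Work.MP_73831e_pr.J.P3s

/-! Iteration of `P3s` (proved by helper60 from the stub `P3s`). -/

open Finset
open scoped Classical Nat

namespace Pool.Agent.Work.MP_73831e_pr.J

theorem P3i {k : ℕ} (hk : 3 ≤ k) {p : Par} (hp : POK k p) (j : ℕ) : ∀ Δ : ℕ, ∀ c : ℝ, 0 < c →
    ∃ c' : ℝ, 0 < c' ∧ ∃ η : ℝ, 0 < η ∧ ∃ Δ' : ℕ, ∀ M, 3 * (k + j) + 4 ≤ M →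
      ∃ n₀ : ℕ, ∀ n ≥ n₀, ∀ K : Finset (Pr n) → Prop,
        KF k M ((k + j) * (k + j)) (p.kap k) K → Pent K ≤ η →
        c / n ≤ Phi k M (RR (n := n) (k + j) Δ 0) →
        c' / n ≤ Phi k M (RR (n := n) k Δ' 0) := by
  induction j with
  | zero =>
    intro Δ c hc
    exact ⟨c, hc, 1, one_pos, Δ, fun M _ => ⟨0, fun n _ K _ _ h => h⟩⟩
  | succ j ih =>
    intro Δ c hc
    obtain ⟨c₁, hc₁, η₁, hη₁, h₁⟩ := P3s hk hp (k + j) Δ (by omega) c hc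
    obtain ⟨c₂, hc₂, η₂, hη₂, Δ₂, h₂⟩ := ih (2 * Δ) c₁ hc₁
    refine ⟨c₂, hc₂, min η₁ η₂, lt_min hη₁ hη₂, Δ₂, fun M hM => ?_⟩
    obtain ⟨n₁, hn₁⟩ := h₁ M (by omega)
    obtain ⟨n₂, hn₂⟩ := h₂ M (by omega)
    refine ⟨max n₁ n₂, fun n hn K hK hP hc' => ?_⟩
    refine hn₂ n ((le_max_right _ _).trans hn) K (hK.le (by nlinarith) (by nlinarith))
      (hP.trans (min_le_right _ _)) ?_
    exact hn₁ n ((le_max_left _ _).trans hn) K hK (hP.trans (min_le_left _ _)) hc'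

theorem P3 {k : ℕ} (hk : 3 ≤ k) {p : Par} (hp : POK k p) (D₀ : ℕ) (hD : k ≤ D₀) (Δ : ℕ) :
    ∀ c : ℝ, 0 < c → ∃ c' : ℝ, 0 < c' ∧ ∃ η : ℝ, 0 < η ∧ ∃ Δ' : ℕ, ∀ M, 3 * D₀ + 4 ≤ M →
      ∃ n₀ : ℕ, ∀ n ≥ n₀, ∀ K : Finset (Pr n) → Prop,
        KF k M (D₀ * D₀) (p.kap k) K → Pent K ≤ η →
        c / n ≤ Phi k M (RR (n := n) D₀ Δ 0) →
        c' / n ≤ Phi k M (RR (n := n) k Δ' 0) := by
  obtain ⟨j, rfl⟩ : ∃ j, D₀ = k + j := ⟨D₀ - k, by omega⟩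
  exact P3i hk hp j Δ

end Pool.Agent.Work.MP_73831e_pr.J
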