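import Pool.Agent.Work.MP_73831e_pr.J.Bas

/-!
MODULE QRf (S-M).  Quasi-rainbow tuples.

* `QR_perm`: the same cluster; `f ∘ z ∘ σ` is injective if `f ∘ z` is.
* `QR_init`: the same cluster; `y = (snoc y u) ∘ Fin.castSucc`.
* `QR_clique`: `k = m+1`.  Let `(W₁,g₁)`, `(W₂,g₂)` be the clusters of the two tuples.  A proper
  colouring `f` of `gr E` outside both clusters is injective on `snoc y u` and on `snoc y v`
  (`m + 1` elements, `m+1` colours), so `f u` and `f v` are both the unique colour not in
  `f(y_0), ..., f(y_{m-1})`, hence `f u = f v`.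
  So every proper `f` has `f u = f v` or lies in one of two large clusters.  Conclude as in module
  `ExT`: if `u v` is an edge of `gr E` then `Cls (m+1) 2 κ (gr E)`, so `K E`, contradiction;
  otherwise, with `e` the pair `u v` (`e ∉ E`), all proper colourings of `gr (insert e E)` lie in the
  two clusters, so `FF (insert e E)` implies `K (insert e E)` (`hK.cls`, `Cls.le`).
-/

open Finset
open scoped Classical Nat

namespace Pool.Agent.Work.MP_73831e_pr.J

variable {n : ℕ}

theorem QR_perm {k κ j : ℕ} {G : SimpleGraph (Fin n)} {z : Fin j → Fin n}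
    (σ : Equiv.Perm (Fin j)) (h : QR k κ G z) : QR k κ G (z ∘ σ) := by
  obtain ⟨W, g, hL, hc⟩ := h
  refine ⟨W, g, hL, fun f hf => (hc f hf).imp_left fun hi => ?_⟩
  exact hi.comp σ.injective

theorem QR_init {k κ m : ℕ} {G : SimpleGraph (Fin n)} {y : Fin m → Fin n} {u : Fin n}
    (h : QR k κ G (Fin.snoc (α := fun _ => Fin n) y u)) : QR k κ G y := by
  obtain ⟨W, g, hL, hc⟩ := h
  refine ⟨W, g, hL, fun f hf => (hc f hf).imp_left fun hi => ?_⟩
  intro i j hij
  have h1 := @hi (Fin.castSucc i) (Fin.castSucc j) (by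
    simp only [Fin.snoc_castSucc]
    exact hij)
  exact Fin.castSucc_injective _ h1

theorem QR_clique {m M r κ : ℕ} (hr : 2 ≤ r) {K : Finset (Pr n) → Prop}
    (hK : KF (m + 1) M r κ K) {E : Finset (Pr n)} (hF : FF (m + 1) M E) (hnK : ¬ K E)
    {y : Fin m → Fin n} {u v : Fin n}
    (hu : QR (m + 1) κ (gr E) (Fin.snoc (α := fun _ => Fin n) y u))
    (hv : QR (m + 1) κ (gr E) (Fin.snoc (α := fun _ => Fin n) y v)) (huv : u ≠ v) :
    Ax (m + 1) M K E u v := by
  obtain ⟨W₁, g₁, hL₁, hc₁⟩ := hu
  obtain ⟨W₂, g₂, hL₂, hc₂⟩ := hv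
  have key : ∀ f, PC (m + 1) (gr E) f → f u = f v ∨ Inn W₁ g₁ f ∨ Inn W₂ g₂ f := by
    intro f hf
    rcases hc₁ f hf with h1 | h1
    · rcases hc₂ f hf with h2 | h2
      · left
        obtain ⟨i, hi⟩ := (Finite.injective_iff_surjective.1 h2) (f u)
        refine Fin.lastCases (motive := fun i =>
          f (Fin.snoc (α := fun _ => Fin n) y v i) = f u → f u = f v) ?_ ?_ i hi
        · intro h3
          rw [Fin.snoc_last] at h3
          exact h3.symm
        · intro j h3
          rw [Fin.snoc_castSucc] at h3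
          have h4 := @h1 (Fin.castSucc j) (Fin.last m) (by
            simp only [Fin.snoc_castSucc, Fin.snoc_last]
            exact h3)
          exact absurd h4 (Fin.castSucc_lt_last j).ne
      · exact Or.inr (Or.inr h2)
    · exact Or.inr (Or.inl h1)
  have hcls : ∀ E' : Finset (Pr n), E ⊆ E' → (gr E').Adj u v → Cls (m + 1) r κ (gr E') := by
    intro E' hE hadj
    apply Cls.le (r := 2) (by norm_num) hr
    refine ⟨![W₁, W₂], ![g₁, g₂], ?_, ?_⟩
    · intro i
      fin_cases i
      · exact hL₁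
      · exact hL₂
    · intro f hf
      rcases key f (hf.anti (gr_mono hE)) with h1 | h1 | h1
      · exact absurd h1 (hf u v hadj)
      · exact ⟨0, h1⟩
      · exact ⟨1, h1⟩
  obtain ⟨e, he⟩ := exists_pr huv
  refine ⟨e, he, ?_, ?_⟩
  · intro heE
    exact hnK (hK.cls E hF (hcls E (Finset.Subset.refl _) ((mem_iff_adj he).1 heE)))
  · by_cases hFF : FF (m + 1) M (insert e E)
    · right
      exact hK.cls _ hFF (hcls _ (Finset.subset_insert _ _)
        ((mem_iff_adj he).1 (Finset.mem_insert_self _ _)))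
    · left
      exact hFF

end Pool.Agent.Work.MP_73831e_pr.J
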