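import Pool.Agent.Work.MP_73831e_pr.J.Bas
import Pool.Agent.Work.MP_73831e_pr.J.Large
import Pool.Agent.Work.MP_73831e_pr.J.SpnA

/-!
MODULE StarC (M).  The colourings around a vertex of bounded degree whose star leads out of `F`.

`G = D \ Qx x`, `κ = p.kap k = 4 K₃ + 2k`.  Not `FF D`: `D` dead or `Um k M (gr D)`.
Let `f` be a proper colouring of `gr (D \ Qx x)` for which some colour `c` is missing on the
`D`-neighbours of `x`; then `f' = Function.update f x c` is a proper colouring of `gr D`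
(`gr_adj_sdiff`).
(1) `D` dead: there is no such `f`; take any large `(W, g)` (`lc_exists`, `2k ≤ κ`).
(2) `D` alive: `H ≤ gr D`, `W₀` with `|W₀| ≥ M`, `UQ k H W₀`; fix a proper colouring `g` of `H`.
`f'` is proper for `H`, so `f' = π ∘ g` on `W₀`, hence `f = π ∘ g` on `W = W₀.erase x`: `Inn W g f`.
Large: apply `large` with `G = gr (D \ Qx x)`, `G' = gr D = gr ((D \ Qx x) ∪ (D ∩ Qx x))`, `Z = ∅`
and `SpnA` (`|D ∩ Qx x| = dg D x ≤ s`): `n ≤ 2 K₃ |{v ∈ W₀ : g v = c}|`.  After erasing `x`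
the class has size `≥ m - 1` with `2 K₃ m ≥ n`, and `κ (m-1) ≥ 4 K₃ (m - 1) ≥ 2n - 4K₃ ≥ n` for
`n ≥ 4 K₃`.
-/

open Finset
open scoped Classical Nat

namespace Pool.Agent.Work.MP_73831e_pr.J

private theorem upd_pc {n k : ℕ} {D : Finset (Pr n)} {x : Fin n} {f : Fin n → Fin k}
    (hf : PC k (gr (D \ Qx x)) f) {c : Fin k} (hc : ∀ y, (gr D).Adj x y → f y ≠ c) :
    PC k (gr D) (Function.update f x c) := by
  intro u v huv
  by_cases hu : u = x
  · have hv : v ≠ x := fun h => huv.ne (hu.trans h.symm)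
    rw [hu, Function.update_self, Function.update_of_ne hv]
    exact (hc v (hu ▸ huv)).symm
  · by_cases hv : v = x
    · rw [hv, Function.update_self, Function.update_of_ne hu]
      exact hc u (hv ▸ huv.symm)
    · rw [Function.update_of_ne hu, Function.update_of_ne hv]
      exact hf u v (gr_adj_sdiff.2 ⟨huv, hu, hv⟩)

theorem star_cluster {k : ℕ} (hk : 3 ≤ k) {p : Par} (hp : POK k p) (s : ℕ) :
    ∃ n₀ : ℕ, ∀ n ≥ n₀, ∀ M, 3 * s + 4 ≤ M → ∀ (D : Finset (Pr n)) (x : Fin n),
      Typ p (D \ Qx x) → dg D x ≤ s → ¬ FF k M D →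
      ∃ (W : Finset (Fin n)) (g : Fin n → Fin k), LC (p.kap k) W g ∧
        ∀ f, PC k (gr (D \ Qx x)) f →
          (∀ c : Fin k, ∃ y, (gr D).Adj x y ∧ f y = c) ∨ Inn W g f := by
  obtain ⟨n₁, h₁⟩ := large hk hp.hK1 hp.hK3 s
  refine ⟨max n₁ (max (4 * p.K₃) k), fun n hn M hM D x hT hd hF => ?_⟩
  have hn1 : n₁ ≤ n := le_trans (le_max_left _ _) hn
  have hn2 : 4 * p.K₃ ≤ n := le_trans (le_trans (le_max_left _ _) (le_max_right _ _)) hn
  have hn3 : k ≤ n := le_trans (le_trans (le_max_right _ _) (le_max_right _ _)) hn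
  by_cases hA : Alive k (gr D)
  · have hU : Um k M (gr D) := by
      by_contra h
      exact hF ⟨hA, h⟩
    obtain ⟨H, hH, W₀, hW₀, hUQ⟩ := hU
    obtain ⟨g, hg⟩ := hUQ.2.1
    refine ⟨W₀.erase x, g, fun c => ?_, fun f hf => ?_⟩
    · have hL := h₁ n hn1 (gr (D \ Qx x)) (gr D) hT.1 hT.2.1 ⟨∅, by simp, fun S => ?_⟩ H hH W₀ hUQ
        (hM.trans hW₀) g hg c
      · have h2 : (W₀.filter (fun v => g v = c)).card ≤
            ((W₀.erase x).filter (fun v => g v = c)).card + 1 := by
          have h3 : W₀.filter (fun v => g v = c) ⊆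
              insert x ((W₀.erase x).filter (fun v => g v = c)) := by
            intro v hv
            rw [mem_filter] at hv
            rw [mem_insert, mem_filter, mem_erase]
            by_cases h4 : v = x
            · exact Or.inl h4
            · exact Or.inr ⟨⟨h4, hv.1⟩, hv.2⟩
          exact (card_le_card h3).trans (card_insert_le _ _)
        have h4 : n ≤ 4 * p.K₃ * ((W₀.erase x).filter (fun v => g v = c)).card := by
          have h5 := Nat.mul_le_mul_left (2 * p.K₃) h2
          nlinarith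
        refine h4.trans (Nat.mul_le_mul_right _ ?_)
        unfold Par.kap
        omega
      · have hD : (D \ Qx x) ∪ (D ∩ Qx x) = D := sdiff_union_inter D (Qx x)
        have h5 := spn_union (D \ Qx x) (D ∩ Qx x) S
        have h6 := tch_union (D \ Qx x) (D ∩ Qx x) S
        rw [hD] at h5 h6
        rw [union_empty]
        have h7 : (D ∩ Qx x).card ≤ s := hd
        exact ⟨h5.trans (Nat.add_le_add_left h7 _), h6.trans (Nat.add_le_add_left h7 _)⟩
    · by_cases h : ∀ c : Fin k, ∃ y, (gr D).Adj x y ∧ f y = c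
      · exact Or.inl h
      · push Not at h
        obtain ⟨c, hc⟩ := h
        right
        obtain ⟨π, hπ⟩ := hUQ.2.2 g _ hg ((upd_pc hf hc).anti hH)
        refine ⟨π, fun v hv => ?_⟩
        rw [mem_erase] at hv
        rw [← hπ v hv.2, Function.update_of_ne hv.1]
  · obtain ⟨W, g, hWg⟩ := lc_exists (κ := p.kap k) (show 1 ≤ k by omega)
      (by unfold Par.kap; omega) hn3
    refine ⟨W, g, hWg, fun f hf => Or.inl ?_⟩
    by_contra h
    push Not at h
    obtain ⟨c, hc⟩ := h
    exact hA ⟨_, upd_pc hf hc⟩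

end Pool.Agent.Work.MP_73831e_pr.J
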