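import Pool.Agent.Work.MP_73831e_pr.J.Bas
import Pool.Agent.Work.MP_73831e_pr.J.StarC

/-!
MODULE QRs (S-M).  The neighbours of a fully critical vertex of degree `≤ k` form a quasi-rainbow
`k`-tuple.

By `gd.base`: `FF G`, `Typ G`, `¬ K G` for `G = D \ Qx x`.  `star_cluster` with `s = k`: a large
`(W,g)` such that every proper colouring `f` of `gr G` is onto on `N = {y : D.Adj x y}` or
`Inn W g f`.  If `|N| = dg D x < k` then no `f` is onto on `N`, so `Cls k 1 κ (gr G)`, hence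
(`Cls.le`, `r ≥ 1`) `K G`, contradiction.  So `|N| = k`; let `z : Fin k → Fin n` be an enumeration
of `N` (`Finset.equivFinOfCardEq` / `orderEmbOfFin`).  If `f` is onto on `N` then `i ↦ f (z i)` is
surjective `Fin k → Fin k`, so injective.  `|D| = |G| + dg D x` (`card_eq_sdiff_add_dg`).
-/

open Finset
open scoped Classical Nat

namespace Pool.Agent.Work.MP_73831e_pr.J

theorem star_QR {k : ℕ} (hk : 3 ≤ k) {p : Par} (hp : POK k p) : ∃ n₀ : ℕ, ∀ n ≥ n₀, ∀ M,
    3 * k + 4 ≤ M → ∀ r, 1 ≤ r → ∀ K : Finset (Pr n) → Prop, KF k M r (p.kap k) K →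
      ∀ (D : Finset (Pr n)) (x : Fin n), fc k M D x → gd p K D x → dg D x ≤ k →
        ∃ z : Fin k → Fin n, QR k (p.kap k) (gr (D \ Qx x)) z ∧
          (∀ v, (gr D).Adj x v ↔ ∃ i, z i = v) ∧ D.card = (D \ Qx x).card + k := by
  obtain ⟨n₀, h₀⟩ := star_cluster hk hp k
  refine ⟨n₀, fun n hn M hM r hr K hK D x hf hg hd => ?_⟩
  obtain ⟨hG1, hG2, hG3, -⟩ := gd.base hK hf hg
  obtain ⟨W, g, hL, hc⟩ := h₀ n hn M hM D x hG2 hd hf.1
  obtain ⟨Nb, hNb⟩ : ∃ Nb : Finset (Fin n), Nb = univ.filter (fun v => (gr D).Adj x v) := ⟨_, rfl⟩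
  have hmem : ∀ v, v ∈ Nb ↔ (gr D).Adj x v := fun v => by rw [hNb, mem_filter]; simp
  have hcard : dg D x = Nb.card := by rw [dg_eq, hNb]
  have hNk : Nb.card = k := by
    by_contra hne
    have hlt : Nb.card < k := lt_of_le_of_ne (hcard ▸ hd) hne
    apply hG3
    apply hK.cls _ hG1
    apply Cls.le (r := 1) le_rfl hr
    refine ⟨fun _ => W, fun _ => g, fun _ => hL, fun f hf' => ⟨0, ?_⟩⟩
    rcases hc f hf' with h | h
    · exfalso
      have h1 : (univ : Finset (Fin k)) ⊆ Nb.image f := by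
        intro c _
        obtain ⟨y, hy, rfl⟩ := h c
        exact mem_image_of_mem _ ((hmem y).2 hy)
      have h2 := (card_le_card h1).trans card_image_le
      rw [card_univ, Fintype.card_fin] at h2
      omega
    · exact h
  let e : Nb ≃ Fin k := Finset.equivFinOfCardEq hNk
  refine ⟨fun i => ((e.symm i : Nb) : Fin n), ⟨W, g, hL, fun f hf' => ?_⟩, fun v => ?_, ?_⟩
  · rcases hc f hf' with h | h
    · left
      apply Finite.injective_iff_surjective.2
      intro c
      obtain ⟨y, hy, hyc⟩ := h c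
      refine ⟨e ⟨y, (hmem y).2 hy⟩, ?_⟩
      simp only [Equiv.symm_apply_apply]
      exact hyc
    · exact Or.inr h
  · constructor
    · intro hv
      exact ⟨e ⟨v, (hmem v).2 hv⟩, by simp only [Equiv.symm_apply_apply]⟩
    · rintro ⟨i, rfl⟩
      exact (hmem _).1 (e.symm i).2
  · have h1 := card_eq_sdiff_add_dg D x
    omega

end Pool.Agent.Work.MP_73831e_pr.J
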