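import Pool.Agent.Work.MP_73831e_pr.J.Bas
import Pool.Agent.Work.MP_73831e_pr.J.NumB
import Pool.Agent.Work.MP_73831e_pr.J.FL
import Pool.Agent.Work.MP_73831e_pr.J.Cnt
import Pool.Agent.Work.MP_73831e_pr.J.QRf
import Pool.Agent.Work.MP_73831e_pr.J.QRs
import Pool.Agent.Work.MP_73831e_pr.J.FluxA
import Pool.Agent.Work.MP_73831e_pr.J.Lvl

/-!
MODULE P4 (M-L, assembly).  Few fully critical vertices of degree `≤ k`.

`k = m + 1`, `m ≥ 2`, `C = p.C`, `κ = p.kap k`.  Suppose `Phi (dg ≤ k) ≥ c/n`.  By `fl` with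
`ε = c/2`: `Phi (dg ≤ k ∧ gd) ≥ c/(2n)`.
For such `(D,x)`: `G = D \ Qx x` with `FF G`, `¬ K G`, `|G| < C n` (`gd.base`) and `z` from
`star_QR`.  The map `(D,x) ↦ (G,x,z)` is injective (`D = G ∪ {x z_i}`), and
`ν(D) = nuR N (|G|+k) ≤ (3(C+1)/n)^k ν(G)` (`nu_add_le (C+1)`, `n ≥ k`).  So
`c/(2n) ≤ ∑_{G : FF, ¬K, |G| < Cn} n * nQR k κ k G * (3(C+1)/n)^k * ν(G)`.
For such `G`: `nQR k κ m G ≤ β n^m` (otherwise `K G` by hypothesis), and `tuple_count` with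
`V = Fin n`, `T = QR k κ (gr G)` on `Fin (m+1)`, `S = QR k κ (gr G)` on `Fin m`,
`A = Ax k M K G` (`QR_perm`, `QR_clique`, `QR_init`, `Ax.symm`) gives
`nQR k κ k G ≤ k (m ε + β/ε) n^(m-1) (nA G + n)`.  With `n * n^(m-1) / n^k = 1/n`:
`c/(2n) ≤ (3(C+1))^k k (m ε + β/ε) (1/n) ∑_G ν(G) (nA G + n)`.
`∑_{FF,¬K,|G|<Cn} ν(G) nA G ≤ ∑_{FF,¬K} w(G) nA G ≤ 4` (`nu_le_w`, `flux_nA`, `Pent ≤ 1`;
`|G| < C n < N`), `n ∑_{|G| < C n} ν(G) ≤ 3C` (`sum_nu_lt`).  So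
`c/2 ≤ (3(C+1))^k k (m ε + β/ε) (4 + 3C)`.  Choose first `ε` with `(3(C+1))^k k m ε (4+3C) ≤ c/8`
and then `β` with `(3(C+1))^k k (β/ε) (4+3C) ≤ c/8`: contradiction.
-/

open Finset
open scoped Classical Nat

namespace Pool.Agent.Work.MP_73831e_pr.J

private theorem inj_aux {n k : ℕ} {D D' : Finset (Pr n)} {x : Fin n} {z : Fin k → Fin n}
    (h : ∀ v, (gr D).Adj x v ↔ ∃ i, z i = v) (h' : ∀ v, (gr D').Adj x v ↔ ∃ i, z i = v)
    (hG : D \ Qx x = D' \ Qx x) : D = D' := by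
  ext e
  by_cases hx : x ∈ e.1
  · obtain ⟨v, hv⟩ := Sym2.mem_iff_exists.mp hx
    rw [mem_iff_adj hv, mem_iff_adj hv, h, h']
  · have h1 : e ∈ D \ Qx x ↔ e ∈ D' \ Qx x := by rw [hG]
    rw [mem_sdiff, mem_sdiff, mem_Qx] at h1
    tauto

private theorem sum_bound {n k κ : ℕ} (S : Finset (Finset (Pr n) × Fin n))
    (q : Finset (Pr n) → ℝ) (hq : ∀ G, 0 ≤ q G) (Q : Finset (Pr n) → Prop)
    (hz : ∀ Dx ∈ S, ∃ z : Fin k → Fin n, QR k κ (gr (Dx.1 \ Qx Dx.2)) z ∧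
      ∀ v, (gr Dx.1).Adj Dx.2 v ↔ ∃ i, z i = v)
    (hQ : ∀ Dx ∈ S, Q (Dx.1 \ Qx Dx.2)) :
    ∑ Dx ∈ S, q (Dx.1 \ Qx Dx.2) ≤
      ∑ G ∈ univ.filter Q, (n : ℝ) * (nQR k κ k G : ℝ) * q G := by
  have hz' : ∀ Dx : Finset (Pr n) × Fin n, ∃ z : Fin k → Fin n, Dx ∈ S →
      QR k κ (gr (Dx.1 \ Qx Dx.2)) z ∧ ∀ v, (gr Dx.1).Adj Dx.2 v ↔ ∃ i, z i = v := by
    intro Dx
    by_cases h : Dx ∈ S
    · obtain ⟨z, hz⟩ := hz Dx h
      exact ⟨z, fun _ => hz⟩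
    · exact ⟨fun _ => Dx.2, fun h' => absurd h' h⟩
  choose z hz using hz'
  let Fm : Finset (Pr n) × Fin n → Finset (Pr n) × (Fin n × (Fin k → Fin n)) :=
    fun Dx => (Dx.1 \ Qx Dx.2, Dx.2, z Dx)
  have hinj : Set.InjOn Fm (S : Set (Finset (Pr n) × Fin n)) := by
    rintro ⟨D, x⟩ h1 ⟨D', x'⟩ h2 h3
    have e1 : D \ Qx x = D' \ Qx x' := congrArg Prod.fst h3
    have e2 : x = x' := congrArg (fun t => t.2.1) h3
    have e3 : z (D, x) = z (D', x') := congrArg (fun t => t.2.2) h3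
    subst e2
    have h4 := (hz _ h1).2
    have h5 := (hz _ h2).2
    rw [← e3] at h5
    exact Prod.ext (inj_aux h4 h5 e1) rfl
  have h1 : ∑ Dx ∈ S, q (Dx.1 \ Qx Dx.2) = ∑ t ∈ S.image Fm, q t.1 := by
    rw [sum_image hinj]
  have h2 : ∑ t ∈ S.image Fm, q t.1 ≤
      ∑ t ∈ univ.filter (fun t : Finset (Pr n) × (Fin n × (Fin k → Fin n)) =>
        Q t.1 ∧ QR k κ (gr t.1) t.2.2), q t.1 := by
    refine sum_le_sum_of_subset_of_nonneg ?_ fun _ _ _ => hq _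
    intro t ht
    obtain ⟨Dx, hDx, rfl⟩ := mem_image.1 ht
    rw [mem_filter]
    exact ⟨mem_univ _, hQ _ hDx, (hz _ hDx).1⟩
  have h3 : ∑ t ∈ univ.filter (fun t : Finset (Pr n) × (Fin n × (Fin k → Fin n)) =>
        Q t.1 ∧ QR k κ (gr t.1) t.2.2), q t.1 =
      ∑ G ∈ univ.filter Q, (n : ℝ) * (nQR k κ k G : ℝ) * q G := by
    rw [sum_filter, Fintype.sum_prod_type, sum_filter]
    refine sum_congr rfl fun G _ => ?_
    rw [Fintype.sum_prod_type]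
    by_cases hG : Q G
    · rw [if_pos hG]
      have h4 : ∑ y : Fin k → Fin n,
          (if Q G ∧ QR k κ (gr G) y then q G else 0) = (nQR k κ k G : ℝ) * q G := by
        rw [← sum_filter, sum_const, nsmul_eq_mul]
        congr 2
        unfold nQR
        congr 1
        ext y
        simp only [mem_filter]
        tauto
      have h5 : (∑ _x : Fin n, ∑ y : Fin k → Fin n,
          (if Q G ∧ QR k κ (gr G) y then q G else 0)) = (n : ℝ) * (nQR k κ k G : ℝ) * q G := by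
        rw [h4, sum_const, card_univ, Fintype.card_fin, nsmul_eq_mul, mul_assoc]
      rw [← h5]
    · rw [if_neg hG]
      refine sum_eq_zero fun x _ => sum_eq_zero fun y _ => ?_
      rw [if_neg (fun h => hG h.1)]
  rw [h1]
  exact h2.trans h3.le

theorem P4 {k : ℕ} (hk : 3 ≤ k) {p : Par} (hp : POK k p) : ∀ c : ℝ, 0 < c →
    ∃ β : ℝ, 0 < β ∧ ∃ η : ℝ, 0 < η ∧ ∀ M, 3 * k + 4 ≤ M → ∃ n₀ : ℕ, ∀ n ≥ n₀,
      ∀ K : Finset (Pr n) → Prop, KF k M 2 (p.kap k) K →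
        (∀ E, FF k M E → β * (n : ℝ) ^ (k - 1) ≤ nQR k (p.kap k) (k - 1) E → K E) →
        Pent K ≤ η → Phi k M (fun (D : Finset (Pr n)) x => dg D x ≤ k) < c / n := by
  intro c hc
  obtain ⟨m, rfl⟩ : ∃ m, k = m + 1 := ⟨k - 1, by omega⟩
  have hm2 : 2 ≤ m := by omega
  obtain ⟨η, hη, n₁, h₁⟩ := fl hk hp (c / 2) (by positivity)
  obtain ⟨n₂, h₂⟩ := star_QR hk hp
  obtain ⟨n₃, h₃⟩ := nu_add_le (p.C + 1)
  obtain ⟨n₄, h₄⟩ := sum_nu_lt p.C
  obtain ⟨n₅, h₅⟩ := nu_w_le p.C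
  have hm : (0 : ℝ) < m := by exact_mod_cast (by omega : 0 < m)
  obtain ⟨A₀, hA₀⟩ : ∃ A₀ : ℝ, A₀ = (3 * ((p.C : ℝ) + 1)) ^ (m + 1) * ((m : ℝ) + 1) := ⟨_, rfl⟩
  have hA₀pos : 0 < A₀ := by rw [hA₀]; positivity
  obtain ⟨ε', hε'⟩ : ∃ ε' : ℝ, ε' = c / (8 * A₀ * m * (4 + 3 * p.C)) := ⟨_, rfl⟩
  have hε'pos : 0 < ε' := by rw [hε']; positivity
  obtain ⟨β, hβ⟩ : ∃ β : ℝ, β = c * ε' / (8 * A₀ * (4 + 3 * p.C)) := ⟨_, rfl⟩
  have hβpos : 0 < β := by rw [hβ]; positivity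
  have hB : A₀ * (m * ε' + β / ε') * (4 + 3 * p.C) = c / 4 := by
    have e1 : β / ε' = c / (8 * A₀ * (4 + 3 * p.C)) := by
      rw [hβ]
      field_simp
    rw [e1, hε']
    field_simp
    ring
  refine ⟨β, hβpos, η, hη, fun M hM =>
    ⟨max n₁ (max n₂ (max n₃ (max n₄ (max n₅ (m + 1))))), fun n hn K hK hK2 hP => ?_⟩⟩
  simp only [ge_iff_le, max_le_iff] at hn
  obtain ⟨hn1, hn2, hn3, hn4, hn5, hn6⟩ := hn
  have hn0 : 0 < n := by omega
  have hn0r : (0 : ℝ) < n := by exact_mod_cast hn0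
  have hne : Nonempty (Fin n) := ⟨⟨0, hn0⟩⟩
  have hfl := h₁ n hn1 M (by omega) 2 (p.kap (m + 1)) K hK hP
  have hCN := (h₅ n hn5).1
  have hPent1 : Pent K ≤ 1 := Pb_le_one _
  -- the main part
  have hX : Phi (m + 1) M (fun (D : Finset (Pr n)) x => dg D x ≤ m + 1 ∧ gd p K D x) ≤
      (c / 4) / n := by
    obtain ⟨Q, hQdef⟩ : ∃ Q : Finset (Pr n) → Prop, ∀ G, Q G ↔
      (FF (m + 1) M G ∧ ¬ K G ∧ G.card < p.C * n) := ⟨_, fun _ => Iff.rfl⟩
    obtain ⟨q, hqdef⟩ : ∃ q : Finset (Pr n) → ℝ, ∀ G, q G =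
      (3 * ((p.C : ℝ) + 1) / n) ^ (m + 1) * nu G := ⟨_, fun _ => rfl⟩
    have hq0 : ∀ G, 0 ≤ q G := fun G => by
      rw [hqdef]
      exact mul_nonneg (by positivity) (nu_nonneg G)
    obtain ⟨S, hS⟩ : ∃ S : Finset (Finset (Pr n) × Fin n), ∀ Dx, Dx ∈ S ↔
        (fc (m + 1) M Dx.1 Dx.2 ∧ (dg Dx.1 Dx.2 ≤ m + 1 ∧ gd p K Dx.1 Dx.2)) :=
      ⟨univ.filter (fun Dx : Finset (Pr n) × Fin n => fc (m + 1) M Dx.1 Dx.2 ∧
        (dg Dx.1 Dx.2 ≤ m + 1 ∧ gd p K Dx.1 Dx.2)),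
        fun Dx => by rw [mem_filter]; exact ⟨fun h => h.2, fun h => ⟨mem_univ _, h⟩⟩⟩
    have hbase : ∀ Dx ∈ S, Q (Dx.1 \ Qx Dx.2) := by
      intro Dx hDx
      rw [hS] at hDx
      obtain ⟨a1, a2, a3, a4⟩ := gd.base hK hDx.1 hDx.2.2
      exact (hQdef _).2 ⟨a1, a3, a4⟩
    have hzz : ∀ Dx ∈ S, ∃ z : Fin (m + 1) → Fin n,
        (QR (m + 1) (p.kap (m + 1)) (gr (Dx.1 \ Qx Dx.2)) z ∧
          ∀ v, (gr Dx.1).Adj Dx.2 v ↔ ∃ i, z i = v) ∧
        Dx.1.card = (Dx.1 \ Qx Dx.2).card + (m + 1) := by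
      intro Dx hDx
      rw [hS] at hDx
      obtain ⟨z, a1, a2, a3⟩ := h₂ n hn2 M hM 2 (by norm_num) K hK Dx.1 Dx.2 hDx.1 hDx.2.2 hDx.2.1
      exact ⟨z, ⟨a1, a2⟩, a3⟩
    have hS1 : Phi (m + 1) M (fun (D : Finset (Pr n)) x => dg D x ≤ m + 1 ∧ gd p K D x) =
        ∑ Dx ∈ S, nu Dx.1 := by
      unfold Phi
      have e1 : S = univ.filter (fun Dx : Finset (Pr n) × Fin n =>
          fc (m + 1) M Dx.1 Dx.2 ∧ (dg Dx.1 Dx.2 ≤ m + 1 ∧ gd p K Dx.1 Dx.2)) := by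
        ext Dx
        rw [hS, mem_filter]
        exact ⟨fun h => ⟨mem_univ _, h⟩, fun h => h.2⟩
      rw [e1, sum_filter, Fintype.sum_prod_type]
      refine sum_congr rfl fun D _ => ?_
      rw [sum_filter]
      congr!
    have hS2 : ∑ Dx ∈ S, nu Dx.1 ≤ ∑ Dx ∈ S, q (Dx.1 \ Qx Dx.2) := by
      refine sum_le_sum fun Dx hDx => ?_
      obtain ⟨z, -, hcard⟩ := hzz Dx hDx
      have hG := ((hQdef _).1 (hbase Dx hDx)).2.2
      rw [hqdef]
      unfold nu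
      rw [hcard]
      have h3 := h₃ n hn3 (Dx.1 \ Qx Dx.2).card (m + 1) (by
        rw [Nat.add_mul, one_mul]
        omega)
      have e2 : ((p.C + 1 : ℕ) : ℝ) = (p.C : ℝ) + 1 := by push_cast; ring
      rw [e2] at h3
      exact h3
    have hS3 := sum_bound (k := m + 1) (κ := p.kap (m + 1)) S q hq0 Q
      (fun Dx hDx => (hzz Dx hDx).imp fun z h => h.1) hbase
    -- the count of tuples
    have hcnt : ∀ G, Q G → (nQR (m + 1) (p.kap (m + 1)) (m + 1) G : ℝ) ≤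
        ((m : ℝ) + 1) * (m * ε' + β / ε') * (n : ℝ) ^ (m - 1) *
          ((nA (m + 1) M K G : ℝ) + n) := by
      intro G hG
      obtain ⟨g1, g2, g3⟩ := (hQdef _).1 hG
      have hsm : ((univ.filter (fun y : Fin m → Fin n =>
          QR (m + 1) (p.kap (m + 1)) (gr G) y)).card : ℝ) ≤ β * (Fintype.card (Fin n) : ℝ) ^ m := by
        by_contra hcon
        push Not at hcon
        rw [Fintype.card_fin] at hcon
        exact g2 (hK2 G g1 hcon.le)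
      have htc := tuple_count m hm2 (Ax (m + 1) M K G) (fun u v h => h.symm)
        (fun y : Fin (m + 1) → Fin n => QR (m + 1) (p.kap (m + 1)) (gr G) y)
        (fun σ z h => QR_perm σ h)
        (fun y u v hu hv huv => QR_clique (le_refl 2) hK g1 g2 hu hv huv)
        (fun y : Fin m → Fin n => QR (m + 1) (p.kap (m + 1)) (gr G) y)
        (fun y u h => QR_init h) β ε' hβpos.le hε'pos hsm
      rw [Fintype.card_fin] at htc
      exact htc
    have hS4 : ∑ G ∈ univ.filter Q, (n : ℝ) * (nQR (m + 1) (p.kap (m + 1)) (m + 1) G : ℝ) * q G ≤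
        (A₀ * (m * ε' + β / ε') / n) *
          ∑ G ∈ univ.filter Q, nu G * ((nA (m + 1) M K G : ℝ) + n) := by
      rw [mul_sum]
      refine sum_le_sum fun G hG => ?_
      rw [mem_filter] at hG
      have h1 := hcnt G hG.2
      have h2 : (n : ℝ) * (nQR (m + 1) (p.kap (m + 1)) (m + 1) G : ℝ) * q G ≤
          (n : ℝ) * (((m : ℝ) + 1) * (m * ε' + β / ε') * (n : ℝ) ^ (m - 1) *
          ((nA (m + 1) M K G : ℝ) + n)) * q G :=
        mul_le_mul_of_nonneg_right (mul_le_mul_of_nonneg_left h1 hn0r.le) (hq0 G)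
      refine h2.trans (le_of_eq ?_)
      rw [hqdef, hA₀, div_pow]
      have e3 : (n : ℝ) ^ (m + 1) = n * n * n ^ (m - 1) := by
        obtain ⟨m', rfl⟩ : ∃ m', m = m' + 1 := ⟨m - 1, by omega⟩
        rw [Nat.add_sub_cancel]
        ring
      rw [e3]
      have e4 : (0 : ℝ) < (n : ℝ) ^ (m - 1) := by positivity
      field_simp
    have hS5 : ∑ G ∈ univ.filter Q, nu G * ((nA (m + 1) M K G : ℝ) + n) ≤ 4 + 3 * p.C := by
      have e1 : ∑ G ∈ univ.filter Q, nu G * ((nA (m + 1) M K G : ℝ) + n) =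
          ∑ G ∈ univ.filter Q, nu G * (nA (m + 1) M K G : ℝ) +
            n * ∑ G ∈ univ.filter Q, nu G := by
        rw [mul_sum, ← sum_add_distrib]
        refine sum_congr rfl fun G _ => ?_
        ring
      rw [e1]
      refine add_le_add ?_ ?_
      · have e2 : ∑ G ∈ univ.filter Q, nu G * (nA (m + 1) M K G : ℝ) ≤
            ∑ G ∈ univ.filter Q, w G * (nA (m + 1) M K G : ℝ) := by
          refine sum_le_sum fun G hG => ?_
          rw [mem_filter] at hG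
          obtain ⟨g1, g2, g3⟩ := (hQdef _).1 hG.2
          refine mul_le_mul_of_nonneg_right ?_ (Nat.cast_nonneg _)
          exact (nu_le_w (lt_trans g3 hCN)).1
        have e3 : ∑ G ∈ univ.filter Q, w G * (nA (m + 1) M K G : ℝ) ≤
            ∑ G ∈ univ.filter (fun E : Finset (Pr n) => FF (m + 1) M E ∧ ¬ K E),
              w G * (nA (m + 1) M K G : ℝ) := by
          refine sum_le_sum_of_subset_of_nonneg ?_
            fun G _ _ => mul_nonneg (w_nonneg G) (Nat.cast_nonneg _)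
          intro G hG
          rw [mem_filter] at hG ⊢
          obtain ⟨g1, g2, g3⟩ := (hQdef _).1 hG.2
          exact ⟨mem_univ _, g1, g2⟩
        have e4 := flux_nA hK
        linarith
      · have e2 : ∑ G ∈ univ.filter Q, nu G ≤
            ∑ E ∈ univ.filter (fun E : Finset (Pr n) => E.card < p.C * n), nu E := by
          refine sum_le_sum_of_subset_of_nonneg ?_ fun G _ _ => nu_nonneg G
          intro G hG
          rw [mem_filter] at hG ⊢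
          exact ⟨mem_univ _, ((hQdef _).1 hG.2).2.2⟩
        have e3 := mul_le_mul_of_nonneg_left (e2.trans (h₄ n hn4)) hn0r.le
        refine e3.trans (le_of_eq ?_)
        field_simp
    rw [hS1]
    refine hS2.trans (hS3.trans (hS4.trans ?_))
    have hpos : 0 ≤ A₀ * (m * ε' + β / ε') / n := by positivity
    refine (mul_le_mul_of_nonneg_left hS5 hpos).trans (le_of_eq ?_)
    rw [← hB]
    ring
  have hsplit := Phi_split (k := m + 1) (M := M)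
    (fun (D : Finset (Pr n)) x => dg D x ≤ m + 1) (fun D x => gd p K D x)
  have hY : Phi (m + 1) M (fun (D : Finset (Pr n)) x => dg D x ≤ m + 1 ∧ ¬ gd p K D x) ≤
      (c / 2) / n := (Phi_mono fun D x _ h => h.2).trans hfl
  have h6 : (c / 4) / n + (c / 2) / n < c / n := by
    rw [← add_div]
    exact div_lt_div_of_pos_right (by linarith) hn0r
  linarith

end Pool.Agent.Work.MP_73831e_pr.J
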