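import Pool.Agent.Work.MP_73831e_pr.J.Bas
import Pool.Agent.Work.MP_73831e_pr.J.Lvl
import Pool.Agent.Work.MP_73831e_pr.B1
import Pool.Agent.Work.MP_73831e_pr.B2
import Pool.Agent.Work.MP_73831e_pr.B3
import Pool.Agent.Work.MP_73831e_pr.B4
import Pool.Agent.Work.MP_73831e_pr.Transfer

/-!
MODULE Par (M).  Existence of good parameters.

Take `C` from `B1 (k+1)`, `K₁` from `B2 C`, `K₃` from `B3 C (4 K₁) (4 K₁)` (so `K₃ ≥ 4 K₁`), `K₄`
from `B4 C`.  By `transfer` (`#{ω : A (pre ω M)} * C(N,M) = #{E : |E| = M, A E} * N!`, needs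
`M = C n ≤ N`, true for `n ≥ 2C+1`), each fraction `#{E : |E| = Cn, bad}/C(N,Cn)` is `Pb(bad)`:
* `al`: `B1 (k+1)` gives `#{alive} * 2^n ≤ C(N,Cn)`, so `Pb ≤ 2^(-n)`.
* `typ`: `¬ Typ` is contained in (not Sparse) or (not DegOK) or (not ManyIso), of probabilities
  `≤ K/n`, `≤ 2^(-n)`, `≤ K'/n`; all tend to `0`.  Compare with the proof of `typical` in `Typ`.
-/

open Finset
open scoped Classical Nat

namespace Pool.Agent.Work.MP_73831e_pr.J

private theorem pb_le {P : Type} [Fintype P] (A : Finset P → Prop) {M : ℕ}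
    (hM : M ≤ Fintype.card P) {x : ℝ} {s : Finset (Finset P)}
    (hs : ∀ E, E ∈ s ↔ E.card = M ∧ A E)
    (h : (s.card : ℝ) ≤ x * ((Fintype.card P).choose M : ℝ)) :
    Pb (fun ω : Ordr P => A (pre ω M)) ≤ x := by
  have hs' : s = univ.filter (fun E : Finset P => E.card = M ∧ A E) := by
    ext E
    rw [hs, mem_filter]
    simp
  rw [hs'] at h
  have ht := transfer A M hM
  rw [Nat.card_eq_fintype_card, Fintype.card_subtype] at ht
  have hc : (0 : ℝ) < ((Fintype.card P).choose M : ℝ) := by exact_mod_cast Nat.choose_pos hM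
  have hN : (0 : ℝ) < ((Fintype.card P)! : ℝ) := by exact_mod_cast Nat.factorial_pos _
  have ht' : ((univ.filter (fun ω : Ordr P => A (pre ω M))).card : ℝ) *
      ((Fintype.card P).choose M : ℝ) =
      ((univ.filter (fun E : Finset P => E.card = M ∧ A E)).card : ℝ) *
        ((Fintype.card P)! : ℝ) := by exact_mod_cast ht
  unfold Pb
  rw [div_le_iff₀ hN]
  refine le_of_mul_le_mul_right ?_ hc
  rw [ht']
  calc ((univ.filter (fun E : Finset P => E.card = M ∧ A E)).card : ℝ) *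
        ((Fintype.card P)! : ℝ) ≤ x * ((Fintype.card P).choose M : ℝ) * ((Fintype.card P)! : ℝ) :=
        mul_le_mul_of_nonneg_right h hN.le
    _ = x * ((Fintype.card P)! : ℝ) * ((Fintype.card P).choose M : ℝ) := by ring

private theorem pb_div {P : Type} [Fintype P] (A : Finset P → Prop) {M : ℕ}
    (hM : M ≤ Fintype.card P) {K n : ℕ} (hn : 0 < n) {s : Finset (Finset P)}
    (hs : ∀ E, E ∈ s ↔ E.card = M ∧ A E)
    (h : s.card * n ≤ K * (Fintype.card P).choose M) :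
    Pb (fun ω : Ordr P => A (pre ω M)) ≤ K / n := by
  refine pb_le A hM hs ?_
  have hn' : (0 : ℝ) < n := by exact_mod_cast hn
  have h' : (s.card : ℝ) * n ≤ K * ((Fintype.card P).choose M : ℝ) := by exact_mod_cast h
  rw [div_mul_eq_mul_div, le_div_iff₀ hn']
  exact h'

private theorem pb_pow {P : Type} [Fintype P] (A : Finset P → Prop) {M : ℕ}
    (hM : M ≤ Fintype.card P) {n : ℕ} {s : Finset (Finset P)}
    (hs : ∀ E, E ∈ s ↔ E.card = M ∧ A E)
    (h : s.card * 2 ^ n ≤ (Fintype.card P).choose M) :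
    Pb (fun ω : Ordr P => A (pre ω M)) ≤ (1 / 2) ^ n := by
  refine pb_le A hM hs ?_
  have hn' : (0 : ℝ) < 2 ^ n := by positivity
  have h' : (s.card : ℝ) * 2 ^ n ≤ ((Fintype.card P).choose M : ℝ) := by exact_mod_cast h
  rw [one_div, inv_pow, inv_mul_eq_div, le_div_iff₀ hn']
  exact h'

theorem exists_par (k : ℕ) : ∃ p : Par, POK k p := by
  obtain ⟨C, hC, n1, h1⟩ := B1 (k + 1) (by omega)
  obtain ⟨K₁, hK1, Ka, n2, h2⟩ := B2 C hC
  obtain ⟨K₃, hK3, n3, h3⟩ := B3 C (4 * K₁) (4 * K₁) hC (by omega)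
  obtain ⟨K₄, hK4, Kb, n4, h4⟩ := B4 C hC
  have hNN : ∀ n : ℕ, 2 * C + 1 ≤ n → C * n ≤ Fintype.card (Pr n) := by
    intro n hn
    have h5 : C * n ≤ NN n := by
      have h6 := two_NN n
      have h7 : n * (2 * C) ≤ n * (n - 1) := Nat.mul_le_mul_left _ (by omega)
      have h8 : n * (2 * C) = 2 * (C * n) := by ring
      omega
    exact h5
  refine ⟨⟨C, K₁, K₃, K₄⟩, ⟨hC, hK1, hK3, hK4, fun ε hε => ?_, ?_⟩⟩
  · obtain ⟨m, hm⟩ := exists_nat_gt (((Ka : ℝ) + 1 + Kb) / ε)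
    refine ⟨n2 + n3 + n4 + (2 * C + 1) + m + 1, fun n hn => ?_⟩
    have hn0 : 0 < n := by omega
    have hnr : (0 : ℝ) < n := by exact_mod_cast hn0
    have hM := hNN n (by omega)
    have q2 := h2 n (by omega)
    have q3 := h3 n (by omega)
    have q4 := h4 n (by omega)
    unfold NN at q2 q3 q4
    have p2 := pb_div (P := Pr n) (K := Ka) (fun E => ¬ Sparse (n / K₁) (gr E)) hM hn0
      (fun E => by simp) q2
    have p3 := pb_pow (P := Pr n) (fun E => ¬ DegOK (4 * K₁) K₃ (gr E)) hM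
      (fun E => by simp) q3
    have p4 := pb_div (P := Pr n) (K := Kb) (fun E => ¬ ManyIso K₄ (gr E)) hM hn0
      (fun E => by simp) q4
    have hp : ((1 : ℝ) / 2) ^ n ≤ 1 / n := by
      rw [one_div, inv_pow, ← one_div]
      apply one_div_le_one_div_of_le hnr
      exact_mod_cast (Nat.lt_two_pow_self (n := n)).le
    have hs : ((Ka : ℝ) + 1 + Kb) / n ≤ ε := by
      rw [div_le_iff₀ hnr]
      rw [div_lt_iff₀ hε] at hm
      have hmn : (m : ℝ) ≤ n := by exact_mod_cast (by omega : m ≤ n)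
      nlinarith
    have hle : Pb (fun ω : Ordr (Pr n) => ¬ Typ ⟨C, K₁, K₃, K₄⟩ (pre ω (C * n))) ≤
        Pb (fun ω : Ordr (Pr n) => ¬ Sparse (n / K₁) (gr (pre ω (C * n)))) +
          (Pb (fun ω : Ordr (Pr n) => ¬ DegOK (4 * K₁) K₃ (gr (pre ω (C * n)))) +
            Pb (fun ω : Ordr (Pr n) => ¬ ManyIso K₄ (gr (pre ω (C * n))))) := by
      refine (Pb_le_add (D := fun ω : Ordr (Pr n) =>
        ¬ DegOK (4 * K₁) K₃ (gr (pre ω (C * n))) ∨ ¬ ManyIso K₄ (gr (pre ω (C * n))))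
        fun ω hω => ?_).trans (add_le_add le_rfl (Pb_or _ _))
      by_contra hcon
      apply hω
      simp only [not_or, not_not] at hcon
      exact ⟨hcon.1, hcon.2.1, hcon.2.2⟩
    refine hle.trans ?_
    have e1 : ((Ka : ℝ) + 1 + Kb) / n = Ka / n + (1 / n + Kb / n) := by ring
    rw [e1] at hs
    linarith
  · refine ⟨n1 + (2 * C + 1), fun n hn => ?_⟩
    have q1 := h1 n (by omega)
    unfold NN at q1
    exact pb_pow (P := Pr n) (fun E => Alive (k + 1) (gr E)) (hNN n (by omega))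
      (fun E => by simp) q1

end Pool.Agent.Work.MP_73831e_pr.J
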