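import Pool.Agent.Work.MP_73831e_pr.J.Bas
import Pool.Agent.Work.MP_73831e_pr.J.Par
import Pool.Agent.Work.MP_73831e_pr.J.P1u
import Pool.Agent.Work.MP_73831e_pr.J.P2
import Pool.Agent.Work.MP_73831e_pr.J.P3
import Pool.Agent.Work.MP_73831e_pr.J.P4
import Pool.Agent.Work.MP_73831e_pr.J.KMono
import Pool.Agent.Work.MP_73831e_pr.J.KCls
import Pool.Agent.Work.MP_73831e_pr.J.KQR

/-! The process enters the family `KK` with probability bounded below, for all large `n`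
(proved by helper60 from the stubs). -/

open Finset
open scoped Classical Nat

namespace Pool.Agent.Work.MP_73831e_pr.J

theorem KK_KF {k M J r κ n : ℕ} {θ : ℝ}
    (h : ∀ G : SimpleGraph (Fin n), Cls k r κ G → Kill (Fin J) k θ G) :
    KF k M r κ (KK (n := n) k M J θ) :=
  ⟨fun _ hE => hE.1, fun _ _ hE hsub hF => ⟨hF, hE.2.anti (gr_mono hsub)⟩,
    fun _ hF hc => ⟨hF, h _ hc⟩⟩

theorem core {k : ℕ} (hk : 3 ≤ k) {p : Par} (hp : POK k p) : ∃ (M J : ℕ) (θ η : ℝ),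
    3 * k ≤ M ∧ 0 < θ ∧ 0 < η ∧ ∃ n₀ : ℕ, ∀ n ≥ n₀, η < Pent (KK (n := n) k M J θ) := by
  obtain ⟨c, hc, D₀, hD₀, n₀, h1⟩ := P1u hk hp
  obtain ⟨c₁, hc₁, η₁, hη₁, Δ₁, n₁, h2⟩ := P2 hk hp D₀ c hc
  obtain ⟨c₂, hc₂, η₂, hη₂, Δ₂, h3⟩ := P3 hk hp D₀ hD₀ Δ₁ c₁ hc₁
  obtain ⟨β, hβ, η₄, hη₄, h4⟩ := P4 hk hp c₂ hc₂
  have hκ : 1 ≤ p.kap k := by unfold Par.kap; omega
  obtain ⟨J₁, hJ₁⟩ := qr_kill hk (p.kap k) hκ
  obtain ⟨θ₁, hθ₁, hq⟩ := hJ₁ β hβ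
  obtain ⟨θ₂, hθ₂, hcl⟩ := cls_kill hk (D₀ * D₀) (p.kap k) hκ
  set M := 3 * D₀ + 4 with hM
  set J := D₀ * D₀ + J₁ with hJ
  set θ := min θ₁ θ₂ with hθ
  have hθp : 0 < θ := lt_min hθ₁ hθ₂
  obtain ⟨n₃, h3'⟩ := h3 M le_rfl
  obtain ⟨n₄, h4'⟩ := h4 M (by omega)
  refine ⟨M, J, θ, min η₁ (min η₂ η₄), by omega, hθp, lt_min hη₁ (lt_min hη₂ hη₄),
    n₀ + n₁ + n₃ + n₄ + 1, fun n hn => ?_⟩
  have hP := h1 n (by omega) M (by omega)
  by_contra hcon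
  push Not at hcon
  have hη1 := hcon.trans (min_le_left _ _)
  have hη2 := hcon.trans ((min_le_right _ _).trans (min_le_left _ _))
  have hη4 := hcon.trans ((min_le_right _ _).trans (min_le_right _ _))
  have hKF : KF k M (D₀ * D₀) (p.kap k) (KK (n := n) k M J θ) := by
    apply KK_KF
    intro G hG
    have h5 := (hcl n G hG).le_theta (min_le_right θ₁ θ₂)
    exact h5.mono (by rw [Fintype.card_fin]; omega)
  have hKF2 : KF k M 2 (p.kap k) (KK (n := n) k M J θ) := hKF.le (by omega) (by nlinarith)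
  have hs1 := h2 n (by omega) M (by omega) _ hKF2 hη1 hP
  have hs2 := h3' n (by omega) _ hKF hη2 hs1
  have hs3 := h4' n (by omega) _ hKF2 (fun E hE hE2 => by
    refine ⟨hE, ?_⟩
    have h6 := (hq n (by omega) E hE2).le_theta (min_le_left θ₁ θ₂)
    exact h6.mono (by rw [Fintype.card_fin]; omega)) hη4
  have hs4 : Phi k M (RR (n := n) k Δ₂ 0) ≤ Phi k M (fun (D : Finset (Pr n)) x => dg D x ≤ k) :=
    Phi_mono fun D x _ h => h.1
  linarith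

end Pool.Agent.Work.MP_73831e_pr.J
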