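import Pool.Agent.Work.MP_73831e_pr.Basic

/-!
FIXED FILE (do not edit).  Definitions for the full answer of MP_73831e_pr:
for every `k ≥ 3` the probability that `G_τ` has no uniquely `k`-colourable subgraph other than a
triangle does not tend to `0`.  See /team-store/blueprint_73831e_full.md.

Everything is about the finite set `Pr n` of pairs of `[n]`, `N = NN n = n(n-1)/2`, sets `E`, `D` of
pairs (= graphs), orderings `ω : Ordr (Pr n)` and their prefixes `pre ω t`.
-/

open Finset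
open scoped Classical Nat

namespace Pool.Agent.Work.MP_73831e_pr.J

noncomputable section

/-! ### Weights -/

/-- The probability that the process is at a given set of `m` pairs and then takes a given further
pair. -/
def wR (N m : ℕ) : ℝ := (m ! : ℝ) * ((N - m - 1)! : ℝ) / (N ! : ℝ)

/-- The probability of a given set of size `m` for the process stopped at a uniformly random time
in `0, ..., N`. -/
def nuR (N m : ℕ) : ℝ := (m ! : ℝ) * ((N - m)! : ℝ) / ((N + 1)! : ℝ)

section Abstract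

variable {P : Type} [Fintype P]

/-- `w(E) = wt E / N!`. -/
def w (E : Finset P) : ℝ := wR (Fintype.card P) E.card

/-- `ν(E)`. -/
def nu (E : Finset P) : ℝ := nuR (Fintype.card P) E.card

/-- Probability of an event for the process (a uniformly random ordering). -/
def Pb (A : Ordr P → Prop) : ℝ := ((univ.filter A).card : ℝ) / ((Fintype.card P)! : ℝ)

/-- Total weight of the pairs `(E, x)`, `x ∉ E`, with `B E x`: the expected number of `t` with
`B (pre ω t) (ω t)`. -/
def Fx (B : Finset P → P → Prop) : ℝ :=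
  ∑ E : Finset P, ∑ _x ∈ univ.filter (fun x => x ∉ E ∧ B E x), w E

end Abstract

/-! ### Graphs -/

variable {n : ℕ}

/-- The family `F`: `k`-colourable and no uniquely `k`-colourable subgraph on `≥ M` vertices. -/
def FF (k M : ℕ) (E : Finset (Pr n)) : Prop := Alive k (gr E) ∧ ¬ Um k M (gr E)

/-- The pairs containing `x`. -/
def Qx (x : Fin n) : Finset (Pr n) := univ.filter (fun e => x ∈ e.1)

/-- The degree of `y`. -/
def dg (E : Finset (Pr n)) (y : Fin n) : ℕ := (E ∩ Qx y).card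

/-- `x` is fully critical in `D`: `D ∉ F`, but `D` without the edges at `x`, and `D` without any one
edge at `x`, are in `F`. -/
def fc (k M : ℕ) (D : Finset (Pr n)) (x : Fin n) : Prop :=
  ¬ FF k M D ∧ FF k M (D \ Qx x) ∧ ∀ e ∈ D, x ∈ e.1 → FF k M (D.erase e)

/-- The `ν`-weight of the pairs `(D, x)`, `x` fully critical in `D`, with `R D x`. -/
def Phi (k M : ℕ) (R : Finset (Pr n) → Fin n → Prop) : ℝ :=
  ∑ D : Finset (Pr n), ∑ _x ∈ univ.filter (fun x => fc k M D x ∧ R D x), nu D

/-- Number of neighbours of `x` whose degree, not counting `x`, is at least `Δ`. -/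
def hd (Δ : ℕ) (D : Finset (Pr n)) (x : Fin n) : ℕ :=
  (univ.filter (fun y => (gr D).Adj x y ∧ Δ ≤ dg (D \ Qx x) y)).card

/-- `x` has degree at most `s` and at most `h` neighbours of degree `≥ Δ`. -/
def RR (s Δ h : ℕ) (D : Finset (Pr n)) (x : Fin n) : Prop := dg D x ≤ s ∧ hd Δ D x ≤ h

/-- `ν(F)`. -/
def rho (k M n : ℕ) : ℝ := ∑ E ∈ univ.filter (fun E : Finset (Pr n) => FF k M E), nu E

/-! ### Clusters of colourings -/

/-- All colour classes of `g` on `W` have at least `n/κ` elements. -/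
def LC (κ : ℕ) {k : ℕ} (W : Finset (Fin n)) (g : Fin n → Fin k) : Prop :=
  ∀ c : Fin k, n ≤ κ * (W.filter (fun v => g v = c)).card

/-- `f` agrees with `g` on `W` up to a permutation of the colours. -/
def Inn {k : ℕ} (W : Finset (Fin n)) (g f : Fin n → Fin k) : Prop :=
  ∃ π : Equiv.Perm (Fin k), ∀ v ∈ W, f v = π (g v)

/-- Every proper `k`-colouring of `G` lies in one of `r` large clusters. -/
def Cls (k r κ : ℕ) (G : SimpleGraph (Fin n)) : Prop :=
  ∃ (W : Fin r → Finset (Fin n)) (g : Fin r → Fin n → Fin k), (∀ i, LC κ (W i) (g i)) ∧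
    ∀ f, PC k G f → ∃ i, Inn (W i) (g i) f

/-- The tuple `y` is rainbow in every proper `k`-colouring of `G` outside one large cluster. -/
def QR (k κ : ℕ) (G : SimpleGraph (Fin n)) {j : ℕ} (y : Fin j → Fin n) : Prop :=
  ∃ (W : Finset (Fin n)) (g : Fin n → Fin k), LC κ W g ∧
    ∀ f, PC k G f → Function.Injective (fun i => f (y i)) ∨ Inn W g f

/-- Number of quasi-rainbow `j`-tuples. -/
def nQR (k κ j : ℕ) (E : Finset (Pr n)) : ℕ :=
  (univ.filter (fun y : Fin j → Fin n => QR k κ (gr E) y)).card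

/-- A family `K ⊆ F`, increasing inside `F`, containing every `E ∈ F` whose colourings lie in `r`
large clusters. -/
structure KF (k M r κ : ℕ) (K : Finset (Pr n) → Prop) : Prop where
  sub : ∀ E, K E → FF k M E
  up : ∀ E E', K E → E ⊆ E' → FF k M E' → K E'
  cls : ∀ E, FF k M E → Cls k r κ (gr E) → K E

/-- The probability that the process enters `K`. -/
def Pent (K : Finset (Pr n) → Prop) : ℝ := Pb (fun ω : Ordr (Pr n) => ∃ t, K (pre ω t))

/-- Adding the pair `u v` to `E` leads out of `F`. -/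
def Ex (k M : ℕ) (E : Finset (Pr n)) (u v : Fin n) : Prop :=
  ∃ e : Pr n, e.1 = s(u, v) ∧ e ∉ E ∧ ¬ FF k M (insert e E)

/-- Adding the pair `u v` to `E` leads out of `F` or into `K`. -/
def Ax (k M : ℕ) (K : Finset (Pr n) → Prop) (E : Finset (Pr n)) (u v : Fin n) : Prop :=
  ∃ e : Pr n, e.1 = s(u, v) ∧ e ∉ E ∧ (¬ FF k M (insert e E) ∨ K (insert e E))

/-- Number of ordered pairs `(u, v)` with `Ax`. -/
def nA (k M : ℕ) (K : Finset (Pr n) → Prop) (E : Finset (Pr n)) : ℕ :=
  (univ.filter (fun z : Fin n × Fin n => Ax k M K E z.1 z.2)).card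

/-! ### Typical graphs -/

/-- The constants. -/
structure Par where
  C : ℕ
  K₁ : ℕ
  K₃ : ℕ
  K₄ : ℕ

/-- Typical sets of pairs (a decreasing property). -/
def Typ (p : Par) (E : Finset (Pr n)) : Prop :=
  Sparse (n / p.K₁) (gr E) ∧ DegOK (4 * p.K₁) p.K₃ (gr E) ∧ ManyIso p.K₄ (gr E)

/-- The constant of the clusters. -/
def Par.kap (p : Par) (k : ℕ) : ℕ := 4 * p.K₃ + 2 * k

/-- The parameters are good: at time `C n` the process is typical with probability `→ 1` and is not
`(k+1)`-colourable with probability `≥ 1 - 2^(-n)`. -/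
structure POK (k : ℕ) (p : Par) : Prop where
  hC : 1 ≤ p.C
  hK1 : 1 ≤ p.K₁
  hK3 : 4 * p.K₁ ≤ p.K₃
  hK4 : 1 ≤ p.K₄
  typ : ∀ ε : ℝ, 0 < ε → ∃ n₀ : ℕ, ∀ n ≥ n₀,
    Pb (fun ω : Ordr (Pr n) => ¬ Typ p (pre ω (p.C * n))) ≤ ε
  al : ∃ n₀ : ℕ, ∀ n ≥ n₀,
    Pb (fun ω : Ordr (Pr n) => Alive (k + 1) (gr (pre ω (p.C * n)))) ≤ (1 / 2) ^ n

/-- Good sets: typical, not in `K`, at most `C n` and at least `n / (4 K₁)` pairs (up to `1`). -/
def Gd (p : Par) (K : Finset (Pr n) → Prop) (E : Finset (Pr n)) : Prop :=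
  Typ p E ∧ ¬ K E ∧ E.card < p.C * n ∧ n ≤ 4 * p.K₁ * (E.card + 1)

/-- `D` minus any one edge at `x` is good. -/
def gd (p : Par) (K : Finset (Pr n) → Prop) (D : Finset (Pr n)) (x : Fin n) : Prop :=
  ∀ e ∈ D, x ∈ e.1 → Gd p K (D.erase e)

/-! ### Merging two vertices -/

/-- The map sending `y'` to `y`. -/
def sg (y y' : Fin n) (v : Fin n) : Fin n := if v = y' then y else v

/-- The merged set of pairs (used when `y y'` is not in `E`). -/
def mg (E : Finset (Pr n)) (y y' : Fin n) : Finset (Pr n) :=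
  univ.filter (fun e => ∃ e₀ ∈ E, Sym2.map (sg y y') e₀.1 = e.1)

/-- The merged graph. -/
def mgG (H : SimpleGraph (Fin n)) (y y' : Fin n) : SimpleGraph (Fin n) where
  Adj u v := u ≠ v ∧ ∃ u₀ v₀, sg y y' u₀ = u ∧ sg y y' v₀ = v ∧ H.Adj u₀ v₀
  symm := ⟨fun _ _ h => ⟨h.1.symm, h.2.choose_spec.choose, h.2.choose,
    h.2.choose_spec.choose_spec.2.1, h.2.choose_spec.choose_spec.1,
    h.2.choose_spec.choose_spec.2.2.symm⟩⟩
  loopless := ⟨fun _ h => h.1 rfl⟩

/-! ### Gadgets -/

/-- The gadget (a triangle whose three vertices are joined to the vertices `q a i`) cannot be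
coloured if the other vertices are coloured by `f`. -/
def Bl {k m : ℕ} (f : Fin n → Fin k) (q : Fin 3 → Fin m → Fin n) : Prop :=
  ∀ h : Fin 3 → Fin k, Function.Injective h → ∃ a i, h a = f (q a i)

/-- Attachments of the gadgets with index set `ι` which together kill all colourings of `G`. -/
def KSet (ι : Type) [Fintype ι] (k : ℕ) (G : SimpleGraph (Fin n)) :
    Finset (ι × Fin 3 × Fin (k - 2) → Fin n) :=
  univ.filter (fun q => ∀ f, PC k G f → ∃ j, Bl f (fun a i => q (j, a, i)))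

/-- A positive proportion `θ` of the attachments kills all colourings of `G`. -/
def Kill (ι : Type) [Fintype ι] (k : ℕ) (θ : ℝ) (G : SimpleGraph (Fin n)) : Prop :=
  θ * (n : ℝ) ^ (Fintype.card ι * (3 * (k - 2))) ≤ ((KSet ι k G).card : ℝ)

/-- The family `K` that we use. -/
def KK (k M J : ℕ) (θ : ℝ) (E : Finset (Pr n)) : Prop := FF k M E ∧ Kill (Fin J) k θ (gr E)

/-- The pairs of the gadgets: `u (j, a)` are the gadget vertices, `q (j, a, i)` the attachments. -/
def Gam {J k : ℕ} (u : Fin J × Fin 3 → Fin n) (q : Fin J × Fin 3 × Fin (k - 2) → Fin n) :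
    Finset (Pr n) :=
  univ.filter (fun e => ∃ j a, (∃ b, b ≠ a ∧ e.1 = s(u (j, a), u (j, b))) ∨
    (∃ i, e.1 = s(u (j, a), q (j, a, i))))

/-- Valid gadgets for `E`: all vertices used are distinct, the gadget vertices are isolated. -/
def Vld {J k : ℕ} (E : Finset (Pr n)) (u : Fin J × Fin 3 → Fin n)
    (q : Fin J × Fin 3 × Fin (k - 2) → Fin n) : Prop :=
  Function.Injective u ∧ Function.Injective q ∧ (∀ a b, u a ≠ q b) ∧ ∀ a, iso (gr E) (u a)

/-- Number of ordered triangles. -/
def tri (E : Finset (Pr n)) : ℕ :=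
  (univ.filter (fun z : Fin n × Fin n × Fin n =>
    (gr E).Adj z.1 z.2.1 ∧ (gr E).Adj z.2.1 z.2.2 ∧ (gr E).Adj z.1 z.2.2)).card

/-- Regular entrances into `K`. -/
def Rent (k M B : ℕ) (p : Par) (K : Finset (Pr n) → Prop) (E : Finset (Pr n)) (e : Pr n) : Prop :=
  FF k M E ∧ ¬ K E ∧ K (insert e E) ∧ Typ p (insert e E) ∧ E.card < p.C * n ∧ tri E ≤ B

/-- Planted pairs: `E' = E ∪ Gam u q` where `(E, e)` is a regular entrance, the gadgets are valid
for `E + e` and kill all colourings of `E + e`. -/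
def PL (k M B J : ℕ) (p : Par) (K : Finset (Pr n) → Prop) (E' : Finset (Pr n)) (e : Pr n)
    (u : Fin J × Fin 3 → Fin n) (q : Fin J × Fin 3 × Fin (k - 2) → Fin n) : Prop :=
  ∃ E, e ∉ E ∧ Rent k M B p K E e ∧ Vld (insert e E) u q ∧
    q ∈ KSet (Fin J) k (gr (insert e E)) ∧ E' = E ∪ Gam u q

end

end Pool.Agent.Work.MP_73831e_pr.J
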