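import Pool.Agent.Work.MP_73831e_pr.J.Bas
import Pool.Agent.Work.MP_73831e_pr.Nbr

/-!
MODULE Emb (M).  Graphs on `n` vertices as graphs on `n+1` vertices without edges at `x`.

`emb x : Pr n ↪ Pr (n+1)` is induced by `x.succAbove : Fin n → Fin (n+1)` (the vertices other
than `x`).
* `emb_not_mem`: `x` is not in the range of `x.succAbove`.
* `exists_emb`: a set `D` of pairs not containing `x` is the image of its preimage
  (`Finset.preimage` or `univ.filter (fun e => emb x e ∈ D)`; a pair `s(a,b)` with `a, b ≠ x` is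
  `s(x.succAbove a', x.succAbove b')`, `Fin.exists_succAbove_eq`).
* `gr_emb`: `(gr (E.map (emb x))).Adj (x.succAbove a) (x.succAbove b) ↔ (gr E).Adj a b`, and every
  edge of `gr (E.map (emb x))` is of this form.
* `FF_emb`: proper colourings: `f ↦ f ∘ x.succAbove`, and conversely extend by any colour at `x`
  (`k ≥ 1`).  `Um`: (←) map `H`, `W` by `x.succAbove`.  (→) given `H ≤ gr (E.map ..)`, `W` with
  `|W| ≥ M ≥ k`: `x` is isolated in `H`, so `x ∉ W` by `uq_nbr` (`k ≥ 2` colours); pull back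
  `H`, `W` by `x.succAbove` (`SimpleGraph.comap`, `Finset.preimage`).
* `NN_succ`: `two_NN`.
-/

open Finset
open scoped Classical Nat

namespace Pool.Agent.Work.MP_73831e_pr.J

/-- The embedding of the pairs of `[n]` in the pairs of `[n+1]` avoiding `x`. -/
def emb {n : ℕ} (x : Fin (n + 1)) : Pr n ↪ Pr (n + 1) where
  toFun e := ⟨Sym2.map x.succAbove e.1, fun h => e.2 (by
    obtain ⟨⟨a, b⟩, hab⟩ := e
    change (Sym2.map x.succAbove s(a, b)).IsDiag at h
    rw [Sym2.map_mk] at h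
    have h2 := Sym2.mk_isDiag_iff.mp h
    exact Sym2.mk_isDiag_iff.mpr (Fin.succAbove_right_injective h2))⟩
  inj' := by
    intro e e' h
    have h1 := congrArg Subtype.val h
    exact Subtype.ext (Sym2.map.injective Fin.succAbove_right_injective h1)

theorem emb_not_mem {n : ℕ} (x : Fin (n + 1)) (E : Finset (Pr n)) :
    ∀ e ∈ E.map (emb x), x ∉ e.1 := by
  intro e he hx
  obtain ⟨e₀, -, rfl⟩ := mem_map.1 he
  have hx' : x ∈ Sym2.map x.succAbove e₀.1 := hx
  rw [Sym2.mem_map] at hx'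
  obtain ⟨a, -, ha⟩ := hx'
  exact Fin.succAbove_ne x a ha

theorem exists_emb {n : ℕ} (x : Fin (n + 1)) {D : Finset (Pr (n + 1))}
    (h : ∀ e ∈ D, x ∉ e.1) : ∃ E : Finset (Pr n), E.map (emb x) = D := by
  refine ⟨univ.filter (fun e => emb x e ∈ D), ?_⟩
  ext e
  rw [mem_map]
  constructor
  · rintro ⟨a, ha, rfl⟩
    simp only [mem_filter, mem_univ, true_and] at ha
    exact ha
  · intro he
    obtain ⟨⟨a, b⟩, hab⟩ := Quot.exists_rep e.1
    have hab' : e.1 = s(a, b) := hab.symm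
    have hx := h e he
    rw [hab', Sym2.mem_iff] at hx
    push Not at hx
    obtain ⟨a', rfl⟩ := Fin.exists_succAbove_eq hx.1.symm
    obtain ⟨b', rfl⟩ := Fin.exists_succAbove_eq hx.2.symm
    have hne : a' ≠ b' := by
      rintro rfl
      exact e.2 (by rw [hab']; exact Sym2.mk_isDiag_iff.mpr rfl)
    obtain ⟨e₀, he₀⟩ := exists_pr hne
    have hee : emb x e₀ = e := by
      apply Subtype.ext
      change Sym2.map x.succAbove e₀.1 = e.1
      rw [he₀, hab', Sym2.map_mk]
    refine ⟨e₀, ?_, hee⟩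
    simp only [mem_filter, mem_univ, true_and]
    rw [hee]
    exact he

theorem gr_emb {n : ℕ} (x : Fin (n + 1)) (E : Finset (Pr n)) (a b : Fin n) :
    (gr (E.map (emb x))).Adj (x.succAbove a) (x.succAbove b) ↔ (gr E).Adj a b := by
  rw [gr_adj', gr_adj']
  constructor
  · rintro ⟨e, he, h⟩
    obtain ⟨e₀, he₀, rfl⟩ := mem_map.1 he
    refine ⟨e₀, he₀, ?_⟩
    have h1 : Sym2.map x.succAbove e₀.1 = Sym2.map x.succAbove s(a, b) := by
      rw [Sym2.map_mk]
      exact h
    exact Sym2.map.injective Fin.succAbove_right_injective h1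
  · rintro ⟨e, he, h⟩
    refine ⟨emb x e, mem_map_of_mem _ he, ?_⟩
    change Sym2.map x.succAbove e.1 = _
    rw [h, Sym2.map_mk]

private theorem emb_adj {n : ℕ} (x : Fin (n + 1)) (E : Finset (Pr n)) {u v : Fin (n + 1)}
    (h : (gr (E.map (emb x))).Adj u v) :
    ∃ a b, x.succAbove a = u ∧ x.succAbove b = v ∧ (gr E).Adj a b := by
  obtain ⟨e, he, huv⟩ := gr_adj'.1 h
  have h1 := emb_not_mem x E e he
  rw [huv, Sym2.mem_iff] at h1
  push Not at h1
  obtain ⟨a, rfl⟩ := Fin.exists_succAbove_eq h1.1.symm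
  obtain ⟨b, rfl⟩ := Fin.exists_succAbove_eq h1.2.symm
  exact ⟨a, b, rfl, rfl, (gr_emb x E a b).1 h⟩

private theorem ext_col {n k : ℕ} (hk : 2 ≤ k) (x : Fin (n + 1)) (f : Fin n → Fin k) :
    ∃ g : Fin (n + 1) → Fin k, ∀ a, g (x.succAbove a) = f a :=
  ⟨x.insertNth (α := fun _ => Fin k) ⟨0, by omega⟩ f,
    fun a => Fin.insertNth_apply_succAbove (α := fun _ => Fin k) x _ f a⟩

private theorem alive_emb {n k : ℕ} (hk : 2 ≤ k) (x : Fin (n + 1)) (E : Finset (Pr n)) :
    Alive k (gr (E.map (emb x))) ↔ Alive k (gr E) := by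
  constructor
  · rintro ⟨f, hf⟩
    exact ⟨fun a => f (x.succAbove a), fun a b hab => hf _ _ ((gr_emb x E a b).2 hab)⟩
  · rintro ⟨f, hf⟩
    obtain ⟨g, hg⟩ := ext_col hk x f
    refine ⟨g, fun u v huv => ?_⟩
    obtain ⟨a, b, rfl, rfl, hab⟩ := emb_adj x E huv
    rw [hg, hg]
    exact hf a b hab

private theorem um_emb {n k M : ℕ} (hk : 2 ≤ k) (hM : k ≤ M) (x : Fin (n + 1))
    (E : Finset (Pr n)) : Um k M (gr (E.map (emb x))) ↔ Um k M (gr E) := by
  constructor
  · rintro ⟨H, hH, W, hW, hU⟩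
    have hHσ : ∀ u v, H.Adj u v → ∃ a b, x.succAbove a = u ∧ x.succAbove b = v := by
      intro u v huv
      obtain ⟨a, b, ha, hb, -⟩ := emb_adj x E (hH huv)
      exact ⟨a, b, ha, hb⟩
    have hxW : x ∉ W := by
      intro hx
      obtain ⟨f, hf⟩ := hU.2.1
      have hne : ∃ j, j ≠ f x := by
        have : Nontrivial (Fin k) := Fin.nontrivial_iff_two_le.2 hk
        exact exists_ne (f x)
      obtain ⟨j, hj⟩ := hne
      obtain ⟨v, -, hv, -⟩ := uq_nbr hU (hM.trans hW) hf x hx j hj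
      obtain ⟨a, b, ha, -⟩ := hHσ _ _ hv
      exact Fin.succAbove_ne x a ha
    have hWe : W = (univ.filter (fun a => x.succAbove a ∈ W)).map
        ⟨x.succAbove, Fin.succAbove_right_injective⟩ := by
      ext w
      rw [mem_map]
      constructor
      · intro hw
        have hwx : w ≠ x := fun h => hxW (h ▸ hw)
        obtain ⟨a, rfl⟩ := Fin.exists_succAbove_eq hwx
        exact ⟨a, by simpa using hw, rfl⟩
      · rintro ⟨a, ha, rfl⟩
        simpa using ha
    refine ⟨H.comap x.succAbove, ?_, univ.filter (fun a => x.succAbove a ∈ W), ?_, ?_, ?_, ?_⟩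
    · intro a b hab
      exact (gr_emb x E a b).1 (hH hab)
    · rw [hWe, card_map] at hW
      exact hW
    · intro a b hab
      have := hU.1 _ _ hab
      simp only [mem_filter, mem_univ, true_and]
      exact this
    · obtain ⟨f, hf⟩ := hU.2.1
      exact ⟨fun a => f (x.succAbove a), fun a b hab => hf _ _ hab⟩
    · intro f g hf hg
      obtain ⟨f', hf'⟩ := ext_col hk x f
      obtain ⟨g', hg'⟩ := ext_col hk x g
      have h1 : PC k H f' := by
        intro u v huv
        obtain ⟨a, b, rfl, rfl⟩ := hHσ _ _ huv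
        rw [hf', hf']
        exact hf a b huv
      have h2 : PC k H g' := by
        intro u v huv
        obtain ⟨a, b, rfl, rfl⟩ := hHσ _ _ huv
        rw [hg', hg']
        exact hg a b huv
      obtain ⟨π, hπ⟩ := hU.2.2 f' g' h1 h2
      refine ⟨π, fun a ha => ?_⟩
      simp only [mem_filter, mem_univ, true_and] at ha
      have h3 := hπ _ ha
      rwa [hf', hg'] at h3
  · rintro ⟨H, hH, W, hW, hU⟩
    refine ⟨H.map (⟨x.succAbove, Fin.succAbove_right_injective⟩ : Fin n ↪ Fin (n + 1)), ?_,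
      W.map ⟨x.succAbove, Fin.succAbove_right_injective⟩, ?_, ?_, ?_, ?_⟩
    · intro u v huv
      obtain ⟨a, b, hab, rfl, rfl⟩ := (SimpleGraph.map_adj _ _ _ _).1 huv
      exact (gr_emb x E a b).2 (hH hab)
    · rw [card_map]
      exact hW
    · intro u v huv
      obtain ⟨a, b, hab, rfl, rfl⟩ := (SimpleGraph.map_adj _ _ _ _).1 huv
      obtain ⟨h1, h2⟩ := hU.1 _ _ hab
      exact ⟨mem_map_of_mem _ h1, mem_map_of_mem _ h2⟩
    · obtain ⟨f, hf⟩ := hU.2.1
      obtain ⟨g, hg⟩ := ext_col hk x f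
      refine ⟨g, fun u v huv => ?_⟩
      obtain ⟨a, b, hab, rfl, rfl⟩ := (SimpleGraph.map_adj _ _ _ _).1 huv
      change g (x.succAbove a) ≠ g (x.succAbove b)
      rw [hg, hg]
      exact hf a b hab
    · intro f g hf hg
      have h1 : PC k H (fun a => f (x.succAbove a)) := fun a b hab =>
        hf _ _ ((SimpleGraph.map_adj _ _ _ _).2 ⟨a, b, hab, rfl, rfl⟩)
      have h2 : PC k H (fun a => g (x.succAbove a)) := fun a b hab =>
        hg _ _ ((SimpleGraph.map_adj _ _ _ _).2 ⟨a, b, hab, rfl, rfl⟩)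
      obtain ⟨π, hπ⟩ := hU.2.2 _ _ h1 h2
      refine ⟨π, fun w hw => ?_⟩
      obtain ⟨a, ha, rfl⟩ := mem_map.1 hw
      exact hπ a ha

theorem FF_emb {n k M : ℕ} (hk : 2 ≤ k) (hM : k ≤ M) (x : Fin (n + 1)) (E : Finset (Pr n)) :
    FF k M (E.map (emb x)) ↔ FF k M E := by
  unfold FF
  rw [alive_emb hk, um_emb hk hM]

theorem NN_succ (n : ℕ) : NN (n + 1) = NN n + n := by
  have h1 := two_NN (n + 1)
  have h2 := two_NN n
  rcases n with _ | n
  · omega
  · simp only [Nat.add_sub_cancel] at h1 h2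
    nlinarith

end Pool.Agent.Work.MP_73831e_pr.J
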