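import Pool.Agent.Work.MP_73831e_pr.J.Bas

/-!
MODULE GamC (M).  Number of valid killing gadgets.

`q₀ = J * (3*(k-2))`, `u₀ = J * 3`, `u₀ + q₀ = J * (3*(k-1))`.
The non-injective `q : Fin J × Fin 3 × Fin (k-2) → Fin n` number at most `q₀² n^(q₀-1)`
(`≤ (θ/2) n^(q₀)` for large `n`), so at least `(θ/2) n^(q₀)` injective `q` are in `KSet`.  Fix such a
`q`.  The isolated vertices of `gr E'` number at least `n/K₄` (`ManyIso`), so at least
`n/K₄ - q₀` of them are not values of `q`; the injective `u : Fin J × Fin 3 → Fin n` into this set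
`I'` number at least `(|I'| - u₀)^(u₀) ≥ (n/(2K₄))^(u₀)` for large `n` (descending factorial /
`Fintype.card_embedding_eq`, `Nat.pow_sub_le_descFactorial`).
So the total is `≥ (θ/2) (1/(2K₄))^(u₀) n^(u₀ + q₀)`.
-/

open Finset
open scoped Classical Nat

namespace Pool.Agent.Work.MP_73831e_pr.J

/-- Lower bound for the number of injective functions. -/
private theorem card_inj_ge {α β : Type} [Fintype α] [DecidableEq α] [Fintype β] :
    (Fintype.card β - Fintype.card α) ^ Fintype.card α ≤
      ((univ : Finset (α → β)).filter (fun f => Function.Injective f)).card := by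
  have h1 : ((univ : Finset (α → β)).filter (fun f => Function.Injective f)).card =
      Fintype.card (α ↪ β) := by
    rw [← Fintype.card_subtype]
    exact Fintype.card_congr (Equiv.subtypeInjectiveEquivEmbedding α β)
  rw [h1, Fintype.card_embedding_eq]
  refine le_trans (Nat.pow_le_pow_left (by omega) _)
    (Nat.pow_sub_le_descFactorial (Fintype.card β) (Fintype.card α))

private theorem card_noninj_le {α : Type} [Fintype α] [DecidableEq α] (n : ℕ) (θ : ℝ) (hn : 1 ≤ n)
    (h : 2 * (Fintype.card α : ℝ) ^ 2 ≤ θ * n) :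
    (((univ : Finset (α → Fin n)).filter (fun f => ¬ Function.Injective f)).card : ℝ) ≤
      θ / 2 * (n : ℝ) ^ Fintype.card α := by
  set q := Fintype.card α with hq
  have hn0 : (0 : ℝ) < n := by exact_mod_cast hn
  have h0 : (((univ : Finset (α → Fin n)).filter (fun f => Function.Injective f)).card : ℝ) +
      (((univ : Finset (α → Fin n)).filter (fun f => ¬ Function.Injective f)).card : ℝ) =
      (n : ℝ) ^ q := by
    have := Finset.card_filter_add_card_filter_not (s := (univ : Finset (α → Fin n)))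
      (fun f => Function.Injective f)
    rw [card_univ, Fintype.card_fun, Fintype.card_fin, ← hq] at this
    exact_mod_cast this
  have h1 : (((n - q : ℕ) : ℝ)) ^ q ≤
      (((univ : Finset (α → Fin n)).filter (fun f => Function.Injective f)).card : ℝ) := by
    have h1' : (n - q) ^ q ≤
        ((univ : Finset (α → Fin n)).filter (fun f => Function.Injective f)).card := by
      have := card_inj_ge (α := α) (β := Fin n)
      rw [Fintype.card_fin, ← hq] at this
      convert this
    exact_mod_cast h1'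
  by_cases hqn : q ≤ n
  · have h2 : (((n - q : ℕ) : ℝ)) = n * (1 + (-(q / n : ℝ))) := by
      rw [Nat.cast_sub hqn]
      field_simp
      ring
    have h3 : 1 + (q : ℝ) * (-(q / n : ℝ)) ≤ (1 + (-(q / n : ℝ))) ^ q := by
      apply one_add_mul_le_pow
      have : (q : ℝ) / n ≤ 1 := by
        rw [div_le_one hn0]
        exact_mod_cast hqn
      linarith
    have h4 : (n : ℝ) ^ q * (1 + (q : ℝ) * (-(q / n : ℝ))) ≤
        (((univ : Finset (α → Fin n)).filter (fun f => Function.Injective f)).card : ℝ) := by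
      refine le_trans ?_ h1
      rw [h2, mul_pow]
      exact mul_le_mul_of_nonneg_left h3 (by positivity)
    have h5 : (q : ℝ) * (q / n : ℝ) ≤ θ / 2 := by
      rw [← mul_div_assoc, div_le_iff₀ hn0]
      nlinarith
    have h6 : (n : ℝ) ^ q * ((q : ℝ) * (q / n : ℝ)) ≤ (n : ℝ) ^ q * (θ / 2) :=
      mul_le_mul_of_nonneg_left h5 (by positivity)
    nlinarith
  · push Not at hqn
    -- then `q > n`, so `θ / 2 ≥ 1`
    have h7 : (n : ℝ) < q := by exact_mod_cast hqn
    have h8 : (1 : ℝ) ≤ n := by exact_mod_cast hn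
    have h9 : 2 * (n : ℝ) ≤ 2 * (q : ℝ) ^ 2 := by nlinarith
    have h10 : 1 ≤ θ / 2 := by nlinarith
    have h11 : (0 : ℝ) ≤ (n : ℝ) ^ q := by positivity
    have h12 : (0 : ℝ) ≤
      (((univ : Finset (α → Fin n)).filter (fun f => Function.Injective f)).card : ℝ) := by
      positivity
    nlinarith

/-- Number of injective functions into a set. -/
private theorem card_inj_set {α : Type} [Fintype α] [DecidableEq α] {n : ℕ} (S : Finset (Fin n)) :
    (S.card - Fintype.card α) ^ Fintype.card α ≤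
      ((univ : Finset (α → Fin n)).filter (fun f => Function.Injective f ∧ ∀ a, f a ∈ S)).card := by
  have h1 := card_inj_ge (α := α) (β := S)
  rw [Fintype.card_coe] at h1
  refine h1.trans ?_
  apply card_le_card_of_injOn (fun (f : α → S) (a : α) => (f a : Fin n))
  · intro f hf
    simp only [coe_filter, mem_univ, true_and, Set.mem_ofPred_eq] at hf ⊢
    exact ⟨fun a b h => hf (Subtype.ext h), fun a => (f a).2⟩
  · intro f _ g _ h
    funext a
    exact Subtype.ext (congrFun h a)

theorem gam_count {k : ℕ} (hk : 3 ≤ k) (J K₄ : ℕ) (hK₄ : 1 ≤ K₄) (θ : ℝ) (hθ : 0 < θ) :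
    ∃ c : ℝ, 0 < c ∧ ∃ n₀ : ℕ, ∀ n ≥ n₀, ∀ E' : Finset (Pr n), Kill (Fin J) k θ (gr E') →
      ManyIso K₄ (gr E') →
      c * (n : ℝ) ^ (J * (3 * (k - 1))) ≤
        ((univ.filter (fun z : (Fin J × Fin 3 → Fin n) × (Fin J × Fin 3 × Fin (k - 2) → Fin n) =>
          Vld E' z.1 z.2 ∧ z.2 ∈ KSet (Fin J) k (gr E'))).card : ℝ) := by
  set q₀ : ℕ := J * (3 * (k - 2)) with hq₀
  set u₀ : ℕ := J * 3 with hu₀
  have hcQ : Fintype.card (Fin J × Fin 3 × Fin (k - 2)) = q₀ := by
    simp [Fintype.card_prod, hq₀]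
  have hcU : Fintype.card (Fin J × Fin 3) = u₀ := by
    simp [Fintype.card_prod, hu₀]
  have hK0 : (0 : ℝ) < K₄ := by exact_mod_cast hK₄
  refine ⟨θ / 2 * (1 / (2 * (K₄ : ℝ))) ^ u₀, by positivity, ?_⟩
  refine ⟨max 1 (max (2 * K₄ * (q₀ + u₀)) ⌈2 * (q₀ : ℝ) ^ 2 / θ⌉₊), ?_⟩
  intro n hn E' hKill hIso
  have hn1 : 1 ≤ n := le_trans (le_max_left _ _) hn
  have hn2 : 2 * K₄ * (q₀ + u₀) ≤ n :=
    le_trans (le_trans (le_max_left _ _) (le_max_right _ _)) hn
  have hn3 : 2 * (q₀ : ℝ) ^ 2 ≤ θ * n := by
    have h1 : ⌈2 * (q₀ : ℝ) ^ 2 / θ⌉₊ ≤ n :=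
      le_trans (le_trans (le_max_right _ _) (le_max_right _ _)) hn
    have h2 := (Nat.ceil_le.mp h1)
    rw [div_le_iff₀ hθ] at h2
    linarith
  have hn0 : (0 : ℝ) < n := by exact_mod_cast hn1
  -- the injective killing attachments
  set A : Finset (Fin J × Fin 3 × Fin (k - 2) → Fin n) :=
    (KSet (Fin J) k (gr E')).filter (fun q => Function.Injective q) with hA
  have hAc : θ / 2 * (n : ℝ) ^ q₀ ≤ (A.card : ℝ) := by
    have h1 : θ * (n : ℝ) ^ q₀ ≤ ((KSet (Fin J) k (gr E')).card : ℝ) := by
      have := hKill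
      unfold Kill at this
      rw [Fintype.card_fin] at this
      exact this
    have h2 : ((KSet (Fin J) k (gr E')).card : ℝ) ≤ (A.card : ℝ) +
        (((univ : Finset (Fin J × Fin 3 × Fin (k - 2) → Fin n)).filter
          (fun f => ¬ Function.Injective f)).card : ℝ) := by
      have h3 := Finset.card_filter_add_card_filter_not (s := KSet (Fin J) k (gr E'))
        (fun q => Function.Injective q)
      have h4 : ((KSet (Fin J) k (gr E')).filter (fun q => ¬ Function.Injective q)).card ≤
          ((univ : Finset (Fin J × Fin 3 × Fin (k - 2) → Fin n)).filter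
          (fun f => ¬ Function.Injective f)).card :=
        card_le_card (filter_subset_filter _ (subset_univ _))
      have h5 : (KSet (Fin J) k (gr E')).card ≤ A.card +
        ((univ : Finset (Fin J × Fin 3 × Fin (k - 2) → Fin n)).filter
          (fun f => ¬ Function.Injective f)).card := by
        rw [← h3]
        exact Nat.add_le_add_left h4 _
      exact_mod_cast h5
    have h6 := card_noninj_le (α := Fin J × Fin 3 × Fin (k - 2)) n θ hn1 (by rw [hcQ]; exact hn3)
    rw [hcQ] at h6
    nlinarith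
  -- for each of them, the number of `u`
  have hU : ∀ q ∈ A, ((n : ℝ) / (2 * K₄)) ^ u₀ ≤
      (((univ : Finset (Fin J × Fin 3 → Fin n)).filter (fun u => Vld E' u q)).card : ℝ) := by
    intro q hq
    set S : Finset (Fin n) := (univ.filter (fun v => iso (gr E') v)) \ univ.image q with hS
    have hS1 : (univ.filter (fun v => iso (gr E') v)).card ≤ S.card + q₀ := by
      have h1 : (univ.filter (fun v => iso (gr E') v)).card - (univ.image q).card ≤ S.card := by
        rw [hS]
        exact le_card_sdiff _ _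
      have h2 : (univ.image q).card ≤ q₀ := by
        refine card_image_le.trans ?_
        rw [card_univ, hcQ]
      omega
    have hS2 : n ≤ K₄ * (univ.filter (fun v => iso (gr E') v)).card := by
      have h1 := hIso
      unfold ManyIso at h1
      rw [Nat.card_eq_fintype_card, Fintype.card_fin] at h1
      have h2 : Set.ncard {v | iso (gr E') v} = (univ.filter (fun v => iso (gr E') v)).card := by
        rw [← Set.ncard_coe_finset]
        congr 1
        ext v
        simp
      rwa [h2] at h1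
    have hS3 : n ≤ 2 * K₄ * (S.card - u₀) := by
      have h1 : n ≤ K₄ * (S.card + q₀) := hS2.trans (Nat.mul_le_mul_left _ hS1)
      by_contra hcon
      push Not at hcon
      have h2 : 2 * n ≤ 2 * K₄ * (S.card + q₀) := by nlinarith
      have h3 : 2 * n + 0 < 2 * K₄ * (S.card - u₀) + n + n + 0 ∨ True := Or.inr trivial
      by_cases h4 : u₀ ≤ S.card
      · obtain ⟨d, hd⟩ := Nat.exists_eq_add_of_le h4
        rw [hd] at h2 hcon
        rw [Nat.add_sub_cancel_left] at hcon
        have h5 : 2 * K₄ * (u₀ + d + q₀) = 2 * K₄ * d + 2 * K₄ * (q₀ + u₀) := by ring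
        omega
      · push Not at h4
        have h5 : 2 * K₄ * (S.card + q₀) < 2 * K₄ * (q₀ + u₀) := by
          apply Nat.mul_lt_mul_of_pos_left _ (by omega)
          omega
        omega
    have hS4 : (n : ℝ) / (2 * K₄) ≤ ((S.card - u₀ : ℕ) : ℝ) := by
      rw [div_le_iff₀ (by positivity)]
      have : (n : ℝ) ≤ ((2 * K₄ * (S.card - u₀) : ℕ) : ℝ) := by exact_mod_cast hS3
      push_cast at this
      linarith
    have h7 := card_inj_set (α := Fin J × Fin 3) S
    rw [hcU] at h7
    have h8 : ((univ : Finset (Fin J × Fin 3 → Fin n)).filter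
        (fun f => Function.Injective f ∧ ∀ a, f a ∈ S)).card ≤
        ((univ : Finset (Fin J × Fin 3 → Fin n)).filter (fun u => Vld E' u q)).card := by
      apply card_le_card
      intro u hu
      simp only [mem_filter, mem_univ, true_and] at hu ⊢
      have hq' : Function.Injective q := by
        rw [hA, mem_filter] at hq
        exact hq.2
      refine ⟨hu.1, hq', ?_, ?_⟩
      · intro a b hab
        have h9 := hu.2 a
        rw [hS, mem_sdiff] at h9
        exact h9.2 (mem_image.mpr ⟨b, mem_univ _, hab.symm⟩)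
      · intro a
        have h9 := hu.2 a
        rw [hS, mem_sdiff, mem_filter] at h9
        exact h9.1.2
    calc ((n : ℝ) / (2 * K₄)) ^ u₀ ≤ (((S.card - u₀ : ℕ) : ℝ)) ^ u₀ :=
          pow_le_pow_left₀ (by positivity) hS4 _
      _ ≤ _ := by exact_mod_cast h7.trans h8
  -- summation
  have hsum : ∑ q ∈ A, ((univ : Finset (Fin J × Fin 3 → Fin n)).filter
      (fun u => Vld E' u q)).card ≤
      (univ.filter (fun z : (Fin J × Fin 3 → Fin n) × (Fin J × Fin 3 × Fin (k - 2) → Fin n) =>
          Vld E' z.1 z.2 ∧ z.2 ∈ KSet (Fin J) k (gr E'))).card := by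
    rw [← card_sigma]
    apply card_le_card_of_injOn (fun z : (_ : Fin J × Fin 3 × Fin (k - 2) → Fin n) ×
      (Fin J × Fin 3 → Fin n) => (z.2, z.1))
    · intro z hz
      have hz1 := (mem_sigma.mp (mem_coe.mp hz))
      have hz2 := (mem_filter.mp hz1.2).2
      have hz3 := (mem_filter.mp hz1.1).1
      exact mem_coe.mpr (mem_filter.mpr ⟨mem_univ _, hz2, hz3⟩)
    · rintro ⟨a, b⟩ _ ⟨c, d⟩ _ h
      simp only [Prod.mk.injEq] at h
      obtain ⟨rfl, rfl⟩ := h
      rfl
  have hexp : J * (3 * (k - 1)) = u₀ + q₀ := by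
    rw [hq₀, hu₀]
    obtain ⟨d, rfl⟩ : ∃ d, k = d + 3 := ⟨k - 3, by omega⟩
    have e1 : d + 3 - 1 = d + 2 := by omega
    have e2 : d + 3 - 2 = d + 1 := by omega
    rw [e1, e2]
    ring
  rw [hexp]
  calc θ / 2 * (1 / (2 * (K₄ : ℝ))) ^ u₀ * (n : ℝ) ^ (u₀ + q₀)
      = (θ / 2 * (n : ℝ) ^ q₀) * ((n : ℝ) / (2 * K₄)) ^ u₀ := by
        rw [pow_add, div_pow, div_pow, one_pow]
        ring
    _ ≤ (A.card : ℝ) * ((n : ℝ) / (2 * K₄)) ^ u₀ :=
        mul_le_mul_of_nonneg_right hAc (by positivity)
    _ = ∑ _q ∈ A, ((n : ℝ) / (2 * K₄)) ^ u₀ := by rw [sum_const, nsmul_eq_mul]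
    _ ≤ ∑ q ∈ A, (((univ : Finset (Fin J × Fin 3 → Fin n)).filter
      (fun u => Vld E' u q)).card : ℝ) := sum_le_sum hU
    _ = ((∑ q ∈ A, ((univ : Finset (Fin J × Fin 3 → Fin n)).filter
      (fun u => Vld E' u q)).card : ℕ) : ℝ) := by push_cast; rfl
    _ ≤ _ := by exact_mod_cast hsum

end Pool.Agent.Work.MP_73831e_pr.J
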