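import Pool.Agent.Work.MP_73831e_pr.J.Bas

/-!
MODULE GamB (M).  The pairs of the gadgets.

`m = k - 2`.  With `h : Vld E u q` (all `u (j,a)`, `q (j,a,i)` distinct, the `u (j,a)` isolated in
`gr E`) the pairs of `Gam u q` are the `3` pairs `u(j,a) u(j,b)` for each `j` and the pairs
`u(j,a) q(j,a,i)`, all distinct.
* `Gam_nbr`: the neighbours of `u (j,a)` in `gr (E ∪ Gam u q)`.
* `Gam_dg`: so its degree is `2 + (k-2) = k` (`dg_eq`; the map from
  `{b : b ≠ a} ⊕ Fin (k-2)` to the neighbours is a bijection).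
* `Gam_card`: `J * (3 + 3(k-2)) = J * (3*(k-1))`: e.g. count ordered incidences or biject
  `Fin J × (Fin 3 ⊕ Fin 3 × Fin (k-2))` with `Gam`, where `c : Fin 3` stands for the pair
  `u(j,c) u(j,c+1)` (`c + 1` cyclic; `b ≠ a` iff `b = a+1` or `a = b+1` in `Fin 3`).
* `Gam_disj`: a pair of `Gam` contains some `u (j,a)`, a pair of `E` does not.
* `Gam_recover`: `E` = the pairs of `E ∪ Gam` containing no `u (j,a)`.
* `Gam_touch`: every pair of `Gam u q` contains some `u (j,a)`.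
* `Vld.anti`: `iso.anti`.
-/

open Finset
open scoped Classical Nat

namespace Pool.Agent.Work.MP_73831e_pr.J

variable {n J k : ℕ}

theorem Vld.anti {E E' : Finset (Pr n)} (hE : E ⊆ E') {u : Fin J × Fin 3 → Fin n}
    {q : Fin J × Fin 3 × Fin (k - 2) → Fin n} (h : Vld E' u q) : Vld E u q := by
  exact ⟨h.1, h.2.1, h.2.2.1, fun a => (h.2.2.2 a).anti (gr_mono hE)⟩

private theorem mem_Gam {u : Fin J × Fin 3 → Fin n} {q : Fin J × Fin 3 × Fin (k - 2) → Fin n}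
    {e : Pr n} : e ∈ Gam u q ↔ ∃ j a, (∃ b, b ≠ a ∧ e.1 = s(u (j, a), u (j, b))) ∨
      (∃ i, e.1 = s(u (j, a), q (j, a, i))) := by
  rw [Gam, mem_filter]
  exact ⟨fun h => h.2, fun h => ⟨mem_univ _, h⟩⟩

theorem Gam_touch {u : Fin J × Fin 3 → Fin n} {q : Fin J × Fin 3 × Fin (k - 2) → Fin n}
    {e : Pr n} (he : e ∈ Gam u q) : ∃ a, u a ∈ e.1 := by
  obtain ⟨j, a, (⟨b, -, h⟩ | ⟨i, h⟩)⟩ := mem_Gam.1 he
  · exact ⟨(j, a), by rw [h]; exact Sym2.mem_mk_left _ _⟩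
  · exact ⟨(j, a), by rw [h]; exact Sym2.mem_mk_left _ _⟩

theorem Gam_nbr {E : Finset (Pr n)} {u : Fin J × Fin 3 → Fin n}
    {q : Fin J × Fin 3 × Fin (k - 2) → Fin n} (h : Vld E u q) (j : Fin J) (a : Fin 3)
    (v : Fin n) : (gr (E ∪ Gam u q)).Adj (u (j, a)) v ↔
      (∃ b, b ≠ a ∧ v = u (j, b)) ∨ ∃ i, v = q (j, a, i) := by
  obtain ⟨hu, hq, huq, hiso⟩ := h
  rw [gr_adj_union]
  constructor
  · rintro (h1 | h1)
    · exact absurd h1 (hiso _ _)
    · obtain ⟨x, hx, he⟩ := gr_adj'.1 h1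
      obtain ⟨j', a', (⟨b, hb, h2⟩ | ⟨i, h2⟩)⟩ := mem_Gam.1 hx
      · rw [he] at h2
        rcases Sym2.eq_iff.1 h2 with ⟨h3, h4⟩ | ⟨h3, h4⟩
        · obtain ⟨rfl, rfl⟩ := Prod.mk.inj (hu h3)
          exact Or.inl ⟨b, hb, h4⟩
        · obtain ⟨rfl, rfl⟩ := Prod.mk.inj (hu h3)
          exact Or.inl ⟨a', hb.symm, h4⟩
      · rw [he] at h2
        rcases Sym2.eq_iff.1 h2 with ⟨h3, h4⟩ | ⟨h3, h4⟩
        · obtain ⟨rfl, rfl⟩ := Prod.mk.inj (hu h3)
          exact Or.inr ⟨i, h4⟩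
        · exact absurd h3 (huq _ _)
  · rintro (⟨b, hb, rfl⟩ | ⟨i, rfl⟩)
    · right
      have hne : u (j, a) ≠ u (j, b) := fun h3 => hb (Prod.mk.inj (hu h3)).2.symm
      obtain ⟨e, he⟩ := exists_pr hne
      exact gr_adj'.2 ⟨e, mem_Gam.2 ⟨j, a, Or.inl ⟨b, hb, he⟩⟩, he⟩
    · right
      obtain ⟨e, he⟩ := exists_pr (huq (j, a) (j, a, i))
      exact gr_adj'.2 ⟨e, mem_Gam.2 ⟨j, a, Or.inr ⟨i, he⟩⟩, he⟩

theorem Gam_dg (hk : 2 ≤ k) {E : Finset (Pr n)} {u : Fin J × Fin 3 → Fin n}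
    {q : Fin J × Fin 3 × Fin (k - 2) → Fin n} (h : Vld E u q) (a : Fin J × Fin 3) :
    dg (E ∪ Gam u q) (u a) = k := by
  obtain ⟨j, a⟩ := a
  rw [dg_eq]
  have h1 : (univ.filter fun v => (gr (E ∪ Gam u q)).Adj (u (j, a)) v) =
      ((univ.erase a).image fun b => u (j, b)) ∪
        ((univ : Finset (Fin (k - 2))).image fun i => q (j, a, i)) := by
    ext v
    rw [mem_filter, mem_union, mem_image, mem_image, Gam_nbr h]
    constructor
    · rintro ⟨-, (⟨b, hb, rfl⟩ | ⟨i, rfl⟩)⟩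
      · exact Or.inl ⟨b, mem_erase.2 ⟨hb, mem_univ _⟩, rfl⟩
      · exact Or.inr ⟨i, mem_univ _, rfl⟩
    · rintro (⟨b, hb, rfl⟩ | ⟨i, -, rfl⟩)
      · exact ⟨mem_univ _, Or.inl ⟨b, (mem_erase.1 hb).1, rfl⟩⟩
      · exact ⟨mem_univ _, Or.inr ⟨i, rfl⟩⟩
  obtain ⟨hu, hq, huq, hiso⟩ := h
  rw [h1, card_union_of_disjoint, card_image_of_injective, card_image_of_injective,
    card_erase_of_mem (mem_univ _), card_univ, card_univ, Fintype.card_fin, Fintype.card_fin]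
  · omega
  · intro i i' hii
    have h2 := hq hii
    simpa using h2
  · intro b b' hbb
    have h2 := hu hbb
    simpa using h2
  · rw [disjoint_left]
    intro v hv hv'
    obtain ⟨b, -, rfl⟩ := mem_image.1 hv
    obtain ⟨i, -, h3⟩ := mem_image.1 hv'
    exact huq _ _ h3.symm

private theorem fin3 : ∀ a b : Fin 3, b ≠ a → b = a + 1 ∨ a = b + 1 := by decide

private theorem fin3' : ∀ a : Fin 3, a + 1 ≠ a := by decide

private theorem fin3'' : ∀ a b : Fin 3, a = b + 1 → a + 1 = b → False := by decide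

theorem Gam_card (hk : 2 ≤ k) {E : Finset (Pr n)} {u : Fin J × Fin 3 → Fin n}
    {q : Fin J × Fin 3 × Fin (k - 2) → Fin n} (h : Vld E u q) :
    (Gam u q).card = J * (3 * (k - 1)) := by
  obtain ⟨hu, hq, huq, hiso⟩ := h
  have hne : ∀ j (c : Fin 3), u (j, c) ≠ u (j, c + 1) := fun j c h3 =>
    fin3' c (Prod.mk.inj (hu h3)).2.symm
  have key : (Gam u q).card = Fintype.card (Fin J × (Fin 3 ⊕ Fin 3 × Fin (k - 2))) := by
    rw [← card_univ]
    symm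
    let Φ : Fin J × (Fin 3 ⊕ Fin 3 × Fin (k - 2)) → Pr n := fun x =>
      match x with
      | (j, Sum.inl c) => ⟨s(u (j, c), u (j, c + 1)), fun hd => hne j c (Sym2.mk_isDiag_iff.1 hd)⟩
      | (j, Sum.inr (a, i)) => ⟨s(u (j, a), q (j, a, i)),
          fun hd => huq _ _ (Sym2.mk_isDiag_iff.1 hd)⟩
    refine card_bij (fun x _ => Φ x) ?_ ?_ ?_
    · rintro ⟨j, (c | ⟨a, i⟩)⟩ -
      · exact mem_Gam.2 ⟨j, c, Or.inl ⟨c + 1, fin3' c, rfl⟩⟩
      · exact mem_Gam.2 ⟨j, a, Or.inr ⟨i, rfl⟩⟩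
    · rintro ⟨j, (c | ⟨a, i⟩)⟩ - ⟨j', (c' | ⟨a', i'⟩)⟩ - hΦ
      · have h2 : s(u (j, c), u (j, c + 1)) = s(u (j', c'), u (j', c' + 1)) :=
          congrArg Subtype.val hΦ
        rcases Sym2.eq_iff.1 h2 with ⟨h3, h4⟩ | ⟨h3, h4⟩
        · obtain ⟨rfl, rfl⟩ := Prod.mk.inj (hu h3)
          rfl
        · exact (fin3'' _ _ (Prod.mk.inj (hu h3)).2 (Prod.mk.inj (hu h4)).2).elim
      · have h2 : s(u (j, c), u (j, c + 1)) = s(u (j', a'), q (j', a', i')) :=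
          congrArg Subtype.val hΦ
        rcases Sym2.eq_iff.1 h2 with ⟨h3, h4⟩ | ⟨h3, h4⟩
        · exact absurd h4 (huq _ _)
        · exact absurd h3 (huq _ _)
      · have h2 : s(u (j, a), q (j, a, i)) = s(u (j', c'), u (j', c' + 1)) :=
          congrArg Subtype.val hΦ
        rcases Sym2.eq_iff.1 h2 with ⟨h3, h4⟩ | ⟨h3, h4⟩
        · exact absurd h4.symm (huq _ _)
        · exact absurd h4.symm (huq _ _)
      · have h2 : s(u (j, a), q (j, a, i)) = s(u (j', a'), q (j', a', i')) :=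
          congrArg Subtype.val hΦ
        rcases Sym2.eq_iff.1 h2 with ⟨h3, h4⟩ | ⟨h3, h4⟩
        · obtain ⟨rfl, h5⟩ := Prod.mk.inj (hq h4)
          rw [h5]
        · exact absurd h3 (huq _ _)
    · intro e he
      obtain ⟨j, a, (⟨b, hb, h2⟩ | ⟨i, h2⟩)⟩ := mem_Gam.1 he
      · rcases fin3 a b hb with h3 | h3
        · refine ⟨(j, Sum.inl a), mem_univ _, Subtype.ext ?_⟩
          rw [h2, h3]
        · refine ⟨(j, Sum.inl b), mem_univ _, Subtype.ext ?_⟩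
          rw [h2, h3]
          exact Sym2.eq_swap
      · exact ⟨(j, Sum.inr (a, i)), mem_univ _, Subtype.ext h2.symm⟩
  rw [key, Fintype.card_prod, Fintype.card_sum, Fintype.card_prod, Fintype.card_fin,
    Fintype.card_fin, Fintype.card_fin]
  congr 1
  omega

private theorem no_touch {E : Finset (Pr n)} {u : Fin J × Fin 3 → Fin n}
    {q : Fin J × Fin 3 × Fin (k - 2) → Fin n} (h : Vld E u q) {e : Pr n} (he : e ∈ E)
    (a : Fin J × Fin 3) : u a ∉ e.1 := by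
  intro hm
  obtain ⟨v, hv⟩ := Sym2.mem_iff_exists.mp hm
  exact h.2.2.2 a v ((mem_iff_adj hv).mp he)

theorem Gam_disj {E : Finset (Pr n)} {u : Fin J × Fin 3 → Fin n}
    {q : Fin J × Fin 3 × Fin (k - 2) → Fin n} (h : Vld E u q) : Disjoint E (Gam u q) := by
  rw [disjoint_left]
  intro e he he'
  obtain ⟨a, ha⟩ := Gam_touch he'
  exact no_touch h he a ha

theorem Gam_recover {E : Finset (Pr n)} {u : Fin J × Fin 3 → Fin n}
    {q : Fin J × Fin 3 × Fin (k - 2) → Fin n} (h : Vld E u q) :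
    (E ∪ Gam u q).filter (fun e => ∀ a, u a ∉ e.1) = E := by
  ext e
  rw [mem_filter, mem_union]
  constructor
  · rintro ⟨h1 | h1, h2⟩
    · exact h1
    · obtain ⟨a, ha⟩ := Gam_touch h1
      exact absurd ha (h2 a)
  · intro he
    exact ⟨Or.inl he, no_touch h he⟩

end Pool.Agent.Work.MP_73831e_pr.J
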