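import Pool.Agent.Work.MP_73831e_pr.J.Bas
import Pool.Agent.Work.MP_73831e_pr.Nbr

/-!
MODULE UCs (M).  A large uniquely colourable subgraph contains no gadget vertex.

`R = {v 0, v 1, v 2}`.  Suppose some `v a ∈ W`; fix a proper colouring `f` of `H`.
(1) Every colour `c` occurs on `W \ R`.  Otherwise by `uq_nbr` every `w ∈ W \ R` (`f w ≠ c`) has an
    `H`-neighbour in `W` of colour `c`, which must be some `v b`; by `hN` (`w ∉ R`) `w = q b i`.
    So `W \ R ⊆ {q b i}`, `|W| ≤ 3 + 3(k-2) = 3k - 3`, contradiction.
(2) Hence if `g` is proper for `H` and `g = f` off `R` then `g = f` on `W`: `g = π ∘ f` on `W` and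
    `π` fixes every colour.
(3) For each `b` at least two colours are allowed: let `F_b` be the set of colours of the
    `H`-neighbours of `v b` outside `R`; they are among the `q b i`, so `|F_b| ≤ k-2`, and `f (v b) ∉
    F_b`; so there is `c_b ∉ F_b`, `c_b ≠ f (v b)`.  More: for every colour `d` there is a colour
    outside `F_b ∪ {d}`.
(4) Case A: two of the three vertices, say `v b`, `v d`, are not `H`-adjacent; let `v e` be the
    third one.  Put `g (v e) = c_e` and choose `g (v b)`, `g (v d)` outside `F_b ∪ {c_e}`,
    `F_d ∪ {c_e}`; `g = f` elsewhere: proper for `H`.  So if `v e ∈ W` we have a contradiction with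
    (2).  If `v e ∉ W` then `v e` has no `H`-neighbour (edges of `H` lie in `W`), and `a ∈ {b, d}`; say
    `a = b`: `v b` has no `H`-neighbour in `R`, and recolouring `v b` with `c_b` is proper,
    contradiction to (2) as `v b ∈ W`.
    Case B: `v 0, v 1, v 2` are pairwise `H`-adjacent (so all in `W`, with three distinct colours).
    If for some `b` the colour `c_b` is not one of the colours of the two other `v`'s, recolour
    `v b` with `c_b`: contradiction.  Otherwise `c_b = f (v (τ b))` with `τ b ≠ b` for all `b`.  The
    map `τ : Fin 3 → Fin 3` has no fixed point, so it has a cycle `Z` of length `2` or `3`; put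
    `g (v b) = f (v (τ b))` for `b ∈ Z` and `g = f` elsewhere: the colours of `v 0, v 1, v 2` are
    permuted, and `g (v b) ∉ F_b`, so `g` is proper, `g (v b) ≠ f (v b)` for `b ∈ Z`,
    contradiction.  (Finite check over `τ`: `decide`/`fin_cases`.)
-/

open Finset
open scoped Classical Nat

namespace Pool.Agent.Work.MP_73831e_pr.J

private theorem uc_third : ∀ b d : Fin 3, b ≠ d → ∃ e : Fin 3, e ≠ b ∧ e ≠ d ∧
    ∀ x : Fin 3, x = b ∨ x = d ∨ x = e := by
  decide

private theorem uc_tau : ∀ τ : Fin 3 → Fin 3, (∀ b, τ b ≠ b) →
    (∃ b d : Fin 3, b ≠ d ∧ τ b = d ∧ τ d = b) ∨ (∀ b d : Fin 3, τ b = τ d → b = d) := by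
  decide

private theorem uc_used {V : Type} {k : ℕ} (hk : 3 ≤ k) {G H : SimpleGraph V}
    (hH : H ≤ G) {W : Finset V} (hU : UQ k H W) (hW : 3 * k ≤ W.card) (v : Fin 3 → V)
    (q : Fin 3 → Fin (k - 2) → V)
    (hN : ∀ a w, G.Adj (v a) w → (∃ b, w = v b) ∨ ∃ i, w = q a i) {f : V → Fin k}
    (hf : PC k H f) (c : Fin k) : ∃ w ∈ W, (∀ b, w ≠ v b) ∧ f w = c := by
  by_contra hcon
  push Not at hcon
  have hsub : W ⊆ (univ : Finset (Fin 3)).image v ∪
      (univ : Finset (Fin 3 × Fin (k - 2))).image (fun p => q p.1 p.2) := by
    intro w hw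
    rw [mem_union]
    by_cases hR : ∃ b, w = v b
    · left
      obtain ⟨b, rfl⟩ := hR
      exact mem_image_of_mem _ (mem_univ _)
    · right
      push Not at hR
      have h1 : c ≠ f w := (hcon w hw hR).symm
      obtain ⟨u, hu, hadj, hfu⟩ := uq_nbr hU (by omega) hf w hw c h1
      have h2 : ∃ b, u = v b := by
        by_contra hno
        push Not at hno
        exact hcon u hu hno hfu
      obtain ⟨b, rfl⟩ := h2
      rcases hN b w (hH hadj.symm) with ⟨b', hb'⟩ | ⟨i, hi⟩
      · exact absurd hb' (hR b')
      · rw [hi]
        exact mem_image.2 ⟨(b, i), mem_univ _, rfl⟩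
  have h1 := card_le_card hsub
  have h2 := (card_union_le ((univ : Finset (Fin 3)).image v)
    ((univ : Finset (Fin 3 × Fin (k - 2))).image (fun p => q p.1 p.2)))
  have h3 : ((univ : Finset (Fin 3)).image v).card ≤ 3 := by
    refine card_image_le.trans ?_
    rw [card_univ, Fintype.card_fin]
  have h4 : ((univ : Finset (Fin 3 × Fin (k - 2))).image (fun p => q p.1 p.2)).card ≤
      3 * (k - 2) := by
    refine card_image_le.trans ?_
    rw [card_univ, Fintype.card_prod, Fintype.card_fin, Fintype.card_fin]
  omega

private theorem uc_core {V : Type} {k : ℕ} (hk : 3 ≤ k) {G H : SimpleGraph V}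
    (hH : H ≤ G) {W : Finset V} (hU : UQ k H W) (hW : 3 * k ≤ W.card) (v : Fin 3 → V)
    (q : Fin 3 → Fin (k - 2) → V) (hv : Function.Injective v)
    (hN : ∀ a w, G.Adj (v a) w → (∃ b, w = v b) ∨ ∃ i, w = q a i) {f : V → Fin k}
    (hf : PC k H f) (h : Fin 3 → Fin k)
    (h1 : ∀ b w, H.Adj (v b) w → (∀ b', w ≠ v b') → h b ≠ f w)
    (h2 : ∀ b b', H.Adj (v b) (v b') → h b ≠ h b') : ∀ b, v b ∈ W → h b = f (v b) := by
  have hg : PC k H (Function.extend v h f) := by
    intro x y hxy
    by_cases hx : ∃ b, v b = x
    · obtain ⟨b, rfl⟩ := hx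
      rw [hv.extend_apply]
      by_cases hy : ∃ b', v b' = y
      · obtain ⟨b', rfl⟩ := hy
        rw [hv.extend_apply]
        exact h2 b b' hxy
      · rw [Function.extend_apply' _ _ _ hy]
        push Not at hy
        exact h1 b y hxy (fun b' => (hy b').symm)
    · rw [Function.extend_apply' _ _ _ hx]
      by_cases hy : ∃ b', v b' = y
      · obtain ⟨b', rfl⟩ := hy
        rw [hv.extend_apply]
        push Not at hx
        exact (h1 b' x hxy.symm (fun b => (hx b).symm)).symm
      · rw [Function.extend_apply' _ _ _ hy]
        exact hf x y hxy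
  obtain ⟨π, hπ⟩ := hU.2.2 f _ hf hg
  have hfix : ∀ c, π c = c := by
    intro c
    obtain ⟨w, hw, hwv, hwc⟩ := uc_used hk hH hU hW v q hN hf c
    have h3 := hπ w hw
    rw [Function.extend_apply' _ _ _ (by
      rintro ⟨b, hb⟩
      exact hwv b hb.symm), hwc] at h3
    exact h3.symm
  intro b hb
  have h3 := hπ (v b) hb
  rw [hv.extend_apply, hfix] at h3
  exact h3

private theorem uc_avail {V : Type} {k : ℕ} (hk : 3 ≤ k) {G H : SimpleGraph V}
    (hH : H ≤ G) (v : Fin 3 → V) (q : Fin 3 → Fin (k - 2) → V)
    (hN : ∀ a w, G.Adj (v a) w → (∃ b, w = v b) ∨ ∃ i, w = q a i) (f : V → Fin k)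
    (b : Fin 3) (d : Fin k) :
    ∃ c : Fin k, c ≠ d ∧ ∀ w, H.Adj (v b) w → (∀ b', w ≠ v b') → c ≠ f w := by
  by_contra hcon
  push Not at hcon
  have hsub : (univ : Finset (Fin k)) ⊆
      insert d ((univ : Finset (Fin (k - 2))).image (fun i => f (q b i))) := by
    intro c _
    rw [mem_insert]
    by_cases hc : c = d
    · exact Or.inl hc
    · right
      obtain ⟨w, hadj, hw, hcw⟩ := hcon c hc
      rcases hN b w (hH hadj) with ⟨b', hb'⟩ | ⟨i, hi⟩
      · exact absurd hb' (hw b')
      · rw [hcw, hi]
        exact mem_image.2 ⟨i, mem_univ _, rfl⟩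
  have h1 := card_le_card hsub
  have h2 := card_insert_le d ((univ : Finset (Fin (k - 2))).image (fun i => f (q b i)))
  have h3 : ((univ : Finset (Fin (k - 2))).image (fun i => f (q b i))).card ≤ k - 2 := by
    refine card_image_le.trans ?_
    rw [card_univ, Fintype.card_fin]
  rw [card_univ, Fintype.card_fin] at h1
  omega

theorem uc_safe {V : Type} [Finite V] {k : ℕ} (hk : 3 ≤ k) {G H : SimpleGraph V} (hH : H ≤ G)
    {W : Finset V} (hU : UQ k H W) (hW : 3 * k ≤ W.card) (v : Fin 3 → V)
    (q : Fin 3 → Fin (k - 2) → V) (hv : Function.Injective v)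
    (hN : ∀ a w, G.Adj (v a) w → (∃ b, w = v b) ∨ ∃ i, w = q a i) : ∀ a, v a ∉ W := by
  intro a ha
  obtain ⟨f, hf⟩ := hU.2.1
  have core := uc_core hk hH hU hW v q hv hN hf
  have avail := uc_avail hk hH v q hN f
  have flist : ∀ b w, H.Adj (v b) w → (∀ b', w ≠ v b') → f (v b) ≠ f w :=
    fun b w h _ => hf _ _ h
  -- recolouring a single vertex
  have single : ∀ (b : Fin 3) (c : Fin k), v b ∈ W → c ≠ f (v b) →
      (∀ w, H.Adj (v b) w → (∀ b', w ≠ v b') → c ≠ f w) →
      (∀ b', b' ≠ b → H.Adj (v b) (v b') → c ≠ f (v b')) → False := by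
    intro b c hb hc h1 h2
    have h3 := core (Function.update (fun x => f (v x)) b c) (by
      intro x w hxw hw
      by_cases hx : x = b
      · subst hx
        rw [Function.update_self]
        exact h1 w hxw hw
      · rw [Function.update_of_ne hx]
        exact flist x w hxw hw) (by
      intro x y hxy
      by_cases hx : x = b
      · subst hx
        have hy : y ≠ x := by
          rintro rfl
          exact hxy.ne rfl
        rw [Function.update_self, Function.update_of_ne hy]
        exact h2 y hy hxy
      · by_cases hy : y = b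
        · subst hy
          rw [Function.update_self, Function.update_of_ne hx]
          exact (h2 x hx hxy.symm).symm
        · rw [Function.update_of_ne hx, Function.update_of_ne hy]
          exact hf _ _ hxy) b hb
    rw [Function.update_self] at h3
    exact hc h3
  by_cases hall : ∀ b b', b ≠ b' → H.Adj (v b) (v b')
  · -- case B
    have hWall : ∀ b, v b ∈ W := by
      intro b
      obtain ⟨b', hb'⟩ : ∃ b' : Fin 3, b ≠ b' := by
        revert b
        decide
      exact (hU.1 _ _ (hall b b' hb')).1
    choose c hc1 hc2 using fun b => avail b (f (v b))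
    by_cases hs : ∃ b, ∀ b', b' ≠ b → c b ≠ f (v b')
    · obtain ⟨b, hb⟩ := hs
      exact single b (c b) (hWall b) (hc1 b) (hc2 b) (fun b' hb' _ => hb b' hb')
    · push Not at hs
      choose τ hτ1 hτ2 using hs
      rcases uc_tau τ hτ1 with ⟨b, d, hbd, h1, h2⟩ | hinj
      · -- two-cycle
        obtain ⟨e, heb, hed, hcov⟩ := uc_third b d hbd
        have hcb : c b = f (v d) := by rw [hτ2 b, h1]
        have hcd : c d = f (v b) := by rw [hτ2 d, h2]
        have h3 := core (fun x => if x = e then f (v e) else c x) (by
          intro x w hxw hw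
          by_cases hx : x = e
          · subst hx
            simp only [if_true]
            exact flist x w hxw hw
          · simp only [if_neg hx]
            exact hc2 x w hxw hw) (by
          intro x y hxy
          have hxyne : x ≠ y := by
            rintro rfl
            exact hxy.ne rfl
          have e1 := hf _ _ (hall b d hbd)
          have e2 := hf _ _ (hall e b heb)
          have e3 := hf _ _ (hall e d hed)
          rcases hcov x with rfl | rfl | rfl <;> rcases hcov y with rfl | rfl | rfl
          · exact absurd rfl hxyne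
          · simp only [if_neg heb.symm, if_neg hed.symm, hcb, hcd]
            exact e1.symm
          · simp only [if_neg heb.symm, if_true, hcb]
            exact e3.symm
          · simp only [if_neg heb.symm, if_neg hed.symm, hcb, hcd]
            exact e1
          · exact absurd rfl hxyne
          · simp only [if_neg hed.symm, if_true, hcd]
            exact e2.symm
          · simp only [if_neg heb.symm, if_true, hcb]
            exact e3
          · simp only [if_neg hed.symm, if_true, hcd]
            exact e2
          · exact absurd rfl hxyne) b (hWall b)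
        simp only [if_neg heb.symm] at h3
        exact hc1 b h3
      · -- three-cycle
        have h3 := core c hc2 (by
          intro x y hxy
          have hxyne : x ≠ y := by
            rintro rfl
            exact hxy.ne rfl
          rw [hτ2 x, hτ2 y]
          exact hf _ _ (hall _ _ (fun h => hxyne (hinj x y h)))) a ha
        exact hc1 a h3
  · -- case A
    push Not at hall
    obtain ⟨b, d, hbd, hnadj⟩ := hall
    obtain ⟨e, heb, hed, hcov⟩ := uc_third b d hbd
    by_cases heW : v e ∈ W
    · obtain ⟨ce, hce1, hce2⟩ := avail e (f (v e))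
      obtain ⟨gb, hgb1, hgb2⟩ := avail b ce
      obtain ⟨gd, hgd1, hgd2⟩ := avail d ce
      have h3 := core (fun x => if x = e then ce else if x = b then gb else gd) (by
        intro x w hxw hw
        rcases hcov x with rfl | rfl | rfl
        · simp only [if_neg heb.symm, if_true]
          exact hgb2 w hxw hw
        · simp only [if_neg hed.symm, if_neg hbd.symm]
          exact hgd2 w hxw hw
        · simp only [if_true]
          exact hce2 w hxw hw) (by
        intro x y hxy
        have hxyne : x ≠ y := by
          rintro rfl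
          exact hxy.ne rfl
        rcases hcov x with rfl | rfl | rfl <;> rcases hcov y with rfl | rfl | rfl
        · exact absurd rfl hxyne
        · exact absurd hxy hnadj
        · simp only [if_neg heb.symm, if_true]
          exact hgb1
        · exact absurd hxy.symm hnadj
        · exact absurd rfl hxyne
        · simp only [if_neg hed.symm, if_neg hbd.symm, if_true]
          exact hgd1
        · simp only [if_neg heb.symm, if_true]
          exact hgb1.symm
        · simp only [if_neg hed.symm, if_neg hbd.symm, if_true]
          exact hgd1.symm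
        · exact absurd rfl hxyne) e heW
      simp only [if_true] at h3
      exact hce1 h3
    · have hiso : ∀ w, ¬ H.Adj (v e) w := fun w h => heW (hU.1 _ _ h).1
      have key : ∀ x y : Fin 3, x ≠ y → ¬ H.Adj (v x) (v y) → (∀ z, z = x ∨ z = y ∨ z = e) →
          v x ∈ W → False := by
        intro x y hxy hnadj' hcov' hx
        obtain ⟨c, hc1, hc2⟩ := avail x (f (v x))
        refine single x c hx hc1 hc2 ?_
        intro z hz hadj
        rcases hcov' z with rfl | rfl | rfl
        · exact absurd rfl hz
        · exact absurd hadj hnadj'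
        · exact absurd hadj.symm (hiso _)
      rcases hcov a with rfl | rfl | rfl
      · exact key a d hbd hnadj hcov ha
      · exact key a b hbd.symm (fun h => hnadj h.symm) (fun z => by
          rcases hcov z with h | h | h
          · exact Or.inr (Or.inl h)
          · exact Or.inl h
          · exact Or.inr (Or.inr h)) ha
      · exact heW ha

end Pool.Agent.Work.MP_73831e_pr.J
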