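import Pool.Agent.Work.MP_73831e_pr.J.Bas
import Pool.Agent.Work.MP_73831e_pr.J.GamB
import Pool.Agent.Work.MP_73831e_pr.J.UCs

/-!
MODULE GamD (S-M).  Planting killing gadgets gives a dead graph without large uniquely colourable
subgraph.

Dead: let `f` be a proper colouring of `gr (E' ∪ Gam u q)`; it is proper for `gr E'`, so there is
`j` with `Bl f (q (j,·,·))`.  `h a = f (u (j,a))` is injective (the `u (j,a)` are pairwise adjacent,
`Gam_nbr`), so `f (u (j,a)) = f (q (j,a,i))` for some `a, i`, but these vertices are adjacent.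
No `Um`: let `H ≤ gr (E' ∪ Gam u q)`, `UQ k H W`, `|W| ≥ M ≥ 3k`.  By `uc_safe` (with
`v a = u (j,a)`, `Gam_nbr`) no `u (j,a)` is in `W`.  So `H ≤ gr E'`: an edge of `H` lies in `W`, so
it contains no `u (j,a)`, so it is not in `Gam` (`Gam_touch`).  Hence `Um k M (gr E')`,
contradiction to `FF k M E'`.
-/

open Finset
open scoped Classical Nat

namespace Pool.Agent.Work.MP_73831e_pr.J

theorem gam_dead {n k M J : ℕ} (hk : 3 ≤ k) (hM : 3 * k ≤ M) {E' : Finset (Pr n)}
    {u : Fin J × Fin 3 → Fin n} {q : Fin J × Fin 3 × Fin (k - 2) → Fin n} (hV : Vld E' u q)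
    (hq : q ∈ KSet (Fin J) k (gr E')) (hF : FF k M E') :
    ¬ Alive k (gr (E' ∪ Gam u q)) ∧ ¬ Um k M (gr (E' ∪ Gam u q)) := by
  constructor
  · rintro ⟨f, hf⟩
    have hf' : PC k (gr E') f := hf.anti (gr_mono Finset.subset_union_left)
    have hq' : ∀ f, PC k (gr E') f → ∃ j, Bl f (fun a i => q (j, a, i)) := by
      simp only [KSet, Finset.mem_filter, Finset.mem_univ, true_and] at hq
      exact hq
    obtain ⟨j, hj⟩ := hq' f hf'
    obtain ⟨a, i, hai⟩ := hj (fun a => f (u (j, a))) (by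
      intro a b hab
      by_contra hne
      refine hf (u (j, a)) (u (j, b)) ?_ hab
      rw [Gam_nbr hV]
      exact Or.inl ⟨b, fun h => hne h.symm, rfl⟩)
    refine hf (u (j, a)) (q (j, a, i)) ?_ hai
    rw [Gam_nbr hV]
    exact Or.inr ⟨i, rfl⟩
  · rintro ⟨H, hH, W, hW, hUQ⟩
    have hsafe : ∀ a, u a ∉ W := by
      rintro ⟨j, a⟩
      exact uc_safe hk hH hUQ (hM.trans hW) (fun a => u (j, a)) (fun a i => q (j, a, i))
        (fun a b hab => by
          have h1 := hV.1 hab
          exact (Prod.mk.inj h1).2)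
        (fun a w haw => by
          rw [Gam_nbr hV] at haw
          rcases haw with ⟨b, _, hb⟩ | ⟨i, hi⟩
          · exact Or.inl ⟨b, hb⟩
          · exact Or.inr ⟨i, hi⟩) a
    apply hF.2
    refine ⟨H, fun x y hxy => ?_, W, hW, hUQ⟩
    rcases gr_adj_union.1 (hH hxy) with h1 | h1
    · exact h1
    · exfalso
      obtain ⟨e, he, hexy⟩ := gr_adj'.1 h1
      obtain ⟨a, ha⟩ := Gam_touch he
      rw [hexy, Sym2.mem_iff] at ha
      obtain ⟨hx, hy⟩ := hUQ.1 x y hxy
      rcases ha with ha | ha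
      · exact hsafe a (ha ▸ hx)
      · exact hsafe a (ha ▸ hy)

end Pool.Agent.Work.MP_73831e_pr.J
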