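import Pool.Agent.Work.MP_73831e_pr.J.Bas
import Pool.Agent.Work.MP_73831e_pr.Transfer
import Pool.Agent.Work.MP_73831e_pr.Sup

/-!
MODULE Tri (M).  Triangles at time `C n`: first moment.

`tri_mono`: clear.  `tri_bound`: `B * #{ω : B < tri (pre ω (Cn))} ≤ ∑_ω tri (pre ω (C n)) =
∑_{(u,v,w)} #{ω : uv, vw, uw ∈ pre ω (C n)}`.  The triple has to consist of distinct vertices and
then `S = {uv, vw, uw}` has three pairs; by `transfer` and `sup_count` (`N = NN n`, `M = C n ≤ N`)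
`#{ω : S ⊆ pre ω M} ≤ N! (M/N)^3`, and `M/N = 2C/(n-1) ≤ 3C/n` for `n ≥ 3`.  Sum over at most `n^3`
triples: `≤ 27 C³ N!`.  So `Pb(B < tri) ≤ 27 C³ / B ≤ ε` for `B ≥ 27 C³/ε`, `B ≥ 1`.
-/

open Finset
open scoped Classical Nat

namespace Pool.Agent.Work.MP_73831e_pr.J

variable {n : ℕ}

theorem tri_mono {E E' : Finset (Pr n)} (h : E ⊆ E') : tri E ≤ tri E' := by
  unfold tri
  refine card_le_card fun z hz => ?_
  simp only [mem_filter, mem_univ, true_and] at hz ⊢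
  exact ⟨gr_mono h hz.1, gr_mono h hz.2.1, gr_mono h hz.2.2⟩

private theorem tri_one {n M : ℕ} (hM : M ≤ Fintype.card (Pr n)) (z : Fin n × Fin n × Fin n) :
    (univ.filter (fun ω : Ordr (Pr n) => (gr (pre ω M)).Adj z.1 z.2.1 ∧
      (gr (pre ω M)).Adj z.2.1 z.2.2 ∧ (gr (pre ω M)).Adj z.1 z.2.2)).card *
        (Fintype.card (Pr n)) ^ 3 ≤ M ^ 3 * (Fintype.card (Pr n))! := by
  by_cases h : z.1 ≠ z.2.1 ∧ z.2.1 ≠ z.2.2 ∧ z.1 ≠ z.2.2
  · obtain ⟨h1, h2, h3⟩ := h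
    obtain ⟨e1, he1⟩ := exists_pr h1
    obtain ⟨e2, he2⟩ := exists_pr h2
    obtain ⟨e3, he3⟩ := exists_pr h3
    have h12 : e1 ≠ e2 := by
      intro hh
      have : s(z.1, z.2.1) = s(z.2.1, z.2.2) := by rw [← he1, ← he2, hh]
      rcases Sym2.eq_iff.mp this with ⟨a, b⟩ | ⟨a, b⟩
      · exact h1 a
      · exact h3 a
    have h13 : e1 ≠ e3 := by
      intro hh
      have : s(z.1, z.2.1) = s(z.1, z.2.2) := by rw [← he1, ← he3, hh]
      rcases Sym2.eq_iff.mp this with ⟨a, b⟩ | ⟨a, b⟩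
      · exact h2 b
      · exact h3 a
    have h23 : e2 ≠ e3 := by
      intro hh
      have : s(z.2.1, z.2.2) = s(z.1, z.2.2) := by rw [← he2, ← he3, hh]
      rcases Sym2.eq_iff.mp this with ⟨a, b⟩ | ⟨a, b⟩
      · exact h1 a.symm
      · exact h2 a
    obtain ⟨S, hS⟩ : ∃ S : Finset (Pr n), S = {e1, e2, e3} := ⟨_, rfl⟩
    have hc : S.card = 3 := by
      rw [hS]
      exact card_eq_three.mpr ⟨e1, e2, e3, h12, h13, h23, rfl⟩
    have hsub : univ.filter (fun ω : Ordr (Pr n) => (gr (pre ω M)).Adj z.1 z.2.1 ∧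
        (gr (pre ω M)).Adj z.2.1 z.2.2 ∧ (gr (pre ω M)).Adj z.1 z.2.2) ⊆
        univ.filter (fun ω : Ordr (Pr n) => S ⊆ pre ω M) := by
      intro ω hω
      simp only [mem_filter, mem_univ, true_and] at hω ⊢
      intro e he
      rw [hS, mem_insert, mem_insert, mem_singleton] at he
      rcases he with rfl | rfl | rfl
      · exact (mem_iff_adj he1).mpr hω.1
      · exact (mem_iff_adj he2).mpr hω.2.1
      · exact (mem_iff_adj he3).mpr hω.2.2
    have ht := transfer (fun E : Finset (Pr n) => S ⊆ E) M hM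
    rw [Nat.card_eq_fintype_card, Fintype.card_subtype] at ht
    have hs := sup_count M hM S
    rw [hc] at hs
    obtain ⟨a, ha⟩ : ∃ a, a = (univ.filter (fun ω : Ordr (Pr n) => S ⊆ pre ω M)).card := ⟨_, rfl⟩
    have hle := card_le_card hsub
    obtain ⟨c, hs, ht⟩ : ∃ c, c * (Fintype.card (Pr n)) ^ 3 ≤
        M ^ 3 * (Fintype.card (Pr n)).choose M ∧
        (univ.filter (fun ω : Ordr (Pr n) => S ⊆ pre ω M)).card * (Fintype.card (Pr n)).choose M =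
        c * (Fintype.card (Pr n))! := by
      refine ⟨_, ?_, ht⟩
      convert hs
    rw [← ha] at hle ht
    obtain ⟨b, hb⟩ : ∃ b, b = (univ.filter (fun ω : Ordr (Pr n) => (gr (pre ω M)).Adj z.1 z.2.1 ∧
        (gr (pre ω M)).Adj z.2.1 z.2.2 ∧ (gr (pre ω M)).Adj z.1 z.2.2)).card := ⟨_, rfl⟩
    rw [← hb] at hle ⊢
    clear hsub ha hb
    obtain ⟨N, hN⟩ : ∃ N, N = Fintype.card (Pr n) := ⟨_, rfl⟩
    rw [← hN] at ht hs hM
    rw [← hN]
    have hpos : 0 < N.choose M := Nat.choose_pos hM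
    refine (Nat.mul_le_mul_right _ hle).trans ?_
    refine Nat.le_of_mul_le_mul_left ?_ hpos
    calc N.choose M * (a * N ^ 3) = (a * N.choose M) * N ^ 3 := by ring
      _ = (c * N ^ 3) * N ! := by rw [ht]; ring
      _ ≤ (M ^ 3 * N.choose M) * N ! := Nat.mul_le_mul_right _ hs
      _ = N.choose M * (M ^ 3 * N !) := by ring
  · have : univ.filter (fun ω : Ordr (Pr n) => (gr (pre ω M)).Adj z.1 z.2.1 ∧
        (gr (pre ω M)).Adj z.2.1 z.2.2 ∧ (gr (pre ω M)).Adj z.1 z.2.2) = ∅ := by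
      apply filter_eq_empty_iff.mpr
      rintro ω _ ⟨h1, h2, h3⟩
      exact h ⟨h1.ne, h2.ne, h3.ne⟩
    rw [this]
    simp

private theorem tri_markov {P : Type} [Fintype P] (A : Ordr P → Prop) (f : Ordr P → ℕ) (B : ℕ)
    (h : ∀ ω, A ω → B ≤ f ω) :
    Pb A * B ≤ ((∑ ω, f ω : ℕ) : ℝ) / ((Fintype.card P)! : ℝ) := by
  unfold Pb
  rw [div_mul_eq_mul_div]
  apply div_le_div_of_nonneg_right _ (by positivity)
  have : (univ.filter A).card * B ≤ ∑ ω, f ω := by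
    calc (univ.filter A).card * B = ∑ ω ∈ univ.filter A, B := by rw [sum_const, smul_eq_mul]
      _ ≤ ∑ ω ∈ univ.filter A, f ω := by
          refine sum_le_sum fun ω hω => ?_
          rw [mem_filter] at hω
          exact h ω hω.2
      _ ≤ _ := sum_le_sum_of_subset (subset_univ _)
  exact_mod_cast this

private theorem tri_sum {n M : ℕ} (hM : M ≤ Fintype.card (Pr n)) :
    (∑ ω : Ordr (Pr n), tri (pre ω M)) * (Fintype.card (Pr n)) ^ 3 ≤
      n ^ 3 * (M ^ 3 * (Fintype.card (Pr n))!) := by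
  have h2 : ∑ ω : Ordr (Pr n), tri (pre ω M) =
      ∑ z : Fin n × Fin n × Fin n,
        (univ.filter (fun ω : Ordr (Pr n) => (gr (pre ω M)).Adj z.1 z.2.1 ∧
      (gr (pre ω M)).Adj z.2.1 z.2.2 ∧ (gr (pre ω M)).Adj z.1 z.2.2)).card := by
    unfold tri
    simp only [card_filter]
    rw [sum_comm]
  rw [h2, sum_mul]
  calc _ ≤ ∑ _z : Fin n × Fin n × Fin n, M ^ 3 * (Fintype.card (Pr n))! :=
        sum_le_sum fun z _ => tri_one hM z
    _ = _ := by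
        rw [sum_const, card_univ, Fintype.card_prod, Fintype.card_prod, Fintype.card_fin,
          smul_eq_mul]
        ring

theorem tri_bound (C : ℕ) : ∀ ε : ℝ, 0 < ε → ∃ B n₀ : ℕ, ∀ n ≥ n₀,
    Pb (fun ω : Ordr (Pr n) => B < tri (pre ω (C * n))) ≤ ε := by
  intro ε hε
  obtain ⟨B, hB⟩ := exists_nat_gt (27 * (C : ℝ) ^ 3 / ε)
  refine ⟨B, 2 * C + 3, fun n hn => ?_⟩
  have hBpos : (0 : ℝ) < B := lt_of_le_of_lt (by positivity) hB
  have h2N := two_NN n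
  unfold NN at h2N
  have hM : C * n ≤ Fintype.card (Pr n) := by
    obtain ⟨m, rfl⟩ : ∃ m, n = m + 1 := ⟨n - 1, by omega⟩
    rw [Nat.add_sub_cancel] at h2N
    have : (2 * C) * (m + 1) ≤ m * (m + 1) := Nat.mul_le_mul_right _ (by omega)
    nlinarith
  have hN3 : n ^ 2 ≤ 3 * Fintype.card (Pr n) := by
    obtain ⟨m, rfl⟩ : ∃ m, n = m + 1 := ⟨n - 1, by omega⟩
    rw [Nat.add_sub_cancel] at h2N
    nlinarith
  have hNpos : 0 < Fintype.card (Pr n) := by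
    have : 0 < n ^ 2 := Nat.pow_pos (by omega)
    omega
  obtain ⟨s, hmk, h3⟩ : ∃ s : ℕ, Pb (fun ω : Ordr (Pr n) => B < tri (pre ω (C * n))) * B ≤
      (s : ℝ) / ((Fintype.card (Pr n))! : ℝ) ∧
      s * (Fintype.card (Pr n)) ^ 3 ≤ n ^ 3 * ((C * n) ^ 3 * (Fintype.card (Pr n))!) := by
    refine ⟨_, tri_markov (fun ω : Ordr (Pr n) => B < tri (pre ω (C * n)))
      (fun ω => tri (pre ω (C * n))) B (fun ω h => h.le), ?_⟩
    have he : ∀ (i1 i2 : Fintype (Ordr (Pr n))) (g : Ordr (Pr n) → ℕ),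
        (@Finset.sum _ _ _ (@Finset.univ _ i1) g) = (@Finset.sum _ _ _ (@Finset.univ _ i2) g) := by
      intro i1 i2 g
      rw [Subsingleton.elim i1 i2]
    rw [he _ _ (fun ω => tri (pre ω (C * n)))]
    exact tri_sum hM
  obtain ⟨N, hNd⟩ : ∃ N, N = Fintype.card (Pr n) := ⟨_, rfl⟩
  rw [← hNd] at h3 hN3 hNpos
  have hf : (0 : ℝ) < (((Fintype.card (Pr n))!) : ℝ) := by exact_mod_cast Nat.factorial_pos _
  rw [le_div_iff₀ hf] at hmk
  obtain ⟨F, hF⟩ : ∃ F, F = (Fintype.card (Pr n))! := ⟨_, rfl⟩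
  have hF2 : F = N ! := by rw [hF, hNd]
  rw [← hF] at hmk hf
  rw [← hF2] at h3
  have h4 : s * N ^ 3 ≤ 27 * C ^ 3 * F * N ^ 3 := by
    calc s * N ^ 3 ≤ n ^ 3 * ((C * n) ^ 3 * F) := h3
      _ = (n ^ 2) ^ 3 * (C ^ 3 * F) := by ring
      _ ≤ (3 * N) ^ 3 * (C ^ 3 * F) := Nat.mul_le_mul_right _ (Nat.pow_le_pow_left hN3 3)
      _ = _ := by ring
  have h5 : s ≤ 27 * C ^ 3 * F := Nat.le_of_mul_le_mul_right h4 (by positivity)
  have h6 : (s : ℝ) ≤ 27 * (C : ℝ) ^ 3 * (F : ℝ) := by exact_mod_cast h5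
  obtain ⟨q, hq⟩ : ∃ q, q = Pb (fun ω : Ordr (Pr n) => B < tri (pre ω (C * n))) := ⟨_, rfl⟩
  rw [← hq] at hmk ⊢
  rw [div_lt_iff₀ hε] at hB
  have h7 : q * B ≤ 27 * (C : ℝ) ^ 3 := le_of_mul_le_mul_right (hmk.trans h6) hf
  have h8 : q * B ≤ ε * B := by nlinarith
  exact le_of_mul_le_mul_right h8 hBpos

end Pool.Agent.Work.MP_73831e_pr.J
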