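import Pool.Agent.Work.MP_73831e_pr.J.Bas
import Pool.Agent.Work.MP_73831e_pr.J.GamB
import Pool.Agent.Work.MP_73831e_pr.J.Tri

/-!
MODULE GamM (M-L).  For one ordering `ω` the number of planted `(t, u, q)` is bounded.

Let `Z` be the set of the triples.  Suppose `(t,u,q) ∈ Z`, with `E`, `e = ω t`.  Then `Vld E u q`
(`Vld.anti`), `pre ω t = E ∪ Gam u q`, so by `Gam_nbr`, `Gam_dg` every `u (j,a)` has degree exactly
`k` in `pre ω t`.
(1) Given `u`, `t` is determined: let `(t,u,q), (t',u,q') ∈ Z`, `t < t'`, with `E`, `E'`.  For every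
    gadget vertex `v = u (j,a)`, its neighbours in `pre ω t ⊆ pre ω t'` and in `pre ω t'` both
    number `k`, so they agree; so the pairs containing gadget vertices are the same in both, and `E`,
    `E'` are the pairs of `pre ω t`, `pre ω t'` containing no gadget vertex (`Gam_recover`).
    `e = ω t ∈ pre ω t'`, and `e` contains no gadget vertex (`Vld (insert e E) u q`), so
    `insert e E ⊆ E'`.  `K (insert e E)` and `FF E'` give `K E'` (hypothesis `hK`), contradiction
    to `Rent` for `E'`.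
(2) Given `u` and `t`, `{q (j,a,i) : i} = ` (neighbours of `u (j,a)`) minus `{u (j,b)}`, a fixed set of
    size `k - 2`; so there are at most `(k-2)^((k-2) * 3J)` choices of `q` (each value is in a
    fixed set of size `≤ k-2`).
(3) Number of `u`: let `t₁` be the largest `t` in `Z`, with `E₁, u₁, q₁`.  For every
    `(t,u,q) ∈ Z` and `j`, `(u (j,0), u (j,1), u (j,2))` is an ordered triangle of `pre ω t ⊆
    pre ω t₁ = E₁ ∪ Gam u₁ q₁`.  The triangles of `pre ω t₁` not inside `E₁` contain a pair of `Gam`,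
    so a vertex `u₁ (j,a)` of degree `k`, and are determined by which of the three vertices it is,
    by `(j,a)` and by the two other vertices (neighbours): at most `3 * 3J * k²`.  So the number of
    `u` is `≤ (B + 9 J k²)^J`.
`B' = (B + 9 J k²)^J * (k-2)^((k-2) * (3 * J))` (or anything larger, e.g. with `k` for `k-2`).
-/

open Finset
open scoped Classical Nat

namespace Pool.Agent.Work.MP_73831e_pr.J

private theorem not_mem_of_vld {n J k : ℕ} {E : Finset (Pr n)} {e : Pr n}
    {u : Fin J × Fin 3 → Fin n} {q : Fin J × Fin 3 × Fin (k - 2) → Fin n}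
    (h : Vld (insert e E) u q) (a : Fin J × Fin 3) : u a ∉ e.1 := by
  intro hmem
  obtain ⟨v, hv⟩ := Sym2.mem_iff_exists.mp hmem
  exact h.2.2.2 a v ((mem_iff_adj hv).mp (mem_insert_self e E))

private theorem time_unique {n k M J B : ℕ} {p : Par} {K : Finset (Pr n) → Prop}
    (hK : ∀ E E', K E → E ⊆ E' → FF k M E' → K E') (ω : Ordr (Pr n))
    {t t' : Fin (Fintype.card (Pr n))} {u : Fin J × Fin 3 → Fin n}
    {q q' : Fin J × Fin 3 × Fin (k - 2) → Fin n}
    (h : PL k M B J p K (pre ω t) (ω t) u q) (h' : PL k M B J p K (pre ω t') (ω t') u q') :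
    ¬ (t : ℕ) < t' := by
  intro hlt
  obtain ⟨E, he, hR, hV, -, hE⟩ := h
  obtain ⟨E', he', hR', hV', -, hE'⟩ := h'
  have h1 := Gam_recover (Vld.anti (subset_insert _ _) hV)
  have h2 := Gam_recover (Vld.anti (subset_insert _ _) hV')
  rw [← hE] at h1
  rw [← hE'] at h2
  have h3 : insert (ω t) E ⊆ E' := by
    intro x hx
    rw [← h2, mem_filter]
    rcases mem_insert.mp hx with rfl | hx
    · refine ⟨?_, fun a => not_mem_of_vld hV a⟩
      rw [mem_pre]
      simpa using hlt
    · rw [← h1, mem_filter] at hx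
      exact ⟨pre_mono ω hlt.le hx.1, hx.2⟩
  exact hR'.2.1 (hK _ _ hR.2.2.1 h3 hR'.1)

private theorem nbr_card {n k J : ℕ} (hk : 2 ≤ k) {E : Finset (Pr n)}
    {u : Fin J × Fin 3 → Fin n} {q : Fin J × Fin 3 × Fin (k - 2) → Fin n}
    (h : Vld E u q) (a : Fin J × Fin 3) :
    (univ.filter (fun v => (gr (E ∪ Gam u q)).Adj (u a) v)).card = k := by
  rw [← dg_eq]
  exact Gam_dg hk h a

private theorem tri_le {n k J : ℕ} (hk : 2 ≤ k) {E : Finset (Pr n)}
    {u : Fin J × Fin 3 → Fin n} {q : Fin J × Fin 3 × Fin (k - 2) → Fin n}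
    (h : Vld E u q) : tri (E ∪ Gam u q) ≤ tri E + (J * 3) * (3 * (k * k)) := by
  unfold tri
  set N : Fin J × Fin 3 → Finset (Fin n) :=
    fun a => univ.filter (fun v => (gr (E ∪ Gam u q)).Adj (u a) v) with hN
  have hNc : ∀ a, (N a).card = k := fun a => nbr_card hk h a
  set S : Fin J × Fin 3 → Finset (Fin n × Fin n × Fin n) := fun a =>
    ((N a ×ˢ N a).image (fun y => (u a, y.1, y.2)) ∪
      (N a ×ˢ N a).image (fun y => (y.1, u a, y.2))) ∪
      (N a ×ˢ N a).image (fun y => (y.1, y.2, u a)) with hS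
  have hSc : ∀ a, (S a).card ≤ 3 * (k * k) := by
    intro a
    have h0 : (N a ×ˢ N a).card = k * k := by rw [card_product, hNc]
    calc (S a).card ≤ (((N a ×ˢ N a).image (fun y => (u a, y.1, y.2)) ∪
          (N a ×ˢ N a).image (fun y => (y.1, u a, y.2)))).card +
          ((N a ×ˢ N a).image (fun y => (y.1, y.2, u a))).card := card_union_le _ _
      _ ≤ (((N a ×ˢ N a).image (fun y => (u a, y.1, y.2))).card +
          ((N a ×ˢ N a).image (fun y => (y.1, u a, y.2))).card) +
          ((N a ×ˢ N a).image (fun y => (y.1, y.2, u a))).card :=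
            Nat.add_le_add_right (card_union_le _ _) _
      _ ≤ (k * k + k * k) + k * k := by
          refine Nat.add_le_add (Nat.add_le_add ?_ ?_) ?_ <;>
          exact card_image_le.trans h0.le
      _ = 3 * (k * k) := by ring
  have hsub : (univ.filter (fun z : Fin n × Fin n × Fin n =>
      (gr (E ∪ Gam u q)).Adj z.1 z.2.1 ∧ (gr (E ∪ Gam u q)).Adj z.2.1 z.2.2 ∧
        (gr (E ∪ Gam u q)).Adj z.1 z.2.2)) ⊆
      (univ.filter (fun z : Fin n × Fin n × Fin n =>
        (gr E).Adj z.1 z.2.1 ∧ (gr E).Adj z.2.1 z.2.2 ∧ (gr E).Adj z.1 z.2.2)) ∪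
        univ.biUnion S := by
    rintro ⟨x, y, z⟩ hz
    simp only [mem_filter, mem_univ, true_and] at hz
    obtain ⟨h1, h2, h3⟩ := hz
    rw [mem_union]
    by_cases hE : (gr E).Adj x y ∧ (gr E).Adj y z ∧ (gr E).Adj x z
    · left
      simpa using hE
    · right
      have key : ∀ v w : Fin n, (gr (Gam u q)).Adj v w → ∃ a, u a = v ∨ u a = w := by
        intro v w hvw
        rw [gr_adj'] at hvw
        obtain ⟨e, he, hs⟩ := hvw
        obtain ⟨a, ha⟩ := Gam_touch he
        rw [hs, Sym2.mem_iff] at ha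
        exact ⟨a, ha⟩
      have h4 : ∃ a, u a = x ∨ u a = y ∨ u a = z := by
        rw [gr_adj_union] at h1 h2 h3
        rcases h1 with h1 | h1
        · rcases h2 with h2 | h2
          · rcases h3 with h3 | h3
            · exact absurd ⟨h1, h2, h3⟩ hE
            · obtain ⟨a, ha⟩ := key _ _ h3
              exact ⟨a, by tauto⟩
          · obtain ⟨a, ha⟩ := key _ _ h2
            exact ⟨a, by tauto⟩
        · obtain ⟨a, ha⟩ := key _ _ h1
          exact ⟨a, by tauto⟩
      obtain ⟨a, ha⟩ := h4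
      rw [mem_biUnion]
      refine ⟨a, mem_univ _, ?_⟩
      simp only [hS, hN, mem_union, mem_image, mem_product, mem_filter, mem_univ, true_and]
      rcases ha with ha | ha | ha
      · left; left
        exact ⟨(y, z), ⟨by rw [ha]; exact h1, by rw [ha]; exact h3⟩, by rw [ha]⟩
      · left; right
        exact ⟨(x, z), ⟨by rw [ha]; exact h1.symm, by rw [ha]; exact h2⟩, by rw [ha]⟩
      · right
        exact ⟨(x, y), ⟨by rw [ha]; exact h3.symm, by rw [ha]; exact h2.symm⟩, by rw [ha]⟩
  refine (card_le_card hsub).trans ((card_union_le _ _).trans (Nat.add_le_add_left ?_ _))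
  refine card_biUnion_le.trans ((sum_le_sum fun a _ => hSc a).trans ?_)
  rw [sum_const, card_univ, Fintype.card_prod, Fintype.card_fin, Fintype.card_fin, smul_eq_mul]

theorem gam_mult {k : ℕ} (hk : 3 ≤ k) (M J B : ℕ) (p : Par) : ∃ B' : ℕ, ∀ n : ℕ,
    ∀ K : Finset (Pr n) → Prop, (∀ E E', K E → E ⊆ E' → FF k M E' → K E') →
      ∀ ω : Ordr (Pr n), (univ.filter (fun z : Fin (Fintype.card (Pr n)) ×
        (Fin J × Fin 3 → Fin n) × (Fin J × Fin 3 × Fin (k - 2) → Fin n) =>
          PL k M B J p K (pre ω z.1) (ω z.1) z.2.1 z.2.2)).card ≤ B' := by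
  refine ⟨k ^ (Fintype.card (Fin J × Fin 3 × Fin (k - 2))) *
    (B + (J * 3) * (3 * (k * k))) ^ J, ?_⟩
  intro n K hK ω
  have h2k : 2 ≤ k := by omega
  generalize hZ : univ.filter (fun z : Fin (Fintype.card (Pr n)) ×
        (Fin J × Fin 3 → Fin n) × (Fin J × Fin 3 × Fin (k - 2) → Fin n) =>
          PL k M B J p K (pre ω z.1) (ω z.1) z.2.1 z.2.2) = Z
  have hmem : ∀ z, z ∈ Z ↔ PL k M B J p K (pre ω z.1) (ω z.1) z.2.1 z.2.2 := by
    intro z
    rw [← hZ, mem_filter]
    simp
  rcases Z.eq_empty_or_nonempty with h0 | hne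
  · rw [h0, card_empty]
    exact Nat.zero_le _
  obtain ⟨z₁, hz₁, hmax⟩ := Z.exists_max_image (fun z => (z.1 : ℕ)) hne
  have hfib : ∀ u ∈ Z.image (fun z => z.2.1), (Z.filter (fun z => z.2.1 = u)).card ≤
      k ^ (Fintype.card (Fin J × Fin 3 × Fin (k - 2))) := by
    intro u hu
    obtain ⟨z₀, hz₀, hu0⟩ := mem_image.mp hu
    have hP0 := (hmem z₀).mp hz₀
    obtain ⟨E, he, hR, hV, -, hE⟩ := hP0
    have hV' := Vld.anti (subset_insert _ _) hV
    have hc : ∀ a, (univ.filter (fun v => (gr (pre ω z₀.1)).Adj (u a) v)).card = k := by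
      intro a
      rw [hE, ← hu0]
      exact nbr_card h2k hV' a
    have hle : (Z.filter (fun z => z.2.1 = u)).card ≤
        (Fintype.piFinset (fun x : Fin J × Fin 3 × Fin (k - 2) =>
          univ.filter (fun v => (gr (pre ω z₀.1)).Adj (u (x.1, x.2.1)) v))).card := by
      refine card_le_card_of_injOn (fun z => z.2.2) ?_ ?_
      · intro z hz
        rw [mem_coe, mem_filter] at hz
        obtain ⟨hzZ, hzu⟩ := hz
        have hP := (hmem z).mp hzZ
        have ht : z.1 = z₀.1 := by
          have hP' := (hmem z₀).mp hz₀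
          rw [hzu] at hP
          rw [hu0] at hP'
          exact Fin.ext (le_antisymm (not_lt.mp (time_unique hK ω hP' hP))
            (not_lt.mp (time_unique hK ω hP hP')))
        obtain ⟨E', he', hR', hW, -, hE'⟩ := hP
        rw [mem_coe, Fintype.mem_piFinset]
        rintro ⟨j, a, i⟩
        rw [mem_filter]
        refine ⟨mem_univ _, ?_⟩
        rw [← ht, hE', ← hzu]
        exact (Gam_nbr (Vld.anti (subset_insert _ _) hW) j a _).mpr (Or.inr ⟨i, rfl⟩)
      · intro z hz z' hz' hq
        rw [mem_coe, mem_filter] at hz hz'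
        have hP := (hmem z).mp hz.1
        have hP' := (hmem z').mp hz'.1
        rw [hz.2] at hP
        rw [hz'.2] at hP'
        have ht : z.1 = z'.1 := Fin.ext (le_antisymm (not_lt.mp (time_unique hK ω hP' hP))
            (not_lt.mp (time_unique hK ω hP hP')))
        exact Prod.ext ht (Prod.ext (hz.2.trans hz'.2.symm) hq)
    refine hle.trans ?_
    rw [Fintype.card_piFinset, prod_congr rfl fun x _ => hc (x.1, x.2.1), prod_const, card_univ]
  have himg : (Z.image (fun z => z.2.1)).card ≤ (B + (J * 3) * (3 * (k * k))) ^ J := by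
    obtain ⟨E, he, hR, hV, -, hE⟩ := (hmem z₁).mp hz₁
    have hV' := Vld.anti (subset_insert _ _) hV
    have htri : tri (pre ω z₁.1) ≤ B + (J * 3) * (3 * (k * k)) := by
      rw [hE]
      exact (tri_le h2k hV').trans (Nat.add_le_add_right hR.2.2.2.2.2 _)
    have hle : (Z.image (fun z => z.2.1)).card ≤
        (Fintype.piFinset (fun _ : Fin J => univ.filter (fun z : Fin n × Fin n × Fin n =>
    (gr (pre ω z₁.1)).Adj z.1 z.2.1 ∧ (gr (pre ω z₁.1)).Adj z.2.1 z.2.2 ∧
      (gr (pre ω z₁.1)).Adj z.1 z.2.2))).card := by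
      refine card_le_card_of_injOn (fun u j => (u (j, 0), u (j, 1), u (j, 2))) ?_ ?_
      · intro u hu
        rw [mem_coe, mem_image] at hu
        obtain ⟨z, hz, rfl⟩ := hu
        have hm := hmax z hz
        obtain ⟨E', he', hR', hW, -, hE'⟩ := (hmem z).mp hz
        have hW' := Vld.anti (subset_insert _ _) hW
        have hadj : ∀ (j : Fin J) (a b : Fin 3), b ≠ a →
            (gr (pre ω z₁.1)).Adj (z.2.1 (j, a)) (z.2.1 (j, b)) := by
          intro j a b hab
          refine gr_adj_mono (pre_mono ω hm) ?_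
          rw [hE']
          exact (Gam_nbr hW' j a _).mpr (Or.inl ⟨b, hab, rfl⟩)
        rw [mem_coe, Fintype.mem_piFinset]
        intro j
        rw [mem_filter]
        exact ⟨mem_univ _, hadj j 0 1 (by decide), hadj j 1 2 (by decide), hadj j 0 2 (by decide)⟩
      · intro u _ u' _ huu
        funext x
        obtain ⟨j, a⟩ := x
        have h1 := congrFun huu j
        simp only [Prod.mk.injEq] at h1
        fin_cases a
        · exact h1.1
        · exact h1.2.1
        · exact h1.2.2
    refine hle.trans ?_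
    rw [Fintype.card_piFinset, prod_const, card_univ, Fintype.card_fin]
    exact Nat.pow_le_pow_left htri J
  refine (card_le_mul_card_image Z _ hfib).trans ?_
  exact Nat.mul_le_mul_left _ himg

end Pool.Agent.Work.MP_73831e_pr.J
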