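import Pool.Agent.Work.MP_73831e_pr.J.Bas
import Pool.Agent.Work.MP_73831e_pr.J.High

/-!
MODULE KLow (M).  A kill needs linearly many pairs.

Let `q₀ = J * (3*(k-2))` = number of indices of `q`.  If `q₀ = 0` (`J = 0`): `KSet` is empty because
`gr E` has a proper colouring and there is no `j : Fin 0`; so `Kill` is false (`θ > 0`).
The vertices which are not isolated number at most `2|E|` (`sum_dg`).  The number of `q` with some
value not isolated is `≤ q₀ * 2|E| * n^(q₀-1)`; the number of non-injective `q` is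
`≤ q₀² n^(q₀-1)`.  Let `c₁` with `c₁ θ > 4 q₀`, i.e. if `c₁ |E| < n` then `2 q₀ |E| n^(q₀-1) <
(θ/2) n^(q₀)`, and `n` so large that `q₀² < (θ/2) n`.  Then, if `Kill`, there is `q ∈ KSet` which is
injective and whose values are isolated vertices of `gr E`.  Take a proper colouring `f₀` of
`gr E` and let `f = f₀` except `f (q (j,a,i)) = 0` if `a = 0` and `= 1` if `a ≠ 0` (well defined
since `q` is injective; proper since these vertices are isolated).  For every `j`, `Bl f (q j)`
fails: `h = (1, 0, 2)` is injective and `h 0 = 1 ≠ 0`, `h 1 = 0 ≠ 1`, `h 2 = 2 ≠ 1` (`k ≥ 3`).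
Contradiction.  So `n ≤ c₁ |E|`.
-/

open Finset
open scoped Classical Nat

namespace Pool.Agent.Work.MP_73831e_pr.J

private theorem kl_nonIso {n : ℕ} (E : Finset (Pr n)) :
    (univ.filter (fun v : Fin n => ¬ iso (gr E) v)).card ≤ 2 * E.card := by
  have h1 : univ.filter (fun v : Fin n => ¬ iso (gr E) v) ⊆ E.biUnion (fun e => e.1.toFinset) := by
    intro v hv
    rw [mem_filter] at hv
    have h2 := hv.2
    unfold iso at h2
    push Not at h2
    obtain ⟨u, hu⟩ := h2
    obtain ⟨e, he, hes⟩ := gr_adj'.1 hu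
    rw [mem_biUnion]
    refine ⟨e, he, ?_⟩
    rw [hes, Sym2.mem_toFinset]
    exact Sym2.mem_mk_left v u
  refine (card_le_card h1).trans (card_biUnion_le.trans ?_)
  rw [mul_comm, ← smul_eq_mul, ← sum_const]
  refine sum_le_sum fun e _ => ?_
  exact (Sym2.card_toFinset_of_not_isDiag e.1 e.2).le

private theorem kl_slice {n : ℕ} {ι : Type} [Fintype ι] [DecidableEq ι] (i : ι) (N : Finset (Fin n)) :
    (univ.filter (fun v : ι → Fin n => v i ∈ N)).card = N.card * n ^ (Fintype.card ι - 1) := by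
  have h1 : univ.filter (fun v : ι → Fin n => v i ∈ N) =
      Fintype.piFinset (fun j : ι => if j = i then N else univ) := by
    ext v
    rw [mem_filter, Fintype.mem_piFinset]
    constructor
    · rintro ⟨_, h⟩ j
      by_cases hj : j = i
      · rw [if_pos hj, hj]; exact h
      · rw [if_neg hj]; exact mem_univ _
    · intro h
      refine ⟨mem_univ _, ?_⟩
      have := h i
      rwa [if_pos rfl] at this
  rw [h1, Fintype.card_piFinset, ← Finset.mul_prod_erase univ _ (mem_univ i), if_pos rfl]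
  congr 1
  rw [prod_congr rfl (g := fun _ => n) (fun j hj => by
    rw [if_neg (ne_of_mem_erase hj), card_univ, Fintype.card_fin]), prod_const,
    card_erase_of_mem (mem_univ i), card_univ]

private theorem kl_diag {n : ℕ} {ι : Type} [Fintype ι] [DecidableEq ι] {a b : ι} (hab : a ≠ b) :
    (univ.filter (fun v : ι → Fin n => v a = v b)).card ≤ n ^ (Fintype.card ι - 1) := by
  have h1 : (univ.filter (fun v : ι → Fin n => v a = v b)).card ≤
      (univ : Finset ({x : ι // x ≠ b} → Fin n)).card := by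
    refine card_le_card_of_injOn (fun v x => v x.1) (fun _ _ => by simp) ?_
    intro v hv w hw hvw
    have hv' : v a = v b := by simpa using hv
    have hw' : w a = w b := by simpa using hw
    funext x
    by_cases hx : x = b
    · rw [hx, ← hv', ← hw']
      exact congrFun hvw ⟨a, hab⟩
    · exact congrFun hvw ⟨x, hx⟩
  refine h1.trans (le_of_eq ?_)
  rw [card_univ, Fintype.card_fun, Fintype.card_fin]
  congr 1
  rw [Fintype.card_subtype, Finset.filter_ne', card_erase_of_mem (mem_univ b), card_univ]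

private theorem kl_not {n k J : ℕ} (hk : 3 ≤ k) (E : Finset (Pr n)) (hE : Alive k (gr E))
    {q : Fin J × Fin 3 × Fin (k - 2) → Fin n} (hq : q ∈ KSet (Fin J) k (gr E))
    (hinj : Function.Injective q) (hiso : ∀ a, iso (gr E) (q a)) : False := by
  obtain ⟨f₀, hf₀⟩ := hE
  set c0 : Fin k := ⟨0, by omega⟩ with hc0
  set c1 : Fin k := ⟨1, by omega⟩ with hc1
  set c2 : Fin k := ⟨2, by omega⟩ with hc2
  have h01 : c0 ≠ c1 := fun h => by
    have := congrArg Fin.val h
    simp [hc0, hc1] at this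
  have h02 : c0 ≠ c2 := fun h => by
    have := congrArg Fin.val h
    simp [hc0, hc2] at this
  have h12 : c1 ≠ c2 := fun h => by
    have := congrArg Fin.val h
    simp [hc1, hc2] at this
  set f : Fin n → Fin k := fun v => if h : ∃ a, q a = v then
    (if (h.choose).2.1 = 0 then c0 else c1) else f₀ v with hf
  have hfq : ∀ a, f (q a) = if a.2.1 = 0 then c0 else c1 := by
    intro a
    have h : ∃ b, q b = q a := ⟨a, rfl⟩
    have h2 : h.choose = a := hinj h.choose_spec
    rw [hf]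
    simp only [dif_pos h]
    rw [h2]
  have hfn : ∀ v, ¬ iso (gr E) v → f v = f₀ v := by
    intro v hv
    have h : ¬ ∃ a, q a = v := by
      rintro ⟨a, rfl⟩
      exact hv (hiso a)
    rw [hf]
    simp only [dif_neg h]
  have hfp : PC k (gr E) f := by
    intro u v huv
    have hu : ¬ iso (gr E) u := fun h => h v huv
    have hv : ¬ iso (gr E) v := fun h => h u huv.symm
    rw [hfn u hu, hfn v hv]
    exact hf₀ u v huv
  have hq' : ∀ f, PC k (gr E) f → ∃ j, Bl f (fun a i => q (j, a, i)) := by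
    simpa only [KSet, mem_filter, mem_univ, true_and] using hq
  obtain ⟨j, hj⟩ := hq' f hfp
  obtain ⟨a, i, hai⟩ := hj ![c1, c0, c2] (by
    intro a b hab
    fin_cases a <;> fin_cases b <;> simp_all)
  rw [hfq] at hai
  fin_cases a
  · simp at hai
    exact h01 hai.symm
  · simp at hai
    exact h01 hai
  · simp at hai
    exact h12 hai.symm

private theorem kl_count {n k J : ℕ} (hk : 3 ≤ k) (E : Finset (Pr n)) (hE : Alive k (gr E)) :
    (KSet (Fin J) k (gr E)).card ≤
      (J * (3 * (k - 2)) * (2 * E.card) + (J * (3 * (k - 2))) ^ 2) * n ^ (J * (3 * (k - 2)) - 1) := by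
  set N₀ := univ.filter (fun v : Fin n => ¬ iso (gr E) v) with hN₀
  set ι := Fin J × Fin 3 × Fin (k - 2) with hι
  have hcard : Fintype.card ι = J * (3 * (k - 2)) := by
    simp [ι]
  have hsub : KSet (Fin J) k (gr E) ⊆
      (univ.biUnion (fun a : ι => univ.filter (fun v : ι → Fin n => v a ∈ N₀))) ∪
      ((univ.filter (fun z : ι × ι => z.1 ≠ z.2)).biUnion
        (fun z => univ.filter (fun v : ι → Fin n => v z.1 = v z.2))) := by
    intro q hq
    rw [mem_union]
    by_contra hn
    push Not at hn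
    refine kl_not hk E hE hq (fun a b hab => ?_) (fun a => ?_)
    · by_contra h
      exact hn.2 (mem_biUnion.2 ⟨(a, b), mem_filter.2 ⟨mem_univ _, h⟩,
        mem_filter.2 ⟨mem_univ _, hab⟩⟩)
    · by_contra h
      exact hn.1 (mem_biUnion.2 ⟨a, mem_univ _, mem_filter.2 ⟨mem_univ _,
        mem_filter.2 ⟨mem_univ _, h⟩⟩⟩)
  refine (card_le_card hsub).trans ((card_union_le _ _).trans ?_)
  rw [add_mul]
  refine Nat.add_le_add ?_ ?_
  · refine card_biUnion_le.trans ?_
    refine (sum_le_card_nsmul _ _ (2 * E.card * n ^ (J * (3 * (k - 2)) - 1)) fun a _ => ?_).trans ?_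
    · have h1 := kl_slice (n := n) a N₀
      rw [hcard] at h1
      rw [h1]
      exact Nat.mul_le_mul_right _ (kl_nonIso E)
    · rw [card_univ, hcard, smul_eq_mul]
      exact le_of_eq (by ring)
  · refine card_biUnion_le.trans ?_
    refine (sum_le_card_nsmul _ _ (n ^ (J * (3 * (k - 2)) - 1)) fun z hz => ?_).trans ?_
    · rw [← hcard]
      exact kl_diag (mem_filter.1 hz).2
    · rw [smul_eq_mul]
      refine Nat.mul_le_mul_right _ ?_
      refine (card_filter_le _ _).trans (le_of_eq ?_)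
      rw [card_univ, Fintype.card_prod, hcard, sq]

theorem kill_low {k : ℕ} (hk : 3 ≤ k) (J : ℕ) (θ : ℝ) (hθ : 0 < θ) : ∃ c₁ n₀ : ℕ, ∀ n ≥ n₀,
    ∀ E : Finset (Pr n), Alive k (gr E) → Kill (Fin J) k θ (gr E) → n ≤ c₁ * E.card := by
  set Q : ℕ := J * (3 * (k - 2)) with hQ
  refine ⟨⌈4 * (Q : ℝ) / θ⌉₊, ⌈2 * (Q : ℝ) ^ 2 / θ⌉₊ + 1, fun n hn E hE hK => ?_⟩
  have h1 := kl_count (J := J) hk E hE
  rw [← hQ] at h1
  unfold Kill at hK
  rw [Fintype.card_fin, ← hQ] at hK
  have h1' : ((KSet (Fin J) k (gr E)).card : ℝ) ≤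
      ((Q : ℝ) * (2 * E.card) + (Q : ℝ) ^ 2) * (n : ℝ) ^ (Q - 1) := by exact_mod_cast h1
  have h2 := hK.trans h1'
  rcases Nat.eq_zero_or_pos Q with h0 | h0
  · rw [h0] at h2
    simp at h2
    linarith
  · have hn1 : 2 * (Q : ℝ) ^ 2 / θ < n := by
      have h3 : 2 * (Q : ℝ) ^ 2 / θ ≤ ⌈2 * (Q : ℝ) ^ 2 / θ⌉₊ := Nat.le_ceil _
      have h4 : ((⌈2 * (Q : ℝ) ^ 2 / θ⌉₊ + 1 : ℕ) : ℝ) ≤ n := by exact_mod_cast hn
      push_cast at h4
      linarith
    have hn0 : (0 : ℝ) < n := by
      have : 0 ≤ 2 * (Q : ℝ) ^ 2 / θ := by positivity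
      linarith
    obtain ⟨l, hl⟩ : ∃ l, Q = l + 1 := ⟨Q - 1, by omega⟩
    have h5 : θ * n * (n : ℝ) ^ l ≤ ((Q : ℝ) * (2 * E.card) + (Q : ℝ) ^ 2) * (n : ℝ) ^ l := by
      have e1 : (n : ℝ) ^ Q = n * (n : ℝ) ^ l := by rw [hl, pow_succ]; ring
      have e2 : Q - 1 = l := by omega
      rw [e1, e2] at h2
      linarith
    have h6 := le_of_mul_le_mul_right h5 (pow_pos hn0 l)
    by_contra hlt
    push Not at hlt
    have h7 : (⌈4 * (Q : ℝ) / θ⌉₊ : ℝ) * E.card < n := by exact_mod_cast hlt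
    have h8 : 4 * (Q : ℝ) / θ ≤ ⌈4 * (Q : ℝ) / θ⌉₊ := Nat.le_ceil _
    have h9 : 4 * (Q : ℝ) / θ * E.card < n :=
      lt_of_le_of_lt (mul_le_mul_of_nonneg_right h8 (Nat.cast_nonneg _)) h7
    have h10 : 4 * (Q : ℝ) * E.card < θ * n := by
      have := mul_lt_mul_of_pos_left h9 hθ
      have e3 : θ * (4 * (Q : ℝ) / θ * E.card) = 4 * (Q : ℝ) * E.card := by field_simp
      linarith
    have h11 : 2 * (Q : ℝ) ^ 2 < θ * n := by
      rw [div_lt_iff₀ hθ] at hn1
      linarith
    linarith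

end Pool.Agent.Work.MP_73831e_pr.J
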