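import Pool.Agent.Work.MP_73831e_pr.J.Bas
import Pool.Agent.Work.MP_73831e_pr.J.NumB
import Pool.Agent.Work.MP_73831e_pr.J.FluxB
import Pool.Agent.Work.MP_73831e_pr.J.Flux
import Pool.Agent.Work.MP_73831e_pr.J.KMono
import Pool.Agent.Work.MP_73831e_pr.J.KLow
import Pool.Agent.Work.MP_73831e_pr.J.Tri
import Pool.Agent.Work.MP_73831e_pr.J.GamD
import Pool.Agent.Work.MP_73831e_pr.J.GamC
import Pool.Agent.Work.MP_73831e_pr.J.GamM

/-!
MODULE P5 (L, assembly).  If the process enters `K = KK k M J θ` with probability `≥ η` then with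
probability `≥ δ` some `G_t` is dead without uniquely colourable subgraph on `≥ M` vertices.

`C = p.C`, `N = NN n`, `q = J * (3*(k-1))`.  `K` is increasing inside `F` (`Kill.anti`, `gr_mono`).
(1) `¬ K ∅` for `n ≥ 1` large (`kill_low`: `n ≤ c₁ * 0`).  `ent_flux_ge` with `F = FF k M`:
    `η ≤ Fx (FF E ∧ ¬ K E ∧ K (E+e))`.
(2) Let `δ₁ = η/6`.  `B` from `tri_bound C δ₁`.  By `ent_flux` the parts of this flux with
    * `C n ≤ |E|`: `≤ Pb (Alive (k+1) (pre (Cn))) ≤ 2^(-n) ≤ δ₁` (`FF (pre ω t)`, `t ≥ C n`);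
    * `|E| < C n` and `¬ Typ (insert e E)`: `≤ Pb (¬ Typ (pre (C n))) ≤ δ₁`
      (`insert e E = pre ω (t+1) ⊆ pre ω (C n)`, `Typ.anti`);
    * `|E| < C n` and `B < tri E`: `≤ Pb (B < tri (pre (C n))) ≤ δ₁` (`tri_mono`).
    So `Fx (Rent k M B p K) ≥ η/2`.
(3) Let `(E,e)`, `e ∉ E`, be a regular entrance, `E₁ = insert e E`.  `K E₁` gives `FF E₁` and
    `Kill`; `kill_low` (`Alive`): `n ≤ c₁ (|E|+1)`.  `ManyIso p.K₄ (gr E₁)` from `Typ`.  `gam_count`:
    at least `c n^q` pairs `(u,q)` with `Vld E₁ u q`, `q ∈ KSet`.  For each of them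
    `|E ∪ Gam u q| = |E| + q` (`Gam_card`, `Gam_disj` for `E`, `Vld.anti`), so
    `w (E ∪ Gam u q) = wR N (|E| + q) ≥ (c₂/n^q) w E` (`w_add_ge` with `c₀ = c₁`).
(4) `∑_{E'} ∑_{e ∉ E'} #{(u,q) : PL E' e u q} w(E') ≥ ∑_{(E,e) regular} ∑_{(u,q)} w(E ∪ Gam u q)
    ≥ c c₂ η/2`: the map `(E,e,u,q) ↦ (E ∪ Gam u q, e, u, q)` is injective (`Gam_recover`), and
    `e ∉ E ∪ Gam u q` (`Gam_touch`, the `u a` are isolated in `gr (insert e E)`).
(5) By `flux_avg` the left side is `(1/N!) ∑_ω #{(t,u,q) : PL (pre ω t) (ω t) u q}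
    ≤ (1/N!) ∑_ω B' 1[A ω]` (`gam_mult`), where `A ω` = the event of the theorem: if
    `PL (pre ω t) (ω t) u q` then `pre ω (t+1) = insert e (E ∪ Gam u q) = (insert e E) ∪ Gam u q` is
    dead and not `Um` by `gam_dead`.  So `c c₂ η/2 ≤ B' Pb(A)`; `δ = c c₂ η/(2 B' + 2)`.
-/

open Finset
open scoped Classical Nat

namespace Pool.Agent.Work.MP_73831e_pr.J

section Abs

variable {P Z : Type} [Fintype P] [Fintype Z]

private theorem Fx_ite [DecidableEq P] (B : Finset P → P → Prop) :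
    Fx B = ∑ E : Finset P, ∑ x : P, if x ∉ E ∧ B E x then w E else 0 := by
  unfold Fx
  refine sum_congr rfl fun E _ => ?_
  rw [sum_filter]
  refine sum_congr rfl fun x _ => ?_
  by_cases h : x ∉ E ∧ B E x
  · rw [if_pos h, if_pos h]
  · rw [if_neg h, if_neg h]

private theorem map_le [DecidableEq P] (S : Finset P → P → Prop) (G : Finset P)
    (Q : Finset P → P → Prop)
    (hmap : ∀ E e, e ∉ E → S E e → e ∉ E ∪ G ∧ Q (E ∪ G) e)
    (hinj : ∀ E E' e, e ∉ E → S E e → e ∉ E' → S E' e → E ∪ G = E' ∪ G → E = E') :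
    ∑ E : Finset P, ∑ x : P, (if x ∉ E ∧ S E x then w (E ∪ G) else 0) ≤ Fx Q := by
  rw [Fx_ite]
  have e1 : ∀ f : Finset P → ℝ, ∀ T : Finset P → P → Prop,
      ∑ E : Finset P, ∑ x : P, (if T E x then f E else 0) =
      ∑ y ∈ univ.filter (fun y : Finset P × P => T y.1 y.2), f y.1 := by
    intro f T
    rw [sum_filter, Fintype.sum_prod_type]
  obtain ⟨T1, hT1⟩ : ∃ T1 : Finset P → P → Prop, ∀ E x, T1 E x ↔ (x ∉ E ∧ S E x) :=
    ⟨fun E x => x ∉ E ∧ S E x, fun _ _ => Iff.rfl⟩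
  obtain ⟨T2, hT2⟩ : ∃ T2 : Finset P → P → Prop, ∀ E x, T2 E x ↔ (x ∉ E ∧ Q E x) :=
    ⟨fun E x => x ∉ E ∧ Q E x, fun _ _ => Iff.rfl⟩
  have c1 : (∑ E : Finset P, ∑ x : P, (if x ∉ E ∧ S E x then w (E ∪ G) else 0)) =
      ∑ E : Finset P, ∑ x : P, (if T1 E x then w (E ∪ G) else 0) := by
    refine sum_congr rfl fun E _ => sum_congr rfl fun x _ => ?_
    by_cases h : x ∉ E ∧ S E x
    · rw [if_pos h, if_pos ((hT1 E x).2 h)]
    · rw [if_neg h, if_neg fun h' => h ((hT1 E x).1 h')]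
  have c2 : (∑ E : Finset P, ∑ x : P, (if x ∉ E ∧ Q E x then w E else 0)) =
      ∑ E : Finset P, ∑ x : P, (if T2 E x then w E else 0) := by
    refine sum_congr rfl fun E _ => sum_congr rfl fun x _ => ?_
    by_cases h : x ∉ E ∧ Q E x
    · rw [if_pos h, if_pos ((hT2 E x).2 h)]
    · rw [if_neg h, if_neg fun h' => h ((hT2 E x).1 h')]
  rw [c1, c2, e1 (fun E => w (E ∪ G)) T1, e1 (fun E => w E) T2]
  have hinj' : Set.InjOn (fun y : Finset P × P => (y.1 ∪ G, y.2))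
      (univ.filter (fun y : Finset P × P => T1 y.1 y.2)) := by
    intro y hy y' hy' h
    rw [mem_coe, mem_filter] at hy hy'
    obtain ⟨h3, h4⟩ := Prod.ext_iff.1 h
    have h5 : y.1 ∪ G = y'.1 ∪ G := h3
    have h6 : y.2 = y'.2 := h4
    have h8 := (hT1 _ _).1 hy.2
    have h7 := (hT1 _ _).1 hy'.2
    rw [← h6] at h7
    exact Prod.ext (hinj _ _ y.2 h8.1 h8.2 h7.1 h7.2 h5) h6
  refine (le_of_eq (sum_image (f := fun y : Finset P × P => w y.1) hinj').symm).trans ?_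
  refine sum_le_sum_of_subset_of_nonneg ?_ fun _ _ _ => w_nonneg _
  intro y hy
  obtain ⟨y', hy', rfl⟩ := mem_image.1 hy
  rw [mem_filter] at hy' ⊢
  have h8 := (hT1 _ _).1 hy'.2
  exact ⟨mem_univ _, (hT2 _ _).2 (hmap _ _ h8.1 h8.2)⟩

private theorem sum_Fx_le (Q : Z → Finset P → P → Prop) (A : Ordr P → Prop) (B' : ℕ)
    (h1 : ∀ ω : Ordr P, (univ.filter (fun y : Fin (Fintype.card P) × Z =>
      Q y.2 (pre ω y.1) (ω y.1))).card ≤ B')
    (h2 : ∀ (ω : Ordr P) (t : Fin (Fintype.card P)) (z : Z), Q z (pre ω t) (ω t) → A ω) :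
    ∑ z, Fx (Q z) ≤ B' * Pb A := by
  have e1 : ∀ ω : Ordr P, ∑ z, ((univ.filter (fun t : Fin (Fintype.card P) =>
      Q z (pre ω t) (ω t))).card : ℝ) =
      ((univ.filter (fun y : Fin (Fintype.card P) × Z =>
        Q y.2 (pre ω y.1) (ω y.1))).card : ℝ) := by
    intro ω
    rw [← Nat.cast_sum]
    congr 1
    simp only [card_filter, Fintype.sum_prod_type]
    rw [sum_comm]
  have e2 : ∀ ω : Ordr P, ((univ.filter (fun y : Fin (Fintype.card P) × Z =>
        Q y.2 (pre ω y.1) (ω y.1))).card : ℝ) ≤ if A ω then (B' : ℝ) else 0 := by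
    intro ω
    split_ifs with hA
    · exact_mod_cast h1 ω
    · rw [← Nat.cast_zero, Nat.cast_le, Nat.le_zero, card_eq_zero, filter_eq_empty_iff]
      intro y _ hy
      exact hA (h2 ω y.1 y.2 hy)
  calc ∑ z, Fx (Q z) = ∑ z, 1 / ((Fintype.card P)! : ℝ) * ∑ ω : Ordr P,
        ((univ.filter (fun t : Fin (Fintype.card P) => Q z (pre ω t) (ω t))).card : ℝ) :=
        sum_congr rfl fun z _ => Fx_eq (Q z)
    _ = 1 / ((Fintype.card P)! : ℝ) * ∑ ω : Ordr P, ∑ z,
        ((univ.filter (fun t : Fin (Fintype.card P) => Q z (pre ω t) (ω t))).card : ℝ) := by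
        rw [← mul_sum, sum_comm]
    _ ≤ 1 / ((Fintype.card P)! : ℝ) * ∑ ω : Ordr P, (if A ω then (B' : ℝ) else 0) := by
        refine mul_le_mul_of_nonneg_left (sum_le_sum fun ω _ => ?_) (by positivity)
        rw [e1 ω]
        exact e2 ω
    _ = B' * Pb A := by
        rw [← sum_filter, sum_const, nsmul_eq_mul]
        unfold Pb
        ring

private theorem core_abs [DecidableEq P] (R : Finset P → P → Prop)
    (S : Z → Finset P → P → Prop) (G : Z → Finset P) (Q : Z → Finset P → P → Prop)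
    (A : Ordr P → Prop) (B' : ℕ) (a : ℝ)
    (hmap : ∀ z E e, e ∉ E → R E e → S z E e → e ∉ E ∪ G z ∧ Q z (E ∪ G z) e)
    (hinj : ∀ z E E' e, e ∉ E → R E e → S z E e → e ∉ E' → R E' e → S z E' e →
      E ∪ G z = E' ∪ G z → E = E')
    (hlow : ∀ E e, e ∉ E → R E e → a * w E ≤ ∑ z, if S z E e then w (E ∪ G z) else 0)
    (h1 : ∀ ω : Ordr P, (univ.filter (fun y : Fin (Fintype.card P) × Z =>
      Q y.2 (pre ω y.1) (ω y.1))).card ≤ B')
    (h2 : ∀ (ω : Ordr P) (t : Fin (Fintype.card P)) (z : Z), Q z (pre ω t) (ω t) → A ω) :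
    a * Fx R ≤ B' * Pb A := by
  refine le_trans ?_ (sum_Fx_le Q A B' h1 h2)
  have e3 := fun z => map_le (fun E x => R E x ∧ S z E x) (G z) (Q z)
      (fun E e he h => hmap z E e he h.1 h.2)
      (fun E E' e he h he' h' hh => hinj z E E' e he h.1 h.2 he' h'.1 h'.2 hh)
  refine le_trans ?_ (sum_le_sum fun z _ => e3 z)
  rw [Fx_ite, mul_sum]
  rw [sum_comm (s := (univ : Finset Z))]
  refine sum_le_sum fun E _ => ?_
  rw [mul_sum, sum_comm (s := (univ : Finset Z))]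
  refine sum_le_sum fun x _ => ?_
  by_cases h : x ∉ E ∧ R E x
  · rw [if_pos h]
    refine (hlow E x h.1 h.2).trans (le_of_eq ?_)
    refine sum_congr rfl fun z _ => ?_
    by_cases hS : S z E x
    · rw [if_pos hS, if_pos ⟨h.1, h.2, hS⟩]
    · rw [if_neg hS, if_neg fun h' => hS h'.2.2]
  · rw [if_neg h, mul_zero]
    refine sum_nonneg fun z _ => ?_
    rw [if_neg fun h' => h ⟨h'.1, h'.2.1⟩]

end Abs

private theorem w_pr {n : ℕ} (E : Finset (Pr n)) : w E = wR (NN n) E.card := rfl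

private def SP (J k : ℕ) {n : ℕ}
    (z : (Fin J × Fin 3 → Fin n) × (Fin J × Fin 3 × Fin (k - 2) → Fin n))
    (E : Finset (Pr n)) (e : Pr n) : Prop :=
  Vld (insert e E) z.1 z.2 ∧ z.2 ∈ KSet (Fin J) k (gr (insert e E))

theorem P5 {k : ℕ} (hk : 3 ≤ k) {p : Par} (hp : POK k p) (M J : ℕ) (hM : 3 * k ≤ M)
    (θ η : ℝ) (hθ : 0 < θ) (hη : 0 < η) : ∃ δ : ℝ, 0 < δ ∧ ∃ n₀ : ℕ, ∀ n ≥ n₀,
      η ≤ Pent (KK (n := n) k M J θ) →
      δ ≤ Pb (fun ω : Ordr (Pr n) => ∃ t, ¬ Alive k (gr (pre ω t)) ∧ ¬ Um k M (gr (pre ω t))) := by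
  obtain ⟨c₁, n₁, hn₁⟩ := kill_low hk J θ hθ
  obtain ⟨c, hc, n₂, hn₂⟩ := gam_count hk J p.K₄ hp.hK4 θ hθ
  obtain ⟨c₂, hc₂, n₃, hn₃⟩ := w_add_ge c₁ (J * (3 * (k - 1))) p.C
  obtain ⟨B, n₄, hn₄⟩ := tri_bound p.C (η / 6) (by positivity)
  obtain ⟨B', hB'⟩ := gam_mult hk M J B p
  obtain ⟨n₅, hn₅⟩ := hp.typ (η / 6) (by positivity)
  obtain ⟨n₆, hn₆⟩ := hp.al
  obtain ⟨n₇, hn₇⟩ : ∃ n₇ : ℕ, ((1 : ℝ) / 2) ^ n₇ < η / 6 :=
    exists_pow_lt_of_lt_one (by positivity) (by norm_num)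
  refine ⟨c * c₂ * (η / 2) / (B' + 1), by positivity,
    n₁ + n₂ + n₃ + n₄ + n₅ + n₆ + n₇ + 1, fun n hn hent => ?_⟩
  have hup : ∀ E E', KK (n := n) k M J θ E → E ⊆ E' → FF k M E' → KK (n := n) k M J θ E' :=
    fun E E' hE hsub hF => ⟨hF, hE.2.anti (gr_mono hsub)⟩
  have hFa : ∀ E E' : Finset (Pr n), E ⊆ E' → FF k M E' → FF k M E :=
    fun E E' h hF => hF.anti h
  have h0 : ¬ KK (n := n) k M J θ ∅ := by
    intro h
    have h1 := hn₁ n (by omega) ∅ h.1.1 h.2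
    rw [card_empty, Nat.mul_zero] at h1
    omega
  -- the total flux
  have f0 : η ≤ Fx (fun (E : Finset (Pr n)) x => FF k M E ∧ ¬ KK (n := n) k M J θ E ∧
      KK (n := n) k M J θ (insert x E)) :=
    hent.trans (ent_flux_ge (FF k M) (KK (n := n) k M J θ) hFa (fun E hE => hE.1) h0)
  have f1 : Fx (fun (E : Finset (Pr n)) x => FF k M E ∧ ¬ KK (n := n) k M J θ E ∧
      KK (n := n) k M J θ (insert x E) ∧ p.C * n ≤ E.card) ≤ η / 6 := by
    refine le_trans (ent_flux (FF k M) (KK (n := n) k M J θ)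
      (fun E _ => p.C * n ≤ E.card)
      (fun ω : Ordr (Pr n) => Alive (k + 1) (gr (pre ω (p.C * n)))) hFa hup ?_) ?_
    · intro ω t h1 _ _ h4
      rw [pre_card ω t.2.le] at h4
      exact alive_succ (h1.1.anti (gr_mono (pre_mono ω h4)))
    · refine (hn₆ n (by omega)).trans (le_trans ?_ hn₇.le)
      exact pow_le_pow_of_le_one (by norm_num) (by norm_num) (by omega)
  have f2 : Fx (fun (E : Finset (Pr n)) x => FF k M E ∧ ¬ KK (n := n) k M J θ E ∧
      KK (n := n) k M J θ (insert x E) ∧ (E.card < p.C * n ∧ ¬ Typ p (insert x E))) ≤ η / 6 := by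
    refine le_trans (ent_flux (FF k M) (KK (n := n) k M J θ)
      (fun E x => E.card < p.C * n ∧ ¬ Typ p (insert x E))
      (fun ω : Ordr (Pr n) => ¬ Typ p (pre ω (p.C * n))) hFa hup ?_) (hn₅ n (by omega))
    intro ω t _ _ _ h4 h5
    rw [pre_card ω t.2.le] at h4
    apply h4.2
    rw [← pre_succ ω t.2]
    exact h5.anti (pre_mono ω h4.1)
  have f3 : Fx (fun (E : Finset (Pr n)) x => FF k M E ∧ ¬ KK (n := n) k M J θ E ∧
      KK (n := n) k M J θ (insert x E) ∧ (E.card < p.C * n ∧ B < tri E)) ≤ η / 6 := by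
    refine le_trans (ent_flux (FF k M) (KK (n := n) k M J θ)
      (fun E _ => E.card < p.C * n ∧ B < tri E)
      (fun ω : Ordr (Pr n) => B < tri (pre ω (p.C * n))) hFa hup ?_) (hn₄ n (by omega))
    intro ω t _ _ _ h4
    rw [pre_card ω t.2.le] at h4
    exact lt_of_lt_of_le h4.2 (tri_mono (pre_mono ω h4.1.le))
  have f4 : η / 2 ≤ Fx (Rent k M B p (KK (n := n) k M J θ)) := by
    have g1 : Fx (fun (E : Finset (Pr n)) x => FF k M E ∧ ¬ KK (n := n) k M J θ E ∧
        KK (n := n) k M J θ (insert x E)) ≤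
        Fx (fun (E : Finset (Pr n)) x => (Rent k M B p (KK (n := n) k M J θ) E x ∨
          (FF k M E ∧ ¬ KK (n := n) k M J θ E ∧
            KK (n := n) k M J θ (insert x E) ∧ p.C * n ≤ E.card)) ∨
          ((FF k M E ∧ ¬ KK (n := n) k M J θ E ∧
            KK (n := n) k M J θ (insert x E) ∧ (E.card < p.C * n ∧ ¬ Typ p (insert x E))) ∨
          (FF k M E ∧ ¬ KK (n := n) k M J θ E ∧
            KK (n := n) k M J θ (insert x E) ∧ (E.card < p.C * n ∧ B < tri E)))) := by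
      refine Fx_mono fun E x _ h => ?_
      obtain ⟨h1, h2, h3⟩ := h
      by_cases h4 : p.C * n ≤ E.card
      · exact Or.inl (Or.inr ⟨h1, h2, h3, h4⟩)
      by_cases h5 : Typ p (insert x E)
      · by_cases h6 : B < tri E
        · exact Or.inr (Or.inr ⟨h1, h2, h3, by omega, h6⟩)
        · exact Or.inl (Or.inl ⟨h1, h2, h3, h5, by omega, by omega⟩)
      · exact Or.inr (Or.inl ⟨h1, h2, h3, by omega, h5⟩)
    have g2 := g1.trans (Fx_or _ _)
    have g3 := add_le_add (Fx_or (fun (E : Finset (Pr n)) x =>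
          Rent k M B p (KK (n := n) k M J θ) E x)
          (fun (E : Finset (Pr n)) x => (FF k M E ∧ ¬ KK (n := n) k M J θ E ∧
            KK (n := n) k M J θ (insert x E) ∧ p.C * n ≤ E.card)))
        (Fx_or (fun (E : Finset (Pr n)) x => (FF k M E ∧ ¬ KK (n := n) k M J θ E ∧
            KK (n := n) k M J θ (insert x E) ∧ (E.card < p.C * n ∧ ¬ Typ p (insert x E))))
          (fun (E : Finset (Pr n)) x => (FF k M E ∧ ¬ KK (n := n) k M J θ E ∧
            KK (n := n) k M J θ (insert x E) ∧ (E.card < p.C * n ∧ B < tri E))))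
    have g4 := g2.trans g3
    have g5 : Fx (fun (E : Finset (Pr n)) x => Rent k M B p (KK (n := n) k M J θ) E x) =
      Fx (Rent k M B p (KK (n := n) k M J θ)) := rfl
    linarith
  -- planting
  have key : c * c₂ * Fx (Rent k M B p (KK (n := n) k M J θ)) ≤
      B' * Pb (fun ω : Ordr (Pr n) => ∃ t, ¬ Alive k (gr (pre ω t)) ∧
        ¬ Um k M (gr (pre ω t))) := by
    refine core_abs (Z := (Fin J × Fin 3 → Fin n) × (Fin J × Fin 3 × Fin (k - 2) → Fin n))
      (Rent k M B p (KK (n := n) k M J θ))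
      (fun z E e => SP J k z E e)
      (fun z => Gam z.1 z.2)
      (fun z E' e => PL k M B J p (KK (n := n) k M J θ) E' e z.1 z.2)
      _ B' (c * c₂) ?_ ?_ ?_ ?_ ?_
    · intro z E e he hR hS
      refine ⟨?_, E, he, hR, hS.1, hS.2, rfl⟩
      rw [mem_union]
      rintro (h | h)
      · exact he h
      · obtain ⟨a, ha⟩ := Gam_touch h
        have h1 := Gam_disj hS.1
        rw [disjoint_left] at h1
        exact h1 (mem_insert_self e E) h
    · intro z E E' e _ _ hS _ _ hS' h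
      have h1 := Gam_recover (hS.1.anti (subset_insert e E))
      have h2 := Gam_recover (hS'.1.anti (subset_insert e E'))
      rw [← h1, ← h2, h]
    · intro E e he hR
      obtain ⟨h1, h2, h3, h4, h5, h6⟩ := hR
      have h7 : n ≤ c₁ * (E.card + 1) :=
        (hn₁ n (by omega) (insert e E) h3.1.1 h3.2).trans
          (Nat.mul_le_mul_left _ (card_insert_le _ _))
      have h8 := hn₂ n (by omega) (insert e E) h3.2 h4.2.2
      have h9 := hn₃ n (by omega) E.card h5 h7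
      have hnp : (0 : ℝ) < (n : ℝ) ^ (J * (3 * (k - 1))) := by
        have : 0 < n := by omega
        positivity
      have h8' : c * (n : ℝ) ^ (J * (3 * (k - 1))) ≤ ((univ.filter
          (fun z : (Fin J × Fin 3 → Fin n) × (Fin J × Fin 3 × Fin (k - 2) → Fin n) =>
            SP J k z E e)).card : ℝ) := by
        refine h8.trans (le_of_eq (congrArg (fun s : Finset _ => ((s.card : ℕ) : ℝ)) ?_))
        ext z
        rw [mem_filter, mem_filter]
        exact Iff.rfl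
      have hw : ∀ z : (Fin J × Fin 3 → Fin n) × (Fin J × Fin 3 × Fin (k - 2) → Fin n),
          SP J k z E e →
          w (E ∪ Gam z.1 z.2) = wR (NN n) (E.card + J * (3 * (k - 1))) := by
        intro z hz
        have hV := hz.1.anti (subset_insert e E)
        rw [w_pr, card_union_of_disjoint (Gam_disj hV), Gam_card (by omega) hV]
      rw [← sum_filter]
      rw [sum_congr rfl fun z hz => hw z (mem_filter.1 hz).2, sum_const, nsmul_eq_mul]
      rw [w_pr]
      calc c * c₂ * wR (NN n) E.card =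
          (c * (n : ℝ) ^ (J * (3 * (k - 1)))) *
            (c₂ / (n : ℝ) ^ (J * (3 * (k - 1))) * wR (NN n) E.card) := by
            field_simp
        _ ≤ _ := mul_le_mul h8' h9 (mul_nonneg (by positivity) (wR_nonneg _ _))
            (by positivity)
    · intro ω
      exact hB' n _ hup ω
    · intro ω t z hPL
      obtain ⟨E, he, hR, hV, hq, hE⟩ := hPL
      obtain ⟨h1, h2⟩ := gam_dead hk hM hV hq hR.2.2.1.1
      refine ⟨(t : ℕ) + 1, ?_⟩
      have h3 : pre ω ((t : ℕ) + 1) = insert (ω t) E ∪ Gam z.1 z.2 := by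
        rw [pre_succ ω t.2, insert_union, ← hE]
      rw [h3]
      exact ⟨h1, h2⟩
  have hPb := Pb_nonneg (fun ω : Ordr (Pr n) => ∃ t, ¬ Alive k (gr (pre ω t)) ∧
        ¬ Um k M (gr (pre ω t)))
  rw [div_le_iff₀ (by positivity)]
  have h9 : c * c₂ * (η / 2) ≤ c * c₂ * Fx (Rent k M B p (KK (n := n) k M J θ)) :=
    mul_le_mul_of_nonneg_left f4 (by positivity)
  have h10 := h9.trans key
  linarith

end Pool.Agent.Work.MP_73831e_pr.J
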