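import Pool.Agent.Work.MP_73831e_pr.J.Bas
import Pool.Agent.Work.MP_73831e_pr.J.Core
import Pool.Agent.Work.MP_73831e_pr.J.P5
import Pool.Agent.Work.MP_73831e_pr.Edges
import Pool.Agent.Work.MP_73831e_pr.UCol

/-! Final assembly (proved by helper60 from the stubs). -/

open Finset
open scoped Classical Nat

namespace Pool.Agent.Work.MP_73831e_pr.J

theorem le_card_of_Pb {P : Type} [Fintype P] (A : Ordr P → Prop) {δ : ℝ} (h : δ ≤ Pb A) :
    δ * (Nat.card (Ordr P) : ℝ) ≤ (Nat.card {ω : Ordr P // A ω} : ℝ) := by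
  have h1 : Nat.card (Ordr P) = (Fintype.card P)! := by
    rw [Nat.card_eq_fintype_card, Fintype.card_equiv (Fintype.equivFin P).symm, Fintype.card_fin]
  have h2 : Nat.card {ω : Ordr P // A ω} = (univ.filter A).card := by
    rw [Nat.card_eq_fintype_card, Fintype.card_subtype]
  rw [h1, h2]
  unfold Pb at h
  rw [le_div_iff₀ (by positivity)] at h
  exact h

theorem main2 (k : ℕ) (hk : 3 ≤ k) : ∃ δ : ℝ, 0 < δ ∧ ∃ n₀ : ℕ, ∀ n ≥ n₀,
    δ * (Nat.card (Ordr (Pr n)) : ℝ) ≤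
      (Nat.card {ω : Ordr (Pr n) // ∃ τ, IsJump k ω τ ∧ ¬ HasUC k (gr (pre ω τ))} : ℝ) := by
  obtain ⟨p, hp⟩ := exists_par k
  obtain ⟨M, J, θ, η, hM, hθ, hη, n₀, hcore⟩ := core hk hp
  obtain ⟨δ, hδ, n₁, h5⟩ := P5 hk hp M J hM θ η hθ hη
  obtain ⟨n₂, hn₂⟩ := hp.typ (δ / 4) (by positivity)
  obtain ⟨n₃, hn₃⟩ := hp.al
  obtain ⟨n₄, hn₄⟩ : ∃ n₄ : ℕ, ((1 : ℝ) / 2) ^ n₄ < δ / 4 :=
    exists_pow_lt_of_lt_one (by positivity) (by norm_num)
  refine ⟨δ / 2, by positivity, n₀ + n₁ + n₂ + n₃ + n₄ + p.K₁ * (M + 1), fun n hn => ?_⟩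
  have hent := hcore n (by omega)
  have hA := h5 n (by omega) hent.le
  have hT := hn₂ n (by omega)
  have hAl := hn₃ n (by omega)
  have hpow : ((1 : ℝ) / 2) ^ n ≤ δ / 4 := by
    refine le_trans ?_ hn₄.le
    exact pow_le_pow_of_le_one (by norm_num) (by norm_num) (by omega)
  have hcover : Pb (fun ω : Ordr (Pr n) => ∃ t, ¬ Alive k (gr (pre ω t)) ∧
      ¬ Um k M (gr (pre ω t))) ≤
      Pb (fun ω : Ordr (Pr n) => ∃ τ, IsJump k ω τ ∧ ¬ HasUC k (gr (pre ω τ))) +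
      (Pb (fun ω : Ordr (Pr n) => ¬ Typ p (pre ω (p.C * n))) +
        Pb (fun ω : Ordr (Pr n) => Alive (k + 1) (gr (pre ω (p.C * n))))) := by
    refine (Pb_le_add (D := fun ω : Ordr (Pr n) => ¬ Typ p (pre ω (p.C * n)) ∨
      Alive (k + 1) (gr (pre ω (p.C * n)))) ?_).trans (by gcongr; exact Pb_or _ _)
    rintro ω ⟨t, hd, hu⟩
    by_cases hgood : Typ p (pre ω (p.C * n)) ∧ ¬ Alive (k + 1) (gr (pre ω (p.C * n)))
    swap
    · right; tauto
    left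
    obtain ⟨hty, hal⟩ := hgood
    have hex : ∃ t, ¬ Alive k (gr (pre ω t)) := ⟨t, hd⟩
    set τ := Nat.find hex with hτ
    have hτ1 : ¬ Alive k (gr (pre ω τ)) := Nat.find_spec hex
    have hτt : τ ≤ t := Nat.find_min' hex hd
    have hτC : τ ≤ p.C * n := Nat.find_min' hex (fun h => hal (alive_succ h))
    have hτ2 : ∀ s < τ, Alive k (gr (pre ω s)) := fun s hs => not_not.1 (Nat.find_min hex hs)
    refine ⟨τ, ⟨fun h => hτ1 (alive_iff_colorable.mpr h),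
      fun s hs => alive_iff_colorable.mp (hτ2 s hs)⟩, fun huc => ?_⟩
    have h1 : Sparse (n / p.K₁) (gr (pre ω τ)) := hty.1.anti (gr_mono (pre_mono ω hτC))
    have h2 := sparse_um hk h1 (hasUC_um hk huc)
    apply hu
    refine (h2.of_le (M' := M) ?_).mono (gr_mono (pre_mono ω hτt))
    have h3 : M + 1 ≤ n / p.K₁ := by
      rw [Nat.le_div_iff_mul_le (by have := hp.hK1; omega)]
      nlinarith
    omega
  have hfin : δ / 2 ≤ Pb (fun ω : Ordr (Pr n) => ∃ τ, IsJump k ω τ ∧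
      ¬ HasUC k (gr (pre ω τ))) := by
    linarith
  exact le_card_of_Pb _ hfin

end Pool.Agent.Work.MP_73831e_pr.J
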