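import Pool.Agent.Work.MP_73831e_pr.J.Bas
import Pool.Agent.Work.MP_73831e_pr.J.Lvl
import Pool.Agent.Work.MP_73831e_pr.J.Few
import Pool.Agent.Work.MP_73831e_pr.J.NumB

/-!
MODULE RhoB (M).  Bounds for `rho = ν(F)`.

`C = p.C`, `N = NN n`, `2N = n(n-1)`.
* `rho_lower`: for `4 K₁ m ≤ n` (so `m ≤ C n`), `Typ (pre ω (C n))` implies `Typ (pre ω m)`, hence
  (`few_edges`) `FF k M (pre ω m)`.  So `Pb (FF (pre m)) ≥ 1 - Pb (¬ Typ (pre (C n))) ≥ 1/2` for
  large `n` (`hp.typ (1/2)`), and by `nu_level` `∑_{|E| = m, FF E} ν(E) ≥ (1/2)/(N+1)`.  There are at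
  least `n/(4K₁)` such `m` (`0 ≤ m ≤ n/(4K₁)`), and `N + 1 ≤ n²`: `rho ≥ 1/(8 K₁ n)`.
* `rho_upper`: `rho ≤ ∑_{|E| < C n} ν(E) + ∑_{|E| ≥ C n, Alive (k+1)} ν(E) ≤ 3C/n + 2^(-n)`
  (`sum_nu_lt`, `sum_nu_ge`, `alive_succ`, `hp.al`) `≤ (3C+1)/n`.
-/

open Finset
open scoped Classical Nat

namespace Pool.Agent.Work.MP_73831e_pr.J

private theorem Pb_true {P : Type} [Fintype P] : Pb (fun _ : Ordr P => True) = 1 := by
  unfold Pb
  have h : (univ.filter (fun _ : Ordr P => True)) = univ :=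
    filter_true_of_mem (fun _ _ => trivial)
  have h2 : (univ.filter (fun _ : Ordr P => True)).card = (Fintype.card P)! := by
    rw [h, card_ordr]
  have h3 : ((univ.filter (fun _ : Ordr P => True)).card : ℝ) / ((Fintype.card P)! : ℝ) = 1 := by
    rw [h2]
    exact div_self (by positivity)
  convert h3

theorem rho_lower {k : ℕ} (hk : 3 ≤ k) {p : Par} (hp : POK k p) : ∃ c : ℝ, 0 < c ∧
    ∃ n₀ : ℕ, ∀ n ≥ n₀, ∀ M, 4 ≤ M → c / n ≤ rho k M n := by
  obtain ⟨n₀, hn₀⟩ := hp.typ (1 / 2) (by norm_num)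
  have hK0 : (0 : ℝ) < p.K₁ := by exact_mod_cast hp.hK1
  refine ⟨1 / (8 * p.K₁), by positivity, max 2 n₀, ?_⟩
  intro n hn M hM
  have hn2 : 2 ≤ n := (le_max_left _ _).trans hn
  have hT := hn₀ n ((le_max_right _ _).trans hn)
  have hN := two_NN n
  obtain ⟨d, hd⟩ : ∃ d, n = d + 2 := ⟨n - 2, by omega⟩
  have hN' : 2 * NN n = n * (d + 1) := by
    rw [hN]
    congr 1
    omega
  have hNle : NN n + 1 ≤ n * n := by
    rw [hd] at hN' ⊢
    nlinarith
  have hnN : n ≤ 2 * NN n := by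
    rw [hN']
    nlinarith
  -- levels
  have hlev : ∀ m ∈ range (n / (4 * p.K₁) + 1), (1 / 2 : ℝ) / ((NN n : ℝ) + 1) ≤
      ∑ E ∈ univ.filter (fun E : Finset (Pr n) => E.card = m ∧ FF k M E), nu E := by
    intro m hm
    rw [mem_range] at hm
    have hm1 : m * (4 * p.K₁) ≤ n := (Nat.le_div_iff_mul_le (by have := hp.hK1; omega)).mp
      (by omega)
    have hm2 : 4 * m ≤ n := by
      have := hp.hK1
      nlinarith
    have hm3 : m ≤ Fintype.card (Pr n) := by
      have : Fintype.card (Pr n) = NN n := rfl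
      rw [this]
      omega
    have hm4 : m ≤ p.C * n := by
      have := hp.hC
      nlinarith
    rw [nu_level (fun E => FF k M E) hm3]
    apply div_le_div_of_nonneg_right _ (by positivity)
    have h1 : Pb (fun _ : Ordr (Pr n) => True) ≤
        Pb (fun ω : Ordr (Pr n) => FF k M (pre ω m)) +
        Pb (fun ω : Ordr (Pr n) => ¬ Typ p (pre ω (p.C * n))) := by
      apply Pb_le_add
      intro ω _
      by_cases hty : Typ p (pre ω (p.C * n))
      · left
        have hty' : Typ p (pre ω m) := hty.anti (pre_mono ω hm4)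
        refine few_edges hk hM hp.hK1 hty'.1 ?_
        rw [pre_card ω hm3]
        linarith
      · exact Or.inr hty
    rw [Pb_true] at h1
    linarith
  have hsum : ∑ m ∈ range (n / (4 * p.K₁) + 1),
      ∑ E ∈ univ.filter (fun E : Finset (Pr n) => E.card = m ∧ FF k M E), nu E ≤ rho k M n := by
    unfold rho
    rw [← sum_biUnion]
    · apply sum_le_sum_of_subset_of_nonneg
      · intro E hE
        rw [mem_biUnion] at hE
        obtain ⟨m, _, hE⟩ := hE
        rw [mem_filter] at hE ⊢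
        exact ⟨mem_univ _, hE.2.2⟩
      · intro E _ _
        exact nu_nonneg E
    · intro a _ b _ hab
      rw [Function.onFun, disjoint_left]
      intro E hE hE'
      rw [mem_filter] at hE hE'
      exact hab (hE.2.1.symm.trans hE'.2.1)
  refine le_trans ?_ hsum
  refine le_trans ?_ (sum_le_sum hlev)
  rw [sum_const, card_range, nsmul_eq_mul]
  have hn0 : (0 : ℝ) < n := by
    have : 0 < n := by omega
    exact_mod_cast this
  have h1 : (n : ℝ) / (4 * p.K₁) ≤ ((n / (4 * p.K₁) + 1 : ℕ) : ℝ) := by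
    have h2 := (Nat.lt_floor_add_one ((n : ℝ) / ((4 * p.K₁ : ℕ) : ℝ))).le
    rw [Nat.floor_div_eq_div] at h2
    push_cast at h2 ⊢
    exact h2
  have h3 : (1 / 2 : ℝ) / ((n : ℝ) * n) ≤ (1 / 2 : ℝ) / ((NN n : ℝ) + 1) := by
    apply div_le_div_of_nonneg_left (by norm_num) (by positivity)
    exact_mod_cast hNle
  calc 1 / (8 * (p.K₁ : ℝ)) / n = (n : ℝ) / (4 * p.K₁) * ((1 / 2 : ℝ) / ((n : ℝ) * n)) := by
        field_simp
        norm_num
    _ ≤ _ := mul_le_mul h1 h3 (by positivity) (by positivity)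

theorem rho_upper {k : ℕ} {p : Par} (hp : POK k p) : ∃ C' : ℝ, 0 < C' ∧
    ∃ n₀ : ℕ, ∀ n ≥ n₀, ∀ M, rho k M n ≤ C' / n := by
  obtain ⟨n₁, h1⟩ := hp.al
  obtain ⟨n₂, h2⟩ := nu_w_le p.C
  obtain ⟨n₃, h3⟩ := sum_nu_lt p.C
  refine ⟨3 * p.C + 1, by positivity, max (max n₁ n₂) (max n₃ 1), ?_⟩
  intro n hn M
  have hn1 : n₁ ≤ n := ((le_max_left _ _).trans (le_max_left _ _)).trans hn
  have hn2 : n₂ ≤ n := ((le_max_right _ _).trans (le_max_left _ _)).trans hn
  have hn3 : n₃ ≤ n := ((le_max_left _ _).trans (le_max_right _ _)).trans hn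
  have hn4 : 1 ≤ n := ((le_max_right _ _).trans (le_max_right _ _)).trans hn
  have hn0 : (0 : ℝ) < n := by exact_mod_cast hn4
  have hCN : p.C * n ≤ Fintype.card (Pr n) := (h2 n hn2).1.le
  have hA := sum_nu_ge (P := Pr n) (fun E => Alive (k + 1) (gr E))
    (fun E E' h hE' => hE'.anti (gr_mono h)) hCN
  have hB := h3 n hn3
  have hC := h1 n hn1
  have hsum : rho k M n ≤
      ∑ E ∈ univ.filter (fun E : Finset (Pr n) => E.card < p.C * n), nu E +
      ∑ E ∈ univ.filter (fun E : Finset (Pr n) => p.C * n ≤ E.card ∧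
        Alive (k + 1) (gr E)), nu E := by
    unfold rho
    rw [← sum_union]
    · apply sum_le_sum_of_subset_of_nonneg
      · intro E hE
        rw [mem_filter] at hE
        rw [mem_union, mem_filter, mem_filter]
        by_cases hc : E.card < p.C * n
        · exact Or.inl ⟨mem_univ _, hc⟩
        · exact Or.inr ⟨mem_univ _, not_lt.mp hc, alive_succ hE.2.1⟩
      · intro E _ _
        exact nu_nonneg E
    · rw [disjoint_left]
      intro E hE hE'
      rw [mem_filter] at hE hE'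
      exact absurd hE.2 (not_lt.mpr hE'.2.1)
  have hpow : ((1 : ℝ) / 2) ^ n ≤ 1 / n := by
    rw [div_pow, one_pow]
    apply one_div_le_one_div_of_le hn0
    exact_mod_cast (Nat.lt_two_pow_self (n := n)).le
  calc rho k M n ≤ 3 * p.C / n + 1 / n := by linarith
    _ = _ := by rw [← add_div]

end Pool.Agent.Work.MP_73831e_pr.J
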