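import Pool.Agent.Work.MP_73831e_pr.J.Bas
import Pool.Agent.Work.MP_73831e_pr.J.Emb
import Pool.Agent.Work.MP_73831e_pr.J.Proj

/-!
MODULE RhoS (M).  The change of `rho` from `n` to `n+1`.

`rho_step`: every `D ⊆ Pr (n+1)` is `G ∪ S`, `G = D \ Qx x`, `S = D ∩ Qx x`; so the sum is
`∑_{G : x ∉ G, FF G} ∑_{S ⊆ Qx x} nuR N' (|G| + |S|)` with `N' = NN (n+1) = NN n + n`
(`NN_succ`), `|Qx x| = n` (`card_Qx`), and by `sum_powerset_nu` the inner sum is
`nuR (N' - n) |G| = nuR (NN n) |G|` (`|G| ≤ NN n` since `G` is the image of a set of pairs of `[n]`).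
The sets `G` are the `E.map (emb x)`, `E ⊆ Pr n` (`exists_emb`, `emb_not_mem`, injective), with
`FF_emb` and `|E.map| = |E|`.
`rho_diff`: `{D : FF (D \ Qx x)}` is the disjoint union of `{D : ¬ FF D, FF (D \ Qx x)}` and
`{D : FF D}` (`FF.anti`); so the sum is `rho k M n - rho k M (n+1)`.
-/

open Finset
open scoped Classical Nat

namespace Pool.Agent.Work.MP_73831e_pr.J

private theorem rs_sdiff {n : ℕ} (x : Fin (n + 1)) (E : Finset (Pr n))
    {S : Finset (Pr (n + 1))} (hS : S ⊆ Qx x) : (E.map (emb x) ∪ S) \ Qx x = E.map (emb x) := by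
  ext e
  rw [mem_sdiff, mem_union, mem_Qx]
  constructor
  · rintro ⟨h1 | h1, h2⟩
    · exact h1
    · exact absurd (mem_Qx.1 (hS h1)) h2
  · intro h
    exact ⟨Or.inl h, emb_not_mem x E e h⟩

private theorem rs_inter {n : ℕ} (x : Fin (n + 1)) (E : Finset (Pr n))
    {S : Finset (Pr (n + 1))} (hS : S ⊆ Qx x) : (E.map (emb x) ∪ S) ∩ Qx x = S := by
  ext e
  rw [mem_inter, mem_union, mem_Qx]
  constructor
  · rintro ⟨h1 | h1, h2⟩
    · exact absurd h2 (emb_not_mem x E e h1)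
    · exact h1
  · intro h
    exact ⟨Or.inr h, mem_Qx.1 (hS h)⟩

private theorem rs_card {n : ℕ} (x : Fin (n + 1)) (E : Finset (Pr n))
    {S : Finset (Pr (n + 1))} (hS : S ⊆ Qx x) :
    (E.map (emb x) ∪ S).card = E.card + S.card := by
  rw [card_union_of_disjoint, card_map]
  rw [disjoint_left]
  intro e he heS
  exact emb_not_mem x E e he (mem_Qx.1 (hS heS))

theorem rho_step {n k M : ℕ} (hk : 2 ≤ k) (hM : k ≤ M) (x : Fin (n + 1)) :
    ∑ D ∈ univ.filter (fun D : Finset (Pr (n + 1)) => FF k M (D \ Qx x)), nu D = rho k M n := by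
  unfold rho
  have h1 : ∀ E : Finset (Pr n), nu E =
      ∑ S ∈ (Qx x).powerset, nuR (NN (n + 1)) (E.card + S.card) := by
    intro E
    have hc : E.card ≤ NN n := card_le_univ E
    rw [sum_powerset_nu (Qx x) (NN (n + 1)) E.card (by rw [card_Qx, NN_succ]; omega), card_Qx,
      NN_succ]
    unfold nu
    congr 1
    change NN n = _
    omega
  rw [sum_congr rfl (fun E _ => h1 E), ← sum_product']
  symm
  refine sum_nbij (fun z => z.1.map (emb x) ∪ z.2) ?_ ?_ ?_ ?_
  · intro z hz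
    rw [mem_product, mem_filter, mem_powerset] at hz
    rw [mem_filter]
    refine ⟨mem_univ _, ?_⟩
    rw [rs_sdiff x z.1 hz.2, FF_emb hk hM]
    exact hz.1.2
  · intro z hz z' hz' hzz
    rw [mem_coe, mem_product, mem_filter, mem_powerset] at hz hz'
    simp only at hzz
    apply Prod.ext
    · apply Finset.map_injective (emb x)
      rw [← rs_sdiff x z.1 hz.2, ← rs_sdiff x z'.1 hz'.2, hzz]
    · rw [← rs_inter x z.1 hz.2, ← rs_inter x z'.1 hz'.2, hzz]
  · intro D hD
    rw [mem_coe, mem_filter] at hD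
    obtain ⟨E, hE⟩ := exists_emb x (D := D \ Qx x) (fun e he hx =>
      (mem_sdiff.1 he).2 (mem_Qx.2 hx))
    refine ⟨(E, D ∩ Qx x), ?_, ?_⟩
    · rw [mem_coe, mem_product, mem_filter, mem_powerset]
      refine ⟨⟨mem_univ _, ?_⟩, inter_subset_right⟩
      rw [← FF_emb hk hM x, hE]
      exact hD.2
    · simp only
      rw [hE]
      exact sdiff_union_inter D (Qx x)
  · intro z hz
    rw [mem_product, mem_filter, mem_powerset] at hz
    unfold nu
    rw [rs_card x z.1 hz.2]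
    rfl

theorem rho_diff {n k M : ℕ} (hk : 2 ≤ k) (hM : k ≤ M) (x : Fin (n + 1)) :
    ∑ D ∈ univ.filter (fun D : Finset (Pr (n + 1)) => ¬ FF k M D ∧ FF k M (D \ Qx x)), nu D =
      rho k M n - rho k M (n + 1) := by
  rw [← rho_step hk hM x]
  have h1 := sum_filter_add_sum_filter_not
    (univ.filter (fun D : Finset (Pr (n + 1)) => FF k M (D \ Qx x))) (fun D => FF k M D)
    (fun D => nu D)
  rw [filter_filter, filter_filter] at h1
  have h2 : (univ.filter (fun D : Finset (Pr (n + 1)) => FF k M (D \ Qx x) ∧ FF k M D)) =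
      univ.filter (fun D : Finset (Pr (n + 1)) => FF k M D) := by
    ext D
    rw [mem_filter, mem_filter]
    exact ⟨fun h => ⟨h.1, h.2.2⟩, fun h => ⟨h.1, h.2.anti sdiff_subset, h.2⟩⟩
  have h3 : (univ.filter (fun D : Finset (Pr (n + 1)) => FF k M (D \ Qx x) ∧ ¬ FF k M D)) =
      univ.filter (fun D : Finset (Pr (n + 1)) => ¬ FF k M D ∧ FF k M (D \ Qx x)) := by
    ext D
    rw [mem_filter, mem_filter]
    exact ⟨fun h => ⟨h.1, h.2.2, h.2.1⟩, fun h => ⟨h.1, h.2.2, h.2.1⟩⟩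
  rw [h2, h3] at h1
  have h4 : rho k M (n + 1) = ∑ D ∈ univ.filter (fun D : Finset (Pr (n + 1)) => FF k M D), nu D :=
    rfl
  rw [h4]
  linarith

end Pool.Agent.Work.MP_73831e_pr.J
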