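import Pool.Agent.Work.MP_73831e_pr.J.Bas

/-!
MODULE Tel (S).  A sequence between `c/n` and `C'/n` decreases by at least `c/(3n²)` infinitely
often.

Suppose `ρ n - ρ (n+1) < (c/3)/n²` for all `n ≥ n₁` (`n₁ ≥ n₀, 1`).  Let
`g n = ρ n - 2(c/3)/n`.  Then `g (n+1) - g n > -(c/3)/n² + 2(c/3)/(n(n+1)) ≥ 0` for `n ≥ n₁`, so `g` is
monotone on `n ≥ n₁` and `g n ≤ g m` for `m ≥ n ≥ n₁`; `g m → 0` (`0 < c/m ≤ ρ m ≤ C'/m`), so
`g n ≤ 0`, i.e. `ρ n ≤ (2/3) c/n < c/n`, contradiction.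
-/

open Finset
open scoped Classical Nat

namespace Pool.Agent.Work.MP_73831e_pr.J

theorem tel (ρ : ℕ → ℝ) (c C' : ℝ) (hc : 0 < c) (n₀ : ℕ) (h1 : ∀ n ≥ n₀, c / n ≤ ρ n)
    (h2 : ∀ n ≥ n₀, ρ n ≤ C' / n) (n₁ : ℕ) :
    ∃ n ≥ n₁, 1 ≤ n ∧ c / (3 * (n : ℝ) ^ 2) ≤ ρ n - ρ (n + 1) := by
  by_contra hcon
  push Not at hcon
  set s : ℕ := n₀ + n₁ + 1 with hs
  -- g n = ρ n - 2 (c/3)/n is monotone from s on
  have hstep : ∀ n ≥ s, ρ n - 2 * (c / 3) / n ≤ ρ (n + 1) - 2 * (c / 3) / ((n + 1 : ℕ) : ℝ) := by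
    intro n hn
    have h3 := hcon n (by omega) (by omega)
    have hn1 : (1 : ℝ) ≤ n := by exact_mod_cast (show 1 ≤ n by omega)
    have h4 : c / (3 * (n : ℝ) ^ 2) ≤ 2 * (c / 3) / n - 2 * (c / 3) / ((n + 1 : ℕ) : ℝ) := by
      push_cast
      rw [div_sub_div _ _ (by positivity) (by positivity), div_le_div_iff₀ (by positivity)
        (by positivity)]
      have h5 : 0 ≤ c * n ^ 2 * ((n : ℝ) - 1) := by
        apply mul_nonneg (by positivity)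
        linarith
      nlinarith [h5]
    linarith
  have hmono : ∀ j : ℕ, ρ s - 2 * (c / 3) / s ≤ ρ (s + j) - 2 * (c / 3) / ((s + j : ℕ) : ℝ) := by
    intro j
    induction j with
    | zero => simp
    | succ j ih =>
      refine ih.trans ?_
      exact hstep (s + j) (by omega)
  have hs1 : (1 : ℝ) ≤ s := by exact_mod_cast (show 1 ≤ s by omega)
  have hlow : 0 < ρ s - 2 * (c / 3) / s := by
    have h3 := h1 s (by omega)
    have h4 : 2 * (c / 3) / (s : ℝ) < c / s := by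
      apply div_lt_div_of_pos_right _ (by linarith)
      linarith
    linarith
  -- ρ (s + j) ≤ C' / (s + j) → 0
  obtain ⟨j, hj⟩ := exists_nat_gt (C' / (ρ s - 2 * (c / 3) / s))
  have h3 := hmono j
  have h4 := h2 (s + j) (by omega)
  have h5 : (0 : ℝ) < ((s + j : ℕ) : ℝ) := by exact_mod_cast (show 0 < s + j by omega)
  have h6 : 0 ≤ 2 * (c / 3) / ((s + j : ℕ) : ℝ) := by positivity
  have h7 : C' / ((s + j : ℕ) : ℝ) < ρ s - 2 * (c / 3) / s := by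
    rw [div_lt_iff₀ h5]
    rw [div_lt_iff₀ hlow] at hj
    have h8 : (j : ℝ) ≤ ((s + j : ℕ) : ℝ) := by push_cast; linarith
    nlinarith [mul_le_mul_of_nonneg_left h8 hlow.le]
  linarith

end Pool.Agent.Work.MP_73831e_pr.J
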